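import Mathlib

section

/-!
# An elementary acyclicity lemma

A cochain complex `0 → C¹ → C² → ...` such that a list `rs` is weakly regular on every
`Cⁱ` and such that the cohomology in the first `rs.length` spots is killed by powers of the
elements of `rs` is exact in the first `rs.length` spots.
-/

namespace LicciCodimFour

open RingTheory.Sequence

universe u v

theorem acyclic {R : Type u} [CommRing R] (rs : List R) :
    ∀ (C : ℕ → Type v) [∀ i, AddCommGroup (C i)] [∀ i, Module R (C i)]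
      (d : ∀ i, C i →ₗ[R] C (i + 1)), (∀ i x, d (i + 1) (d i x) = 0) →
      Subsingleton (C 0) → (∀ i, IsWeaklyRegular (C i) rs) →
      (∀ r ∈ rs, ∀ i < rs.length, ∀ z, d (i + 1) z = 0 → ∃ n : ℕ, ∃ y, d i y = r ^ n • z) →
      ∀ i < rs.length, ∀ z, d (i + 1) z = 0 → ∃ y, d i y = z := by
  induction rs with
  | nil => intro C _ _ d _ _ _ _ i hi; simp at hi
  | cons r rs ih =>
    intro C _ _ d hdd h0 hreg hkill
    have hr : ∀ i, IsSMulRegular (C i) r := fun i => by
      have := hreg i
      rw [isWeaklyRegular_cons_iff] at this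
      exact this.1
    -- the quotient complex
    let d' : ∀ i, QuotSMulTop r (C i) →ₗ[R] QuotSMulTop r (C (i + 1)) :=
      fun i => QuotSMulTop.map r (d i)
    have hd' : ∀ i (x : C i), d' i (Submodule.Quotient.mk x) = Submodule.Quotient.mk (d i x) := by
      intro i x
      exact QuotSMulTop.map_apply_mk r (d i) x
    have hmk0 : ∀ i (x : C i), (Submodule.Quotient.mk x : QuotSMulTop r (C i)) = 0 ↔
        ∃ y, x = r • y := by
      intro i x
      rw [Submodule.Quotient.mk_eq_zero, Submodule.mem_smul_pointwise_iff_exists]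
      constructor
      · rintro ⟨y, _, hy⟩
        exact ⟨y, hy.symm⟩
      · rintro ⟨y, hy⟩
        exact ⟨y, trivial, hy.symm⟩
    have key : ∀ i < rs.length, ∀ z, d' (i + 1) z = 0 → ∃ y, d' i y = z := by
      apply ih (fun i => QuotSMulTop r (C i)) d'
      · intro i x
        obtain ⟨x, rfl⟩ := Submodule.Quotient.mk_surjective _ x
        rw [hd', hd', hdd]
        rfl
      · constructor
        intro a b
        obtain ⟨a, rfl⟩ := Submodule.Quotient.mk_surjective _ a
        obtain ⟨b, rfl⟩ := Submodule.Quotient.mk_surjective _ b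
        rw [Subsingleton.elim a b]
      · intro i
        have := hreg i
        rw [isWeaklyRegular_cons_iff] at this
        exact this.2
      · intro s hs i hi z hz
        obtain ⟨z, rfl⟩ := Submodule.Quotient.mk_surjective _ z
        rw [hd', hmk0] at hz
        obtain ⟨w, hw⟩ := hz
        have hdw : d (i + 2) w = 0 := by
          apply (hr (i + 3))
          show r • d (i + 2) w = r • 0
          rw [← map_smul, ← hw, hdd, smul_zero]
        obtain ⟨n, y, hy⟩ := hkill s (List.mem_cons_of_mem _ hs) (i + 1) (by simpa using hi) w hdw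
        obtain ⟨m, y', hy'⟩ := hkill s (List.mem_cons_of_mem _ hs) i
          (by simp; omega) (s ^ n • z - r • y) (by
            rw [map_sub, map_smul, map_smul, hw, hy, smul_smul, smul_smul, mul_comm, sub_self])
        refine ⟨m + n, Submodule.Quotient.mk y', ?_⟩
        rw [hd', hy', smul_sub, Submodule.Quotient.mk_sub, smul_smul, ← pow_add]
        rw [← Submodule.Quotient.mk_smul]
        have : (Submodule.Quotient.mk (s ^ m • r • y) : QuotSMulTop r (C (i + 1))) = 0 := by
          rw [hmk0]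
          exact ⟨s ^ m • y, by rw [smul_smul, smul_smul, mul_comm]⟩
        rw [this, sub_zero]
    intro i hi z hz
    obtain ⟨n, y, hy⟩ := hkill r List.mem_cons_self i hi z hz
    have step : ∀ n : ℕ, (∃ y, d i y = r ^ n • z) → ∃ y, d i y = z := by
      intro n
      induction n with
      | zero =>
        rintro ⟨y, hy⟩
        exact ⟨y, by rw [hy, pow_zero, one_smul]⟩
      | succ n ihn =>
        rintro ⟨y, hy⟩
        apply ihn
        have hy2 : d i y = r • (r ^ n • z) := by rw [hy, smul_smul, pow_succ, mul_comm]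
        cases i with
        | zero =>
          refine ⟨0, ?_⟩
          have : y = 0 := Subsingleton.elim _ _
          rw [this, map_zero] at hy2
          rw [map_zero]
          apply hr 1
          show r • (0 : C 1) = r • (r ^ n • z)
          rw [smul_zero, hy2]
        | succ j =>
          obtain ⟨y2, hy2'⟩ := key j (by simpa using hi) (Submodule.Quotient.mk y) (by
            rw [hd', hmk0]
            exact ⟨_, hy2⟩)
          obtain ⟨y2, rfl⟩ := Submodule.Quotient.mk_surjective _ y2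
          rw [hd', ← sub_eq_zero, ← Submodule.Quotient.mk_sub, hmk0] at hy2'
          obtain ⟨y3, hy3⟩ := hy2'
          refine ⟨- y3, ?_⟩
          apply hr (j + 2)
          show r • d (j + 1) (-y3) = r • (r ^ n • z)
          rw [← hy2, map_neg, smul_neg, ← map_smul, ← hy3, map_sub, hdd, zero_sub, neg_neg]
    exact step n ⟨y, hy⟩

end LicciCodimFour

end

section

/-!
# The Koszul complex of four elements, explicitly

`0 → R → R⁴ → R⁶ → R⁴ → R`, its exactness and the exactness of its dual (with coefficients in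
any module on which the sequence is weakly regular).
-/

namespace LicciCodimFour

open RingTheory.Sequence

universe u v

variable {R : Type u} [CommRing R]

theorem isWeaklyRegular_pi {rs : List R} (h : IsWeaklyRegular R rs) (n : ℕ) :
    IsWeaklyRegular (Fin n → R) rs := by
  have h1 := IsWeaklyRegular.isWeaklyRegular_lTensor (M₂ := (Fin n → R)) h
  exact (LinearEquiv.isWeaklyRegular_congr (TensorProduct.rid R (Fin n → R)) rs).1 h1

theorem isWeaklyRegular_pi_pi {rs : List R} (h : IsWeaklyRegular R rs) (m n : ℕ) :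
    IsWeaklyRegular (Fin m → Fin n → R) rs := by
  have h1 := IsWeaklyRegular.isWeaklyRegular_lTensor (M₂ := (Fin m → Fin n → R)) h
  exact (LinearEquiv.isWeaklyRegular_congr (TensorProduct.rid R (Fin m → Fin n → R)) rs).1 h1

/-- The list of the four elements. -/
def list4 (a : Fin 4 → R) : List R := [a 0, a 1, a 2, a 3]

/-- `K₁ → K₀`. -/
def k1 (a : Fin 4 → R) : (Fin 4 → R) →ₗ[R] (Fin 1 → R) :=
  Matrix.mulVecLin !![a 0, a 1, a 2, a 3]

/-- `K₂ → K₁`, basis `01, 02, 03, 12, 13, 23`; `e_{ij} ↦ a_i e_j - a_j e_i`. -/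
def k2 (a : Fin 4 → R) : (Fin 6 → R) →ₗ[R] (Fin 4 → R) :=
  Matrix.mulVecLin !![-a 1, -a 2, -a 3, 0, 0, 0;
    a 0, 0, 0, -a 2, -a 3, 0;
    0, a 0, 0, a 1, 0, -a 3;
    0, 0, a 0, 0, a 1, a 2]

/-- `K₃ → K₂`, basis `012, 013, 023, 123`; `e_{ijk} ↦ a_i e_{jk} - a_j e_{ik} + a_k e_{ij}`. -/
def k3 (a : Fin 4 → R) : (Fin 4 → R) →ₗ[R] (Fin 6 → R) :=
  Matrix.mulVecLin !![a 2, a 3, 0, 0;
    -a 1, 0, a 3, 0;
    0, -a 1, -a 2, 0;
    a 0, 0, 0, a 3;
    0, a 0, 0, -a 2;
    0, 0, a 0, a 1]

/-- `K₄ → K₃`; `e_{0123} ↦ a_0 e_{123} - a_1 e_{023} + a_2 e_{013} - a_3 e_{012}`. -/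
def k4 (a : Fin 4 → R) : (Fin 1 → R) →ₗ[R] (Fin 4 → R) :=
  Matrix.mulVecLin !![-a 3; a 2; -a 1; a 0]

theorem k1_apply (a x : Fin 4 → R) :
    k1 a x = ![a 0 * x 0 + a 1 * x 1 + a 2 * x 2 + a 3 * x 3] := by
  ext i
  fin_cases i
  simp [k1, Matrix.mulVec, dotProduct, Fin.sum_univ_succ]
  ring

theorem k2_apply (a : Fin 4 → R) (x : Fin 6 → R) :
    k2 a x = ![-a 1 * x 0 - a 2 * x 1 - a 3 * x 2, a 0 * x 0 - a 2 * x 3 - a 3 * x 4,
      a 0 * x 1 + a 1 * x 3 - a 3 * x 5, a 0 * x 2 + a 1 * x 4 + a 2 * x 5] := by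
  ext i
  fin_cases i <;> simp [k2, Matrix.mulVec, dotProduct, Fin.sum_univ_succ] <;> ring

theorem k3_apply (a : Fin 4 → R) (x : Fin 4 → R) :
    k3 a x = ![a 2 * x 0 + a 3 * x 1, -a 1 * x 0 + a 3 * x 2, -a 1 * x 1 - a 2 * x 2,
      a 0 * x 0 + a 3 * x 3, a 0 * x 1 - a 2 * x 3, a 0 * x 2 + a 1 * x 3] := by
  ext i
  fin_cases i <;> simp [k3, Matrix.mulVec, dotProduct, Fin.sum_univ_succ] <;> ring

theorem k4_apply (a : Fin 4 → R) (x : Fin 1 → R) :
    k4 a x = ![-a 3 * x 0, a 2 * x 0, -a 1 * x 0, a 0 * x 0] := by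
  ext i
  fin_cases i <;> simp [k4, Matrix.mulVec, dotProduct]

/-- Ranks of the (shifted) Koszul complex. -/
def kb : ℕ → ℕ
  | 1 => 1
  | 2 => 4
  | 3 => 6
  | 4 => 4
  | 5 => 1
  | _ => 0

/-- The Koszul complex as a cochain complex. -/
def kd (a : Fin 4 → R) : ∀ i, (Fin (kb i) → R) →ₗ[R] (Fin (kb (i + 1)) → R)
  | 0 => 0
  | 1 => k4 a
  | 2 => k3 a
  | 3 => k2 a
  | 4 => k1 a
  | _ + 5 => 0

theorem k3_k4 (a : Fin 4 → R) (x : Fin 1 → R) : k3 a (k4 a x) = 0 := by
  rw [k4_apply, k3_apply]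
  ext i
  fin_cases i <;> simp <;> ring

theorem k2_k3 (a : Fin 4 → R) (x : Fin 4 → R) : k2 a (k3 a x) = 0 := by
  rw [k3_apply, k2_apply]
  ext i
  fin_cases i <;> simp <;> ring

theorem k1_k2 (a : Fin 4 → R) (x : Fin 6 → R) : k1 a (k2 a x) = 0 := by
  rw [k2_apply, k1_apply]
  ext i
  fin_cases i
  simp
  ring

theorem kd_comp (a : Fin 4 → R) : ∀ i x, kd a (i + 1) (kd a i x) = 0
  | 0, x => map_zero (k4 a)
  | 1, x => k3_k4 a x
  | 2, x => k2_k3 a x
  | 3, x => k1_k2 a x
  | 4, x => rfl
  | _ + 5, x => rfl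

theorem kill4 (a : Fin 4 → R) (z : Fin 1 → R) (hz : k4 a z = 0) (k : Fin 4) :
    (0 : Fin 1 → R) = a k • z := by
  rw [k4_apply] at hz
  have h0 := congrFun hz 0
  have h1 := congrFun hz 1
  have h2 := congrFun hz 2
  have h3 := congrFun hz 3
  simp at h0 h1 h2 h3
  ext i
  fin_cases i
  fin_cases k <;> simp <;> first
    | linear_combination -h0 | linear_combination h0 | linear_combination -h1
    | linear_combination h1 | linear_combination -h2 | linear_combination h2
    | linear_combination -h3 | linear_combination h3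

theorem kill3 (a : Fin 4 → R) (z : Fin 4 → R) (hz : k3 a z = 0) (k : Fin 4) :
    ∃ y, k4 a y = a k • z := by
  rw [k3_apply] at hz
  have h0 := congrFun hz 0
  have h1 := congrFun hz 1
  have h2 := congrFun hz 2
  have h3 := congrFun hz 3
  have h4 := congrFun hz 4
  have h5 := congrFun hz 5
  simp at h0 h1 h2 h3 h4 h5
  refine ⟨(![![z 3], ![-z 2], ![z 1], ![-z 0]] : Fin 4 → Fin 1 → R) k, ?_⟩
  rw [k4_apply]
  ext i
  fin_cases k <;> fin_cases i <;> simp <;> first
    | ring1
    | linear_combination -h0 | linear_combination h0 | linear_combination -h1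
    | linear_combination h1 | linear_combination -h2 | linear_combination h2
    | linear_combination -h3 | linear_combination h3 | linear_combination -h4
    | linear_combination h4 | linear_combination -h5 | linear_combination h5

theorem kill2 (a : Fin 4 → R) (z : Fin 6 → R) (hz : k2 a z = 0) (k : Fin 4) :
    ∃ y, k3 a y = a k • z := by
  rw [k2_apply] at hz
  have h0 := congrFun hz 0
  have h1 := congrFun hz 1
  have h2 := congrFun hz 2
  have h3 := congrFun hz 3
  simp at h0 h1 h2 h3
  refine ⟨(![![z 3, z 4, z 5, 0], ![-z 1, -z 2, 0, z 5], ![z 0, 0, -z 2, -z 4],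
    ![0, z 0, z 1, z 3]] : Fin 4 → Fin 4 → R) k, ?_⟩
  rw [k3_apply]
  ext i
  fin_cases k <;> fin_cases i <;> simp <;> first
    | ring1
    | linear_combination -h0 | linear_combination h0 | linear_combination -h1
    | linear_combination h1 | linear_combination -h2 | linear_combination h2
    | linear_combination -h3 | linear_combination h3

theorem kill1 (a : Fin 4 → R) (z : Fin 4 → R) (hz : k1 a z = 0) (k : Fin 4) :
    ∃ y, k2 a y = a k • z := by
  rw [k1_apply] at hz
  have h0 := congrFun hz 0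
  simp at h0
  refine ⟨(![![z 1, z 2, z 3, 0, 0, 0], ![-z 0, 0, 0, z 2, z 3, 0], ![0, -z 0, 0, -z 1, 0, z 3],
    ![0, 0, -z 0, 0, -z 1, -z 2]] : Fin 4 → Fin 6 → R) k, ?_⟩
  rw [k2_apply]
  ext i
  fin_cases k <;> fin_cases i <;> simp <;> first
    | ring1
    | linear_combination -h0 | linear_combination h0

/-- Exactness of the Koszul complex of a weakly regular sequence of four elements. -/
theorem koszul_exact (a : Fin 4 → R) (ha : IsWeaklyRegular R (list4 a)) :
    Function.Injective (k4 a) ∧ Function.Exact (k4 a) (k3 a) ∧ Function.Exact (k3 a) (k2 a) ∧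
      Function.Exact (k2 a) (k1 a) := by
  have key := acyclic (list4 a) (fun i => Fin (kb i) → R) (kd a) (kd_comp a)
    (by show Subsingleton (Fin 0 → R); infer_instance)
    (fun i => isWeaklyRegular_pi ha _) (by
      intro r hr i hi z hz
      have hk : ∃ k, a k = r := by
        simp only [list4, List.mem_cons, List.not_mem_nil, or_false] at hr
        rcases hr with rfl | rfl | rfl | rfl
        exacts [⟨0, rfl⟩, ⟨1, rfl⟩, ⟨2, rfl⟩, ⟨3, rfl⟩]
      obtain ⟨k, rfl⟩ := hk
      refine ⟨1, ?_⟩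
      rw [pow_one]
      have hi' : i < 4 := hi
      interval_cases i
      · exact ⟨0, (map_zero (kd a 0)).trans (kill4 a z hz k)⟩
      · exact kill3 a z hz k
      · exact kill2 a z hz k
      · exact kill1 a z hz k)
  have e0 := key 0 (by simp [list4])
  have e1 := key 1 (by simp [list4])
  have e2 := key 2 (by simp [list4])
  have e3 := key 3 (by simp [list4])
  refine ⟨?_, ?_, ?_, ?_⟩
  · rw [injective_iff_map_eq_zero]
    intro z hz
    obtain ⟨y, hy⟩ := e0 z hz
    rw [← hy]
    rfl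
  · intro z
    exact ⟨fun hz => e1 z hz, by rintro ⟨y, rfl⟩; exact kd_comp a 1 y⟩
  · intro z
    exact ⟨fun hz => e2 z hz, by rintro ⟨y, rfl⟩; exact kd_comp a 2 y⟩
  · intro z
    exact ⟨fun hz => e3 z hz, by rintro ⟨y, rfl⟩; exact kd_comp a 3 y⟩

/-! ### The dual complex, with coefficients -/

section dual

variable {N : Type v} [AddCommGroup N] [Module R N]

/-- `Hom(K₀,N) → Hom(K₁,N)`. -/
def t1 (a : Fin 4 → R) : (Fin 1 → N) →ₗ[R] (Fin 4 → N) where
  toFun x := ![a 0 • x 0, a 1 • x 0, a 2 • x 0, a 3 • x 0]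
  map_add' x y := by ext i; fin_cases i <;> simp
  map_smul' c x := by ext i; fin_cases i <;> simp [smul_smul, mul_comm]

/-- `Hom(K₁,N) → Hom(K₂,N)`. -/
def t2 (a : Fin 4 → R) : (Fin 4 → N) →ₗ[R] (Fin 6 → N) where
  toFun x := ![a 0 • x 1 - a 1 • x 0, a 0 • x 2 - a 2 • x 0, a 0 • x 3 - a 3 • x 0,
    a 1 • x 2 - a 2 • x 1, a 1 • x 3 - a 3 • x 1, a 2 • x 3 - a 3 • x 2]
  map_add' x y := by ext i; fin_cases i <;> simp <;> abel
  map_smul' c x := by ext i; fin_cases i <;> simp [smul_smul, mul_comm, smul_sub]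

/-- `Hom(K₂,N) → Hom(K₃,N)`. -/
def t3 (a : Fin 4 → R) : (Fin 6 → N) →ₗ[R] (Fin 4 → N) where
  toFun x := ![a 0 • x 3 - a 1 • x 1 + a 2 • x 0, a 0 • x 4 - a 1 • x 2 + a 3 • x 0,
    a 0 • x 5 - a 2 • x 2 + a 3 • x 1, a 1 • x 5 - a 2 • x 4 + a 3 • x 3]
  map_add' x y := by ext i; fin_cases i <;> simp <;> abel
  map_smul' c x := by ext i; fin_cases i <;> simp [smul_smul, mul_comm, smul_sub]

/-- `Hom(K₃,N) → Hom(K₄,N)`. -/
def t4 (a : Fin 4 → R) : (Fin 4 → N) →ₗ[R] (Fin 1 → N) where
  toFun x := ![a 0 • x 3 - a 1 • x 2 + a 2 • x 1 - a 3 • x 0]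
  map_add' x y := by ext i; fin_cases i; simp; abel
  map_smul' c x := by ext i; fin_cases i; simp [smul_smul, mul_comm, smul_sub]

theorem t1_apply (a : Fin 4 → R) (x : Fin 1 → N) :
    t1 a x = ![a 0 • x 0, a 1 • x 0, a 2 • x 0, a 3 • x 0] := rfl

theorem t2_apply (a : Fin 4 → R) (x : Fin 4 → N) :
    t2 a x = ![a 0 • x 1 - a 1 • x 0, a 0 • x 2 - a 2 • x 0, a 0 • x 3 - a 3 • x 0,
      a 1 • x 2 - a 2 • x 1, a 1 • x 3 - a 3 • x 1, a 2 • x 3 - a 3 • x 2] := rfl

theorem t3_apply (a : Fin 4 → R) (x : Fin 6 → N) :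
    t3 a x = ![a 0 • x 3 - a 1 • x 1 + a 2 • x 0, a 0 • x 4 - a 1 • x 2 + a 3 • x 0,
      a 0 • x 5 - a 2 • x 2 + a 3 • x 1, a 1 • x 5 - a 2 • x 4 + a 3 • x 3] := rfl

theorem t4_apply (a : Fin 4 → R) (x : Fin 4 → N) :
    t4 a x = ![a 0 • x 3 - a 1 • x 2 + a 2 • x 1 - a 3 • x 0] := rfl

/-- The dual Koszul complex as a cochain complex. -/
def td (N : Type v) [AddCommGroup N] [Module R N] (a : Fin 4 → R) :
    ∀ i, (Fin (kb i) → N) →ₗ[R] (Fin (kb (i + 1)) → N)
  | 0 => 0
  | 1 => t1 a
  | 2 => t2 a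
  | 3 => t3 a
  | 4 => t4 a
  | _ + 5 => 0

theorem t2_t1 (a : Fin 4 → R) (x : Fin 1 → N) : t2 a (t1 a x) = 0 := by
  rw [t1_apply, t2_apply]
  ext i
  fin_cases i <;> simp <;> module

theorem t3_t2 (a : Fin 4 → R) (x : Fin 4 → N) : t3 a (t2 a x) = 0 := by
  rw [t2_apply, t3_apply]
  ext i
  fin_cases i <;> simp <;> module

theorem t4_t3 (a : Fin 4 → R) (x : Fin 6 → N) : t4 a (t3 a x) = 0 := by
  rw [t3_apply, t4_apply]
  ext i
  fin_cases i
  simp
  module

theorem td_comp (a : Fin 4 → R) : ∀ i x, td N a (i + 1) (td N a i x) = 0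
  | 0, x => map_zero (t1 a)
  | 1, x => t2_t1 a x
  | 2, x => t3_t2 a x
  | 3, x => t4_t3 a x
  | 4, x => rfl
  | _ + 5, x => rfl

theorem tkill1 (a : Fin 4 → R) (z : Fin 1 → N) (hz : t1 a z = 0) (k : Fin 4) :
    (0 : Fin 1 → N) = a k • z := by
  rw [t1_apply] at hz
  have h0 := congrFun hz 0
  have h1 := congrFun hz 1
  have h2 := congrFun hz 2
  have h3 := congrFun hz 3
  simp at h0 h1 h2 h3
  ext i
  fin_cases i
  fin_cases k <;> simp <;> first
    | exact h0.symm | exact h1.symm | exact h2.symm | exact h3.symm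

theorem tkill2 (a : Fin 4 → R) (z : Fin 4 → N) (hz : t2 a z = 0) (k : Fin 4) :
    ∃ y, t1 a y = a k • z := by
  rw [t2_apply] at hz
  have h0 := congrFun hz 0
  have h1 := congrFun hz 1
  have h2 := congrFun hz 2
  have h3 := congrFun hz 3
  have h4 := congrFun hz 4
  have h5 := congrFun hz 5
  simp at h0 h1 h2 h3 h4 h5
  refine ⟨![z k], ?_⟩
  rw [t1_apply]
  ext i
  fin_cases k <;> fin_cases i <;> simp <;> first
    | module
    | linear_combination (norm := module) -h0 | linear_combination (norm := module) h0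
    | linear_combination (norm := module) -h1 | linear_combination (norm := module) h1
    | linear_combination (norm := module) -h2 | linear_combination (norm := module) h2
    | linear_combination (norm := module) -h3 | linear_combination (norm := module) h3
    | linear_combination (norm := module) -h4 | linear_combination (norm := module) h4
    | linear_combination (norm := module) -h5 | linear_combination (norm := module) h5

theorem tkill3 (a : Fin 4 → R) (z : Fin 6 → N) (hz : t3 a z = 0) (k : Fin 4) :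
    ∃ y, t2 a y = a k • z := by
  rw [t3_apply] at hz
  have h0 := congrFun hz 0
  have h1 := congrFun hz 1
  have h2 := congrFun hz 2
  have h3 := congrFun hz 3
  simp at h0 h1 h2 h3
  refine ⟨(![![0, z 0, z 1, z 2], ![-z 0, 0, z 3, z 4], ![-z 1, -z 3, 0, z 5],
    ![-z 2, -z 4, -z 5, 0]] : Fin 4 → Fin 4 → N) k, ?_⟩
  rw [t2_apply]
  ext i
  fin_cases k <;> fin_cases i <;> simp <;> first
    | module
    | linear_combination (norm := module) -h0 | linear_combination (norm := module) h0
    | linear_combination (norm := module) -h1 | linear_combination (norm := module) h1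
    | linear_combination (norm := module) -h2 | linear_combination (norm := module) h2
    | linear_combination (norm := module) -h3 | linear_combination (norm := module) h3

theorem tkill4 (a : Fin 4 → R) (z : Fin 4 → N) (hz : t4 a z = 0) (k : Fin 4) :
    ∃ y, t3 a y = a k • z := by
  rw [t4_apply] at hz
  have h0 := congrFun hz 0
  simp at h0
  refine ⟨(![![0, 0, 0, z 0, z 1, z 2], ![0, -z 0, -z 1, 0, 0, z 3],
    ![z 0, 0, -z 2, 0, -z 3, 0], ![z 1, z 2, 0, z 3, 0, 0]] : Fin 4 → Fin 6 → N) k, ?_⟩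
  rw [t3_apply]
  ext i
  fin_cases k <;> fin_cases i <;> simp <;> first
    | module
    | linear_combination (norm := module) -h0 | linear_combination (norm := module) h0

/-- Exactness of the dual Koszul complex with coefficients in `N`. -/
theorem koszul_dual_exact (a : Fin 4 → R)
    (ha : ∀ m, IsWeaklyRegular (Fin m → N) (list4 a)) :
    Function.Injective (t1 (N := N) a) ∧ Function.Exact (t1 (N := N) a) (t2 a) ∧
      Function.Exact (t2 (N := N) a) (t3 a) ∧ Function.Exact (t3 (N := N) a) (t4 a) := by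
  have key := acyclic (list4 a) (fun i => Fin (kb i) → N) (td N a) (td_comp a)
    (by show Subsingleton (Fin 0 → N); infer_instance)
    (fun i => ha _) (by
      intro r hr i hi z hz
      have hk : ∃ k, a k = r := by
        simp only [list4, List.mem_cons, List.not_mem_nil, or_false] at hr
        rcases hr with rfl | rfl | rfl | rfl
        exacts [⟨0, rfl⟩, ⟨1, rfl⟩, ⟨2, rfl⟩, ⟨3, rfl⟩]
      obtain ⟨k, rfl⟩ := hk
      refine ⟨1, ?_⟩
      rw [pow_one]
      have hi' : i < 4 := hi
      interval_cases i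
      · exact ⟨0, (map_zero (td N a 0)).trans (tkill1 a z hz k)⟩
      · exact tkill2 a z hz k
      · exact tkill3 a z hz k
      · exact tkill4 a z hz k)
  have e0 := key 0 (by simp [list4])
  have e1 := key 1 (by simp [list4])
  have e2 := key 2 (by simp [list4])
  have e3 := key 3 (by simp [list4])
  refine ⟨?_, ?_, ?_, ?_⟩
  · rw [injective_iff_map_eq_zero]
    intro z hz
    obtain ⟨y, hy⟩ := e0 z hz
    rw [← hy]
    rfl
  · intro z
    exact ⟨fun hz => e1 z hz, by rintro ⟨y, rfl⟩; exact td_comp a 1 y⟩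
  · intro z
    exact ⟨fun hz => e2 z hz, by rintro ⟨y, rfl⟩; exact td_comp a 2 y⟩
  · intro z
    exact ⟨fun hz => e3 z hz, by rintro ⟨y, rfl⟩; exact td_comp a 3 y⟩

/-- Extension of maps: `Hom(K, N)` is exact. -/
theorem extend_k4 (a : Fin 4 → R) (ha : ∀ m, IsWeaklyRegular (Fin m → N) (list4 a))
    (f : (Fin 4 → R) →ₗ[R] N) (hf : ∀ x, f (k4 a x) = 0) :
    ∃ s : (Fin 6 → R) →ₗ[R] N, ∀ x, s (k3 a x) = f x := by
  have hex := (koszul_dual_exact a ha).2.2.2
  obtain ⟨y, hy⟩ := (hex (fun j => f (Pi.single j 1))).1 (by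
    have h := hf ![1]
    rw [k4_apply] at h
    have e : (![-a 3 * ![(1 : R)] 0, a 2 * ![(1 : R)] 0, -a 1 * ![(1 : R)] 0,
      a 0 * ![(1 : R)] 0] : Fin 4 → R) = (-a 3) • Pi.single 0 1 + a 2 • Pi.single 1 1 +
        (-a 1) • Pi.single 2 1 + a 0 • Pi.single 3 1 := by
      ext i; fin_cases i <;> simp
    rw [e] at h
    simp only [map_add, map_smul] at h
    rw [t4_apply]
    ext i
    fin_cases i
    simp
    rw [← h]
    module)
  refine ⟨Fintype.linearCombination R y, ?_⟩
  intro x
  rw [← LinearMap.comp_apply]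
  congr 1
  clear x
  apply LinearMap.pi_ext'
  intro j
  apply LinearMap.ext_ring
  have hyj := congrFun hy j
  rw [t3_apply] at hyj
  simp only [LinearMap.comp_apply, LinearMap.single_apply, k3_apply,
    Fintype.linearCombination_apply]
  rw [← hyj]
  fin_cases j <;> simp [Fin.sum_univ_succ] <;> module

theorem extend_k3 (a : Fin 4 → R) (ha : ∀ m, IsWeaklyRegular (Fin m → N) (list4 a))
    (f : (Fin 6 → R) →ₗ[R] N) (hf : ∀ x, f (k3 a x) = 0) :
    ∃ s : (Fin 4 → R) →ₗ[R] N, ∀ x, s (k2 a x) = f x := by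
  have hex := (koszul_dual_exact a ha).2.2.1
  obtain ⟨y, hy⟩ := (hex (fun j => f (Pi.single j 1))).1 (by
    have h : ∀ j : Fin 4, f (k3 a (Pi.single j 1)) = 0 := fun j => hf _
    have hlin : ∀ x : Fin 6 → R, f x = x 0 • f (Pi.single 0 1) + x 1 • f (Pi.single 1 1) +
        x 2 • f (Pi.single 2 1) + x 3 • f (Pi.single 3 1) + x 4 • f (Pi.single 4 1) +
        x 5 • f (Pi.single 5 1) := by
      intro x
      simp only [← map_smul, ← map_add]
      congr 1
      ext i
      fin_cases i <;> simp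
    rw [t3_apply]
    ext i
    have hi := h i
    rw [hlin, k3_apply] at hi
    fin_cases i <;> simp at hi ⊢ <;> rw [← hi] <;> module)
  refine ⟨Fintype.linearCombination R y, ?_⟩
  intro x
  rw [← LinearMap.comp_apply]
  congr 1
  clear x
  apply LinearMap.pi_ext'
  intro j
  apply LinearMap.ext_ring
  have hyj := congrFun hy j
  rw [t2_apply] at hyj
  simp only [LinearMap.comp_apply, LinearMap.single_apply, k2_apply,
    Fintype.linearCombination_apply]
  rw [← hyj]
  fin_cases j <;> simp [Fin.sum_univ_succ] <;> module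

theorem extend_k2 (a : Fin 4 → R) (ha : ∀ m, IsWeaklyRegular (Fin m → N) (list4 a))
    (f : (Fin 4 → R) →ₗ[R] N) (hf : ∀ x, f (k2 a x) = 0) :
    ∃ s : (Fin 1 → R) →ₗ[R] N, ∀ x, s (k1 a x) = f x := by
  have hex := (koszul_dual_exact a ha).2.1
  obtain ⟨y, hy⟩ := (hex (fun j => f (Pi.single j 1))).1 (by
    have h : ∀ j : Fin 6, f (k2 a (Pi.single j 1)) = 0 := fun j => hf _
    have hlin : ∀ x : Fin 4 → R, f x = x 0 • f (Pi.single 0 1) + x 1 • f (Pi.single 1 1) +
        x 2 • f (Pi.single 2 1) + x 3 • f (Pi.single 3 1) := by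
      intro x
      simp only [← map_smul, ← map_add]
      congr 1
      ext i
      fin_cases i <;> simp
    rw [t2_apply]
    ext i
    have hi := h i
    rw [hlin, k2_apply] at hi
    fin_cases i <;> simp at hi ⊢ <;> rw [← hi] <;> module)
  refine ⟨Fintype.linearCombination R y, ?_⟩
  intro x
  rw [← LinearMap.comp_apply]
  congr 1
  clear x
  apply LinearMap.pi_ext'
  intro j
  apply LinearMap.ext_ring
  have hyj := congrFun hy j
  rw [t1_apply] at hyj
  simp only [LinearMap.comp_apply, LinearMap.single_apply, k1_apply,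
    Fintype.linearCombination_apply]
  rw [← hyj]
  fin_cases j <;> simp

end dual

end LicciCodimFour

end
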