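import Mathlib

section

/-!
Elementary acyclicity lemma (no Ext): a complex `0 → C 0 → C 1 → …` of modules on which
`a₁, …, a_k` is weakly regular, and on which every `a_j` is homotopic to zero, is exact in
degrees `< k`.
-/

namespace Pool.Agent.Licci

open RingTheory.Sequence Pointwise

universe u v

variable {R : Type u} [CommRing R]

theorem acyclic_of_homotopy (rs : List R) : ∀ (C : ℕ → Type v) [∀ i, AddCommGroup (C i)]
    [∀ i, Module R (C i)] (d : ∀ i, C i →ₗ[R] C (i + 1))
    (_dd : ∀ i x, d (i + 1) (d i x) = 0) (_reg : ∀ i, IsWeaklyRegular (C i) rs)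
    (_hom : ∀ r ∈ rs, ∃ s : ∀ i, C (i + 1) →ₗ[R] C i, (∀ x, s 0 (d 0 x) = r • x) ∧
      ∀ i x, d i (s i x) + s (i + 1) (d (i + 1) x) = r • x),
    (0 < rs.length → Function.Injective (d 0)) ∧
      ∀ i, i + 1 < rs.length → ∀ x, d (i + 1) x = 0 → ∃ y, d i y = x := by
  induction rs with
  | nil => intro C _ _ d _ _ _; simp
  | cons a rs ih =>
    intro C _ _ d dd reg hom
    have areg : ∀ i, IsSMulRegular (C i) a := fun i =>
      ((isWeaklyRegular_cons_iff (C i) a rs).1 (reg i)).1
    have qreg : ∀ i, IsWeaklyRegular (QuotSMulTop a (C i)) rs := fun i =>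
      ((isWeaklyRegular_cons_iff (C i) a rs).1 (reg i)).2
    obtain ⟨s, s0, s1⟩ := hom a (by simp)
    have key := ih (fun i => QuotSMulTop a (C i)) (fun i => QuotSMulTop.map a (d i))
      (by
        intro i x
        obtain ⟨x, rfl⟩ := Submodule.Quotient.mk_surjective _ x
        rw [QuotSMulTop.map_apply_mk, QuotSMulTop.map_apply_mk, dd]; rfl)
      qreg
      (by
        intro r hr
        obtain ⟨t, t0, t1⟩ := hom r (List.mem_cons_of_mem _ hr)
        refine ⟨fun i => QuotSMulTop.map a (t i), ?_, ?_⟩
        · intro x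
          obtain ⟨x, rfl⟩ := Submodule.Quotient.mk_surjective _ x
          rw [QuotSMulTop.map_apply_mk, QuotSMulTop.map_apply_mk, t0]; rfl
        · intro i x
          obtain ⟨x, rfl⟩ := Submodule.Quotient.mk_surjective _ x
          rw [QuotSMulTop.map_apply_mk, QuotSMulTop.map_apply_mk, QuotSMulTop.map_apply_mk,
            QuotSMulTop.map_apply_mk, ← Submodule.Quotient.mk_add, t1]; rfl)
    obtain ⟨k0, k1⟩ := key
    have lift0 : ∀ i (z : C i), (Submodule.Quotient.mk z : QuotSMulTop a (C i)) = 0 →
        ∃ y, z = a • y := by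
      intro i z hz
      rw [Submodule.Quotient.mk_eq_zero] at hz
      obtain ⟨y, -, hy⟩ := (Submodule.mem_smul_pointwise_iff_exists _ _ _).1 hz
      exact ⟨y, hy.symm⟩
    refine ⟨fun _ => ?_, ?_⟩
    · rw [← LinearMap.ker_eq_bot, LinearMap.ker_eq_bot']
      intro x hx
      apply areg 0
      simp only [smul_zero]
      rw [← s0, hx, map_zero]
    · intro i hi x hx
      have h1 : a • x = d i (s i x) := by rw [← s1 i x, hx, map_zero, add_zero]
      have h2 : QuotSMulTop.map a (d i) (Submodule.Quotient.mk (s i x)) = 0 := by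
        rw [QuotSMulTop.map_apply_mk, ← h1, Submodule.Quotient.mk_eq_zero]
        exact (Submodule.mem_smul_pointwise_iff_exists _ _ _).2 ⟨x, trivial, rfl⟩
      cases i with
      | zero =>
        have h3 := k0 (by simpa using hi)
        have h4 : (Submodule.Quotient.mk (s 0 x) : QuotSMulTop a (C 0)) = 0 :=
          h3 (by rw [h2, map_zero])
        obtain ⟨y, hy⟩ := lift0 _ _ h4
        refine ⟨y, ?_⟩
        apply areg 1
        show a • d 0 y = a • x
        rw [h1, hy, map_smul]
      | succ i =>
        obtain ⟨w, hw⟩ := k1 i (by simpa using hi) (Submodule.Quotient.mk (s (i + 1) x)) h2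
        obtain ⟨w, rfl⟩ := Submodule.Quotient.mk_surjective _ w
        rw [QuotSMulTop.map_apply_mk] at hw
        have h4 : (Submodule.Quotient.mk (s (i + 1) x - d i w) : QuotSMulTop a (C (i + 1))) = 0 := by
          rw [Submodule.Quotient.mk_sub, hw, sub_self]
        obtain ⟨y, hy⟩ := lift0 _ _ h4
        refine ⟨y, ?_⟩
        apply areg (i + 2)
        show a • d (i + 1) y = a • x
        rw [h1, ← map_smul, ← hy, map_sub, dd, sub_zero]

end Pool.Agent.Licci

end

section

/-!
MP_a98e4e_ag (licci, codimension 4), module DL (helper43): the double link.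

`X` is the ideal of the first three elements of the regular sequence, `f, g : P → R` linear,
`α = X + (f a)`, `w = g a`, `f' = f + c g`, `α' = X + (f' a)`.
-/

set_option autoImplicit false

namespace Pool.Agent.Licci

variable {R : Type*} [CommRing R]

/-- `x` is a nonzerodivisor modulo the ideal `J`. -/
def RegMod (J : Ideal R) (x : R) : Prop := ∀ y, x * y ∈ J → y ∈ J

lemma mem_sup_span_singleton' {X : Ideal R} {u z : R} :
    z ∈ X ⊔ Ideal.span {u} ↔ ∃ h, z - u * h ∈ X := by
  constructor
  · intro hz
    obtain ⟨x, hx, y, hy, rfl⟩ := Submodule.mem_sup.mp hz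
    obtain ⟨h, rfl⟩ := Ideal.mem_span_singleton'.mp hy
    refine ⟨h, ?_⟩
    have : x + h * u - u * h = x := by ring
    rwa [this]
  · rintro ⟨h, hh⟩
    have h1 : z = (z - u * h) + u * h := by ring
    rw [h1]
    exact Ideal.add_mem _ (Ideal.mem_sup_left hh)
      (Ideal.mem_sup_right (Ideal.mul_mem_right _ _ (Ideal.mem_span_singleton_self u)))

variable {P : Type*} [AddCommGroup P] [Module R P]

/-- The double link, first identity: `α : w = (f)` implies `α' : w = (f')`. -/
theorem double_link_colon {X : Ideal R} (f g : P →ₗ[R] R) (a : P) (c : R)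
    (hX' : ∀ x ∈ X, x ∈ LinearMap.range (f + c • g))
    (hrel : ∀ v, f v * g a - f a * g v ∈ X)
    (hreg : RegMod X (f a))
    (hI : ∀ y, y * g a ∈ X ⊔ Ideal.span {f a} → y ∈ LinearMap.range f)
    (y : R) :
    y * g a ∈ X ⊔ Ideal.span {f a + c * g a} ↔ y ∈ LinearMap.range (f + c • g) := by
  constructor
  · intro hy
    obtain ⟨h, hh⟩ := mem_sup_span_singleton'.mp hy
    -- `b = y - c h` satisfies `b w = f a * h` modulo `X`
    have h1 : (y - c * h) * g a - f a * h ∈ X := by
      have : (y - c * h) * g a - f a * h = y * g a - (f a + c * g a) * h := by ring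
      rwa [this]
    obtain ⟨v, hv⟩ := hI _ (mem_sup_span_singleton'.mpr ⟨h, h1⟩)
    have h2 : f a * (g v - h) ∈ X := by
      have e : f a * (g v - h) = ((y - c * h) * g a - f a * h) - (f v * g a - f a * g v) := by
        rw [hv]; ring
      rw [e]; exact X.sub_mem h1 (hrel v)
    have h3 : g v - h ∈ X := hreg _ h2
    have h4 : y - (f + c • g) v ∈ X := by
      have e : y - (f + c • g) v = -(c * (g v - h)) := by
        simp only [LinearMap.add_apply, LinearMap.smul_apply, smul_eq_mul]
        rw [hv]; ring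
      rw [e]; exact X.neg_mem (X.mul_mem_left _ h3)
    have h5 := (LinearMap.range (f + c • g)).add_mem (hX' _ h4) ⟨v, rfl⟩
    simpa using h5
  · rintro ⟨v, rfl⟩
    refine mem_sup_span_singleton'.mpr ⟨g v, ?_⟩
    have e : (f + c • g) v * g a - (f a + c * g a) * g v = f v * g a - f a * g v := by
      simp only [LinearMap.add_apply, LinearMap.smul_apply, smul_eq_mul]; ring
    rw [e]; exact hrel v

/-- The double link, second identity: `α : (f) = α + (w)` implies `α' : (f') = α' + (w)`. -/
theorem double_link_colon' {X : Ideal R} (f g : P →ₗ[R] R) (a : P) (c : R)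
    (hrel : ∀ v, f v * g a - f a * g v ∈ X)
    (hreg' : RegMod X (f a + c * g a))
    (hJ : ∀ y, (∀ v, y * f v ∈ X ⊔ Ideal.span {f a}) → y ∈ X ⊔ Ideal.span {f a, g a})
    (y : R) :
    (∀ v, y * (f + c • g) v ∈ X ⊔ Ideal.span {f a + c * g a}) ↔
      y ∈ X ⊔ Ideal.span {f a + c * g a, g a} := by
  have hspan : X ⊔ Ideal.span {f a + c * g a, g a} = X ⊔ Ideal.span {f a, g a} := by
    congr 1
    apply le_antisymm
    · rw [Ideal.span_le]
      rintro z (rfl | rfl)
      · exact Ideal.add_mem _ (Ideal.subset_span (by simp))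
          (Ideal.mul_mem_left _ _ (Ideal.subset_span (by simp)))
      · exact Ideal.subset_span (by simp)
    · rw [Ideal.span_le]
      rintro z (rfl | rfl)
      · have e : f a = (f a + c * g a) - c * g a := by ring
        have : f a ∈ Ideal.span ({f a + c * g a, g a} : Set R) := by
          rw [e]
          exact Ideal.sub_mem _ (Ideal.subset_span (by simp))
            (Ideal.mul_mem_left _ _ (Ideal.subset_span (by simp)))
        exact this
      · exact Ideal.subset_span (by simp)
  constructor
  · intro hy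
    rw [hspan]
    apply hJ
    intro v
    obtain ⟨h, hh⟩ := mem_sup_span_singleton'.mp (hy v)
    -- `y g v = w h` modulo `X`
    have h1 : (f a + c * g a) * (y * g v - g a * h) ∈ X := by
      have e : (f a + c * g a) * (y * g v - g a * h) =
          g a * (y * (f + c • g) v - (f a + c * g a) * h) - y * (f v * g a - f a * g v) := by
        simp only [LinearMap.add_apply, LinearMap.smul_apply, smul_eq_mul]; ring
      rw [e]; exact X.sub_mem (X.mul_mem_left _ hh) (X.mul_mem_left _ (hrel v))
    have h2 := hreg' _ h1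
    refine mem_sup_span_singleton'.mpr ⟨h, ?_⟩
    have e : y * f v - f a * h =
        (y * (f + c • g) v - (f a + c * g a) * h) - c * (y * g v - g a * h) := by
      simp only [LinearMap.add_apply, LinearMap.smul_apply, smul_eq_mul]; ring
    rw [e]; exact X.sub_mem hh (X.mul_mem_left _ h2)
  · intro hy v
    obtain ⟨x, hx, z, hz, rfl⟩ := Submodule.mem_sup.mp hy
    obtain ⟨p, q, rfl⟩ := Ideal.mem_span_pair.mp hz
    have h1 : g a * (f + c • g) v ∈ X ⊔ Ideal.span {f a + c * g a} := by
      refine mem_sup_span_singleton'.mpr ⟨g v, ?_⟩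
      have e : g a * (f + c • g) v - (f a + c * g a) * g v = f v * g a - f a * g v := by
        simp only [LinearMap.add_apply, LinearMap.smul_apply, smul_eq_mul]; ring
      rw [e]; exact hrel v
    have e : (x + (p * (f a + c * g a) + q * g a)) * (f + c • g) v =
        x * (f + c • g) v + (p * (f + c • g) v * (f a + c * g a) + q * (g a * (f + c • g) v)) := by
      ring
    rw [e]
    exact Ideal.add_mem _ (Ideal.mem_sup_left (X.mul_mem_right _ hx))
      (Ideal.add_mem _ (Ideal.mem_sup_right (Ideal.mul_mem_left _ _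
        (Ideal.mem_span_singleton_self _))) (Ideal.mul_mem_left _ _ h1))

end Pool.Agent.Licci

end

section

/-!
MP_a98e4e_ag (licci, codimension 4), module GP (helper43): general position over an infinite
residue field.
-/

set_option autoImplicit false

noncomputable section

namespace Pool.Agent.Licci

open IsLocalRing RingTheory.Sequence

section avoid

variable {R : Type*} [CommRing R] [IsLocalRing R]


/-- reduction of a vector modulo the maximal ideal -/
def red {ι : Type*} (a : ι → R) : ι → ResidueField R := fun j => residue R (a j)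

lemma red_add {ι : Type*} (a b : ι → R) : red (a + b) = red a + red b := by
  funext j; simp [red]

lemma red_smul {ι : Type*} (r : R) (a : ι → R) : red (r • a) = residue R r • red a := by
  funext j; simp [red]

lemma red_surjective {ι : Type*} (b : ι → ResidueField R) : ∃ a : ι → R, red a = b := by
  choose a ha using fun j => IsLocalRing.residue_surjective (b j)
  exact ⟨a, funext ha⟩

/-- image in `k^n` of a submodule of `R^n` -/
def redSub {ι : Type*} (N : Submodule R (ι → R)) : Submodule (ResidueField R) (ι → ResidueField R) where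
  carrier := {b | ∃ a ∈ N, red a = b}
  zero_mem' := ⟨0, N.zero_mem, by funext j; simp [red]⟩
  add_mem' := by
    rintro _ _ ⟨a, ha, rfl⟩ ⟨b, hb, rfl⟩
    exact ⟨a + b, N.add_mem ha hb, red_add a b⟩
  smul_mem' := by
    rintro c _ ⟨a, ha, rfl⟩
    obtain ⟨r, rfl⟩ := IsLocalRing.residue_surjective c
    exact ⟨r • a, N.smul_mem r ha, red_smul r a⟩

lemma red_mem_redSub {ι : Type*} {N : Submodule R (ι → R)} {a : ι → R} (ha : a ∈ N) :
    red a ∈ redSub N := ⟨a, ha, rfl⟩

/-- Nakayama: a submodule of `R^n` with image `k^n` is everything. -/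
lemma eq_top_of_redSub_eq_top {ι : Type*} [Finite ι] {N : Submodule R (ι → R)}
    (h : redSub N = ⊤) : N = ⊤ := by
  have h1 : (⊤ : Submodule R (ι → R)) ≤ N ⊔ (maximalIdeal R) • (⊤ : Submodule R (ι → R)) := by
    intro v _
    have hv : red v ∈ redSub N := by rw [h]; trivial
    obtain ⟨a, ha, hav⟩ := hv
    have h2 : v - a ∈ (maximalIdeal R) • (⊤ : Submodule R (ι → R)) := by
      have h3 : ∀ j, v j - a j ∈ maximalIdeal R := by
        intro j
        rw [← IsLocalRing.residue_eq_zero_iff, map_sub, sub_eq_zero]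
        exact (congrFun hav j).symm
      classical
      cases nonempty_fintype ι
      have h4 : v - a = ∑ j, (v j - a j) • (Pi.single j (1 : R) : ι → R) := by
        funext i
        simp [Finset.sum_apply, Pi.single_apply]
      rw [h4]
      exact Submodule.sum_mem _ fun j _ => Submodule.smul_mem_smul (h3 j) trivial
    have h5 : v = a + (v - a) := by abel
    rw [h5]
    exact Submodule.add_mem_sup ha h2
  have hfg : (⊤ : Submodule R (ι → R)).FG := Module.Finite.fg_top
  have := Submodule.le_of_le_smul_of_le_jacobson_bot hfg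
    (IsLocalRing.maximalIdeal_le_jacobson ⊥) h1
  exact top_le_iff.mp this

/-- a vector outside finitely many proper subspaces, lifted to `R` -/
lemma exists_avoid [Infinite (ResidueField R)] {ι : Type*} [Finite ι]
    (S : Finset (Submodule (ResidueField R) (ι → ResidueField R))) (hS : ∀ V ∈ S, V ≠ ⊤) :
    ∃ a : ι → R, ∀ V ∈ S, red a ∉ V := by
  have h1 : (⊤ : Submodule (ResidueField R) (ι → ResidueField R)) ∉ S := fun h => hS _ h rfl
  have h2 := Subspace.biUnion_ne_univ_of_top_notMem h1
  obtain ⟨b, hb⟩ := (Set.ne_univ_iff_exists_notMem _).mp h2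
  obtain ⟨a, rfl⟩ := red_surjective b
  refine ⟨a, fun V hV hmem => hb ?_⟩
  exact Set.mem_biUnion (by simpa using hV) hmem

end avoid

section GP1

variable {R : Type*} [CommRing R] [IsLocalRing R] [IsNoetherianRing R]

/-- (GP1) general combinations of the generators of an ideal containing an `M`-regular element
are `M`-regular. -/
theorem gp1 (M : Type*) [AddCommGroup M] [Module R M] [Module.Finite R M] {ι : Type*} [Fintype ι]
    (f : ι → R) (h : ∃ x ∈ Ideal.span (Set.range f), IsSMulRegular M x) :
    ∃ S : Finset (Submodule (ResidueField R) (ι → ResidueField R)), (∀ V ∈ S, V ≠ ⊤) ∧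
      ∀ a : ι → R, (∀ V ∈ S, red a ∉ V) → IsSMulRegular M (∑ j, a j * f j) := by
  classical
  have hfin : (associatedPrimes R M).Finite := associatedPrimes.finite R M
  let φ : (ι → R) →ₗ[R] R := Fintype.linearCombination R f
  have hφ : ∀ a, φ a = ∑ j, a j * f j := fun a => by
    simp [φ, Fintype.linearCombination_apply]
  let N : Ideal R → Submodule R (ι → R) := fun p => Submodule.comap φ p
  refine ⟨hfin.toFinset.image fun p => redSub (N p), ?_, ?_⟩
  · intro V hV htop
    obtain ⟨p, hp, rfl⟩ := Finset.mem_image.mp hV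
    have hp' : p ∈ associatedPrimes R M := by simpa using hp
    have h1 : N p = ⊤ := eq_top_of_redSub_eq_top htop
    have h2 : Ideal.span (Set.range f) ≤ p := by
      rw [Ideal.span_le]
      rintro _ ⟨j, rfl⟩
      have h3 : (Pi.single j (1 : R) : ι → R) ∈ N p := by rw [h1]; trivial
      have h4 : φ (Pi.single j (1 : R)) ∈ p := h3
      rw [hφ] at h4
      simpa [Pi.single_apply] using h4
    obtain ⟨x, hx, hreg⟩ := h
    have h5 : x ∈ ⋃ p ∈ associatedPrimes R M, (p : Set R) :=
      Set.mem_biUnion hp' (h2 hx)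
    rw [biUnion_associatedPrimes_eq_compl_regular] at h5
    exact h5 hreg
  · intro a ha
    by_contra hcon
    have h5 : (∑ j, a j * f j) ∈ ⋃ p ∈ associatedPrimes R M, (p : Set R) := by
      rw [biUnion_associatedPrimes_eq_compl_regular]; exact hcon
    obtain ⟨p, hp, hmem⟩ := Set.mem_iUnion₂.mp h5
    refine ha (redSub (N p)) (Finset.mem_image.mpr ⟨p, by simpa using hp, rfl⟩) ?_
    refine red_mem_redSub ?_
    change φ a ∈ p
    rw [hφ]; exact hmem

/-- (GP2) `x + c w` is `M`-regular for all `c` outside finitely many residue classes. -/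
theorem gp2 (M : Type*) [AddCommGroup M] [Module R M] [Module.Finite R M]
    (x w : R) (h : IsSMulRegular M x) :
    ∃ T : Finset (ResidueField R), ∀ c : R, residue R c ∉ T → IsSMulRegular M (x + c * w) := by
  classical
  have hfin : (associatedPrimes R M).Finite := associatedPrimes.finite R M
  let B : Ideal R → Set (ResidueField R) := fun p => {t | ∃ c : R, residue R c = t ∧ x + c * w ∈ p}
  have hB : ∀ p ∈ associatedPrimes R M, (B p).Subsingleton := by
    rintro p hp t ⟨c, rfl, hc⟩ t' ⟨c', rfl, hc'⟩
    by_contra hne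
    have h1 : IsUnit (c - c') := by
      rw [← IsLocalRing.notMem_maximalIdeal, ← IsLocalRing.residue_eq_zero_iff, map_sub, sub_eq_zero]
      exact hne
    have h2 : (c - c') * w ∈ p := by
      have e : (c - c') * w = (x + c * w) - (x + c' * w) := by ring
      rw [e]; exact p.sub_mem hc hc'
    have h3 : w ∈ p := by
      obtain ⟨u, hu⟩ := h1
      have : w = (↑u⁻¹ : R) * ((c - c') * w) := by
        rw [← mul_assoc, ← hu, Units.inv_mul, one_mul]
      rw [this]; exact p.mul_mem_left _ h2
    have h4 : x ∈ p := by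
      have e : x = (x + c * w) - c * w := by ring
      rw [e]; exact p.sub_mem hc (p.mul_mem_left _ h3)
    have h5 : x ∈ ⋃ p ∈ associatedPrimes R M, (p : Set R) := Set.mem_biUnion hp h4
    rw [biUnion_associatedPrimes_eq_compl_regular] at h5
    exact h5 h
  have hfin2 : (⋃ p ∈ associatedPrimes R M, B p).Finite :=
    hfin.biUnion fun p hp => (hB p hp).finite
  refine ⟨hfin2.toFinset, fun c hc => ?_⟩
  by_contra hcon
  have h5 : x + c * w ∈ ⋃ p ∈ associatedPrimes R M, (p : Set R) := by
    rw [biUnion_associatedPrimes_eq_compl_regular]; exact hcon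
  obtain ⟨p, hp, hmem⟩ := Set.mem_iUnion₂.mp h5
  apply hc
  simp only [Set.Finite.mem_toFinset]
  exact Set.mem_biUnion hp ⟨c, rfl, hmem⟩

end GP1

section GP3

universe u

variable {R : Type u} [CommRing R] [IsLocalRing R] [IsNoetherianRing R]

open CategoryTheory Abelian Limits Pointwise

omit [IsNoetherianRing R] in
lemma smul_top_lt_of_le_maximal {I : Ideal R} (hI : I ≤ maximalIdeal R) (M : Type u)
    [AddCommGroup M] [Module R M] [Module.Finite R M] [Nontrivial M] :
    I • (⊤ : Submodule R M) < ⊤ := by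
  refine lt_top_iff_ne_top.mpr fun h => ?_
  have h2 : (⊤ : Submodule R M) ≤ ⊥ := by
    refine Submodule.le_of_le_smul_of_le_jacobson_bot (I := I) Module.Finite.fg_top
      (hI.trans (IsLocalRing.maximalIdeal_le_jacobson ⊥)) ?_
    rw [h, bot_sup_eq]
  exact top_ne_bot (le_antisymm h2 bot_le)

lemma grade_step_aux {I : Ideal R} (hI : I ≤ maximalIdeal R) (M : ModuleCat.{u} R)
    [Module.Finite R M] {r : ℕ} {x : R}
    (h : ∃ rs : List R, rs.length = r + 1 ∧ (∀ y ∈ rs, y ∈ I) ∧ IsRegular M rs)
    (hx : x ∈ I) (hreg : IsSMulRegular M x) :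
    ∃ rs : List R, rs.length = r ∧ (∀ y ∈ rs, y ∈ I) ∧ IsRegular (QuotSMulTop x M) rs := by
  have hM : Nontrivial M := by
    obtain ⟨rs, _, _, hrs⟩ := h
    exact hrs.nontrivial
  have hQ : Nontrivial (QuotSMulTop x M) := nontrivial_quotSMulTop_of_mem_maximalIdeal M (hI hx)
  have h_ext : ∀ i < r + 1, Subsingleton
      (Ext (ModuleCat.of R (Shrink.{u} (R ⧸ I))) M i) :=
    ((ModuleCat.exists_isRegular_tfae I (r + 1) M
      (smul_top_lt_of_le_maximal hI M)).out 3 1).mp h
  refine ((ModuleCat.exists_isRegular_tfae I r (ModuleCat.of R (QuotSMulTop x M))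
    (smul_top_lt_of_le_maximal hI (QuotSMulTop x M))).out 1 3).mp ?_
  intro i hi
  have zero1 := AddCommGrpCat.isZero_of_iff_subsingleton.mpr (h_ext i (by omega))
  have zero2 := AddCommGrpCat.isZero_of_iff_subsingleton.mpr (h_ext (i + 1) (by omega))
  exact AddCommGrpCat.subsingleton_of_isZero <| ShortComplex.Exact.isZero_of_both_zeros
    ((Ext.covariant_sequence_exact₃' (ModuleCat.of R (Shrink.{u} (R ⧸ I)))
      hreg.smulShortComplex_shortExact) i (i + 1) rfl)
    (zero1.eq_zero_of_src _) (zero2.eq_zero_of_tgt _)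

/-- one step down: `x` regular in `I`, the grade of `I` on `M / x M` is one less. -/
theorem grade_step {I : Ideal R} (hI : I ≤ maximalIdeal R) (M : Type u)
    [AddCommGroup M] [Module R M] [Module.Finite R M] {r : ℕ} {x : R}
    (h : ∃ rs : List R, rs.length = r + 1 ∧ (∀ y ∈ rs, y ∈ I) ∧ IsRegular M rs)
    (hx : x ∈ I) (hreg : IsSMulRegular M x) :
    ∃ rs : List R, rs.length = r ∧ (∀ y ∈ rs, y ∈ I) ∧ IsRegular (QuotSMulTop x M) rs :=
  grade_step_aux hI (ModuleCat.of R M) h hx hreg

/-- `I` contains an element regular on `M / (α) M` if `α` is an `M`-regular list in `I`, shorter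
than the grade of `I` on `M`. -/
theorem exists_regular_quot {I : Ideal R} (hI : I ≤ maximalIdeal R) (α : List R) :
    ∀ (M : Type u) [AddCommGroup M] [Module R M] [Module.Finite R M] (r : ℕ),
    (∃ rs : List R, rs.length = r ∧ (∀ y ∈ rs, y ∈ I) ∧ IsRegular M rs) →
    α.length < r → (∀ y ∈ α, y ∈ I) → IsWeaklyRegular M α →
    ∃ y ∈ I, IsSMulRegular (M ⧸ (Ideal.ofList α • ⊤ : Submodule R M)) y := by
  induction α with
  | nil =>
    intro M _ _ _ r h hr _ _
    obtain ⟨rs, hlen, hmem, hrs⟩ := h
    cases rs with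
    | nil => simp at hlen; omega
    | cons y rs =>
      refine ⟨y, hmem y (by simp), ?_⟩
      have h1 := (isRegular_cons_iff M y rs).mp hrs
      have e : (Ideal.ofList ([] : List R) • ⊤ : Submodule R M) = ⊥ := by simp
      rw [e]
      exact (LinearEquiv.isSMulRegular_congr (Submodule.quotEquivOfEqBot ⊥ rfl) y).mpr h1.1
  | cons x α ih =>
    intro M _ _ _ r h hr hmem hreg
    obtain ⟨hx, hα⟩ := (isWeaklyRegular_cons_iff M x α).mp hreg
    obtain ⟨r', rfl⟩ : ∃ r', r = r' + 1 := ⟨r - 1, by simp at hr; omega⟩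
    have h1 := grade_step hI M h (hmem x (by simp)) hx
    obtain ⟨y, hy, hy2⟩ := ih (QuotSMulTop x M) r' h1 (by simpa using hr)
      (fun y hy => hmem y (by simp [hy])) hα
    refine ⟨y, hy, ?_⟩
    exact (LinearEquiv.isSMulRegular_congr
      (Submodule.quotOfListConsSMulTopEquivQuotSMulTopInner M x α) y).mpr hy2

end GP3

section ideals

universe u

variable {R : Type u} [CommRing R]

lemma isSMulRegular_quot_iff {J : Ideal R} {y : R} : IsSMulRegular (R ⧸ J) y ↔ RegMod J y := by
  rw [isSMulRegular_iff_right_eq_zero_of_smul]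
  constructor
  · intro h z hz
    have h1 := h (Ideal.Quotient.mk J z) (by
      rw [← Ideal.Quotient.mk_eq_mk, ← Submodule.Quotient.mk_smul, Submodule.Quotient.mk_eq_zero]
      exact hz)
    exact Ideal.Quotient.eq_zero_iff_mem.mp h1
  · intro h x
    obtain ⟨z, rfl⟩ := Ideal.Quotient.mk_surjective x
    intro hz
    rw [← Ideal.Quotient.mk_eq_mk, ← Submodule.Quotient.mk_smul, Submodule.Quotient.mk_eq_zero] at hz
    exact Ideal.Quotient.eq_zero_iff_mem.mpr (h z hz)

lemma isSMulRegular_quot_ofList_iff {α : List R} {y : R} :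
    IsSMulRegular (R ⧸ (Ideal.ofList α • ⊤ : Submodule R R)) y ↔ RegMod (Ideal.ofList α) y := by
  have e : (Ideal.ofList α • ⊤ : Submodule R R) = Ideal.ofList α := by
    rw [smul_eq_mul, Ideal.mul_top]
  rw [e]; exact isSMulRegular_quot_iff

lemma isWeaklyRegular_concat_iff {α : List R} {y : R} :
    IsWeaklyRegular R (α ++ [y]) ↔ IsWeaklyRegular R α ∧ RegMod (Ideal.ofList α) y := by
  rw [isWeaklyRegular_append_iff, isWeaklyRegular_singleton_iff, isSMulRegular_quot_ofList_iff]

variable [IsLocalRing R] [IsNoetherianRing R]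

/-- (GP3) the next element of a regular sequence: a general combination of generators. -/
theorem gp_row {ι : Type*} [Fintype ι] [Infinite (ResidueField R)] (f : ι → R)
    (hI : Ideal.span (Set.range f) ≤ maximalIdeal R) {r : ℕ}
    (hgr : ∃ rs : List R, rs.length = r ∧ (∀ y ∈ rs, y ∈ Ideal.span (Set.range f)) ∧
      IsRegular R rs)
    (α : List R) (hα : α.length < r) (hαI : ∀ y ∈ α, y ∈ Ideal.span (Set.range f))
    (hαreg : IsWeaklyRegular R α)
    (S₀ : Finset (Submodule (ResidueField R) (ι → ResidueField R))) (hS₀ : ∀ V ∈ S₀, V ≠ ⊤) :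
    ∃ a : ι → R, (∀ V ∈ S₀, red a ∉ V) ∧ IsWeaklyRegular R (α ++ [∑ j, a j * f j]) := by
  classical
  obtain ⟨y, hy, hy2⟩ := exists_regular_quot hI α R r hgr hα hαI hαreg
  obtain ⟨S, hS, hS2⟩ := gp1 (R ⧸ (Ideal.ofList α • ⊤ : Submodule R R)) f ⟨y, hy, hy2⟩
  obtain ⟨a, ha⟩ := exists_avoid (R := R) (S₀ ∪ S) (by
    intro V hV
    rcases Finset.mem_union.mp hV with h | h
    · exact hS₀ V h
    · exact hS V h)
  refine ⟨a, fun V hV => ha V (Finset.mem_union_left _ hV), ?_⟩
  rw [isWeaklyRegular_concat_iff]
  exact ⟨hαreg, isSMulRegular_quot_ofList_iff.mp (hS2 a fun V hV => ha V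
    (Finset.mem_union_right _ hV))⟩

/-- (GP2) for lists -/
theorem gp_scalar [Infinite (ResidueField R)] (α : List R) (x w : R)
    (h : IsWeaklyRegular R (α ++ [x])) (T₀ : Finset (ResidueField R)) :
    ∃ c : R, residue R c ∉ T₀ ∧ IsWeaklyRegular R (α ++ [x + c * w]) := by
  classical
  obtain ⟨h1, h2⟩ := isWeaklyRegular_concat_iff.mp h
  obtain ⟨T, hT⟩ := gp2 (R ⧸ (Ideal.ofList α • ⊤ : Submodule R R)) x w
    (isSMulRegular_quot_ofList_iff.mpr h2)
  obtain ⟨t, ht⟩ := Infinite.exists_notMem_finset (T₀ ∪ T)
  obtain ⟨c, rfl⟩ := IsLocalRing.residue_surjective t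
  simp only [Finset.mem_union, not_or] at ht
  exact ⟨c, ht.1, isWeaklyRegular_concat_iff.mpr
    ⟨h1, isSMulRegular_quot_ofList_iff.mp (hT c ht.2)⟩⟩

end ideals

end Pool.Agent.Licci
end

end

section

/-!
# Regular local rings: domains, quotients, regular systems of parameters
-/

namespace LicciCodimFour

open IsLocalRing RingTheory.Sequence
open scoped Pointwise

universe u

section quotient

variable {R : Type u} [CommRing R]

theorem nontrivial_quotient_span [IsLocalRing R] {x : R} (hx : x ∈ maximalIdeal R) :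
    Nontrivial (R ⧸ Ideal.span {x}) :=
  Ideal.Quotient.nontrivial_iff.2 (ne_of_lt
    (lt_of_le_of_lt ((Ideal.span_singleton_le_iff_mem _).2 hx)
      (lt_top_iff_ne_top.2 (Ideal.IsPrime.ne_top inferInstance))))

theorem isLocalRing_quotient_span [IsLocalRing R] {x : R} (hx : x ∈ maximalIdeal R) :
    IsLocalRing (R ⧸ Ideal.span {x}) :=
  haveI := nontrivial_quotient_span hx
  IsLocalRing.of_surjective' (Ideal.Quotient.mk _) Ideal.Quotient.mk_surjective

theorem map_mk_maximalIdeal [IsLocalRing R] {x : R} [IsLocalRing (R ⧸ Ideal.span {x})] :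
    (maximalIdeal R).map (Ideal.Quotient.mk (Ideal.span {x})) =
      maximalIdeal (R ⧸ Ideal.span {x}) :=
  map_maximalIdeal_of_surjective _ Ideal.Quotient.mk_surjective

theorem exists_ringKrullDim_eq (S : Type u) [CommRing S] [IsLocalRing S] [IsNoetherianRing S] :
    ∃ k : ℕ, ringKrullDim S = k := by
  have h1 := ringKrullDim_le_spanFinrank_maximalIdeal S
  have h2 : (0 : WithBot ℕ∞) ≤ ringKrullDim S := ringKrullDim_nonneg_of_nontrivial
  obtain ⟨a, ha⟩ := WithBot.ne_bot_iff_exists.1 (ne_bot_of_le_ne_bot (by decide) h2)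
  rw [← ha] at h1 ⊢
  have h3 : a ≤ ((maximalIdeal S).spanFinrank : ℕ∞) := WithBot.coe_le_coe.1 h1
  obtain ⟨k, hk⟩ := ENat.ne_top_iff_exists.1 (ne_top_of_le_ne_top (ENat.natCast_ne_top _) h3)
  exact ⟨k, by rw [← hk]; rfl⟩

theorem spanFinrank_quotient_le [IsLocalRing R] [IsNoetherianRing R] {x : R}
    (hx : x ∈ maximalIdeal R) (hx2 : x ∉ maximalIdeal R ^ 2) :
    ((maximalIdeal R).map (Ideal.Quotient.mk (Ideal.span {x}))).spanFinrank + 1 ≤
      (maximalIdeal R).spanFinrank := by
  classical
  obtain ⟨S, hScard, hS⟩ := Submodule.FG.exists_span_finset_card_eq_spanFinrank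
    (IsNoetherian.noetherian (maximalIdeal R))
  have hS' : Ideal.span (S : Set R) = maximalIdeal R := hS
  -- some coefficient of `x` is a unit
  obtain ⟨c, hc⟩ : ∃ c : R → R, ∑ s ∈ S, c s * s = x := by
    have h1 : x ∈ Ideal.span (S : Set R) := by rw [hS']; exact hx
    obtain ⟨c, hc⟩ := Submodule.mem_span_finset'.1 h1
    refine ⟨fun s => if h : s ∈ S then c ⟨s, h⟩ else 0, ?_⟩
    rw [← hc, ← Finset.sum_attach S]
    refine Finset.sum_congr rfl fun s _ => ?_
    simp
  obtain ⟨s0, hs0, hu⟩ : ∃ s0 ∈ S, IsUnit (c s0) := by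
    by_contra hcon
    push Not at hcon
    apply hx2
    rw [← hc]
    refine Ideal.sum_mem _ fun s hs => ?_
    rw [pow_two]
    refine Ideal.mul_mem_mul ((mem_maximalIdeal _).2 (hcon s hs)) ?_
    rw [← hS']
    exact Ideal.subset_span hs
  -- `m = (x, S \ s0)`
  have hm : maximalIdeal R ≤ Ideal.span ({x} ∪ (S.erase s0 : Set R)) := by
    rw [← hS', Ideal.span_le]
    intro s hs
    by_cases h : s = s0
    · subst h
      obtain ⟨v, hv⟩ := hu
      have h1 : s = (↑v⁻¹ : R) * (x - ∑ t ∈ S.erase s, c t * t) := by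
        rw [← hc, ← Finset.add_sum_erase S (fun t => c t * t) hs0, add_sub_cancel_right,
          ← mul_assoc, ← hv, Units.inv_mul, one_mul]
      have h5 : (↑v⁻¹ : R) * (x - ∑ t ∈ S.erase s, c t * t) ∈
          Ideal.span ({x} ∪ (S.erase s : Set R)) := by
        refine Ideal.mul_mem_left _ _ (Ideal.sub_mem _ (Ideal.subset_span (Or.inl rfl)) ?_)
        refine Ideal.sum_mem _ fun t ht => Ideal.mul_mem_left _ _ (Ideal.subset_span (Or.inr ?_))
        exact ht
      rw [← h1] at h5
      exact h5
    · exact Ideal.subset_span (Or.inr (by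
        have : s ∈ S.erase s0 := Finset.mem_erase.2 ⟨h, hs⟩
        exact this))
  have hmap : (maximalIdeal R).map (Ideal.Quotient.mk (Ideal.span {x})) ≤
      Ideal.span ((S.erase s0).image (Ideal.Quotient.mk (Ideal.span {x})) :
        Set (R ⧸ Ideal.span {x})) := by
    refine (Ideal.map_mono hm).trans ?_
    rw [Ideal.map_span, Ideal.span_le]
    rintro _ ⟨t, ht, rfl⟩
    rcases ht with ht | ht
    · rw [Set.mem_singleton_iff] at ht
      subst ht
      have : Ideal.Quotient.mk (Ideal.span {t}) t = 0 :=
        Ideal.Quotient.eq_zero_iff_mem.2 (Ideal.mem_span_singleton_self t)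
      rw [this]
      exact Ideal.zero_mem _
    · refine Ideal.subset_span ?_
      rw [Finset.coe_image]
      exact ⟨t, ht, rfl⟩
  have heq : (maximalIdeal R).map (Ideal.Quotient.mk (Ideal.span {x})) =
      Ideal.span ((S.erase s0).image (Ideal.Quotient.mk (Ideal.span {x})) :
        Set (R ⧸ Ideal.span {x})) := by
    apply le_antisymm hmap
    rw [Ideal.span_le, Finset.coe_image]
    rintro _ ⟨t, ht, rfl⟩
    apply Ideal.mem_map_of_mem
    rw [← hS']
    exact Ideal.subset_span (Finset.mem_of_mem_erase ht)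
  rw [heq]
  have h1 := Submodule.spanFinrank_span_le_ncard_of_finite (R := R ⧸ Ideal.span {x})
    (Finset.finite_toSet ((S.erase s0).image (Ideal.Quotient.mk (Ideal.span {x}))))
  rw [Set.ncard_coe_finset] at h1
  have h2 : ((S.erase s0).image (Ideal.Quotient.mk (Ideal.span {x}))).card ≤ (S.erase s0).card :=
    Finset.card_image_le
  rw [Finset.card_erase_of_mem hs0] at h2
  have h3 : 0 < S.card := Finset.card_pos.2 ⟨s0, hs0⟩
  have h4 : Submodule.spanFinrank (Ideal.span ((S.erase s0).image
      (Ideal.Quotient.mk (Ideal.span {x})) : Set (R ⧸ Ideal.span {x}))) ≤ S.card - 1 :=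
    h1.trans h2
  omega

/-- The quotient of a regular local ring by an element of `m \ m ^ 2` is regular of dimension one
less. -/
theorem isRegularLocalRing_quotient [IsRegularLocalRing R] {x : R}
    (hx : x ∈ maximalIdeal R) (hx2 : x ∉ maximalIdeal R ^ 2) :
    ∃ _ : IsRegularLocalRing (R ⧸ Ideal.span {x}),
      (maximalIdeal (R ⧸ Ideal.span {x})).spanFinrank + 1 = (maximalIdeal R).spanFinrank := by
  have := nontrivial_quotient_span hx
  have := isLocalRing_quotient_span hx
  have h1 := spanFinrank_quotient_le hx hx2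
  rw [map_mk_maximalIdeal] at h1
  have h2 : ringKrullDim R ≤ ringKrullDim (R ⧸ Ideal.span {x}) + 1 := by
    have := ringKrullDim_le_ringKrullDim_quotient_add_encard ({x} : Set R) (by
      simp only [Set.singleton_subset_iff]
      rw [IsLocalRing.ringJacobson_eq_maximalIdeal]
      exact hx)
    simpa using this
  rw [← IsRegularLocalRing.spanFinrank_maximalIdeal (R := R)] at h2
  obtain ⟨k, hk⟩ := exists_ringKrullDim_eq (R ⧸ Ideal.span {x})
  -- the dimension is a natural number
  have h4 : ((maximalIdeal (R ⧸ Ideal.span {x})).spanFinrank : WithBot ℕ∞) ≤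
      ringKrullDim (R ⧸ Ideal.span {x}) := by
    have h5 : (((maximalIdeal (R ⧸ Ideal.span {x})).spanFinrank + 1 : ℕ) : WithBot ℕ∞) ≤
        ringKrullDim (R ⧸ Ideal.span {x}) + 1 :=
      le_trans (by exact_mod_cast h1) h2
    rw [hk] at h5 ⊢
    have h6 : (maximalIdeal (R ⧸ Ideal.span {x})).spanFinrank + 1 ≤ k + 1 := by
      exact_mod_cast h5
    have h7 : (maximalIdeal (R ⧸ Ideal.span {x})).spanFinrank ≤ k := by omega
    exact_mod_cast h7
  have hreg : IsRegularLocalRing (R ⧸ Ideal.span {x}) :=
    IsRegularLocalRing.of_spanFinrank_maximalIdeal_le _ h4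
  refine ⟨hreg, ?_⟩
  have h5 := ringKrullDim_le_spanFinrank_maximalIdeal (R ⧸ Ideal.span {x})
  rw [hk] at h2 h5
  have h6 : (maximalIdeal R).spanFinrank ≤ k + 1 := by exact_mod_cast h2
  have h7 : k ≤ (maximalIdeal (R ⧸ Ideal.span {x})).spanFinrank := by exact_mod_cast h5
  omega

/-- Choice of a good element. -/
theorem exists_good_element [IsRegularLocalRing R] (h : 0 < (maximalIdeal R).spanFinrank) :
    ∃ x ∈ maximalIdeal R, x ∉ maximalIdeal R ^ 2 ∧ ∀ P ∈ minimalPrimes R, x ∉ P := by
  classical
  by_contra hcon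
  push Not at hcon
  have hfin : (minimalPrimes R).Finite := minimalPrimes.finite_of_isNoetherianRing R
  let s : Finset (Ideal R) := insert (maximalIdeal R ^ 2) hfin.toFinset
  have hsub : (maximalIdeal R : Set R) ⊆ ⋃ i ∈ (↑s : Set (Ideal R)), ((id i : Ideal R) : Set R) := by
    intro x hx
    simp only [Set.mem_iUnion]
    by_cases h2 : x ∈ maximalIdeal R ^ 2
    · exact ⟨maximalIdeal R ^ 2, by simp [s], h2⟩
    · obtain ⟨P, hP, hxP⟩ := hcon x hx h2
      exact ⟨P, by simp [s, hP], hxP⟩
  obtain ⟨i, hi, hle⟩ := (Ideal.subset_union_prime (f := id) (maximalIdeal R ^ 2)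
    (maximalIdeal R ^ 2) (fun i hi h1 _ => by
      rw [Finset.mem_insert] at hi
      rcases hi with hi | hi
      · exact absurd hi h1
      · have : i ∈ minimalPrimes R := by simpa using hi
        exact this.1.1)).1 hsub
  simp only [id] at hle
  rw [Finset.mem_insert] at hi
  rcases hi with hi | hi
  · -- `m ≤ m ^ 2`
    rw [hi] at hle
    have h1 : maximalIdeal R ≤ ⊥ := by
      refine Submodule.le_of_le_smul_of_le_jacobson_bot (I := maximalIdeal R)
        (IsNoetherian.noetherian (maximalIdeal R)) (IsLocalRing.maximalIdeal_le_jacobson ⊥) ?_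
      rw [bot_sup_eq, smul_eq_mul, ← pow_two]
      exact hle
    rw [le_bot_iff] at h1
    have h2 := (Submodule.spanFinrank_eq_zero_iff_eq_bot
      (IsNoetherian.noetherian (maximalIdeal R))).2 h1
    omega
  · -- `m` minimal prime
    have hi' : i ∈ minimalPrimes R := by simpa using hi
    have hiprime : i.IsPrime := hi'.1.1
    have heq : maximalIdeal R = i := le_antisymm hle (le_maximalIdeal hiprime.ne_top)
    have h1 : (maximalIdeal R).height = 0 := by
      rw [Ideal.height_eq_zero_iff, heq]
      exact hi'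
    have h2 := IsLocalRing.maximalIdeal_height_eq_ringKrullDim (R := R)
    rw [h1, ← IsRegularLocalRing.spanFinrank_maximalIdeal (R := R)] at h2
    have h3 : (0 : ℕ) = (maximalIdeal R).spanFinrank := by exact_mod_cast h2
    omega

end quotient

/-- A regular local ring is a domain and its maximal ideal is generated by a regular sequence of
length the dimension. -/
theorem regular_induction (n : ℕ) : ∀ (R : Type u) [CommRing R] [IsRegularLocalRing R],
    (maximalIdeal R).spanFinrank = n → IsDomain R ∧
      ∃ rs : List R, rs.length = n ∧ Ideal.ofList rs = maximalIdeal R ∧ IsRegular R rs := by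
  induction n with
  | zero =>
    intro R _ _ h
    have h1 : maximalIdeal R = ⊥ := (Submodule.spanFinrank_eq_zero_iff_eq_bot
      (IsNoetherian.noetherian (maximalIdeal R))).1 h
    have h2 : IsField R := IsLocalRing.isField_iff_maximalIdeal_eq.2 h1
    refine ⟨h2.isDomain, [], rfl, ?_, IsRegular.nil R R⟩
    rw [h1]
    exact Ideal.ofList_nil
  | succ n ih =>
    intro R _ _ h
    obtain ⟨x, hx, hx2, hxP⟩ := exists_good_element (R := R) (by omega)
    obtain ⟨hreg, hdim⟩ := isRegularLocalRing_quotient hx hx2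
    obtain ⟨hdom, rs', hlen, hgen, hrs'⟩ := ih (R ⧸ Ideal.span {x}) (by omega)
    have hprime : (Ideal.span {x}).IsPrime := (Ideal.Quotient.isDomain_iff_prime _).1 hdom
    -- `R` is a domain
    obtain ⟨P, hP, hPx⟩ := Ideal.exists_minimalPrimes_le (I := (⊥ : Ideal R))
      (J := Ideal.span {x}) bot_le
    have hPprime : P.IsPrime := hP.1.1
    have hxP' : x ∉ P := hxP P hP
    have hPbot : P = ⊥ := by
      rw [← le_bot_iff]
      refine Submodule.le_of_le_smul_of_le_jacobson_bot (I := maximalIdeal R)
        (IsNoetherian.noetherian P) (IsLocalRing.maximalIdeal_le_jacobson ⊥) ?_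
      rw [bot_sup_eq, smul_eq_mul]
      intro y hy
      obtain ⟨z, hz⟩ := Ideal.mem_span_singleton'.1 (hPx hy)
      rw [← hz] at hy ⊢
      rw [mul_comm z x]
      refine Ideal.mul_mem_mul hx ?_
      exact (hPprime.mem_or_mem hy).resolve_right hxP'
    have hdomR : IsDomain R := by
      rw [hPbot] at hPprime
      have hn : NoZeroDivisors R := ⟨fun {a b} hab => by
        have h3 := hPprime.mem_or_mem (x := a) (y := b) (by rw [hab]; exact Ideal.zero_mem _)
        exact h3⟩
      exact NoZeroDivisors.to_isDomain R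
    refine ⟨hdomR, ?_⟩
    -- the list
    obtain ⟨rs, hrs⟩ : ∃ rs : List R, rs.map (Ideal.Quotient.mk (Ideal.span {x})) = rs' :=
      ⟨rs'.map Quotient.out, by
        rw [List.map_map]
        conv_rhs => rw [← List.map_id rs']
        apply List.map_congr_left
        intro y _
        exact Quotient.out_eq y⟩
    have hx0 : x ≠ 0 := by
      rintro rfl
      exact hx2 (Ideal.zero_mem _)
    refine ⟨x :: rs, ?_, ?_, ?_⟩
    · rw [List.length_cons, ← hlen, ← hrs, List.length_map]
    · rw [Ideal.ofList_cons]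
      have h1 : (Ideal.ofList rs).map (Ideal.Quotient.mk (Ideal.span {x})) =
          (maximalIdeal R).map (Ideal.Quotient.mk (Ideal.span {x})) := by
        rw [Ideal.map_ofList, hrs, hgen, map_mk_maximalIdeal]
      have h2 := congrArg (Ideal.comap (Ideal.Quotient.mk (Ideal.span {x}))) h1
      rw [Ideal.comap_map_of_surjective _ Ideal.Quotient.mk_surjective,
        Ideal.comap_map_of_surjective _ Ideal.Quotient.mk_surjective,
        ← RingHom.ker_eq_comap_bot, Ideal.mk_ker] at h2
      rw [sup_comm, h2]
      exact sup_eq_left.2 ((Ideal.span_singleton_le_iff_mem _).2 hx)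
    · apply IsRegular.cons'
      · rw [isSMulRegular_iff_right_eq_zero_of_smul]
        intro y hy
        exact (mul_eq_zero.1 hy).resolve_left hx0
      · rw [hrs]
        have e : (R ⧸ Ideal.span {x}) ≃ₗ[R ⧸ Ideal.span {x}] QuotSMulTop x R := by
          have e0 : Ideal.span {x} = (x • ⊤ : Submodule R R) := by
            ext y
            rw [Ideal.mem_span_singleton', Submodule.mem_smul_pointwise_iff_exists]
            constructor
            · rintro ⟨a, ha⟩
              exact ⟨a, trivial, by rw [smul_eq_mul, mul_comm]; exact ha⟩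
            · rintro ⟨a, _, ha⟩
              exact ⟨a, by rw [smul_eq_mul, mul_comm] at ha; exact ha⟩
          let f := Submodule.quotEquivOfEq _ _ e0
          exact { f with
            map_smul' := by
              intro c y
              obtain ⟨c, rfl⟩ := Ideal.Quotient.mk_surjective c
              exact f.map_smul c y }
        exact (LinearEquiv.isRegular_congr e rs').1 hrs'

/-- A regular local ring is a domain. -/
theorem isDomain_of_isRegularLocalRing (R : Type u) [CommRing R] [IsRegularLocalRing R] :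
    IsDomain R :=
  (regular_induction _ R rfl).1

/-- The maximal ideal of a regular local ring is generated by a regular sequence. -/
theorem exists_regular_generators (R : Type u) [CommRing R] [IsRegularLocalRing R] :
    ∃ rs : List R, (rs.length : WithBot ℕ∞) = ringKrullDim R ∧
      Ideal.ofList rs = maximalIdeal R ∧ IsRegular R rs := by
  obtain ⟨_, rs, h1, h2, h3⟩ := regular_induction _ R rfl
  refine ⟨rs, ?_, h2, h3⟩
  rw [h1]
  exact IsRegularLocalRing.spanFinrank_maximalIdeal

end LicciCodimFour

end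

section

/-!
# Height and grade in a regular local ring
-/

namespace LicciCodimFour

open IsLocalRing RingTheory.Sequence
open scoped Pointwise

universe u v

/-- The length of a regular sequence on `M` is at most the coheight of every associated prime. -/
theorem length_le_coheight {R : Type u} [CommRing R] [IsLocalRing R] [IsNoetherianRing R]
    (rs : List R) : ∀ (M : Type v) [AddCommGroup M] [Module R M] [Module.Finite R M],
    (∀ r ∈ rs, r ∈ maximalIdeal R) → IsWeaklyRegular M rs →
    ∀ (P : Ideal R) (hP : IsAssociatedPrime P M),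
      (rs.length : ℕ∞) ≤ Order.coheight (⟨P, hP.isPrime⟩ : PrimeSpectrum R) := by
  induction rs with
  | nil =>
    intro M _ _ _ _ _ P hP
    simp
  | cons x rs ih =>
    intro M _ _ _ hm hreg P hP
    rw [isWeaklyRegular_cons_iff] at hreg
    obtain ⟨hPprime, m0, hm0⟩ := isAssociatedPrime_iff.1 hP
    have hx : x ∈ maximalIdeal R := hm x (by simp)
    have hm0ne : m0 ≠ 0 := by
      rintro rfl
      apply hPprime.ne_top
      rw [hm0, Ideal.eq_top_iff_one, Submodule.mem_colon_singleton]
      simp
    -- the submodule killed by `P`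
    let N : Submodule R M :=
      { carrier := {n | ∀ p ∈ P, p • n = 0}
        add_mem' := fun {a b} ha hb p hp => by rw [smul_add, ha p hp, hb p hp, add_zero]
        zero_mem' := fun p _ => smul_zero p
        smul_mem' := fun c n hn p hp => by rw [smul_comm, hn p hp, smul_zero] }
    obtain ⟨n, hnN, hnx⟩ : ∃ n ∈ N, (Submodule.Quotient.mk n : QuotSMulTop x M) ≠ 0 := by
      by_contra hcon
      push Not at hcon
      have h1 : N ≤ ⊥ := by
        refine Submodule.le_of_le_smul_of_le_jacobson_bot (I := Ideal.span {x})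
          (IsNoetherian.noetherian N) (((Ideal.span_singleton_le_iff_mem _).2 hx).trans
            (IsLocalRing.maximalIdeal_le_jacobson ⊥)) ?_
        rw [bot_sup_eq]
        intro n hn
        have h2 := hcon n hn
        rw [Submodule.Quotient.mk_eq_zero, Submodule.mem_smul_pointwise_iff_exists] at h2
        obtain ⟨y, _, rfl⟩ := h2
        refine Submodule.smul_mem_smul (Ideal.mem_span_singleton_self x) ?_
        intro p hp
        apply hreg.1
        show x • p • y = x • (0 : M)
        rw [smul_comm, smul_zero]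
        exact hn p hp
      apply hm0ne
      have h3 : m0 ∈ N := by
        intro p hp
        rw [hm0, Submodule.mem_colon_singleton] at hp
        simpa using hp
      simpa using h1 h3
    obtain ⟨Q, hQ, hQle⟩ := exists_le_isAssociatedPrime_of_isNoetherianRing R
      (Submodule.Quotient.mk n : QuotSMulTop x M) hnx
    have hPQ : P ≤ Q := by
      intro p hp
      apply hQle
      rw [Submodule.mem_colon_singleton, ← Submodule.Quotient.mk_smul, hnN p hp]
      simp
    have hxQ : x ∈ Q := by
      apply hQle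
      rw [Submodule.mem_colon_singleton, ← Submodule.Quotient.mk_smul, Submodule.mem_bot,
        Submodule.Quotient.mk_eq_zero, Submodule.mem_smul_pointwise_iff_exists]
      exact ⟨n, trivial, rfl⟩
    have hxP : x ∉ P := by
      intro h
      rw [hm0, Submodule.mem_colon_singleton, Submodule.mem_bot] at h
      apply hm0ne
      apply hreg.1
      show x • m0 = x • (0 : M)
      rw [h, smul_zero]
    have hlt : (⟨P, hP.isPrime⟩ : PrimeSpectrum R) < ⟨Q, hQ.isPrime⟩ := by
      rw [← PrimeSpectrum.asIdeal_lt_asIdeal]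
      exact lt_of_le_of_ne hPQ (fun h => hxP (by
        have h' : P = Q := h
        rw [h']; exact hxQ))
    have h1 := ih (QuotSMulTop x M) (fun r hr => hm r (by simp [hr])) hreg.2 Q hQ
    have h2 := Order.coheight_add_one_le hlt
    rw [List.length_cons]
    push_cast
    exact le_trans (by gcongr) h2

/-- A regular sequence in the maximal ideal of a Noetherian local ring extends up to any length
realised by another one. -/
theorem exists_extension {R : Type u} [CommRing R] [IsLocalRing R] [IsNoetherianRing R] (d : ℕ)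
    (hd : ∃ rs : List R, rs.length = d ∧ (∀ y ∈ rs, y ∈ maximalIdeal R) ∧ IsRegular R rs)
    (k : ℕ) : ∀ (α : List R), (∀ y ∈ α, y ∈ maximalIdeal R) → IsWeaklyRegular R α →
      α.length + k = d → ∃ β : List R, β.length = k ∧ (∀ y ∈ β, y ∈ maximalIdeal R) ∧
        IsWeaklyRegular R (α ++ β) := by
  induction k with
  | zero =>
    intro α _ hα _
    exact ⟨[], rfl, by simp, by simpa using hα⟩
  | succ k ih =>
    intro α hαm hα hlen
    obtain ⟨y, hy, hyreg⟩ := Pool.Agent.Licci.exists_regular_quot (le_refl (maximalIdeal R)) α R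
      d hd (by omega) hαm hα
    have h1 : IsWeaklyRegular R (α ++ [y]) := by
      rw [isWeaklyRegular_append_iff, isWeaklyRegular_singleton_iff]
      exact ⟨hα, hyreg⟩
    obtain ⟨β, hβ1, hβ2, hβ3⟩ := ih (α ++ [y]) (by
      intro z hz
      rw [List.mem_append, List.mem_singleton] at hz
      rcases hz with hz | rfl
      · exact hαm z hz
      · exact hy) h1 (by simp; omega)
    refine ⟨y :: β, by simp [hβ1], ?_, ?_⟩
    · intro z hz
      rw [List.mem_cons] at hz
      rcases hz with rfl | hz
      · exact hy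
      · exact hβ2 z hz
    · rwa [List.append_assoc] at hβ3

/-- In a regular local ring an ideal of height at least `c` contains a regular sequence of length
`c`. -/
theorem exists_regular_of_le_height {R : Type u} [CommRing R] [IsRegularLocalRing R]
    {I : Ideal R} (hI : I ≤ maximalIdeal R) {c : ℕ} (hc : (c : ℕ∞) ≤ I.height) :
    ∃ rs : List R, rs.length = c ∧ IsRegular R rs ∧ ∀ r ∈ rs, r ∈ I := by
  obtain ⟨gs, hglen, hgen, hgreg⟩ := exists_regular_generators R
  have hgm : ∀ y ∈ gs, y ∈ maximalIdeal R := fun y hy => by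
    rw [← hgen]; exact Ideal.subset_span hy
  have key : ∀ i ≤ c, ∃ α : List R, α.length = i ∧ (∀ r ∈ α, r ∈ I) ∧ IsWeaklyRegular R α := by
    intro i
    induction i with
    | zero => exact fun _ => ⟨[], rfl, by simp, IsWeaklyRegular.nil R R⟩
    | succ i ih =>
      intro hi
      obtain ⟨α, hαlen, hαI, hα⟩ := ih (by omega)
      have hαm : ∀ y ∈ α, y ∈ maximalIdeal R := fun y hy => hI (hαI y hy)
      -- the length of `α` is at most the dimension
      by_contra hcon
      have hzd : ∀ y ∈ I, ¬ IsSMulRegular (R ⧸ (Ideal.ofList α • ⊤ : Submodule R R)) y := by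
        intro y hy hyreg
        apply hcon
        refine ⟨α ++ [y], by simp [hαlen], ?_, ?_⟩
        · intro r hr
          rw [List.mem_append, List.mem_singleton] at hr
          rcases hr with hr | rfl
          · exact hαI r hr
          · exact hy
        · rw [isWeaklyRegular_append_iff, isWeaklyRegular_singleton_iff]
          exact ⟨hα, hyreg⟩
      have hfin : (associatedPrimes R (R ⧸ (Ideal.ofList α • ⊤ : Submodule R R))).Finite :=
        associatedPrimes.finite R _
      have hsub : (I : Set R) ⊆ ⋃ i ∈ (↑hfin.toFinset : Set (Ideal R)),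
          ((id i : Ideal R) : Set R) := by
        intro y hy
        have h4 : y ∈ ⋃ p ∈ associatedPrimes R (R ⧸ (Ideal.ofList α • ⊤ : Submodule R R)),
            (p : Set R) := by
          rw [biUnion_associatedPrimes_eq_compl_regular]
          exact hzd y hy
        obtain ⟨p, hp, hyp⟩ := Set.mem_iUnion₂.1 h4
        simp only [Set.mem_iUnion]
        exact ⟨p, Finset.mem_coe.2 (hfin.mem_toFinset.2 hp), hyp⟩
      obtain ⟨P, hP, hIP⟩ := (Ideal.subset_union_prime (f := id) ⊥ ⊥ (fun i hi _ _ => by
        have : i ∈ associatedPrimes R (R ⧸ (Ideal.ofList α • ⊤ : Submodule R R)) :=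
          hfin.mem_toFinset.1 hi
        exact this.isPrime)).1 hsub
      simp only [id] at hIP
      have hP' : IsAssociatedPrime P (R ⧸ (Ideal.ofList α • ⊤ : Submodule R R)) :=
        hfin.mem_toFinset.1 hP
      have hPprime := hP'.isPrime
      -- heights
      have hPheight : (c : ℕ∞) ≤ P.height := hc.trans (Ideal.height_mono hIP)
      have h5 : (Order.height (⟨P, hPprime⟩ : PrimeSpectrum R) +
          Order.coheight (⟨P, hPprime⟩ : PrimeSpectrum R) : WithBot ℕ∞) ≤ ringKrullDim R := by
        rw [ringKrullDim, Order.krullDim_eq_iSup_height_add_coheight_of_nonempty]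
        have := le_iSup (fun a : PrimeSpectrum R => Order.height a + Order.coheight a)
          ⟨P, hPprime⟩
        exact_mod_cast this
      rw [← PrimeSpectrum.height_eq_orderHeight] at h5
      rw [← hglen] at h5
      have h6 : P.height + Order.coheight (⟨P, hPprime⟩ : PrimeSpectrum R) ≤ (gs.length : ℕ∞) := by
        exact_mod_cast h5
      have h7 : (c : ℕ∞) ≤ (gs.length : ℕ∞) :=
        (hPheight.trans (le_self_add)).trans h6
      have h8 : c ≤ gs.length := by exact_mod_cast h7
      obtain ⟨β, hβlen, hβm, hβ⟩ := exists_extension gs.length ⟨gs, rfl, hgm, hgreg⟩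
        (gs.length - i) α hαm hα (by omega)
      rw [isWeaklyRegular_append_iff] at hβ
      have h9 := length_le_coheight β (R ⧸ (Ideal.ofList α • ⊤ : Submodule R R)) hβm hβ.2 P hP'
      have h10 : (c : ℕ∞) + (gs.length - i : ℕ) ≤ (gs.length : ℕ∞) := by
        refine le_trans ?_ h6
        rw [← hβlen]
        exact add_le_add hPheight h9
      have h11 : c + (gs.length - i) ≤ gs.length := by exact_mod_cast h10
      omega
  obtain ⟨α, h1, h2, h3⟩ := key c le_rfl
  exact ⟨α, h1, (IsLocalRing.isRegular_iff_isWeaklyRegular_of_subset_maximalIdeal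
    (fun r hr => hI (h2 r hr))).2 h3, h2⟩

end LicciCodimFour

end

section

namespace Pool.Agent.Licci

open RingTheory.Sequence Pointwise

universe u v

variable {R : Type u} [CommRing R]

/-- A weakly regular sequence on `M` is weakly regular on `ι → M`. -/
theorem isWeaklyRegular_pi {ι : Type*} [Finite ι] (rs : List R) :
    ∀ (M : Type v) [AddCommGroup M] [Module R M], IsWeaklyRegular M rs →
      IsWeaklyRegular (ι → M) rs := by
  classical
  cases nonempty_fintype ι
  induction rs with
  | nil => intro M _ _ _; simp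
  | cons a rs ih =>
    intro M _ _ h
    rw [isWeaklyRegular_cons_iff] at h ⊢
    obtain ⟨h1, h2⟩ := h
    refine ⟨fun x y hxy => funext fun i => h1 (congrFun hxy i), ?_⟩
    have e1 : (a • (⊤ : Submodule R (ι → M))) =
        Submodule.pi Set.univ (fun _ : ι => a • (⊤ : Submodule R M)) := by
      ext x
      rw [Submodule.mem_smul_pointwise_iff_exists, Submodule.mem_pi]
      constructor
      · rintro ⟨y, -, rfl⟩ i -
        exact (Submodule.mem_smul_pointwise_iff_exists _ _ _).2 ⟨y i, trivial, rfl⟩
      · intro h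
        choose y hy using fun i => (Submodule.mem_smul_pointwise_iff_exists _ _ _).1 (h i trivial)
        exact ⟨y, trivial, funext fun i => (hy i).2⟩
    have e2 : QuotSMulTop a (ι → M) ≃ₗ[R] (ι → QuotSMulTop a M) :=
      (Submodule.quotEquivOfEq _ _ e1).trans
        (Submodule.quotientPi (fun _ : ι => a • (⊤ : Submodule R M)))
    exact (LinearEquiv.isWeaklyRegular_congr e2 rs).2 (ih (QuotSMulTop a M) h2)

/-- A weakly regular sequence on `R` is weakly regular on `ι → R`. -/
theorem isWeaklyRegular_pi_ring {ι : Type*} [Finite ι] {rs : List R}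
    (h : IsWeaklyRegular R rs) : IsWeaklyRegular (ι → R) rs :=
  isWeaklyRegular_pi rs R h

/-- The zero module. -/
theorem isWeaklyRegular_of_subsingleton (rs : List R) (M : Type v) [AddCommGroup M] [Module R M]
    [Subsingleton M] : IsWeaklyRegular M rs := by
  refine ⟨fun i hi x y _ => ?_⟩
  obtain ⟨x, rfl⟩ := Submodule.Quotient.mk_surjective _ x
  obtain ⟨y, rfl⟩ := Submodule.Quotient.mk_surjective _ y
  rw [Subsingleton.elim x y]

/-- finite free modules -/
theorem isWeaklyRegular_free {M : Type v} [AddCommGroup M] [Module R M] [Module.Free R M]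
    [Module.Finite R M] {rs : List R} (h : IsWeaklyRegular R rs) : IsWeaklyRegular M rs := by
  have e := (Module.Free.chooseBasis R M).equivFun
  exact (LinearEquiv.isWeaklyRegular_congr e rs).2 (isWeaklyRegular_pi_ring h)

end Pool.Agent.Licci

end

section

/-!
Exterior multiplication by a linear form `g`, contraction, and the Koszul identities, for
alternating maps with values in a module.
-/

namespace Pool.Agent.Licci

open Fin

variable {R M M' N N' : Type*} [CommRing R] [AddCommGroup M] [Module R M] [AddCommGroup M']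
  [Module R M'] [AddCommGroup N] [Module R N] [AddCommGroup N'] [Module R N']

/-- exterior multiplication by the linear form `g` (on the left) -/
def wedge (g : M →ₗ[R] R) (n : ℕ) : (M [⋀^Fin n]→ₗ[R] N) →ₗ[R] (M [⋀^Fin (n + 1)]→ₗ[R] N) where
  toFun ω := AlternatingMap.alternatizeUncurryFin (g.smulRight ω)
  map_add' ω η := by
    rw [← AlternatingMap.alternatizeUncurryFin_add]
    congr 1
    ext x v
    simp
  map_smul' c ω := by
    rw [RingHom.id_apply, ← AlternatingMap.alternatizeUncurryFin_smul]
    congr 1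
    ext x v
    simp [smul_smul, mul_comm]

/-- contraction with the vector `u` -/
def contr (u : M) (n : ℕ) : (M [⋀^Fin (n + 1)]→ₗ[R] N) →ₗ[R] (M [⋀^Fin n]→ₗ[R] N) where
  toFun ω := ω.curryLeft u
  map_add' ω η := by simp
  map_smul' c ω := by simp

theorem wedge_apply (g : M →ₗ[R] R) (n : ℕ) (ω : M [⋀^Fin n]→ₗ[R] N) (v : Fin (n + 1) → M) :
    wedge g n ω v = ∑ i : Fin (n + 1), (-1 : ℤ) ^ (i : ℕ) • g (v i) • ω (i.removeNth v) := by
  simp [wedge, AlternatingMap.alternatizeUncurryFin_apply]

theorem contr_apply (u : M) (n : ℕ) (ω : M [⋀^Fin (n + 1)]→ₗ[R] N) (v : Fin n → M) :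
    contr u n ω v = ω (Fin.cons u v) := by
  simp only [contr, LinearMap.coe_mk, AddHom.coe_mk, AlternatingMap.curryLeft_apply_apply]
  rfl

theorem wedge_add_left (g h : M →ₗ[R] R) (n : ℕ) (ω : M [⋀^Fin n]→ₗ[R] N) :
    wedge (g + h) n ω = wedge g n ω + wedge h n ω := by
  ext v
  simp only [wedge_apply, AlternatingMap.add_apply, ← Finset.sum_add_distrib,
    LinearMap.add_apply, add_smul, smul_add]

theorem wedge_smul_left (c : R) (g : M →ₗ[R] R) (n : ℕ) (ω : M [⋀^Fin n]→ₗ[R] N) :
    wedge (c • g) n ω = c • wedge g n ω := by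
  ext v
  simp only [wedge_apply, AlternatingMap.smul_apply, Finset.smul_sum,
    LinearMap.smul_apply, smul_eq_mul, mul_smul]
  refine Finset.sum_congr rfl fun i _ => ?_
  rw [smul_comm ((-1 : ℤ) ^ (i : ℕ)) c]

theorem wedge_wedge_self (g : M →ₗ[R] R) (n : ℕ) (ω : M [⋀^Fin n]→ₗ[R] N) :
    wedge g (n + 1) (wedge g n ω) = 0 := by
  have h := AlternatingMap.alternatizeUncurryFin_alternatizeUncurryFinLM_comp_of_symmetric
    (R := R) (M := M) (N := N) (n := n)
    (f := g.smulRight (g.smulRight ω)) (by intro x y; simp [smul_smul, mul_comm])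
  rw [← h]
  simp only [wedge, LinearMap.coe_mk, AddHom.coe_mk]
  congr 1
  ext x v
  simp [AlternatingMap.alternatizeUncurryFin_apply, Finset.smul_sum, smul_comm (g x)]

theorem wedge_wedge_anti (g h : M →ₗ[R] R) (n : ℕ) (ω : M [⋀^Fin n]→ₗ[R] N) :
    wedge g (n + 1) (wedge h n ω) = - wedge h (n + 1) (wedge g n ω) := by
  have := wedge_wedge_self (g + h) n ω
  rw [wedge_add_left g h n, map_add, wedge_add_left, wedge_add_left, wedge_wedge_self,
    wedge_wedge_self, zero_add, add_zero] at this
  exact eq_neg_of_add_eq_zero_right this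

theorem contr_wedge (g : M →ₗ[R] R) (u : M) (n : ℕ) (ω : M [⋀^Fin (n + 1)]→ₗ[R] N) :
    contr u (n + 1) (wedge g (n + 1) ω) = g u • ω - wedge g n (contr u n ω) := by
  ext v
  rw [contr_apply, wedge_apply, Fin.sum_univ_succ, AlternatingMap.sub_apply,
    AlternatingMap.smul_apply, wedge_apply, sub_eq_add_neg, ← Finset.sum_neg_distrib]
  congr 1
  · simp [Fin.removeNth]
  · refine Finset.sum_congr rfl fun i _ => ?_
    rw [contr_apply]
    have h : (i.succ.removeNth (Fin.cons u v : Fin (n + 2) → M)) = Fin.cons u (i.removeNth v) := by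
      ext j
      refine Fin.cases ?_ (fun j => ?_) j
      · simp [Fin.removeNth]
      · simp [Fin.removeNth]
    rw [h, Fin.cons_succ, Fin.val_succ, pow_succ]
    simp

theorem contr_wedge_zero (g : M →ₗ[R] R) (u : M) (ω : M [⋀^Fin 0]→ₗ[R] N) :
    contr u 0 (wedge g 0 ω) = g u • ω := by
  ext v
  rw [contr_apply, wedge_apply]
  simp only [Fin.sum_univ_succ, Finset.univ_eq_empty, Finset.sum_empty, AlternatingMap.smul_apply]
  simp [Subsingleton.elim (removeNth 0 (Fin.cons u v : Fin 1 → M)) v]

theorem wedge_compLinearMap (g : M →ₗ[R] R) (π : M' →ₗ[R] M) (n : ℕ) (ω : M [⋀^Fin n]→ₗ[R] N) :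
    (wedge g n ω).compLinearMap π = wedge (g ∘ₗ π) n (ω.compLinearMap π) := by
  ext v
  simp only [AlternatingMap.compLinearMap_apply, wedge_apply]
  rfl

theorem wedge_compRight (g : M →ₗ[R] R) (q : N →ₗ[R] N') (n : ℕ) (ω : M [⋀^Fin n]→ₗ[R] N) :
    wedge g n (q.compAlternatingMap ω) = q.compAlternatingMap (wedge g n ω) := by
  ext v
  simp only [LinearMap.compAlternatingMap_apply, wedge_apply, map_sum, map_zsmul, map_smul]

theorem contr_compRight (u : M) (q : N →ₗ[R] N') (n : ℕ) (ω : M [⋀^Fin (n + 1)]→ₗ[R] N) :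
    contr u n (q.compAlternatingMap ω) = q.compAlternatingMap (contr u n ω) := by
  ext v
  simp only [LinearMap.compAlternatingMap_apply, contr_apply]

/-- the values of a coboundary lie in the ideal generated by the values of `g` -/
theorem wedge_apply_mem (g : M →ₗ[R] R) (n : ℕ) (ω : M [⋀^Fin n]→ₗ[R] N) (v : Fin (n + 1) → M) :
    wedge g n ω v ∈ (Ideal.span (Set.range fun i => g (v i)) • (⊤ : Submodule R N)) := by
  rw [wedge_apply]
  refine Submodule.sum_mem _ fun i _ => ?_
  refine (Submodule.smul_of_tower_mem _ _ ?_)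
  exact Submodule.smul_mem_smul (Ideal.subset_span ⟨i, rfl⟩) trivial

end Pool.Agent.Licci

end

section

/-!
Koszul cochain complex `Λ^p M^*` (alternating maps on a finite free module `M` with values in `N`)
of a linear form `g`: exact in degrees `< k` if the values of `g` contain an `N`-regular sequence of
length `k`, and in degree `k` the map `ω ↦ ω(u₁, …, u_k)` identifies the cohomology with
`{n ∈ N/(g(u)) N : (im g) n = 0}`.
-/

namespace Pool.Agent.Licci

open RingTheory.Sequence Pointwise

universe u v w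

variable {R : Type u} [CommRing R] {M : Type w} [AddCommGroup M] [Module R M]
  [Module.Free R M] [Module.Finite R M]

/-- alternating maps on a finite free module, as functions on a finite set -/
theorem exists_altEquiv (M : Type w) [AddCommGroup M] [Module R M]
    [Module.Free R M] [Module.Finite R M] (i : ℕ) (N : Type v) [AddCommGroup N] [Module R N] :
    ∃ m : ℕ, Nonempty ((M [⋀^Fin i]→ₗ[R] N) ≃ₗ[R] (Fin m → N)) := by
  let b := Module.Free.chooseBasis R (⋀[R]^i M)
  let e : Module.Free.ChooseBasisIndex R (⋀[R]^i M) ≃ Fin _ := Fintype.equivFin _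
  refine ⟨_, ⟨(exteriorPower.alternatingMapLinearEquiv (R := R) (M := M) (N := N) (n := i)).trans
    (((b.reindex e).constr R).symm)⟩⟩

theorem reg_alt (M : Type w) [AddCommGroup M] [Module R M]
    [Module.Free R M] [Module.Finite R M] {N : Type v} [AddCommGroup N] [Module R N] {rs : List R}
    (h : IsWeaklyRegular N rs) (i : ℕ) : IsWeaklyRegular (M [⋀^Fin i]→ₗ[R] N) rs := by
  obtain ⟨m, ⟨e⟩⟩ := exists_altEquiv (R := R) M i N
  exact (LinearEquiv.isWeaklyRegular_congr e rs).2 (isWeaklyRegular_pi rs N h)

theorem koszul_exact {N : Type v} [AddCommGroup N] [Module R N] (g : M →ₗ[R] R) (rs : List R)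
    (hreg : IsWeaklyRegular N rs) (hmem : ∀ r ∈ rs, ∃ x, g x = r) :
    (0 < rs.length → Function.Injective (wedge (N := N) g 0)) ∧
      ∀ i, i + 1 < rs.length → ∀ ω : M [⋀^Fin (i + 1)]→ₗ[R] N, wedge g (i + 1) ω = 0 →
        ∃ η, wedge g i η = ω := by
  refine acyclic_of_homotopy rs (fun i => M [⋀^Fin i]→ₗ[R] N) (fun i => wedge g i)
    (fun i x => wedge_wedge_self g i x) (fun i => reg_alt M hreg i) ?_
  intro r hr
  obtain ⟨x, rfl⟩ := hmem r hr
  refine ⟨fun i => contr x i, fun ω => contr_wedge_zero g x ω, fun i ω => ?_⟩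
  rw [contr_wedge, add_sub_cancel]

/-- coboundary -/
def IsCob {N : Type v} [AddCommGroup N] [Module R N] (g : M →ₗ[R] R) :
    ∀ k : ℕ, (M [⋀^Fin k]→ₗ[R] N) → Prop
  | 0, ω => ω = 0
  | k + 1, ω => ∃ η, wedge g k η = ω

theorem koszul_exact' {N : Type v} [AddCommGroup N] [Module R N] (g : M →ₗ[R] R) (rs : List R)
    (hreg : IsWeaklyRegular N rs) (hmem : ∀ r ∈ rs, ∃ x, g x = r) (i : ℕ) (hi : i < rs.length)
    (ω : M [⋀^Fin i]→ₗ[R] N) (hω : wedge g i ω = 0) : IsCob g i ω := by
  obtain ⟨h0, h1⟩ := koszul_exact g rs hreg hmem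
  cases i with
  | zero => exact h0 hi (by rw [hω, map_zero])
  | succ i => exact h1 i hi ω hω

omit [Module.Finite R M] in
theorem exists_lift_alt {N N' : Type v} [AddCommGroup N] [Module R N] [AddCommGroup N']
    [Module R N'] (q : N →ₗ[R] N') (hq : Function.Surjective q) (i : ℕ)
    (ω : M [⋀^Fin i]→ₗ[R] N') : ∃ η : M [⋀^Fin i]→ₗ[R] N, q.compAlternatingMap η = ω := by
  obtain ⟨h, hh⟩ := Module.projective_lifting_property q
    (exteriorPower.alternatingMapLinearEquiv ω) hq
  refine ⟨exteriorPower.alternatingMapLinearEquiv.symm h, ?_⟩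
  apply exteriorPower.alternatingMapLinearEquiv.injective
  rw [← hh]
  apply exteriorPower.linearMap_ext
  ext v
  simp

omit [Module.Finite R M] in
theorem exists_div_alt {N : Type v} [AddCommGroup N] [Module R N] (x : R) (i : ℕ)
    (ω : M [⋀^Fin i]→ₗ[R] N)
    (h : (x • (⊤ : Submodule R N)).mkQ.compAlternatingMap ω = 0) :
    ∃ η : M [⋀^Fin i]→ₗ[R] N, x • η = ω := by
  have hv : ∀ v, ω v ∈ LinearMap.range (LinearMap.lsmul R N x) := by
    intro v
    have h1 : (x • (⊤ : Submodule R N)).mkQ (ω v) = 0 := by
      have := congrArg (fun f => f v) h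
      simpa using this
    rw [Submodule.mkQ_apply, Submodule.Quotient.mk_eq_zero] at h1
    obtain ⟨y, -, hy⟩ := (Submodule.mem_smul_pointwise_iff_exists _ _ _).1 h1
    exact ⟨y, by simpa using hy⟩
  obtain ⟨η, hη⟩ := exists_lift_alt (LinearMap.lsmul R N x).rangeRestrict
    (LinearMap.surjective_rangeRestrict _) i (ω.codRestrict _ hv)
  refine ⟨η, ?_⟩
  ext v
  have := congrArg (fun f => ((f v : LinearMap.range (LinearMap.lsmul R N x)) : N)) hη
  simpa using this

theorem mem_smul_top_iff_quot {N : Type v} [AddCommGroup N] [Module R N] {k : ℕ}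
    (a : Fin (k + 1) → R) (n : N) :
    n ∈ (Ideal.span (Set.range a) • (⊤ : Submodule R N)) ↔
      (Submodule.Quotient.mk n : QuotSMulTop (a 0) N) ∈
        (Ideal.span (Set.range fun i : Fin k => a i.succ) • (⊤ : Submodule R (QuotSMulTop (a 0) N))) := by
  have h1 : (Ideal.span (Set.range a) • (⊤ : Submodule R N)) =
      (Ideal.span (Set.range fun i : Fin k => a i.succ) • (⊤ : Submodule R N)) ⊔
        (a 0 • (⊤ : Submodule R N)) := by
    have : Ideal.span (Set.range a) =
        Ideal.span (Set.range fun i : Fin k => a i.succ) ⊔ Ideal.span {a 0} := by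
      rw [← Ideal.span_union]
      congr 1
      ext r
      constructor
      · rintro ⟨i, rfl⟩
        refine Fin.cases ?_ (fun i => ?_) i
        · exact Or.inr rfl
        · exact Or.inl ⟨i, rfl⟩
      · rintro (⟨i, rfl⟩ | h)
        · exact ⟨i.succ, rfl⟩
        · rw [Set.mem_singleton_iff] at h; exact ⟨0, h.symm⟩
    rw [this, Submodule.sup_smul, Submodule.ideal_span_singleton_smul]
  have h2 : (Ideal.span (Set.range fun i : Fin k => a i.succ) • (⊤ : Submodule R N)).map
      (a 0 • (⊤ : Submodule R N)).mkQ =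
      (Ideal.span (Set.range fun i : Fin k => a i.succ) • (⊤ : Submodule R (QuotSMulTop (a 0) N))) := by
    rw [Submodule.map_smul'', Submodule.map_top, Submodule.range_mkQ]
  rw [h1, ← h2, ← Submodule.mkQ_apply, ← Submodule.mem_comap, Submodule.comap_map_eq,
    Submodule.ker_mkQ]

theorem wedge_eq_of_isCob {N : Type v} [AddCommGroup N] [Module R N] (g : M →ₗ[R] R) (x : R)
    (k : ℕ) (ω : M [⋀^Fin k]→ₗ[R] N)
    (h : IsCob g k ((x • (⊤ : Submodule R N)).mkQ.compAlternatingMap ω)) :
    ∃ τ : M [⋀^Fin k]→ₗ[R] N, wedge g k ω = x • wedge g k τ := by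
  cases k with
  | zero =>
    obtain ⟨τ, hτ⟩ := exists_div_alt x 0 ω h
    exact ⟨τ, by rw [← hτ, map_smul]⟩
  | succ k =>
    obtain ⟨η, hη⟩ := h
    obtain ⟨θ, rfl⟩ := exists_lift_alt (x • (⊤ : Submodule R N)).mkQ
      (Submodule.mkQ_surjective _) k η
    obtain ⟨τ, hτ⟩ := exists_div_alt x (k + 1) (ω - wedge g k θ) (by
      rw [wedge_compRight] at hη
      ext v
      have := congrArg (fun f => f v) hη
      simp only [LinearMap.compAlternatingMap_apply] at this
      simp only [LinearMap.compAlternatingMap_apply, AlternatingMap.sub_apply, map_sub,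
        AlternatingMap.zero_apply, ← this, sub_self])
    refine ⟨τ, ?_⟩
    rw [← map_smul, hτ, map_sub, wedge_wedge_self, sub_zero]

omit [Module.Free R M] [Module.Finite R M] in
theorem smul_cancel_alt {N : Type v} [AddCommGroup N] [Module R N] {x : R}
    (hx : IsSMulRegular N x) {k : ℕ} {ω η : M [⋀^Fin k]→ₗ[R] N} (h : x • ω = x • η) : ω = η := by
  ext v
  apply hx
  have := congrArg (fun f => f v) h
  simpa using this

/-- The top Koszul cohomology. -/
theorem koszul_top (g : M →ₗ[R] R) (k : ℕ) : ∀ (N : Type v) [AddCommGroup N] [Module R N]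
    (e : Fin k → M) (_hreg : IsWeaklyRegular N (List.ofFn fun i => g (e i))),
    (∀ n : N, (∀ v, g v • n ∈
        (Ideal.span (Set.range fun i => g (e i)) • (⊤ : Submodule R N))) →
      ∃ ω : M [⋀^Fin k]→ₗ[R] N, wedge g k ω = 0 ∧
        ω e - n ∈ (Ideal.span (Set.range fun i => g (e i)) • (⊤ : Submodule R N))) ∧
    (∀ ω : M [⋀^Fin k]→ₗ[R] N, wedge g k ω = 0 →
      ω e ∈ (Ideal.span (Set.range fun i => g (e i)) • (⊤ : Submodule R N)) → IsCob g k ω) := by
  induction k with
  | zero =>
    intro N _ _ e _
    have hbot : (Ideal.span (Set.range fun i : Fin 0 => g (e i)) • (⊤ : Submodule R N)) = ⊥ := by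
      rw [Set.range_eq_empty, Ideal.span_empty, Submodule.bot_smul]
    rw [hbot]
    constructor
    · intro n hn
      refine ⟨AlternatingMap.constOfIsEmpty R M (Fin 0) n, ?_, ?_⟩
      · ext v
        rw [wedge_apply]
        simp only [Fin.sum_univ_succ, Finset.univ_eq_empty, Finset.sum_empty]
        have := (Submodule.mem_bot R).1 (hn (v 0))
        simpa using this
      · simp
    · intro ω _ h
      ext v
      rw [Subsingleton.elim v e]
      simpa using h
  | succ k ih =>
    intro N _ _ e hreg
    rw [List.ofFn_succ, isWeaklyRegular_cons_iff] at hreg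
    obtain ⟨hx, hreg'⟩ := hreg
    obtain ⟨ihE, ihU⟩ := ih (QuotSMulTop (g (e 0)) N) (fun i => e i.succ) hreg'
    have hcons : (Fin.cons (e 0) (fun i => e i.succ) : Fin (k + 1) → M) = e := by
      ext i; refine Fin.cases rfl (fun _ => rfl) i
    have hmem : ∀ n : N, n ∈ (Ideal.span (Set.range fun i => g (e i)) • (⊤ : Submodule R N)) ↔
        (Submodule.Quotient.mk n : QuotSMulTop (g (e 0)) N) ∈
        (Ideal.span (Set.range fun i : Fin k => g (e i.succ)) •
          (⊤ : Submodule R (QuotSMulTop (g (e 0)) N))) :=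
      fun n => mem_smul_top_iff_quot (fun i => g (e i)) n
    constructor
    · intro n hn
      obtain ⟨ωb, h1, h2⟩ := ihE (Submodule.Quotient.mk n) (by
        intro v
        rw [← Submodule.Quotient.mk_smul]
        exact (hmem _).1 (hn v))
      obtain ⟨ω, rfl⟩ := exists_lift_alt (g (e 0) • (⊤ : Submodule R N)).mkQ
        (Submodule.mkQ_surjective _) k ωb
      rw [wedge_compRight] at h1
      obtain ⟨ω', hω'⟩ := exists_div_alt (g (e 0)) (k + 1) (wedge g k ω) h1
      have hc : wedge g (k + 1) ω' = 0 := by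
        apply smul_cancel_alt hx
        rw [← map_smul, hω', wedge_wedge_self, smul_zero]
      refine ⟨ω', hc, ?_⟩
      rw [hmem, Submodule.Quotient.mk_sub]
      have hval : ω' e = contr (e 0) k ω' (fun i => e i.succ) := by
        rw [contr_apply, hcons]
      cases k with
      | zero =>
        have h3 : contr (e 0) 0 ω' = ω := by
          apply smul_cancel_alt hx
          rw [← map_smul, hω', contr_wedge_zero]
        rw [hval, h3]
        exact h2
      | succ j =>
        have h3 : wedge g j (contr (e 0) j ω) = g (e 0) • (ω - contr (e 0) (j + 1) ω') := by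
          rw [smul_sub, ← map_smul (contr (e 0) (j + 1)), hω', contr_wedge, sub_sub_cancel]
        have h4 : IsCob g j ((g (e 0) • (⊤ : Submodule R N)).mkQ.compAlternatingMap
            (contr (e 0) j ω)) := by
          refine koszul_exact' g _ hreg' ?_ j ?_ _ ?_
          · intro r hr
            obtain ⟨i, rfl⟩ := (List.mem_ofFn' _ _).1 hr
            exact ⟨_, rfl⟩
          · simp
          · rw [wedge_compRight, h3]
            ext v
            simp only [LinearMap.compAlternatingMap_apply, AlternatingMap.smul_apply,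
              AlternatingMap.zero_apply, Submodule.mkQ_apply, Submodule.Quotient.mk_eq_zero]
            exact (Submodule.mem_smul_pointwise_iff_exists _ _ _).2 ⟨_, trivial, rfl⟩
        obtain ⟨τ, hτ⟩ := wedge_eq_of_isCob g _ j _ h4
        have h5 : contr (e 0) (j + 1) ω' = ω - wedge g j τ := by
          have h6 : ω - contr (e 0) (j + 1) ω' = wedge g j τ := by
            apply smul_cancel_alt hx
            rw [← h3, hτ]
          rw [← h6, sub_sub_cancel]
        rw [hval, h5, AlternatingMap.sub_apply, Submodule.Quotient.mk_sub, sub_right_comm]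
        refine Submodule.sub_mem _ h2 ?_
        have h7 := wedge_apply_mem g j
          ((g (e 0) • (⊤ : Submodule R N)).mkQ.compAlternatingMap τ) (fun i => e i.succ)
        rw [wedge_compRight] at h7
        exact h7
    · intro ω' hω' hv
      have h3 : wedge g k (contr (e 0) k ω') = g (e 0) • ω' := by
        have := contr_wedge g (e 0) k ω'
        rw [hω', map_zero] at this
        exact (sub_eq_zero.1 this.symm).symm
      have h4 := ihU ((g (e 0) • (⊤ : Submodule R N)).mkQ.compAlternatingMap (contr (e 0) k ω'))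
        (by
          rw [wedge_compRight, h3]
          ext v
          simp only [LinearMap.compAlternatingMap_apply, AlternatingMap.smul_apply,
            AlternatingMap.zero_apply, Submodule.mkQ_apply, Submodule.Quotient.mk_eq_zero]
          exact (Submodule.mem_smul_pointwise_iff_exists _ _ _).2 ⟨_, trivial, rfl⟩)
        (by
          rw [LinearMap.compAlternatingMap_apply, contr_apply, hcons]
          exact (hmem _).1 hv)
      obtain ⟨τ, hτ⟩ := wedge_eq_of_isCob g _ k _ h4
      refine ⟨τ, ?_⟩
      apply smul_cancel_alt hx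
      rw [← h3, hτ]

/-- Existence of the class of `w` for `N = R`. -/
theorem exists_wedge_class (g : M →ₗ[R] R) (k : ℕ) (e : Fin k → M)
    (hreg : IsWeaklyRegular R (List.ofFn fun i => g (e i))) (w : R)
    (hw : ∀ v, w * g v ∈ Ideal.span (Set.range fun i => g (e i))) :
    ∃ ω : M [⋀^Fin k]→ₗ[R] R, wedge g k ω = 0 ∧
      ω e - w ∈ Ideal.span (Set.range fun i => g (e i)) := by
  have h := (koszul_top g k R e hreg).1 w (by
    intro v
    rw [smul_eq_mul, Ideal.mul_top, smul_eq_mul, mul_comm]
    exact hw v)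
  obtain ⟨ω, h1, h2⟩ := h
  refine ⟨ω, h1, ?_⟩
  rw [smul_eq_mul, Ideal.mul_top] at h2
  exact h2

/-- Uniqueness of the class of `w` for `N = R`. -/
theorem isCob_of_apply_mem (g : M →ₗ[R] R) (k : ℕ) (e : Fin k → M)
    (hreg : IsWeaklyRegular R (List.ofFn fun i => g (e i))) (ω : M [⋀^Fin k]→ₗ[R] R)
    (hω : wedge g k ω = 0) (hv : ω e ∈ Ideal.span (Set.range fun i => g (e i))) :
    IsCob g k ω := by
  apply (koszul_top g k R e hreg).2 ω hω
  rw [smul_eq_mul, Ideal.mul_top]
  exact hv

/-- Exactness below degree `k` for `N = R`. -/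
theorem isCob_of_lt (g : M →ₗ[R] R) (k : ℕ) (e : Fin k → M)
    (hreg : IsWeaklyRegular R (List.ofFn fun i => g (e i))) (i : ℕ) (hi : i < k)
    (ω : M [⋀^Fin i]→ₗ[R] R) (hω : wedge g i ω = 0) : IsCob g i ω := by
  refine koszul_exact' g _ hreg ?_ i (by simpa using hi) ω hω
  intro r hr
  obtain ⟨i, rfl⟩ := (List.mem_ofFn' _ _).1 hr
  exact ⟨_, rfl⟩

end Pool.Agent.Licci

end

section

/-!
# LICCI, codimension 4: a general basis of `R ^ 8`
-/

namespace Pool.Agent.Licci

open IsLocalRing RingTheory.Sequence

universe u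

variable {R : Type u} [CommRing R] [IsLocalRing R] [IsNoetherianRing R]

theorem exists_general_vectors [Infinite (ResidueField R)] {N : ℕ} (f : (Fin N → R) →ₗ[R] R)
    (hI : ∀ v, f v ∈ maximalIdeal R)
    (hgr : ∃ rs : List R, rs.length = 4 ∧ IsRegular R rs ∧ ∀ r ∈ rs, r ∈ LinearMap.range f) :
    ∀ n : ℕ, n ≤ N → ∃ a : Fin n → (Fin N → R),
      LinearIndependent (ResidueField R) (fun i => red (a i)) ∧
      IsWeaklyRegular R (List.take 4 (List.ofFn fun i => f (a i))) := by
  have hsum : ∀ v : Fin N → R, f v = ∑ j, v j * f (Pi.single j 1) := by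
    intro v
    conv_lhs => rw [show v = ∑ j, v j • (Pi.single j 1 : Fin N → R) by
      funext i; simp [Finset.sum_apply, Pi.single_apply]]
    rw [map_sum]
    exact Finset.sum_congr rfl fun j _ => map_smul _ _ _
  have hspan : Ideal.span (Set.range fun j : Fin N => f (Pi.single j 1)) = LinearMap.range f := by
    apply le_antisymm
    · rw [Ideal.span_le]
      rintro _ ⟨j, rfl⟩
      exact ⟨_, rfl⟩
    · rintro _ ⟨v, rfl⟩
      rw [hsum]
      exact Ideal.sum_mem _ fun j _ => Ideal.mul_mem_left _ _ (Ideal.subset_span ⟨j, rfl⟩)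
  have hI' : Ideal.span (Set.range fun j : Fin N => f (Pi.single j 1)) ≤ maximalIdeal R := by
    rw [hspan]
    rintro _ ⟨v, rfl⟩
    exact hI v
  obtain ⟨rs, hr1, hr2, hr3⟩ := hgr
  have hgr' : ∃ rs : List R, rs.length = 4 ∧
      (∀ y ∈ rs, y ∈ Ideal.span (Set.range fun j : Fin N => f (Pi.single j 1))) ∧
      IsRegular R rs := ⟨rs, hr1, fun y hy => by rw [hspan]; exact hr3 y hy, hr2⟩
  intro n
  induction n with
  | zero =>
    intro _
    refine ⟨fun i => i.elim0, linearIndependent_empty_type, ?_⟩
    simp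
  | succ n ih =>
    intro hn
    obtain ⟨a, ha1, ha2⟩ := ih (by omega)
    have hproper : Submodule.span (ResidueField R) (Set.range fun i => red (a i)) ≠ ⊤ := by
      intro h
      have h1 := finrank_span_eq_card ha1
      rw [h, finrank_top, Module.finrank_fin_fun, Fintype.card_fin] at h1
      omega
    have key : ∀ x : Fin N → R, red x ∉ Submodule.span (ResidueField R)
        (Set.range fun i => red (a i)) →
        LinearIndependent (ResidueField R) (fun i => red ((Fin.snoc a x : Fin (n + 1) → _) i)) := by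
      intro x hx
      have h1 : (fun i => red ((Fin.snoc a x : Fin (n + 1) → (Fin N → R)) i)) =
          Fin.snoc (fun i => red (a i)) (red x) := by
        funext i
        refine Fin.lastCases ?_ (fun i => ?_) i
        · simp
        · simp
      rw [h1, linearIndependent_finSnoc]
      exact ⟨ha1, hx⟩
    have hlist : ∀ x : Fin N → R, (List.ofFn fun i => f ((Fin.snoc a x : Fin (n + 1) → _) i)) =
        (List.ofFn fun i => f (a i)) ++ [f x] := by
      intro x
      rw [List.ofFn_succ', List.concat_eq_append]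
      simp
    by_cases h4 : n < 4
    · have hα : (List.ofFn fun i => f (a i)).length < 4 := by simpa using h4
      have ht : List.take 4 (List.ofFn fun i => f (a i)) = List.ofFn fun i => f (a i) :=
        List.take_of_length_le hα.le
      rw [ht] at ha2
      obtain ⟨x, hx1, hx2⟩ := gp_row (fun j : Fin N => f (Pi.single j 1)) hI' hgr'
        (List.ofFn fun i => f (a i)) hα (by
          intro y hy
          rw [List.mem_ofFn] at hy
          obtain ⟨i, rfl⟩ := hy
          rw [hspan]
          exact ⟨_, rfl⟩) ha2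
        {Submodule.span (ResidueField R) (Set.range fun i => red (a i))} (by
          intro V hV
          rw [Finset.mem_singleton] at hV
          rw [hV]
          exact hproper)
      refine ⟨Fin.snoc a x, key x (hx1 _ (Finset.mem_singleton_self _)), ?_⟩
      rw [hlist, List.take_of_length_le (by simp; omega), hsum x]
      exact hx2
    · obtain ⟨x, hx⟩ := exists_avoid (R := R)
        ({Submodule.span (ResidueField R) (Set.range fun i => red (a i))} :
          Finset (Submodule (ResidueField R) (Fin N → ResidueField R))) (by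
          intro V hV
          rw [Finset.mem_singleton] at hV
          rw [hV]
          exact hproper)
      refine ⟨Fin.snoc a x, key x (hx _ (Finset.mem_singleton_self _)), ?_⟩
      rw [hlist, List.take_append_of_le_length (by simp; omega)]
      exact ha2

/-- A basis of `R ^ N` whose first four vectors give a weakly regular sequence. -/
theorem exists_general_basis [Infinite (ResidueField R)] (f : (Fin 8 → R) →ₗ[R] R)
    (hI : ∀ v, f v ∈ maximalIdeal R)
    (hgr : ∃ rs : List R, rs.length = 4 ∧ IsRegular R rs ∧ ∀ r ∈ rs, r ∈ LinearMap.range f) :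
    ∃ e : (Fin 8 → R) ≃ₗ[R] (Fin 8 → R), IsWeaklyRegular R
      [f (e (Pi.single 0 1)), f (e (Pi.single 1 1)), f (e (Pi.single 2 1)),
        f (e (Pi.single 3 1))] := by
  obtain ⟨a, ha1, ha2⟩ := exists_general_vectors f hI hgr 8 le_rfl
  let E : (Fin 8 → R) →ₗ[R] (Fin 8 → R) := Fintype.linearCombination R a
  have hE : ∀ i, E (Pi.single i 1) = a i := by
    intro i
    simp [E, Fintype.linearCombination_apply, Pi.single_apply]
  have htop : LinearMap.range E = ⊤ := by
    apply eq_top_of_redSub_eq_top
    rw [← top_le_iff, ← ha1.span_eq_top_of_card_eq_finrank (by simp), Submodule.span_le]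
    rintro _ ⟨i, rfl⟩
    exact red_mem_redSub ⟨Pi.single i 1, hE i⟩
  have hsurj : Function.Surjective E := LinearMap.range_eq_top.mp htop
  let e : (Fin 8 → R) ≃ₗ[R] (Fin 8 → R) := LinearEquiv.ofBijective E
    ⟨OrzechProperty.injective_of_surjective_endomorphism E hsurj, hsurj⟩
  refine ⟨e, ?_⟩
  have he : ∀ i, e (Pi.single i 1) = a i := hE
  rw [he, he, he, he]
  exact ha2

/-- general position -/
theorem exists_pos {R : Type u} [CommRing R] [IsLocalRing R] [IsNoetherianRing R]
    [Infinite (ResidueField R)] (f : (Fin 8 → R) →ₗ[R] R) (hI : ∀ v, f v ∈ maximalIdeal R)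
    (hgr : ∃ rs : List R, rs.length = 4 ∧ IsRegular R rs ∧ ∀ r ∈ rs, r ∈ LinearMap.range f) :
    ∃ φ : (Fin 8 → R) ≃ₗ[R] (Fin 8 → R), IsWeaklyRegular R [f (φ (Pi.single 0 1)),
      f (φ (Pi.single 1 1)), f (φ (Pi.single 2 1)), f (φ (Pi.single 3 1))] :=
  exists_general_basis f hI hgr

omit [IsLocalRing R] [IsNoetherianRing R] in
/-- an initial segment of a weakly regular sequence -/
theorem weaklyRegular_init {a b c d : R} (h : IsWeaklyRegular R [a, b, c, d]) :
    IsWeaklyRegular R [a, b, c] := by
  have h1 : IsWeaklyRegular R ([a, b, c] ++ [d]) := h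
  rw [isWeaklyRegular_append_iff] at h1
  exact h1.1

end Pool.Agent.Licci

end
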