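import Mathlib
import Pool.Agent.Work.MP_a98e4e_ag.Fu.DLink
import Pool.Agent.Work.MP_a98e4e_ag.Defs
import Pool.Agent.Work.MP_a98e4e_ag.Fu.U.Base

section

/-!
# Free modules over local rings whose maximal ideal is generated by a regular sequence
-/

namespace LicciCodimFour

open IsLocalRing RingTheory.Sequence
open scoped Pointwise

universe u v v1 v2 v3

theorem mk_eq_zero_iff_quotSMulTop {R : Type*} [CommRing R] {M : Type*} [AddCommGroup M]
    [Module R M] (r : R) (x : M) :
    (Submodule.Quotient.mk x : QuotSMulTop r M) = 0 ↔ ∃ y, x = r • y := by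
  rw [Submodule.Quotient.mk_eq_zero, Submodule.mem_smul_pointwise_iff_exists]
  constructor
  · rintro ⟨y, _, hy⟩
    exact ⟨y, hy.symm⟩
  · rintro ⟨y, hy⟩
    exact ⟨y, trivial, hy.symm⟩

/-- If `x` is `M`-regular and `M / x M` is free over `R / x` then `M` is free. -/
theorem free_of_quotient_free {R : Type u} [CommRing R] [IsLocalRing R] [IsNoetherianRing R]
    {M : Type v} [AddCommGroup M] [Module R M] [Module.Finite R M] {x : R}
    (hx : x ∈ maximalIdeal R) (hreg : IsSMulRegular M x)
    (hfree : Module.Free (R ⧸ Ideal.span {x}) (QuotSMulTop x M)) : Module.Free R M := by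
  classical
  have hfin : Module.Finite (R ⧸ Ideal.span {x}) (QuotSMulTop x M) :=
    Module.Finite.of_restrictScalars_finite R _ _
  let b := Module.Free.chooseBasis (R ⧸ Ideal.span {x}) (QuotSMulTop x M)
  let ι := Module.Free.ChooseBasisIndex (R ⧸ Ideal.span {x}) (QuotSMulTop x M)
  have : Fintype ι := Module.Free.ChooseBasisIndex.fintype _ _
  choose m hm using fun i : ι => Submodule.Quotient.mk_surjective _ (b i)
  let φ : (ι → R) →ₗ[R] M := Fintype.linearCombination R m
  have hφ : ∀ a, φ a = ∑ i, a i • m i := fun a => Fintype.linearCombination_apply R m a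
  have hφmk : ∀ a : ι → R, (Submodule.Quotient.mk (φ a) : QuotSMulTop x M) =
      ∑ i, (Ideal.Quotient.mk (Ideal.span {x}) (a i)) • b i := by
    intro a
    rw [hφ, ← Submodule.mkQ_apply, map_sum]
    refine Finset.sum_congr rfl fun i _ => ?_
    rw [map_smul, Submodule.mkQ_apply, hm]
    rfl
  have hsurj : Function.Surjective φ := by
    rw [← LinearMap.range_eq_top, ← top_le_iff]
    refine Submodule.le_of_le_smul_of_le_jacobson_bot (I := Ideal.span {x}) Module.Finite.fg_top
      (((Ideal.span_singleton_le_iff_mem _).2 hx).trans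
        (IsLocalRing.maximalIdeal_le_jacobson ⊥)) ?_
    intro y _
    obtain ⟨c, hc⟩ : ∃ c : ι → R ⧸ Ideal.span {x},
        ∑ i, c i • b i = (Submodule.Quotient.mk y : QuotSMulTop x M) :=
      ⟨fun i => b.repr (Submodule.Quotient.mk y) i, b.sum_repr _⟩
    choose a ha using fun i => Ideal.Quotient.mk_surjective (c i)
    have h1 : (Submodule.Quotient.mk (y - φ a) : QuotSMulTop x M) = 0 := by
      rw [Submodule.Quotient.mk_sub, hφmk, ← hc]
      simp only [ha, sub_self]
    rw [mk_eq_zero_iff_quotSMulTop] at h1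
    obtain ⟨z, hz⟩ := h1
    have h2 : y = φ a + x • z := by rw [← hz]; abel
    rw [h2]
    refine Submodule.add_mem_sup ⟨a, rfl⟩ ?_
    exact Submodule.smul_mem_smul (Ideal.mem_span_singleton_self x) trivial
  have hinj : Function.Injective φ := by
    rw [← LinearMap.ker_eq_bot, ← le_bot_iff]
    refine Submodule.le_of_le_smul_of_le_jacobson_bot (I := Ideal.span {x})
      (IsNoetherian.noetherian _) (((Ideal.span_singleton_le_iff_mem _).2 hx).trans
        (IsLocalRing.maximalIdeal_le_jacobson ⊥)) ?_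
    intro a ha
    rw [LinearMap.mem_ker] at ha
    have h1 : ∑ i, (Ideal.Quotient.mk (Ideal.span {x}) (a i)) • b i = 0 := by
      rw [← hφmk, ha]
      rfl
    have h2 := Fintype.linearIndependent_iff.1 b.linearIndependent _ h1
    have h3 : ∀ i, ∃ c, a i = x * c := by
      intro i
      have := Ideal.Quotient.eq_zero_iff_mem.1 (h2 i)
      rw [Ideal.mem_span_singleton] at this
      exact this
    choose c hc using h3
    have h4 : a = x • c := by
      funext i
      exact hc i
    have h5 : c ∈ LinearMap.ker φ := by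
      rw [LinearMap.mem_ker]
      apply hreg
      show x • φ c = x • (0 : M)
      rw [← map_smul, ← h4, ha, smul_zero]
    rw [bot_sup_eq, h4]
    exact Submodule.smul_mem_smul (Ideal.mem_span_singleton_self x) h5
  exact Module.Free.of_equiv (LinearEquiv.ofBijective φ ⟨hinj, hsurj⟩)

/-- If the maximal ideal is generated by a list which is weakly regular on the finite module `M`
then `M` is free. -/
theorem free_of_isWeaklyRegular (n : ℕ) : ∀ (R : Type u) [CommRing R] [IsLocalRing R]
    [IsNoetherianRing R] (M : Type v) [AddCommGroup M] [Module R M] [Module.Finite R M]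
    (rs : List R), rs.length = n → Ideal.ofList rs = maximalIdeal R → IsWeaklyRegular M rs →
    Module.Free R M := by
  induction n with
  | zero =>
    intro R _ _ _ M _ _ _ rs hlen hgen _
    rw [List.length_eq_zero_iff] at hlen
    rw [hlen, Ideal.ofList_nil] at hgen
    have hf : IsField R := IsLocalRing.isField_iff_maximalIdeal_eq.2 hgen.symm
    let := hf.toField
    exact Module.Free.of_divisionRing R M
  | succ n ih =>
    intro R _ _ _ M _ _ _ rs hlen hgen hreg
    cases rs with
    | nil => simp at hlen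
    | cons x rs =>
      have hx : x ∈ maximalIdeal R := by
        rw [← hgen, Ideal.ofList_cons]
        exact Ideal.mem_sup_left (Ideal.mem_span_singleton_self x)
      rw [isWeaklyRegular_cons_iff'] at hreg
      have hnt : Nontrivial (R ⧸ Ideal.span {x}) := Ideal.Quotient.nontrivial_iff.2 (ne_of_lt
        (lt_of_le_of_lt ((Ideal.span_singleton_le_iff_mem _).2 hx)
          (lt_top_iff_ne_top.2 (Ideal.IsPrime.ne_top inferInstance))))
      have hloc : IsLocalRing (R ⧸ Ideal.span {x}) :=
        IsLocalRing.of_surjective' (Ideal.Quotient.mk _) Ideal.Quotient.mk_surjective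
      have hfin : Module.Finite (R ⧸ Ideal.span {x}) (QuotSMulTop x M) :=
        Module.Finite.of_restrictScalars_finite R _ _
      refine free_of_quotient_free hx hreg.1 (ih (R ⧸ Ideal.span {x}) (QuotSMulTop x M)
        (rs.map (Ideal.Quotient.mk (Ideal.span {x}))) (by simpa using hlen) ?_ hreg.2)
      rw [← Ideal.map_ofList]
      have h1 := map_maximalIdeal_of_surjective (Ideal.Quotient.mk (Ideal.span {x}))
        Ideal.Quotient.mk_surjective
      rw [← h1, ← hgen, Ideal.ofList_cons, Ideal.map_sup]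
      have h2 : (Ideal.span {x}).map (Ideal.Quotient.mk (Ideal.span {x})) = ⊥ := by
        rw [Ideal.map_quotient_self]
      rw [h2, bot_sup_eq]

/-- Depth of a kernel: `0 → K → F → M → 0`, `rs` weakly regular on `M` and `rs ++ [x]` weakly
regular on `F`; then `rs ++ [x]` is weakly regular on `K`. -/
theorem isWeaklyRegular_kernel {R : Type u} [CommRing R] (rs : List R) (x : R) :
    ∀ (K : Type v1) (F : Type v2) (M : Type v3) [AddCommGroup K] [Module R K] [AddCommGroup F]
      [Module R F] [AddCommGroup M] [Module R M] (i : K →ₗ[R] F) (p : F →ₗ[R] M), Function.Injective i →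
      Function.Exact i p → Function.Surjective p → IsWeaklyRegular M rs →
      IsWeaklyRegular F (rs ++ [x]) → IsWeaklyRegular K (rs ++ [x]) := by
  induction rs with
  | nil =>
    intro K F M _ _ _ _ _ _ i p hi _ _ _ hF
    rw [List.nil_append, isWeaklyRegular_singleton_iff] at hF ⊢
    intro a b hab
    apply hi
    apply hF
    show x • i a = x • i b
    rw [← map_smul, ← map_smul]
    exact congrArg i hab
  | cons r rs ih =>
    intro K F M _ _ _ _ _ _ i p hi hex hp hM hF
    rw [List.cons_append, isWeaklyRegular_cons_iff] at hF ⊢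
    rw [isWeaklyRegular_cons_iff] at hM
    refine ⟨?_, ?_⟩
    · intro a b hab
      apply hi
      apply hF.1
      show r • i a = r • i b
      rw [← map_smul, ← map_smul]
      exact congrArg i hab
    · refine ih (QuotSMulTop r K) (QuotSMulTop r F) (QuotSMulTop r M) (QuotSMulTop.map r i)
        (QuotSMulTop.map r p) ?_ ?_ ?_ hM.2 hF.2
      · rw [injective_iff_map_eq_zero]
        intro a ha
        obtain ⟨a, rfl⟩ := Submodule.Quotient.mk_surjective _ a
        rw [QuotSMulTop.map_apply_mk, mk_eq_zero_iff_quotSMulTop] at ha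
        obtain ⟨b, hb⟩ := ha
        have h1 : p b = 0 := by
          apply hM.1
          show r • p b = r • (0 : M)
          rw [← map_smul, ← hb, hex.apply_apply_eq_zero, smul_zero]
        obtain ⟨c, rfl⟩ := (hex b).1 h1
        rw [← map_smul] at hb
        rw [mk_eq_zero_iff_quotSMulTop]
        exact ⟨c, hi hb⟩
      · intro b
        obtain ⟨b, rfl⟩ := Submodule.Quotient.mk_surjective _ b
        constructor
        · intro hb
          rw [QuotSMulTop.map_apply_mk, mk_eq_zero_iff_quotSMulTop] at hb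
          obtain ⟨c, hc⟩ := hb
          obtain ⟨d, rfl⟩ := hp c
          have h1 : p (b - r • d) = 0 := by rw [map_sub, map_smul, hc, sub_self]
          obtain ⟨a, ha⟩ := (hex _).1 h1
          refine ⟨Submodule.Quotient.mk a, ?_⟩
          rw [QuotSMulTop.map_apply_mk, ha, ← sub_eq_zero, ← Submodule.Quotient.mk_sub,
            mk_eq_zero_iff_quotSMulTop]
          exact ⟨-d, by rw [smul_neg]; abel⟩
        · rintro ⟨a, ha⟩
          obtain ⟨a, rfl⟩ := Submodule.Quotient.mk_surjective _ a
          rw [← ha, QuotSMulTop.map_apply_mk, QuotSMulTop.map_apply_mk,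
            hex.apply_apply_eq_zero]
          rfl
      · intro c
        obtain ⟨c, rfl⟩ := Submodule.Quotient.mk_surjective _ c
        obtain ⟨b, rfl⟩ := hp c
        exact ⟨Submodule.Quotient.mk b, QuotSMulTop.map_apply_mk r p b⟩

/-- In a local ring whose maximal ideal is generated by a regular sequence `rs ++ [x]`, the kernel
of a surjection `R ^ n → M` is free as soon as `rs` is weakly regular on `M`. -/
theorem free_kernel {R : Type u} [CommRing R] [IsLocalRing R] [IsNoetherianRing R]
    (rs : List R) (x : R) (hgen : Ideal.ofList (rs ++ [x]) = maximalIdeal R)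
    (hR : IsWeaklyRegular R (rs ++ [x])) {M : Type v} [AddCommGroup M] [Module R M]
    (hM : IsWeaklyRegular M rs) {n : ℕ} (p : (Fin n → R) →ₗ[R] M) (hp : Function.Surjective p) :
    Module.Free R (LinearMap.ker p) := by
  have hF : IsWeaklyRegular (Fin n → R) (rs ++ [x]) := by
    have h1 := IsWeaklyRegular.isWeaklyRegular_lTensor (M₂ := (Fin n → R)) hR
    exact (LinearEquiv.isWeaklyRegular_congr (TensorProduct.rid R (Fin n → R)) _).1 h1
  have hK := isWeaklyRegular_kernel rs x (LinearMap.ker p) (Fin n → R) M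
    (LinearMap.ker p).subtype p Subtype.val_injective
    (fun y => ⟨fun hy => ⟨⟨y, hy⟩, rfl⟩, by rintro ⟨⟨z, hz⟩, rfl⟩; exact hz⟩) hp hM hF
  exact free_of_isWeaklyRegular _ R (LinearMap.ker p) (rs ++ [x]) rfl hgen hK

/-- Minimal covers. -/
theorem exists_minimal_cover {R : Type u} [CommRing R] [IsLocalRing R]
    (M : Type v) [AddCommGroup M] [Module R M] [Module.Finite R M] :
    ∃ (n : ℕ) (p : (Fin n → R) →ₗ[R] M), Function.Surjective p ∧
      (∀ k, p k = 0 → ∀ i, k i ∈ maximalIdeal R) ∧ (Subsingleton M → n = 0) := by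
  classical
  have hex : ∃ n, ∃ p : (Fin n → R) →ₗ[R] M, Function.Surjective p := Module.Finite.exists_fin' R M
  let n := Nat.find hex
  obtain ⟨p, hp⟩ := Nat.find_spec hex
  have hmin : ∀ m < n, ¬ ∃ p : (Fin m → R) →ₗ[R] M, Function.Surjective p :=
    fun m hm => Nat.find_min hex hm
  refine ⟨n, p, hp, ?_, ?_⟩
  · intro k hk i
    by_contra hu
    rw [notMem_maximalIdeal] at hu
    obtain ⟨v, hv⟩ := hu
    -- remove the generator `i`
    have hn : n ≠ 0 := by
      have := i.2
      omega
    obtain ⟨m, hm⟩ := Nat.exists_eq_succ_of_ne_zero hn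
    have hcard : Fintype.card {j : Fin n // j ≠ i} = m := by
      simp [Fintype.card_subtype_compl, hm]
    let e : Fin m ≃ {j : Fin n // j ≠ i} := (Fintype.equivFinOfCardEq hcard).symm
    let q : (Fin m → R) →ₗ[R] M :=
      Fintype.linearCombination R fun j => p (Pi.single (e j : Fin n) 1)
    apply hmin m (by omega)
    refine ⟨q, ?_⟩
    intro y
    obtain ⟨b, rfl⟩ := hp y
    let c : Fin n → R := b - (b i * (↑v⁻¹ : R)) • k
    have hc : c i = 0 := by
      simp only [c, Pi.sub_apply, Pi.smul_apply, smul_eq_mul]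
      rw [← hv, mul_assoc, Units.inv_mul, mul_one, sub_self]
    have hpc : p c = p b := by
      simp only [c, map_sub, map_smul, hk, smul_zero, sub_zero]
    refine ⟨fun j => c (e j), ?_⟩
    rw [← hpc]
    have h1 : c = ∑ j, c j • (Pi.single j 1 : Fin n → R) := by
      funext l
      simp [Finset.sum_apply, Pi.single_apply]
    conv_rhs => rw [h1, map_sum]
    simp only [map_smul]
    rw [Fintype.linearCombination_apply]
    rw [Equiv.sum_comp e (fun j : {j : Fin n // j ≠ i} => c j • p (Pi.single (j : Fin n) 1))]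
    rw [← Finset.sum_subtype (Finset.univ.erase i) (fun j => by simp)
      (fun j => c j • p (Pi.single j 1))]
    rw [← Finset.add_sum_erase _ _ (Finset.mem_univ i), hc, zero_smul, zero_add]
  · intro hsub
    by_contra hn
    exact hmin 0 (Nat.pos_of_ne_zero hn) ⟨0, fun y => ⟨0, Subsingleton.elim _ _⟩⟩

/-- The abstract freeness argument: if the kernels of covers of `M` are free and all maps from them
to `M` extend, then `M` is free. -/
theorem free_of_extends {R : Type u} [CommRing R] [IsLocalRing R] [IsNoetherianRing R]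
    (M : Type v) [AddCommGroup M] [Module R M] [Module.Finite R M]
    (hK : ∀ (n : ℕ) (p : (Fin n → R) →ₗ[R] M), Function.Surjective p →
      Module.Free R (LinearMap.ker p))
    (hext : ∀ (n : ℕ) (p : (Fin n → R) →ₗ[R] M), Function.Surjective p →
      ∀ g : LinearMap.ker p →ₗ[R] M, ∃ g' : (Fin n → R) →ₗ[R] M, ∀ k : LinearMap.ker p,
        g' k = g k) : Module.Free R M := by
  classical
  obtain ⟨n, p, hp, hmin, hsub⟩ := exists_minimal_cover (R := R) M
  have hfree := hK n p hp
  let b := Module.Free.chooseBasis R (LinearMap.ker p)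
  by_cases hne : Nonempty (Module.Free.ChooseBasisIndex R (LinearMap.ker p))
  · -- then `M = m M`
    obtain ⟨i0⟩ := hne
    have h1 : (⊤ : Submodule R M) ≤ maximalIdeal R • (⊤ : Submodule R M) := by
      intro y _
      obtain ⟨g', hg'⟩ := hext n p hp (b.constr R (Pi.single i0 y))
      have h2 : g' (b i0 : Fin n → R) = y := by
        rw [hg', Module.Basis.constr_basis, Pi.single_eq_same]
      have h3 : (b i0 : Fin n → R) = ∑ j, (b i0 : Fin n → R) j • (Pi.single j 1 : Fin n → R) := by
        funext l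
        simp [Finset.sum_apply, Pi.single_apply]
      rw [← h2, h3, map_sum]
      refine Submodule.sum_mem _ fun j _ => ?_
      rw [map_smul]
      exact Submodule.smul_mem_smul (hmin _ (b i0).2 j) trivial
    have h2 : (⊤ : Submodule R M) ≤ ⊥ := by
      refine Submodule.le_of_le_smul_of_le_jacobson_bot (I := maximalIdeal R)
        Module.Finite.fg_top (IsLocalRing.maximalIdeal_le_jacobson ⊥) ?_
      rw [bot_sup_eq]
      exact h1
    have h3 : Subsingleton M := ⟨fun x y => by
      have hx : x = 0 := by simpa using h2 (show x ∈ (⊤ : Submodule R M) from trivial)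
      have hy : y = 0 := by simpa using h2 (show y ∈ (⊤ : Submodule R M) from trivial)
      rw [hx, hy]⟩
    exact Module.Free.of_subsingleton R M
  · rw [not_nonempty_iff] at hne
    have h1 : LinearMap.ker p = ⊥ := by
      rw [Submodule.eq_bot_iff]
      intro x hx
      have h2 : (⟨x, hx⟩ : LinearMap.ker p) = 0 := by
        rw [← b.repr.map_eq_zero_iff]
        exact Finsupp.ext fun i => (hne.false i).elim
      exact congrArg Subtype.val h2
    exact Module.Free.of_equiv (LinearEquiv.ofBijective p ⟨LinearMap.ker_eq_bot.1 h1, hp⟩)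

/-- Version for dimension three: `m = (y₁, y₂, y₃)` generated by a regular sequence, `y₁, y₂`
weakly regular on `M`, all maps from kernels of covers extend; then `M` is free. -/
theorem free_of_extends_dim_three {R : Type u} [CommRing R] [IsLocalRing R] [IsNoetherianRing R]
    (y1 y2 y3 : R) (hgen : Ideal.ofList [y1, y2, y3] = maximalIdeal R)
    (hR : IsWeaklyRegular R [y1, y2, y3])
    (M : Type v) [AddCommGroup M] [Module R M] [Module.Finite R M]
    (hM : IsWeaklyRegular M [y1, y2])
    (hext : ∀ (n : ℕ) (p : (Fin n → R) →ₗ[R] M), Function.Surjective p →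
      ∀ g : LinearMap.ker p →ₗ[R] M, ∃ g' : (Fin n → R) →ₗ[R] M, ∀ k : LinearMap.ker p,
        g' k = g k) : Module.Free R M :=
  free_of_extends M (fun _ p hp => free_kernel [y1, y2] y3 hgen hR hM p hp) hext

end LicciCodimFour

end

section

/-!
# Slicing a regular local ring down to dimension three
-/

namespace LicciCodimFour

open IsLocalRing RingTheory.Sequence
open scoped Pointwise

universe u v

/-- In a regular local ring of dimension three: two elements `y1, y2` such that every finite module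
on which they are weakly regular has free kernels of covers. -/
theorem hfree_dim_three (R : Type u) [CommRing R] [IsRegularLocalRing R]
    (hdim : ringKrullDim R = 3) :
    ∃ y1 y2 : R, y1 ∈ maximalIdeal R ∧ y2 ∈ maximalIdeal R ∧ IsWeaklyRegular R [y1, y2] ∧
      ∀ (M : Type v) [AddCommGroup M] [Module R M] [Module.Finite R M],
        IsWeaklyRegular M [y1, y2] → ∀ (b : ℕ) (π : (Fin b → R) →ₗ[R] M), Function.Surjective π →
          Module.Free R (LinearMap.ker π) := by
  obtain ⟨rs, hlen, hgen, hreg⟩ := exists_regular_generators R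
  have h3 : rs.length = 3 := by
    rw [hdim] at hlen
    exact_mod_cast hlen
  obtain ⟨y1, y2, y3, rfl⟩ := List.length_eq_three.1 h3
  have hm : ∀ y ∈ [y1, y2, y3], y ∈ maximalIdeal R := by
    intro y hy
    rw [← hgen]
    exact Ideal.subset_span hy
  have hw : IsWeaklyRegular R ([y1, y2] ++ [y3]) := hreg.toIsWeaklyRegular
  refine ⟨y1, y2, hm _ (by simp), hm _ (by simp), ?_, ?_⟩
  · rw [isWeaklyRegular_append_iff] at hw
    exact hw.1
  · intro M _ _ _ hM b π hπ
    exact free_kernel [y1, y2] y3 hgen hw hM π hπ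

/-- One slice. -/
theorem exists_slice {R : Type u} [CommRing R] [IsRegularLocalRing R] (fs : List R)
    (hfs : ∀ f ∈ fs, f ∈ maximalIdeal R) (hreg : IsWeaklyRegular R fs)
    (hlen : (fs.length : WithBot ℕ∞) < ringKrullDim R) :
    ∃ x ∈ maximalIdeal R, x ∉ maximalIdeal R ^ 2 ∧
      IsWeaklyRegular (R ⧸ Ideal.span {x}) (fs.map (Ideal.Quotient.mk (Ideal.span {x}))) := by
  classical
  obtain ⟨rs, hrlen, hgen, hrreg⟩ := exists_regular_generators R
  have hlt : fs.length < rs.length := by
    rw [← hrlen] at hlen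
    exact_mod_cast hlen
  -- a regular element modulo `fs`
  obtain ⟨y, hy, hyreg⟩ := Pool.Agent.Licci.exists_regular_quot (le_refl (maximalIdeal R)) fs R
    rs.length ⟨rs, rfl, fun z hz => by rw [← hgen]; exact Ideal.subset_span hz, hrreg⟩ hlt hfs hreg
  -- avoidance
  obtain ⟨x, hx, hx2, hxreg⟩ : ∃ x ∈ maximalIdeal R, x ∉ maximalIdeal R ^ 2 ∧
      IsSMulRegular (R ⧸ (Ideal.ofList fs • ⊤ : Submodule R R)) x := by
    by_contra hcon
    push Not at hcon
    have hfin : (associatedPrimes R (R ⧸ (Ideal.ofList fs • ⊤ : Submodule R R))).Finite :=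
      associatedPrimes.finite R _
    let s : Finset (Ideal R) := insert (maximalIdeal R ^ 2) hfin.toFinset
    have hsub : (maximalIdeal R : Set R) ⊆
        ⋃ i ∈ (↑s : Set (Ideal R)), ((id i : Ideal R) : Set R) := by
      intro x hx
      simp only [Set.mem_iUnion]
      by_cases h2 : x ∈ maximalIdeal R ^ 2
      · exact ⟨maximalIdeal R ^ 2, by simp [s], h2⟩
      · have h3 := hcon x hx h2
        have h4 : x ∈ ⋃ p ∈ associatedPrimes R (R ⧸ (Ideal.ofList fs • ⊤ : Submodule R R)),
            (p : Set R) := by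
          rw [biUnion_associatedPrimes_eq_compl_regular]
          exact h3
        obtain ⟨p, hp, hxp⟩ := Set.mem_iUnion₂.1 h4
        exact ⟨p, Finset.mem_coe.2 (Finset.mem_insert_of_mem (hfin.mem_toFinset.2 hp)), hxp⟩
    obtain ⟨i, hi, hle⟩ := (Ideal.subset_union_prime (f := id) (maximalIdeal R ^ 2)
      (maximalIdeal R ^ 2) (fun i hi h1 _ => by
        rw [Finset.mem_insert] at hi
        rcases hi with hi | hi
        · exact absurd hi h1
        · have : i ∈ associatedPrimes R (R ⧸ (Ideal.ofList fs • ⊤ : Submodule R R)) :=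
            hfin.mem_toFinset.1 hi
          exact this.isPrime)).1 hsub
    simp only [id] at hle
    rw [Finset.mem_insert] at hi
    rcases hi with hi | hi
    · rw [hi] at hle
      have h1 : maximalIdeal R ≤ ⊥ := by
        refine Submodule.le_of_le_smul_of_le_jacobson_bot (I := maximalIdeal R)
          (IsNoetherian.noetherian (maximalIdeal R)) (IsLocalRing.maximalIdeal_le_jacobson ⊥) ?_
        rw [bot_sup_eq, smul_eq_mul, ← pow_two]
        exact hle
      rw [le_bot_iff] at h1
      have h2 := (Submodule.spanFinrank_eq_zero_iff_eq_bot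
        (IsNoetherian.noetherian (maximalIdeal R))).2 h1
      have h3 := IsRegularLocalRing.spanFinrank_maximalIdeal (R := R)
      rw [h2, ← hrlen] at h3
      have h4 : 0 = rs.length := by exact_mod_cast h3
      omega
    · have hi' : i ∈ associatedPrimes R (R ⧸ (Ideal.ofList fs • ⊤ : Submodule R R)) :=
        hfin.mem_toFinset.1 hi
      have h5 : y ∈ ⋃ p ∈ associatedPrimes R (R ⧸ (Ideal.ofList fs • ⊤ : Submodule R R)),
          (p : Set R) := Set.mem_biUnion hi' (hle hy)
      rw [biUnion_associatedPrimes_eq_compl_regular] at h5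
      exact h5 hyreg
  refine ⟨x, hx, hx2, ?_⟩
  have h1 : IsWeaklyRegular R (fs ++ [x]) := by
    rw [isWeaklyRegular_append_iff, isWeaklyRegular_singleton_iff]
    exact ⟨hreg, hxreg⟩
  have h2 : IsWeaklyRegular R (x :: fs) := by
    refine IsLocalRing.isWeaklyRegular_of_perm_of_subset_maximalIdeal h1
      (List.perm_append_singleton x fs) ?_
    intro z hz
    rw [List.mem_append, List.mem_singleton] at hz
    rcases hz with hz | rfl
    · exact hfs z hz
    · exact hx
  rw [isWeaklyRegular_cons_iff'] at h2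
  have e : QuotSMulTop x R ≃ₗ[R ⧸ Ideal.span {x}] (R ⧸ Ideal.span {x}) := by
    have e0 : (x • ⊤ : Submodule R R) = Ideal.span {x} := by
      ext y
      rw [Ideal.mem_span_singleton', Submodule.mem_smul_pointwise_iff_exists]
      constructor
      · rintro ⟨a, _, ha⟩
        exact ⟨a, by rw [smul_eq_mul, mul_comm] at ha; exact ha⟩
      · rintro ⟨a, ha⟩
        exact ⟨a, trivial, by rw [smul_eq_mul, mul_comm]; exact ha⟩
    let f := Submodule.quotEquivOfEq _ _ e0
    exact { f with
      map_smul' := by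
        intro c y
        obtain ⟨c, rfl⟩ := Ideal.Quotient.mk_surjective c
        exact f.map_smul c y }
  exact (LinearEquiv.isWeaklyRegular_congr e _).1 h2.2

/-- Slicing down to dimension three. -/
theorem exists_slice_dim_three (n : ℕ) : ∀ (R : Type u) [CommRing R] [IsRegularLocalRing R]
    (fs : List R), ringKrullDim R = (n + 3 : ℕ) → fs.length = 3 →
    (∀ f ∈ fs, f ∈ maximalIdeal R) → IsWeaklyRegular R fs →
    ∃ (R' : Type u) (_ : CommRing R') (_ : IsRegularLocalRing R') (φ : R →+* R'),
      Function.Surjective φ ∧ ringKrullDim R' = 3 ∧ IsWeaklyRegular R' (fs.map φ) := by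
  induction n with
  | zero =>
    intro R _ _ fs hdim _ _ hreg
    refine ⟨R, inferInstance, inferInstance, RingHom.id R, Function.surjective_id, ?_, ?_⟩
    · rw [hdim]
      rfl
    · simpa using hreg
  | succ n ih =>
    intro R _ _ fs hdim hlen hfs hreg
    obtain ⟨x, hx, hx2, hxreg⟩ := exists_slice fs hfs hreg (by
      rw [hlen, hdim]
      exact_mod_cast (by omega : 3 < n + 1 + 3))
    obtain ⟨hR', hd⟩ := isRegularLocalRing_quotient hx hx2
    have hdim' : ringKrullDim (R ⧸ Ideal.span {x}) = (n + 3 : ℕ) := by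
      rw [← IsRegularLocalRing.spanFinrank_maximalIdeal (R := R ⧸ Ideal.span {x})]
      have h1 := IsRegularLocalRing.spanFinrank_maximalIdeal (R := R)
      rw [hdim] at h1
      have h2 : (maximalIdeal R).spanFinrank = n + 1 + 3 := by exact_mod_cast h1
      have h3 : (maximalIdeal (R ⧸ Ideal.span {x})).spanFinrank = n + 3 := by omega
      rw [h3]
    obtain ⟨R', i1, i2, φ, hφ, hdimR', hregR'⟩ := ih (R ⧸ Ideal.span {x})
      (fs.map (Ideal.Quotient.mk (Ideal.span {x}))) hdim' (by simpa using hlen) (by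
        intro f hf
        rw [List.mem_map] at hf
        obtain ⟨g, hg, rfl⟩ := hf
        rw [← map_mk_maximalIdeal]
        exact Ideal.mem_map_of_mem _ (hfs g hg)) hxreg
    refine ⟨R', i1, i2, φ.comp (Ideal.Quotient.mk (Ideal.span {x})),
      hφ.comp Ideal.Quotient.mk_surjective, hdimR', ?_⟩
    rw [List.map_map] at hregR'
    exact hregR'

end LicciCodimFour

end

section

/-!
# Minimal free resolutions modulo a regular element
-/

set_option autoImplicit false

namespace LicciCodimFour

open IsLocalRing RingTheory.Sequence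

universe u

section exactmod

variable {R : Type u} [CommRing R]

/-- Exactness modulo `x`. -/
theorem exact_mod {x : R} {M1 M2 M3 M1' M2' M3' : Type*} [AddCommGroup M1] [Module R M1]
    [AddCommGroup M2] [Module R M2] [AddCommGroup M3] [Module R M3] [AddCommGroup M2']
    [AddCommGroup M3'] (D2 : M1 →ₗ[R] M2) (D1 : M2 →ₗ[R] M3) (D2' : M1' → M2') (D1' : M2' → M3')
    (q1 : M1 → M1') (q2 : M2 →+ M2') (q3 : M3 →+ M3') (hq1 : Function.Surjective q1)
    (hq2 : Function.Surjective q2) (hq2k : ∀ z, q2 (x • z) = 0)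
    (hq3k : ∀ y, q3 y = 0 → ∃ z, y = x • z) (c2 : ∀ v, D2' (q1 v) = q2 (D2 v))
    (c1 : ∀ v, D1' (q2 v) = q3 (D1 v)) (h : Function.Exact D2 D1)
    (hx : ∀ y, (∃ v, D1 v = x • y) → ∃ v, D1 v = y) : Function.Exact D2' D1' := by
  intro y'
  constructor
  · intro hy'
    obtain ⟨y, rfl⟩ := hq2 y'
    rw [c1] at hy'
    obtain ⟨z, hz⟩ := hq3k _ hy'
    obtain ⟨v, hv⟩ := hx z ⟨y, hz⟩
    obtain ⟨w, hw⟩ := (h (y - x • v)).1 (by rw [map_sub, map_smul, hz, hv, sub_self])
    refine ⟨q1 w, ?_⟩
    rw [c2, hw, map_sub, hq2k, sub_zero]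
  · rintro ⟨w', rfl⟩
    obtain ⟨w, rfl⟩ := hq1 w'
    rw [c2, c1, h.apply_apply_eq_zero, map_zero]

end exactmod

section bc

variable {R S : Type u} [CommRing R] [CommRing S] (π : R →+* S)

/-- reduction of vectors -/
def bcv {n : ℕ} : (Fin n → R) →+ (Fin n → S) where
  toFun v i := π (v i)
  map_zero' := by ext i; exact map_zero π
  map_add' v w := by ext i; exact map_add π _ _

theorem bcv_apply {n : ℕ} (v : Fin n → R) (i : Fin n) : bcv π v i = π (v i) := rfl

theorem bcv_surjective {n : ℕ} (hπ : Function.Surjective π) :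
    Function.Surjective (bcv π : (Fin n → R) →+ (Fin n → S)) := by
  intro v
  choose w hw using fun i => hπ (v i)
  exact ⟨w, funext hw⟩

theorem bcv_smul {n : ℕ} (r : R) (v : Fin n → R) : bcv π (r • v) = π r • bcv π v := by
  ext i
  simp [bcv_apply]

theorem bcv_single {n : ℕ} (i : Fin n) :
    bcv π (Pi.single i 1 : Fin n → R) = (Pi.single i 1 : Fin n → S) := by
  ext j
  rw [bcv_apply]
  by_cases h : j = i
  · subst h
    simp
  · simp [Pi.single_eq_of_ne h]

/-- base change of a map of free modules -/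
def bcm {n m : ℕ} (D : (Fin n → R) →ₗ[R] (Fin m → R)) : (Fin n → S) →ₗ[S] (Fin m → S) :=
  Matrix.mulVecLin ((LinearMap.toMatrix' D).map π)

theorem bcm_apply {n m : ℕ} (D : (Fin n → R) →ₗ[R] (Fin m → R)) (v : Fin n → R) :
    bcm π D (bcv π v) = bcv π (D v) := by
  ext i
  have h1 : D v i = ((LinearMap.toMatrix' D).mulVec v) i := by
    conv_lhs => rw [← Matrix.toLin'_toMatrix' D]
    rfl
  rw [bcv_apply, h1]
  simp only [bcm, Matrix.mulVecLin_apply, Matrix.mulVec, dotProduct, Matrix.map_apply, map_sum,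
    map_mul, bcv_apply]

/-- base change of a linear form -/
def bcf {n : ℕ} (f : (Fin n → R) →ₗ[R] R) : (Fin n → S) →ₗ[S] S :=
  Fintype.linearCombination S (fun i => π (f (Pi.single i 1)))

theorem bcf_apply {n : ℕ} (f : (Fin n → R) →ₗ[R] R) (v : Fin n → R) :
    bcf π f (bcv π v) = π (f v) := by
  have h1 : f v = ∑ i, v i * f (Pi.single i 1) := by
    conv_lhs => rw [pi_eq_sum_univ' v]
    rw [map_sum]
    refine Finset.sum_congr rfl fun i _ => ?_
    rw [map_smul, smul_eq_mul]
  rw [h1, map_sum]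
  simp only [bcf, Fintype.linearCombination_apply, smul_eq_mul, map_mul, bcv_apply]

theorem range_bcf {n : ℕ} (hπ : Function.Surjective π) (f : (Fin n → R) →ₗ[R] R) :
    LinearMap.range (bcf π f) = Ideal.map π (LinearMap.range f) := by
  apply le_antisymm
  · rintro _ ⟨v, rfl⟩
    obtain ⟨v, rfl⟩ := bcv_surjective π hπ v
    rw [bcf_apply]
    exact Ideal.mem_map_of_mem π ⟨v, rfl⟩
  · rw [Ideal.map_le_iff_le_comap]
    rintro _ ⟨v, rfl⟩
    rw [Ideal.mem_comap]
    exact ⟨bcv π v, bcf_apply π f v⟩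

end bc

section res

variable {R S : Type u} [CommRing R] [CommRing S] [IsLocalRing R] [IsLocalRing S] [IsDomain R]
  (π : R →+* S) {x : R}

/-- A minimal free resolution modulo an element which is regular on the quotient. -/
theorem exists_resolution_mod (hπ : Function.Surjective π) (hker : ∀ r, π r = 0 ↔ ∃ s, r = x * s)
    (hm : ∀ r ∈ maximalIdeal R, π r ∈ maximalIdeal S) (hx0 : x ≠ 0) {I : Ideal R} {b : ℕ → ℕ}
    (F : MinimalFreeResolution I b) (hxI : ∀ r, x * r ∈ I → r ∈ I) :
    ∃ F' : MinimalFreeResolution (I.map π) b, F'.aug = bcf π F.aug ∧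
      ∀ i, F'.d i = bcm π (F.d i) := by
  have hvk : ∀ {n : ℕ} (y : Fin n → R), bcv π y = 0 → ∃ z, y = x • z := by
    intro n y hy
    choose z hz using fun i => (hker (y i)).1 (congrFun hy i)
    exact ⟨z, funext hz⟩
  have hvx : ∀ {n : ℕ} (z : Fin n → R), bcv π (x • z) = 0 := by
    intro n z
    have h1 : π x = 0 := (hker x).2 ⟨1, by rw [mul_one]⟩
    rw [bcv_smul, h1, zero_smul]
  have hdx : ∀ (i : ℕ) (y : Fin (b (i + 1)) → R), (∃ v, F.d i v = x • y) →
      ∃ v, F.d i v = y := by
    intro i y hy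
    obtain ⟨v, hv⟩ := hy
    cases i with
    | zero =>
      have h1 : F.aug (x • y) = 0 := by rw [← hv]; exact F.exact_aug.apply_apply_eq_zero v
      rw [map_smul, smul_eq_mul] at h1
      exact (F.exact_aug y).1 ((mul_eq_zero.1 h1).resolve_left hx0)
    | succ i =>
      have h1 : F.d i (x • y) = 0 := by rw [← hv]; exact (F.exact_d i).apply_apply_eq_zero v
      rw [map_smul] at h1
      exact (F.exact_d i y).1 ((smul_eq_zero.1 h1).resolve_left hx0)
  refine ⟨{ aug := bcf π F.aug
            d := fun i => bcm π (F.d i)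
            range_aug := ?_
            exact_aug := ?_
            exact_d := ?_
            minimal_aug := ?_
            minimal_d := ?_ }, rfl, fun i => rfl⟩
  · rw [range_bcf π hπ, F.range_aug]
  · refine exact_mod (x := x) (F.d 0) F.aug _ _ (bcv π) (bcv π) π.toAddMonoidHom
      (bcv_surjective π hπ) (bcv_surjective π hπ) (fun z => hvx z) ?_ (fun v => bcm_apply π _ v)
      (fun v => bcf_apply π _ v) F.exact_aug ?_
    · intro y hy
      obtain ⟨z, hz⟩ := (hker y).1 hy
      exact ⟨z, hz⟩
    · rintro y ⟨v, hv⟩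
      have h1 : x * y ∈ I := by
        rw [← F.range_aug]
        exact ⟨v, hv⟩
      have h2 := hxI y h1
      rw [← F.range_aug] at h2
      exact h2
  · intro i
    exact exact_mod (x := x) (F.d (i + 1)) (F.d i) _ _ (bcv π) (bcv π) (bcv π)
      (bcv_surjective π hπ) (bcv_surjective π hπ) (fun z => hvx z) (fun y hy => hvk y hy)
      (fun v => bcm_apply π _ v) (fun v => bcm_apply π _ v) (F.exact_d i) (hdx i)
  · intro v
    obtain ⟨v, rfl⟩ := bcv_surjective π hπ v
    rw [bcf_apply]
    exact hm _ (F.minimal_aug v)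
  · intro i v j
    obtain ⟨v, rfl⟩ := bcv_surjective π hπ v
    rw [bcm_apply]
    exact hm _ (F.minimal_d i v j)

end res

end LicciCodimFour

end

section

/-!
# Reduction of alternating forms modulo an element
-/

set_option autoImplicit false

namespace LicciCodimFour

universe u

variable {R S : Type u} [CommRing R] [CommRing S] (π : R →+* S)

section red

variable {N N' : Type*} [AddCommGroup N] [Module R N] [AddCommGroup N'] [Module S N']
  (q : N →ₛₗ[π] N') {c k : ℕ}

/-- the values of the reduced form -/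
def redAltFun (ω : (Fin c → R) [⋀^Fin k]→ₗ[R] N) (v : Fin k → Fin c → S) : N' :=
  ∑ r : Fin k → Fin c, (∏ i, v i (r i)) • q (ω fun i => Pi.single (r i) 1)

theorem redAltFun_apply (ω : (Fin c → R) [⋀^Fin k]→ₗ[R] N) (v : Fin k → Fin c → R) :
    redAltFun π q ω (fun i => bcv π (v i)) = q (ω v) := by
  have h1 : v = fun i => ∑ j, v i j • (Pi.single j 1 : Fin c → R) := by
    funext i
    exact pi_eq_sum_univ' (v i)
  have h2 : ω v = ∑ r : Fin k → Fin c, (∏ i, v i (r i)) • ω fun i => Pi.single (r i) 1 := by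
    conv_lhs => rw [h1]
    have h3 := MultilinearMap.map_sum ω.toMultilinearMap
      (fun (i : Fin k) (j : Fin c) => v i j • (Pi.single j 1 : Fin c → R))
    refine h3.trans (Finset.sum_congr rfl fun r _ => ?_)
    exact MultilinearMap.map_smul_univ ω.toMultilinearMap (fun i => v i (r i))
      (fun i => (Pi.single (r i) 1 : Fin c → R))
  rw [h2, map_sum]
  refine Finset.sum_congr rfl fun r _ => ?_
  rw [LinearMap.map_smulₛₗ, map_prod]
  rfl

theorem bcv_update [DecidableEq (Fin k)] {v : Fin k → Fin c → R} (i : Fin k) (w : Fin c → R) :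
    (fun j => bcv π (Function.update v i w j)) =
      Function.update (fun j => bcv π (v j)) i (bcv π w) := by
  funext j
  by_cases h : j = i
  · subst h
    simp
  · simp [Function.update_of_ne h]

/-- the reduced form -/
def redAlt (hπ : Function.Surjective π) (ω : (Fin c → R) [⋀^Fin k]→ₗ[R] N) :
    (Fin c → S) [⋀^Fin k]→ₗ[S] N' where
  toFun := redAltFun π q ω
  map_update_add' := by
    intro _ v i x y
    obtain ⟨v, rfl⟩ : ∃ w : Fin k → Fin c → R, (fun j => bcv π (w j)) = v := by
      choose w hw using fun j => bcv_surjective π hπ (v j)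
      exact ⟨w, funext hw⟩
    obtain ⟨x, rfl⟩ := bcv_surjective π hπ x
    obtain ⟨y, rfl⟩ := bcv_surjective π hπ y
    have h1 : ∀ z : Fin c → R, redAltFun π q ω (Function.update (fun j => bcv π (v j)) i
        (bcv π z)) = q (ω (Function.update v i z)) := by
      intro z
      rw [← bcv_update, redAltFun_apply]
    have h2 := h1 (x + y)
    rw [map_add] at h2
    rw [h2, h1, h1, ω.map_update_add, map_add]
  map_update_smul' := by
    intro _ v i r x
    obtain ⟨v, rfl⟩ : ∃ w : Fin k → Fin c → R, (fun j => bcv π (w j)) = v := by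
      choose w hw using fun j => bcv_surjective π hπ (v j)
      exact ⟨w, funext hw⟩
    obtain ⟨x, rfl⟩ := bcv_surjective π hπ x
    obtain ⟨r, rfl⟩ := hπ r
    have h1 : ∀ z : Fin c → R, redAltFun π q ω (Function.update (fun j => bcv π (v j)) i
        (bcv π z)) = q (ω (Function.update v i z)) := by
      intro z
      rw [← bcv_update, redAltFun_apply]
    have h2 := h1 (r • x)
    rw [bcv_smul] at h2
    rw [h2, h1, ω.map_update_smul, LinearMap.map_smulₛₗ]
  map_eq_zero_of_eq' := by
    intro v i j hij hne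
    classical
    choose w hw using fun j => bcv_surjective π hπ (v j)
    have h1 : v = fun l => bcv π (Function.update w j (w i) l) := by
      funext l
      by_cases h : l = j
      · subst h
        rw [Function.update_self, hw, hij]
      · rw [Function.update_of_ne h, hw]
    rw [h1, redAltFun_apply]
    have h2 : ω (Function.update w j (w i)) = 0 := by
      refine ω.map_eq_zero_of_eq _ (i := i) (j := j) ?_ hne
      rw [Function.update_self, Function.update_of_ne hne]
    rw [h2, map_zero]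

theorem redAlt_apply (hπ : Function.Surjective π) (ω : (Fin c → R) [⋀^Fin k]→ₗ[R] N)
    (v : Fin k → Fin c → R) : redAlt π q hπ ω (fun i => bcv π (v i)) = q (ω v) :=
  redAltFun_apply π q ω v

theorem redAlt_ext (hπ : Function.Surjective π) {α β : (Fin c → S) [⋀^Fin k]→ₗ[S] N'}
    (h : ∀ v : Fin k → Fin c → R, α (fun i => bcv π (v i)) = β (fun i => bcv π (v i))) :
    α = β := by
  ext v
  choose w hw using fun j => bcv_surjective π hπ (v j)
  have h1 : v = fun l => bcv π (w l) := funext fun l => (hw l).symm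
  rw [h1]
  exact h w

theorem redAlt_add (hπ : Function.Surjective π) (ω η : (Fin c → R) [⋀^Fin k]→ₗ[R] N) :
    redAlt π q hπ (ω + η) = redAlt π q hπ ω + redAlt π q hπ η := by
  refine redAlt_ext π hπ fun v => ?_
  rw [redAlt_apply, AlternatingMap.add_apply, AlternatingMap.add_apply, redAlt_apply,
    redAlt_apply, map_add]

theorem redAlt_smul (hπ : Function.Surjective π) (r : R) (ω : (Fin c → R) [⋀^Fin k]→ₗ[R] N) :
    redAlt π q hπ (r • ω) = π r • redAlt π q hπ ω := by
  refine redAlt_ext π hπ fun v => ?_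
  rw [redAlt_apply, AlternatingMap.smul_apply, AlternatingMap.smul_apply, redAlt_apply,
    LinearMap.map_smulₛₗ]

/-- reduction of alternating maps as a semilinear map -/
def redAltL (hπ : Function.Surjective π) (c k : ℕ) :
    ((Fin c → R) [⋀^Fin k]→ₗ[R] N) →ₛₗ[π] ((Fin c → S) [⋀^Fin k]→ₗ[S] N') where
  toFun := redAlt π q hπ
  map_add' := redAlt_add π q hπ
  map_smul' := redAlt_smul π q hπ

theorem redAltL_apply (hπ : Function.Surjective π) (ω : (Fin c → R) [⋀^Fin k]→ₗ[R] N)
    (v : Fin k → Fin c → R) : redAltL π q hπ c k ω (fun i => bcv π (v i)) = q (ω v) :=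
  redAltFun_apply π q ω v

end red

section surj

variable {c k : ℕ}

/-- an alternating form with given values on increasing families of basis vectors -/
theorem exists_alt_values {N : Type*} [AddCommGroup N] [Module R N]
    (g : Set.powersetCard (Fin c) k → N) :
    ∃ ω : (Fin c → R) [⋀^Fin k]→ₗ[R] N, ∀ s : Set.powersetCard (Fin c) k,
      ω (fun i => Pi.single (Set.powersetCard.ofFinEmbEquiv.symm s i) 1) = g s := by
  classical
  let b := (Pi.basisFun R (Fin c)).exteriorPower k
  refine ⟨exteriorPower.alternatingMapLinearEquiv.symm (b.constr R g), fun s => ?_⟩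
  rw [exteriorPower.alternatingMapLinearEquiv_symm_apply]
  have h1 : b s = exteriorPower.ιMulti R k
      (fun i => (Pi.single (Set.powersetCard.ofFinEmbEquiv.symm s i) 1 : Fin c → R)) := by
    rw [exteriorPower.basis_apply, exteriorPower.ιMulti_family]
    congr 1
    funext i
    simp
  change (b.constr R g) (exteriorPower.ιMulti R k
      (fun i => (Pi.single (Set.powersetCard.ofFinEmbEquiv.symm s i) 1 : Fin c → R))) = g s
  rw [← h1, Module.Basis.constr_basis]

/-- an alternating map is determined by its values on increasing families of basis vectors -/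
theorem alt_ext_basis {N : Type*} [AddCommGroup N] [Module R N]
    {ω η : (Fin c → R) [⋀^Fin k]→ₗ[R] N}
    (h : ∀ s : Set.powersetCard (Fin c) k,
      ω (fun i => Pi.single (Set.powersetCard.ofFinEmbEquiv.symm s i) 1) =
        η (fun i => Pi.single (Set.powersetCard.ofFinEmbEquiv.symm s i) 1)) : ω = η := by
  classical
  apply exteriorPower.alternatingMapLinearEquiv.injective
  let b := (Pi.basisFun R (Fin c)).exteriorPower k
  refine b.ext fun s => ?_
  have h1 : b s = exteriorPower.ιMulti R k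
      (fun i => (Pi.single (Set.powersetCard.ofFinEmbEquiv.symm s i) 1 : Fin c → R)) := by
    rw [exteriorPower.basis_apply, exteriorPower.ιMulti_family]
    congr 1
    funext i
    simp
  rw [h1, exteriorPower.alternatingMapLinearEquiv_apply_ιMulti,
    exteriorPower.alternatingMapLinearEquiv_apply_ιMulti]
  exact h s

variable {N N' : Type*} [AddCommGroup N] [Module R N] [AddCommGroup N'] [Module S N']
  (q : N →ₛₗ[π] N')

theorem redAltL_surjective (hπ : Function.Surjective π) (hq : Function.Surjective q) :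
    Function.Surjective (redAltL π q hπ c k) := by
  intro ω'
  choose g hg using fun s : Set.powersetCard (Fin c) k =>
    hq (ω' (fun i => Pi.single (Set.powersetCard.ofFinEmbEquiv.symm s i) 1))
  obtain ⟨ω, hω⟩ := exists_alt_values (R := R) g
  refine ⟨ω, alt_ext_basis fun s => ?_⟩
  have h1 : (fun i => (Pi.single (Set.powersetCard.ofFinEmbEquiv.symm s i) 1 : Fin c → S)) =
      fun i => bcv π (Pi.single (Set.powersetCard.ofFinEmbEquiv.symm s i) 1 : Fin c → R) := by
    funext i
    rw [bcv_single]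
  rw [← hg s, ← hω s]
  conv_lhs => rw [h1]
  exact redAltL_apply π q hπ ω _

theorem redAltL_ker (hπ : Function.Surjective π) {x : R}
    (hqk : ∀ y, q y = 0 → ∃ z, y = x • z) (ω : (Fin c → R) [⋀^Fin k]→ₗ[R] N)
    (hω : redAltL π q hπ c k ω = 0) : ∃ η, ω = x • η := by
  have h1 : ∀ s : Set.powersetCard (Fin c) k, ∃ z,
      ω (fun i => Pi.single (Set.powersetCard.ofFinEmbEquiv.symm s i) 1) = x • z := by
    intro s
    apply hqk
    rw [← redAltL_apply π q hπ ω, hω]
    rfl
  choose g hg using h1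
  obtain ⟨η, hη⟩ := exists_alt_values (R := R) g
  refine ⟨η, alt_ext_basis fun s => ?_⟩
  rw [hg, AlternatingMap.smul_apply, hη]

end surj

section desc

variable {N₁ N₂ N₁' N₂' : Type*} [AddCommGroup N₁] [Module R N₁] [AddCommGroup N₂] [Module R N₂]
  [AddCommGroup N₁'] [Module S N₁'] [AddCommGroup N₂'] [Module S N₂']

/-- descent of a linear map -/
theorem exists_desc (hπ : Function.Surjective π) {x : R} (hx : π x = 0) (q₁ : N₁ →ₛₗ[π] N₁')
    (q₂ : N₂ →ₛₗ[π] N₂') (hq₁ : Function.Surjective q₁) (hq₁k : ∀ y, q₁ y = 0 → ∃ z, y = x • z)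
    (p : N₁ →ₗ[R] N₂) : ∃ p' : N₁' →ₗ[S] N₂', ∀ y, p' (q₁ y) = q₂ (p y) := by
  have key : ∀ y z, q₁ y = q₁ z → q₂ (p y) = q₂ (p z) := by
    intro y z h
    obtain ⟨w, hw⟩ := hq₁k (y - z) (by rw [map_sub, h, sub_self])
    have h1 : q₂ (p (y - z)) = 0 := by
      rw [hw, map_smul, LinearMap.map_smulₛₗ, hx, zero_smul]
    rw [map_sub, map_sub, sub_eq_zero] at h1
    exact h1
  choose g hg using hq₁
  refine ⟨{ toFun := fun y => q₂ (p (g y))
            map_add' := ?_
            map_smul' := ?_ }, ?_⟩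
  · intro y z
    rw [← map_add, ← map_add]
    apply key
    rw [hg, map_add, hg, hg]
  · intro r y
    obtain ⟨r, rfl⟩ := hπ r
    rw [RingHom.id_apply, ← LinearMap.map_smulₛₗ, ← map_smul]
    apply key
    rw [hg, LinearMap.map_smulₛₗ, hg]
  · intro y
    exact key _ _ (hg _)

end desc

end LicciCodimFour

end

section

/-!
# Block (U): base change of `Cov` and `UData` along a pair of ring maps `R → R'`, `T → T'`
-/

namespace Pool.Agent.Licci.U

open Module

universe u

variable {B : Type} [Fintype B] [DecidableEq B]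

omit [DecidableEq B] in
theorem qf_map (q : B → B → ℤ) {A A' : Type u} [CommRing A] [CommRing A'] (φ : A →+* A')
    (x y : B → A) : φ (qf q x y) = qf q (φ ∘ x) (φ ∘ y) := by
  simp [qf]

omit [Fintype B] [DecidableEq B] in
theorem Sup_map (deg : B → ℤ) (k : ℤ) {A A' : Type u} [CommRing A] [CommRing A'] (φ : A →+* A')
    {x : B → A} (hx : Sup deg k x) : Sup deg k (φ ∘ x) := by
  intro b hb
  simp [hx b hb]

omit [DecidableEq B] in
theorem mulVec_map {A A' : Type u} [CommRing A] [CommRing A'] (φ : A →+* A')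
    (G : Matrix B B A) (x : B → A) : φ ∘ (G.mulVec x) = (G.map φ).mulVec (φ ∘ x) := by
  funext i
  exact RingHom.map_mulVec φ G x i

/-- homomorphism property is inherited by base change. -/
theorem hom_map (X : XTab B) {A A' : Type u} [CommRing A] [CommRing A'] (φ : A →+* A')
    (G : Matrix B B A)
    (h : ∀ x y, G.mulVec (X.br A x y) = X.br A (G.mulVec x) (G.mulVec y)) (x y : B → A') :
    (G.map φ).mulVec (X.br A' x y) = X.br A' ((G.map φ).mulVec x) ((G.map φ).mulVec y) := by
  let P : (B → A') →ₗ[A'] (B → A') := (G.map φ).mulVecLin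
  have key : (X.br A').compr₂ P = (X.br A').compl₁₂ P P := by
    refine LinearMap.ext_basis (Pi.basisFun A' B) (Pi.basisFun A' B) fun i j => ?_
    have e : ∀ i : B, (Pi.basisFun A' B) i = φ ∘ (Pi.single i (1 : A) : B → A) := by
      intro i
      funext b
      by_cases hb : b = i
      · subst hb
        simp
      · simp [Pi.single_eq_of_ne hb]
    simp only [LinearMap.compr₂_apply, LinearMap.compl₁₂_apply]
    change (G.map φ).mulVec (X.br A' _ _) = X.br A' ((G.map φ).mulVec _) ((G.map φ).mulVec _)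
    rw [e i, e j, ← bil_map, ← mulVec_map, ← mulVec_map, ← mulVec_map, ← bil_map, h]
  have := congrArg (fun L => L x y) key
  exact this

namespace Cov

variable {R : Type u} [CommRing R] {T : Type u} [CommRing T] [Algebra R T] (C : Cov R T)
variable {R' : Type u} [CommRing R'] {T' : Type u} [CommRing T'] [Algebra R' T']

/-- base change of the covering data -/
def map (φ : R →+* R') (inj : Function.Injective (algebraMap R' T'))
    (unit : ∀ i, IsUnit (algebraMap R' T' (φ (C.f i)))) : Cov R' T' where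
  f := fun i => φ (C.f i)
  inj := inj
  unit := unit

end Cov

section

variable {R : Type u} [CommRing R] {T : Type u} [CommRing T] [Algebra R T]
variable {R' : Type u} [CommRing R'] {T' : Type u} [CommRing T'] [Algebra R' T']

theorem Rl_map (φ : R →+* R') (ψ : T →+* T')
    (hψ : ∀ r, ψ (algebraMap R T r) = algebraMap R' T' (φ r)) (a : R) {x : T}
    (hx : x ∈ Rl R T a) : ψ x ∈ Rl R' T' (φ a) := by
  obtain ⟨N, r, h⟩ := (mem_Rl R T).1 hx
  refine (mem_Rl R' T').2 ⟨N, φ r, ?_⟩
  rw [← hψ, ← hψ, ← h, map_mul, map_pow]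

/-- base change of the frames -/
def UData.map {X : XTab B} {C : Cov R T} (D : UData X C) (φ : R →+* R') (ψ : T →+* T')
    (hψ : ∀ r, ψ (algebraMap R T r) = algebraMap R' T' (φ r))
    (inj : Function.Injective (algebraMap R' T'))
    (unit : ∀ i, IsUnit (algebraMap R' T' (φ (C.f i)))) : UData X (C.map φ inj unit) where
  G := fun i => (D.G i).map ψ
  G' := fun i => (D.G' i).map ψ
  GG' := by
    intro i
    have h := congrArg ψ.mapMatrix (D.GG' i)
    rw [map_mul, map_one] at h
    exact h
  G'G := by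
    intro i
    have h := congrArg ψ.mapMatrix (D.G'G i)
    rw [map_mul, map_one] at h
    exact h
  hG := fun i a b => Rl_map φ ψ hψ (C.f i) (D.hG i a b)
  hG' := fun i a b => Rl_map φ ψ hψ (C.f i) (D.hG' i a b)
  hom := fun i x y => hom_map X ψ (D.G i) (D.hom i) x y
  γ := fun l => φ ∘ D.γ l
  hγ := by
    intro i l
    have h := Sup_map X.deg 2 ψ (D.hγ i l)
    rw [mulVec_map] at h
    have e : (ψ ∘ (algebraMap R T ∘ D.γ l) : B → T') = algebraMap R' T' ∘ (φ ∘ D.γ l) := by
      funext b
      exact hψ _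
    rw [e] at h
    exact h
  M := D.M.map φ
  hMs := by
    rw [← Matrix.transpose_map, D.hMs]
  hMu := by
    have h := D.hMu.map φ
    rw [RingHom.map_det] at h
    exact h
  hM := by
    intro i k l
    have h := congrArg ψ (D.hM i k l)
    rw [qf_map, mulVec_map, mulVec_map, hψ] at h
    have e : ∀ l, (ψ ∘ (algebraMap R T ∘ D.γ l) : B → T') = algebraMap R' T' ∘ (φ ∘ D.γ l) := by
      intro l
      funext b
      exact hψ _
    rw [e, e] at h
    exact h

end

end Pool.Agent.Licci.U

end

section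

/-!
# Block (U), U8: unimodularity over any regular local ring from the case of dimension three
-/

namespace Pool.Agent.Licci.U

open Module RingTheory.Sequence IsLocalRing

universe u

/-- The statement `split` (U7). -/
def SplitStatement {B : Type} [Fintype B] [DecidableEq B] (X : XTab B) : Prop :=
  ∀ {R : Type u} [CommRing R] [IsLocalRing R] [IsNoetherianRing R] [Algebra ℚ R]
    {T : Type u} [CommRing T] [Algebra R T] (C : Cov R T)
    (_hm : ∀ i, C.f i ∈ maximalIdeal R) (_hreg : IsWeaklyRegular R [C.f 0, C.f 1, C.f 2])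
    (_hT : ∀ x : T, ∃ N : ℕ, ∃ r : R,
      algebraMap R T (C.f 0 * C.f 1 * C.f 2) ^ N * x = algebraMap R T r)
    (y1 y2 : R) (_hy : IsWeaklyRegular R [y1, y2]) (_hy1 : y1 ∈ maximalIdeal R)
    (_hy2 : y2 ∈ maximalIdeal R)
    (_hfree : ∀ (M : Type u) [AddCommGroup M] [Module R M] [Module.Finite R M],
      IsWeaklyRegular M [y1, y2] → ∀ (b : ℕ) (π : (Fin b → R) →ₗ[R] M), Function.Surjective π →
        Module.Free R (LinearMap.ker π))
    (D : UData X C) (c : Fin 14 → R)
    (_hc : ∀ b, ∑ l, c l * D.γ l b ∈ maximalIdeal R) (l : Fin 14),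
    c l ∈ maximalIdeal R

/-- A weakly regular sequence of length three in the maximal ideal forces dimension at least three. -/
theorem exists_dim_eq {R : Type u} [CommRing R] [IsRegularLocalRing R] (fs : List R)
    (hlen : fs.length = 3) (hm : ∀ f ∈ fs, f ∈ maximalIdeal R) (hreg : IsWeaklyRegular R fs) :
    ∃ n : ℕ, ringKrullDim R = (n + 3 : ℕ) := by
  have hr : IsRegular R fs := by
    refine ⟨hreg, ?_⟩
    have h1 : Ideal.ofList fs ≤ maximalIdeal R := Ideal.span_le.2 hm
    intro h
    rw [smul_eq_mul, Ideal.mul_top] at h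
    rw [← h] at h1
    exact (Ideal.IsPrime.ne_top (inferInstance : (maximalIdeal R).IsPrime)) (top_le_iff.1 h1)
  have h2 := ringKrullDim_add_length_eq_ringKrullDim_of_isRegular fs hr
  have hne : Ideal.ofList fs ≠ ⊤ := by
    have h1 : Ideal.ofList fs ≤ maximalIdeal R := Ideal.span_le.2 hm
    intro h
    rw [h] at h1
    exact (Ideal.IsPrime.ne_top (inferInstance : (maximalIdeal R).IsPrime)) (top_le_iff.1 h1)
  have : Nontrivial (R ⧸ Ideal.ofList fs) := Ideal.Quotient.nontrivial_iff.2 hne
  have : IsLocalRing (R ⧸ Ideal.ofList fs) :=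
    IsLocalRing.of_surjective' (Ideal.Quotient.mk _) Ideal.Quotient.mk_surjective
  obtain ⟨k, hk⟩ := LicciCodimFour.exists_ringKrullDim_eq (R ⧸ Ideal.ofList fs)
  refine ⟨k, ?_⟩
  rw [← h2, hk, hlen]
  rfl

theorem isSMulRegular_of_isWeaklyRegular_three {R : Type u} [CommRing R] [IsLocalRing R]
    [IsNoetherianRing R] {a b c : R} (ha : a ∈ maximalIdeal R) (hb : b ∈ maximalIdeal R)
    (hc : c ∈ maximalIdeal R) (h : IsWeaklyRegular R [a, b, c]) : a ≠ 0 ∧ b ≠ 0 ∧ c ≠ 0 := by
  have key : ∀ a b c : R, a ∈ maximalIdeal R → b ∈ maximalIdeal R → c ∈ maximalIdeal R →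
      IsWeaklyRegular R [a, b, c] → a ≠ 0 := by
    intro a b c ha hb hc h h0
    have h1 := ((isWeaklyRegular_cons_iff R a [b, c]).1 h).1
    subst h0
    exact one_ne_zero (h1 (by simp : (0 : R) • (1 : R) = (0 : R) • 0))
  have hall : ∀ z ∈ [a, b, c], z ∈ maximalIdeal R := by
    intro z hz
    simp only [List.mem_cons, List.not_mem_nil, or_false] at hz
    rcases hz with rfl | rfl | rfl <;> assumption
  refine ⟨key a b c ha hb hc h, key b a c hb ha hc ?_, key c a b hc ha hb ?_⟩
  · exact IsLocalRing.isWeaklyRegular_of_perm_of_subset_maximalIdeal h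
      (List.Perm.swap b a [c]) hall
  · refine IsLocalRing.isWeaklyRegular_of_perm_of_subset_maximalIdeal h ?_ hall
    exact (List.perm_append_singleton c [a, b])

variable {B : Type} [Fintype B] [DecidableEq B]

/-- U8 from U7. -/
theorem unimod_of_split (X : XTab B) (hsplit : SplitStatement.{u} X)
    {R : Type u} [CommRing R] [IsRegularLocalRing R] [Algebra ℚ R]
    {T : Type u} [CommRing T] [Algebra R T] (C : Cov R T)
    (hm : ∀ i, C.f i ∈ maximalIdeal R) (hreg : IsWeaklyRegular R [C.f 0, C.f 1, C.f 2])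
    (hT : ∀ x : T, ∃ N : ℕ, ∃ r : R,
      algebraMap R T (C.f 0 * C.f 1 * C.f 2) ^ N * x = algebraMap R T r)
    (D : UData X C) (c : Fin 14 → R)
    (hc : ∀ b, ∑ l, c l * D.γ l b ∈ maximalIdeal R) (l : Fin 14) :
    c l ∈ maximalIdeal R := by
  have hmem : ∀ f ∈ [C.f 0, C.f 1, C.f 2], f ∈ maximalIdeal R := by
    intro f hf
    simp only [List.mem_cons, List.not_mem_nil, or_false] at hf
    rcases hf with rfl | rfl | rfl <;> exact hm _
  obtain ⟨n, hn⟩ := exists_dim_eq [C.f 0, C.f 1, C.f 2] rfl hmem hreg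
  obtain ⟨R', i1, i2, φ, hφ, hdim, hreg'⟩ := LicciCodimFour.exists_slice_dim_three n R
    [C.f 0, C.f 1, C.f 2] hn rfl hmem hreg
  let : Algebra ℚ R' := (φ.comp (algebraMap ℚ R)).toAlgebra
  have hloc : IsLocalHom φ := hφ.isLocalHom
  have : IsDomain R' := LicciCodimFour.isDomain_of_isRegularLocalRing R'
  have hm' : ∀ i, φ (C.f i) ∈ maximalIdeal R' := fun i => map_nonunit φ _ (hm i)
  have hreg'' : IsWeaklyRegular R' [φ (C.f 0), φ (C.f 1), φ (C.f 2)] := hreg'
  obtain ⟨h0, h1, h2⟩ := isSMulRegular_of_isWeaklyRegular_three (hm' 0) (hm' 1) (hm' 2) hreg''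
  set a : R := C.f 0 * C.f 1 * C.f 2 with ha
  have ha' : φ a ≠ 0 := by
    rw [ha, map_mul, map_mul]
    exact mul_ne_zero (mul_ne_zero h0 h1) h2
  let T' : Type u := Localization.Away (φ a)
  have hpow : Submonoid.powers (φ a) ≤ nonZeroDivisors R' :=
    powers_le_nonZeroDivisors_of_noZeroDivisors ha'
  have hinj : Function.Injective (algebraMap R' T') :=
    IsLocalization.injective T' hpow
  have hunita : IsUnit (algebraMap R' T' (φ a)) := IsLocalization.Away.algebraMap_isUnit (φ a)
  have hunit : ∀ i, IsUnit (algebraMap R' T' (φ (C.f i))) := by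
    intro i
    refine isUnit_of_dvd_unit ?_ hunita
    apply map_dvd
    apply map_dvd
    rw [ha]
    fin_cases i
    · exact ⟨C.f 1 * C.f 2, by simp [mul_assoc]⟩
    · exact ⟨C.f 0 * C.f 2, by simp; ring⟩
    · exact ⟨C.f 0 * C.f 1, by simp; ring⟩
  -- `T` is a localization
  have hTloc : IsLocalization.Away a T := by
    refine ⟨?_, ?_, ?_⟩
    · rintro ⟨_, N, rfl⟩
      rw [map_pow]
      refine IsUnit.pow N ?_
      rw [ha, map_mul, map_mul]
      exact ((C.unit 0).mul (C.unit 1)).mul (C.unit 2)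
    · intro z
      obtain ⟨N, r, h⟩ := hT z
      refine ⟨⟨r, ⟨a ^ N, N, rfl⟩⟩, ?_⟩
      simp only [map_pow]
      rw [mul_comm, ← h]
    · intro x y hxy
      exact ⟨1, by rw [C.inj hxy]⟩
  let ψ : T →+* T' := IsLocalization.Away.lift a (g := (algebraMap R' T').comp φ) hunita
  have hψ : ∀ r, ψ (algebraMap R T r) = algebraMap R' T' (φ r) := fun r =>
    IsLocalization.Away.lift_eq a hunita r
  obtain ⟨y1, y2, hy1, hy2, hy, hfree⟩ := LicciCodimFour.hfree_dim_three R' hdim
  have hT' : ∀ x : T', ∃ N : ℕ, ∃ r : R',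
      algebraMap R' T' ((C.map φ hinj hunit).f 0 * (C.map φ hinj hunit).f 1 *
        (C.map φ hinj hunit).f 2) ^ N * x = algebraMap R' T' r := by
    intro x
    obtain ⟨N, r, h⟩ := IsLocalization.Away.surj (φ a) x
    refine ⟨N, r, ?_⟩
    rw [← h, mul_comm x]
    congr 2
    change algebraMap R' T' (φ (C.f 0) * φ (C.f 1) * φ (C.f 2)) = _
    rw [← map_mul φ, ← map_mul φ]
  have key := hsplit (C.map φ hinj hunit) hm' hreg'' hT' y1 y2 hy hy1 hy2 hfree
    (D.map φ ψ hψ hinj hunit) (fun l => φ (c l)) (by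
      intro b
      have h := map_nonunit φ _ (hc b)
      rw [map_sum] at h
      refine (Eq.subst ?_ h)
      exact Finset.sum_congr rfl fun l _ => map_mul φ _ _) l
  rw [mem_maximalIdeal, mem_nonunits_iff] at key ⊢
  exact fun h => key (h.map φ)

end Pool.Agent.Licci.U

end

section

/-!
# LICCI, codimension 6 (XE4): the minimal three term complex

`R` local Noetherian, the maximal ideal generated by a regular sequence of length six, `N` a finite
module with a piece `P4 → P3 → P2 → P1 → P0 → N → 0` of a free resolution such that the dual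
complex is exact at `P2*` and `P3*` (that is, `Ext² (N, R) = Ext³ (N, R) = 0`), and such that `N`
is projective after inverting any element of the maximal ideal.  Then there is a minimal complex
`E → B → C` of finite free modules, exact at `E`, with `H⁰ = N*` and `H¹ = Ext¹ (N, R)`, which
splits after inverting any element of the maximal ideal.
-/

set_option autoImplicit false

namespace Pool.Agent.Licci.XE

open RingTheory.Sequence IsLocalRing LicciCodimFour

universe u v

variable {R : Type u} [CommRing R]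

/-- `N` is projective after inverting any element of the maximal ideal. -/
def UP (R : Type u) [CommRing R] [IsLocalRing R] (N : Type v) [AddCommGroup N] [Module R N] :
    Prop :=
  ∀ y ∈ maximalIdeal R, ∃ (n s : ℕ) (a : N →ₗ[R] (Fin s → R)) (b : (Fin s → R) →ₗ[R] N),
    ∀ x, b (a x) = y ^ n • x

theorem wr_free {F : Type v} [AddCommGroup F] [Module R F] [Module.Free R F] {rs : List R}
    (hR : IsWeaklyRegular R rs) : IsWeaklyRegular F rs := by
  have h1 := IsWeaklyRegular.isWeaklyRegular_lTensor (M₂ := F) hR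
  exact (LinearEquiv.isWeaklyRegular_congr (TensorProduct.rid R F) _).1 h1

theorem wr_take {F : Type v} [AddCommGroup F] [Module R F] {rs rs' : List R}
    (h : IsWeaklyRegular F (rs ++ rs')) : IsWeaklyRegular F rs :=
  ((isWeaklyRegular_append_iff F rs rs').1 h).1

/-- the kernel of a linear map onto a submodule, in a chain -/
theorem wr_ker {F M : Type*} [AddCommGroup F] [Module R F] [AddCommGroup M] [Module R M]
    (rs : List R) (x : R) (p : F →ₗ[R] M) (hM : IsWeaklyRegular (LinearMap.range p) rs)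
    (hF : IsWeaklyRegular F (rs ++ [x])) : IsWeaklyRegular (LinearMap.ker p) (rs ++ [x]) := by
  refine isWeaklyRegular_kernel rs x (LinearMap.ker p) F (LinearMap.range p)
    (LinearMap.ker p).subtype p.rangeRestrict Subtype.val_injective ?_
    p.surjective_rangeRestrict hM hF
  intro y
  constructor
  · intro hy
    refine ⟨⟨y, ?_⟩, rfl⟩
    rw [LinearMap.mem_ker]
    exact congrArg Subtype.val hy
  · rintro ⟨⟨z, hz⟩, rfl⟩
    exact Subtype.ext hz

theorem wr_one_sub {F : Type v} [AddCommGroup F] [Module R F] (x : R) (S : Submodule R F)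
    (hF : IsWeaklyRegular F [x]) : IsWeaklyRegular S [x] := by
  rw [isWeaklyRegular_singleton_iff] at hF ⊢
  intro a b hab
  apply Subtype.ext
  exact hF (congrArg Subtype.val hab)

/-- pull back of linear forms -/
def pb {A B : Type v} [AddCommGroup A] [Module R A] [AddCommGroup B] [Module R B]
    (d : A →ₗ[R] B) : (B →ₗ[R] R) →ₗ[R] (A →ₗ[R] R) := LinearMap.lcomp R R d

theorem pb_apply {A B : Type v} [AddCommGroup A] [Module R A] [AddCommGroup B] [Module R B]
    (d : A →ₗ[R] B) (φ : B →ₗ[R] R) : pb d φ = φ ∘ₗ d := rfl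

section

variable {P0 P1 P2 P3 P4 : Type v} [AddCommGroup P0] [Module R P0] [AddCommGroup P1] [Module R P1]
  [AddCommGroup P2] [Module R P2] [AddCommGroup P3] [Module R P3] [AddCommGroup P4] [Module R P4]
  [Module.Free R P0] [Module.Free R P1] [Module.Free R P2] [Module.Free R P3] [Module.Free R P4]
  [Module.Finite R P0] [Module.Finite R P1] [Module.Finite R P2] [Module.Finite R P3]
  [Module.Finite R P4]
  (d1 : P1 →ₗ[R] P0) (d2 : P2 →ₗ[R] P1) (d3 : P3 →ₗ[R] P2) (d4 : P4 →ₗ[R] P3)

/-- the depth of the module of cocycles -/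
theorem wr_cocycles (y1 y2 y3 y4 : R) (hR : IsWeaklyRegular R [y1, y2, y3, y4])
    (ex2 : ∀ φ : P2 →ₗ[R] R, φ ∘ₗ d3 = 0 → ∃ ψ : P1 →ₗ[R] R, φ = ψ ∘ₗ d2)
    (ex3 : ∀ φ : P3 →ₗ[R] R, φ ∘ₗ d4 = 0 → ∃ ψ : P2 →ₗ[R] R, φ = ψ ∘ₗ d3)
    (h32 : d2 ∘ₗ d3 = 0) (h43 : d3 ∘ₗ d4 = 0) :
    IsWeaklyRegular (LinearMap.ker (pb d2)) [y1, y2, y3, y4] := by
  have hR1 : IsWeaklyRegular R [y1] := wr_take (rs' := [y2, y3, y4]) hR
  have hR2 : IsWeaklyRegular R [y1, y2] := wr_take (rs' := [y3, y4]) hR
  have hR3 : IsWeaklyRegular R [y1, y2, y3] := wr_take (rs' := [y4]) hR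
  have e4 : IsWeaklyRegular (LinearMap.range (pb d4)) [y1] :=
    wr_one_sub y1 _ (wr_free hR1)
  have e3 : IsWeaklyRegular (LinearMap.ker (pb d4)) [y1, y2] :=
    wr_ker [y1] y2 (pb d4) e4 (wr_free hR2)
  have r3 : LinearMap.range (pb d3) = LinearMap.ker (pb d4) := by
    apply le_antisymm
    · rintro _ ⟨ψ, rfl⟩
      rw [LinearMap.mem_ker, pb_apply, pb_apply,
        LinearMap.comp_assoc, h43, LinearMap.comp_zero]
    · intro φ hφ
      rw [LinearMap.mem_ker, pb_apply] at hφ
      obtain ⟨ψ, hψ⟩ := ex3 φ hφ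
      exact ⟨ψ, by rw [pb_apply]; exact hψ.symm⟩
  have e2 : IsWeaklyRegular (LinearMap.ker (pb d3)) [y1, y2, y3] :=
    wr_ker [y1, y2] y3 (pb d3) (by rw [r3]; exact e3) (wr_free hR3)
  have r2 : LinearMap.range (pb d2) = LinearMap.ker (pb d3) := by
    apply le_antisymm
    · rintro _ ⟨ψ, rfl⟩
      rw [LinearMap.mem_ker, pb_apply, pb_apply,
        LinearMap.comp_assoc, h32, LinearMap.comp_zero]
    · intro φ hφ
      rw [LinearMap.mem_ker, pb_apply] at hφ
      obtain ⟨ψ, hψ⟩ := ex2 φ hφ
      exact ⟨ψ, by rw [pb_apply]; exact hψ.symm⟩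
  exact wr_ker [y1, y2, y3] y4 (pb d2) (by rw [r2]; exact e2) (wr_free hR)

end

/-- A minimal three term complex `E → B → C` (`E = R ^ e`, `B = R ^ n`, `C = R ^ b`) attached to a
linear map `D : A → Z`: `B → A × C` has image the pairs `(φ, c)` with `D φ = psi c` and kernel
`E`; so `H⁰ = ker D` and `H¹ = Z / D A`. -/
structure Mono [IsLocalRing R] {A Z : Type v} [AddCommGroup A] [Module R A] [AddCommGroup Z]
    [Module R Z] (D : A →ₗ[R] Z) where
  e : ℕ
  n : ℕ
  b : ℕ
  dm : (Fin e → R) →ₗ[R] (Fin n → R)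
  d0 : (Fin n → R) →ₗ[R] (Fin b → R)
  bet : (Fin n → R) →ₗ[R] A
  psi : (Fin b → R) →ₗ[R] Z
  min_m : ∀ x i, dm x i ∈ maximalIdeal R
  min_0 : ∀ x i, d0 x i ∈ maximalIdeal R
  inj : Function.Injective dm
  d0_dm : ∀ x, d0 (dm x) = 0
  bet_dm : ∀ x, bet (dm x) = 0
  bet_D : ∀ x, D (bet x) = psi (d0 x)
  surj : ∀ (φ : A) (c : Fin b → R), D φ = psi c → ∃ x, bet x = φ ∧ d0 x = c
  exact : ∀ x, bet x = 0 → d0 x = 0 → ∃ w, dm w = x
  gen : ∀ z : Z, ∃ (c : Fin b → R) (φ : A), z = psi c + D φ
  min_psi : ∀ (c : Fin b → R) (φ : A), psi c = D φ → ∀ i, c i ∈ maximalIdeal R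
  split : ∀ y ∈ maximalIdeal R, ∃ (k : ℕ) (s : (Fin b → R) →ₗ[R] (Fin n → R))
    (r : (Fin n → R) →ₗ[R] (Fin e → R)), (∀ c, d0 (s c) = y ^ k • c) ∧
      ∀ x, r (dm x) = y ^ k • x

/-- Existence, from `depth Z ≥ 4` and local sections of `D`. -/
theorem exists_mono [IsLocalRing R] [IsNoetherianRing R] {A Z : Type v} [AddCommGroup A]
    [Module R A] [AddCommGroup Z] [Module R Z] [Module.Free R A] [Module.Finite R A]
    [Module.Finite R Z] (D : A →ₗ[R] Z) (y1 y2 y3 y4 y5 y6 : R)
    (hgen : Ideal.ofList [y1, y2, y3, y4, y5, y6] = maximalIdeal R)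
    (hR : IsWeaklyRegular R [y1, y2, y3, y4, y5, y6])
    (hZ : IsWeaklyRegular Z [y1, y2, y3, y4])
    (hloc : ∀ y ∈ maximalIdeal R, ∃ (k : ℕ) (hL : Z →ₗ[R] A), ∀ z, D (hL z) = y ^ k • z) :
    Nonempty (Mono D) := by
  classical
  have hR5 : IsWeaklyRegular R [y1, y2, y3, y4, y5] := wr_take (rs' := [y6]) hR
  let M := Z ⧸ LinearMap.range D
  obtain ⟨b, pM, hpM, hminM, -⟩ := exists_minimal_cover (R := R) M
  obtain ⟨psi, hpsi0⟩ := Module.projective_lifting_property (LinearMap.range D).mkQ pM
    (Submodule.mkQ_surjective _)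
  have hpsi : ∀ c, (Submodule.Quotient.mk (psi c) : M) = pM c := fun c =>
    LinearMap.congr_fun hpsi0 c
  -- the module `G`
  let Th : (A × (Fin b → R)) →ₗ[R] Z := D.coprod (-psi)
  have hTh : ∀ φ c, Th (φ, c) = D φ - psi c := fun φ c => by
    simp [Th, sub_eq_add_neg]
  have hThsurj : Function.Surjective Th := by
    intro z
    obtain ⟨c, hc⟩ := hpM (Submodule.Quotient.mk z)
    have h4 : (Submodule.Quotient.mk (z - psi c) : M) = 0 := by
      rw [Submodule.Quotient.mk_sub, hpsi, hc, sub_self]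
    rw [Submodule.Quotient.mk_eq_zero] at h4
    obtain ⟨φ, hφ⟩ := h4
    refine ⟨(φ, -c), ?_⟩
    rw [hTh, hφ, map_neg]
    abel
  let G := LinearMap.ker Th
  have hG : IsWeaklyRegular G [y1, y2, y3, y4, y5] := by
    refine isWeaklyRegular_kernel [y1, y2, y3, y4] y5 G (A × (Fin b → R)) Z
      G.subtype Th Subtype.val_injective ?_ hThsurj hZ (wr_free hR5)
    intro y
    constructor
    · intro hy
      exact ⟨⟨y, hy⟩, rfl⟩
    · rintro ⟨⟨z, hz⟩, rfl⟩
      exact hz
  obtain ⟨n, pG, hpG, hminG, -⟩ := exists_minimal_cover (R := R) G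
  have hE : Module.Free R (LinearMap.ker pG) :=
    free_kernel [y1, y2, y3, y4, y5] y6 hgen hR hG pG hpG
  let bE := Module.finBasis R (LinearMap.ker pG)
  let e := Module.finrank R (LinearMap.ker pG)
  let eqE : (Fin e → R) ≃ₗ[R] LinearMap.ker pG := bE.equivFun.symm
  let dm : (Fin e → R) →ₗ[R] (Fin n → R) := (LinearMap.ker pG).subtype ∘ₗ eqE.toLinearMap
  have hdm : ∀ x, dm x = (eqE x : Fin n → R) := fun x => rfl
  have hdmker : ∀ x, pG (dm x) = 0 := fun x => (eqE x).2
  let d0 : (Fin n → R) →ₗ[R] (Fin b → R) := LinearMap.snd R _ _ ∘ₗ G.subtype ∘ₗ pG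
  let bet : (Fin n → R) →ₗ[R] A := LinearMap.fst R _ _ ∘ₗ G.subtype ∘ₗ pG
  have hpair : ∀ x, (pG x : A × (Fin b → R)) = (bet x, d0 x) := fun x => rfl
  have hbd : ∀ x, D (bet x) = psi (d0 x) := by
    intro x
    have h4 := (pG x).2
    rw [LinearMap.mem_ker, hpair, hTh, sub_eq_zero] at h4
    exact h4
  have hmp : ∀ (c : Fin b → R) (φ : A), psi c = D φ → ∀ i, c i ∈ maximalIdeal R := by
    intro c φ h i
    refine hminM c ?_ i
    rw [← hpsi, Submodule.Quotient.mk_eq_zero]
    exact ⟨φ, h.symm⟩
  refine ⟨{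
    e := e
    n := n
    b := b
    dm := dm
    d0 := d0
    bet := bet
    psi := psi
    min_m := fun x i => hminG _ (hdmker x) i
    min_0 := fun x i => hmp (d0 x) (bet x) (hbd x).symm i
    inj := fun x y hxy => eqE.injective (Subtype.ext hxy)
    d0_dm := fun x => by
      show (pG (dm x) : A × (Fin b → R)).2 = 0
      rw [hdmker]
      rfl
    bet_dm := fun x => by
      show (pG (dm x) : A × (Fin b → R)).1 = 0
      rw [hdmker]
      rfl
    bet_D := hbd
    surj := ?_
    exact := ?_
    gen := ?_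
    min_psi := hmp
    split := ?_ }⟩
  · intro φ c hφ
    have h4 : Th (φ, c) = 0 := by
      rw [hTh, sub_eq_zero]
      exact hφ
    obtain ⟨x, hx⟩ := hpG ⟨(φ, c), h4⟩
    have h5 := congrArg Subtype.val hx
    rw [hpair] at h5
    exact ⟨x, congrArg Prod.fst h5, congrArg Prod.snd h5⟩
  · intro x hx1 hx2
    have h4 : pG x = 0 := by
      apply Subtype.ext
      rw [hpair, hx1, hx2]
      rfl
    refine ⟨eqE.symm ⟨x, h4⟩, ?_⟩
    rw [hdm, LinearEquiv.apply_symm_apply]
  · intro z
    obtain ⟨⟨φ0, c⟩, hc⟩ := hThsurj z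
    rw [hTh] at hc
    refine ⟨-c, φ0, ?_⟩
    rw [map_neg, ← hc]
    abel
  · intro y hy
    obtain ⟨k, hL, hhL⟩ := hloc y hy
    -- the splitting at `C`
    let s0 : (Fin b → R) →ₗ[R] G := ((hL ∘ₗ psi).prod (y ^ k • LinearMap.id)).codRestrict G
      (fun c => by
        rw [LinearMap.mem_ker]
        show Th (hL (psi c), y ^ k • c) = 0
        rw [hTh, hhL, map_smul, sub_self])
    obtain ⟨s1, hs1⟩ := Module.projective_lifting_property pG s0 hpG
    have hs1' : ∀ c, pG (s1 c) = s0 c := fun c => LinearMap.congr_fun hs1 c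
    -- the splitting at `E`
    let r0 : (A × (Fin b → R)) →ₗ[R] G :=
      ((y ^ k • (LinearMap.id : (A × (Fin b → R)) →ₗ[R] _)) -
        LinearMap.inl R A (Fin b → R) ∘ₗ hL ∘ₗ Th).codRestrict G (fun x => by
        rw [LinearMap.mem_ker]
        show Th (y ^ k • x - (hL (Th x), 0)) = 0
        have e1 : Th (hL (Th x), 0) = y ^ k • Th x := by
          rw [hTh (hL (Th x)) 0, hhL, map_zero, sub_zero]
        rw [map_sub, map_smul, e1, sub_self])
    have hr0 : ∀ x : G, r0 (x : A × (Fin b → R)) = y ^ k • x := by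
      intro x
      apply Subtype.ext
      show y ^ k • (x : A × (Fin b → R)) - (hL (Th x), 0) = _
      have h5 : Th x = 0 := x.2
      rw [h5, map_zero]
      have h6 : ((0 : A), (0 : Fin b → R)) = 0 := rfl
      rw [h6, sub_zero]
      rfl
    obtain ⟨r1, hr1⟩ := Module.projective_lifting_property pG r0 hpG
    have hr1' : ∀ x, pG (r1 x) = r0 x := fun x => LinearMap.congr_fun hr1 x
    let r2 : (Fin n → R) →ₗ[R] LinearMap.ker pG :=
      ((y ^ k • (LinearMap.id : (Fin n → R) →ₗ[R] _)) -
        r1 ∘ₗ G.subtype ∘ₗ pG).codRestrict (LinearMap.ker pG) (fun x => by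
          rw [LinearMap.mem_ker]
          show pG (y ^ k • x - r1 (pG x)) = 0
          rw [map_sub, map_smul, hr1', hr0, sub_self])
    refine ⟨k, s1, eqE.symm.toLinearMap ∘ₗ r2, ?_, ?_⟩
    · intro c
      show (pG (s1 c) : A × (Fin b → R)).2 = _
      rw [hs1']
      rfl
    · intro x
      have h4 : r2 (dm x) = y ^ k • eqE x := by
        apply Subtype.ext
        show y ^ k • dm x - r1 (pG (dm x)) = _
        rw [hdmker]
        show y ^ k • dm x - r1 0 = _
        rw [map_zero, sub_zero]
        rfl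
      show eqE.symm (r2 (dm x)) = _
      rw [h4, map_smul, LinearEquiv.symm_apply_apply]

section main

variable [IsLocalRing R] [IsNoetherianRing R] {N : Type v} [AddCommGroup N] [Module R N]
  {P0 P1 P2 P3 P4 : Type v} [AddCommGroup P0] [Module R P0] [AddCommGroup P1] [Module R P1]
  [AddCommGroup P2] [Module R P2] [AddCommGroup P3] [Module R P3] [AddCommGroup P4] [Module R P4]
  (aug : P0 →ₗ[R] N) (d1 : P1 →ₗ[R] P0) (d2 : P2 →ₗ[R] P1) (d3 : P3 →ₗ[R] P2)
  (d4 : P4 →ₗ[R] P3)

omit [IsLocalRing R] [IsNoetherianRing R] in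
/-- local homotopies from a local section -/
theorem exists_h0 [Module.Free R P0] (haug : Function.Surjective aug)
    (h0 : Function.Exact d1 aug) (h1 : Function.Exact d2 d1) {y : R} {n s : ℕ}
    (a : N →ₗ[R] (Fin s → R)) (b : (Fin s → R) →ₗ[R] N) (hab : ∀ x, b (a x) = y ^ n • x) :
    ∃ h : P0 →ₗ[R] P1, ∀ φ : P1 →ₗ[R] R, φ ∘ₗ d2 = 0 → (φ ∘ₗ h) ∘ₗ d1 = y ^ n • φ := by
  -- lift `b`
  obtain ⟨b', hb'⟩ := Module.projective_lifting_property aug b haug
  have hb'' : ∀ x, aug (b' x) = b x := fun x => LinearMap.congr_fun hb' x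
  let u : P0 →ₗ[R] P0 := y ^ n • LinearMap.id - b' ∘ₗ a ∘ₗ aug
  have hu : ∀ x, u x = y ^ n • x - b' (a (aug x)) := fun x => rfl
  have hmem : ∀ x, u x ∈ LinearMap.range d1 := by
    intro x
    refine (h0 _).1 ?_
    rw [hu, map_sub, map_smul, hb'', hab, sub_self]
  obtain ⟨h, hh⟩ := Module.projective_lifting_property d1.rangeRestrict
    (u.codRestrict (LinearMap.range d1) hmem) d1.surjective_rangeRestrict
  have hh' : ∀ x, d1 (h x) = y ^ n • x - b' (a (aug x)) := by
    intro x
    have := congrArg Subtype.val (LinearMap.congr_fun hh x)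
    exact this
  refine ⟨h, fun φ hφ => ?_⟩
  ext x
  have h3 : d1 (y ^ n • x - h (d1 x)) = 0 := by
    rw [map_sub, map_smul, hh', h0.apply_apply_eq_zero, map_zero, map_zero, sub_zero, sub_self]
  obtain ⟨z, hz⟩ := (h1 _).1 h3
  have h4 : φ (d2 z) = 0 := LinearMap.congr_fun hφ z
  rw [hz, map_sub, map_smul, sub_eq_zero] at h4
  show φ (h (d1 x)) = y ^ n • φ x
  rw [← h4]

/-- `P0* → {φ : P1 → R | φ ∘ d2 = 0}` -/
def cob (h1 : d1 ∘ₗ d2 = 0) : (P0 →ₗ[R] R) →ₗ[R] LinearMap.ker (pb (R := R) d2) :=
  (pb d1).codRestrict _ (fun φ => by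
    rw [LinearMap.mem_ker, pb_apply, pb_apply, LinearMap.comp_assoc, h1, LinearMap.comp_zero])

/-- The minimal three term complex of `N`. -/
theorem exists_mono_of_res [Module.Free R P0] [Module.Free R P1] [Module.Free R P2]
    [Module.Free R P3] [Module.Free R P4] [Module.Finite R P0] [Module.Finite R P1]
    [Module.Finite R P2] [Module.Finite R P3] [Module.Finite R P4] (y1 y2 y3 y4 y5 y6 : R)
    (hgen : Ideal.ofList [y1, y2, y3, y4, y5, y6] = maximalIdeal R)
    (hR : IsWeaklyRegular R [y1, y2, y3, y4, y5, y6])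
    (haug : Function.Surjective aug) (h0 : Function.Exact d1 aug) (h1 : Function.Exact d2 d1)
    (h2 : Function.Exact d3 d2) (h3 : Function.Exact d4 d3)
    (ex2 : ∀ φ : P2 →ₗ[R] R, φ ∘ₗ d3 = 0 → ∃ ψ : P1 →ₗ[R] R, φ = ψ ∘ₗ d2)
    (ex3 : ∀ φ : P3 →ₗ[R] R, φ ∘ₗ d4 = 0 → ∃ ψ : P2 →ₗ[R] R, φ = ψ ∘ₗ d3)
    (hN : UP R N) :
    Nonempty (Mono (R := R) (A := (P0 →ₗ[R] R)) (Z := ↥(LinearMap.ker (pb (R := R) d2)))
      (cob (R := R) d1 d2 (LinearMap.ext fun x => h1.apply_apply_eq_zero x))) := by
  have h32 : d2 ∘ₗ d3 = 0 := LinearMap.ext fun x => h2.apply_apply_eq_zero x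
  have h43 : d3 ∘ₗ d4 = 0 := LinearMap.ext fun x => h3.apply_apply_eq_zero x
  have hR4 : IsWeaklyRegular R [y1, y2, y3, y4] := wr_take (rs' := [y5, y6]) hR
  have hZ1 := wr_cocycles d2 d3 d4 y1 y2 y3 y4 hR4 ex2 ex3 h32 h43
  refine exists_mono _ y1 y2 y3 y4 y5 y6 hgen hR hZ1 ?_
  intro y hy
  obtain ⟨k, s, a, b', hab⟩ := hN y hy
  obtain ⟨h, hh⟩ := exists_h0 aug d1 d2 haug h0 h1 a b' hab
  refine ⟨k, pb h ∘ₗ (LinearMap.ker (pb (R := R) d2)).subtype, fun z => ?_⟩
  apply Subtype.ext
  exact hh z z.2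

end main

end Pool.Agent.Licci.XE

end

section

/-!
Extremal elements of a Lie algebra with an invariant form: the module `Phi` of all `y` with
`[p, y] = 0` and `[p, [y, w]] = - (p, w) y - (y, w) p` is split by `y ↦ ([w, y], (y, w))` after
inverting `(p, w)`.  All statements for a bilinear bracket `b` and a bilinear form `κ`.
-/

set_option autoImplicit false

namespace Pool.Agent.Licci.XE

open IsLocalRing

universe u v

section alg

variable {A : Type*} [CommRing A] {V : Type*} [AddCommGroup V] [Module A V]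
  (b : V →ₗ[A] V →ₗ[A] V) (κ : V →ₗ[A] V →ₗ[A] A)

/-- the properties of the bracket, of the form and of the extremal element -/
structure ConeDat (p : V) : Prop where
  skew : ∀ x y, b x y = - b y x
  self : ∀ x, b x x = 0
  jac : ∀ x y z, b x (b y z) = b (b x y) z + b y (b x z)
  inv : ∀ x y z, κ (b x y) z = κ x (b y z)
  sym : ∀ x y, κ x y = κ y x
  two : ∀ x y : V, (2 : A) • x = (2 : A) • y → x = y
  cone : ∀ y, b p (b p y) = (-(2 * κ p y)) • p

variable {b κ} {p : V} (H : ConeDat b κ p)
include H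

/-- first Premet identity -/
theorem ConeDat.premet (y z : V) :
    b (b p y) (b p z) = -(κ p (b y z)) • p + κ p y • b p z - κ p z • b p y := by
  apply H.two
  have h1 := H.cone (b y z)
  rw [H.jac p y z, map_add, H.jac p (b p y) z, H.jac p y (b p z), H.cone, H.cone, map_smul,
    map_smul, LinearMap.smul_apply, H.skew y p] at h1
  have h2 : (2 : A) • b (b p y) (b p z) = (-(2 * κ p (b y z))) • p - (-(2 * κ p y)) • b p z -
      (-(2 * κ p z)) • - b p y := by
    rw [← h1, two_smul]
    abel
  rw [h2]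
  module

/-- second Premet identity -/
theorem ConeDat.premet' (z w : V) :
    b p (b z (b p w)) = -(κ p (b z w)) • p + κ p z • b p w + κ p w • b p z := by
  rw [H.jac p z (b p w), H.premet, H.cone, map_smul, H.skew z p]
  module

/-- brackets `[p, z]` with `(p, z) = 0` satisfy the linearized cone identity -/
theorem ConeDat.lin (z : V) (hz : κ p z = 0) (w : V) :
    b p (b (b p z) w) = -(κ p w • b p z) - κ (b p z) w • p := by
  have h1 : b (b p z) w = b p (b z w) - b z (b p w) := by
    rw [H.jac p z w]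
    abel
  rw [h1, map_sub, H.cone, H.premet', hz, H.inv p z w]
  module

theorem ConeDat.self_lin (w : V) : b p (b p w) = -(κ p w • p) - κ p w • p := by
  rw [H.cone]
  module

/-- recovery of `y` -/
theorem ConeDat.recover {y : V} (hy : ∀ w, b p (b y w) = -(κ p w • y) - κ y w • p) (w : V) :
    κ p w • y = b p (b w y) - κ y w • p := by
  rw [H.skew w y, map_neg, hy]
  abel

end alg

/-- from local splittings to `UP` -/
theorem UP_of_local {R : Type u} [CommRing R] [IsLocalRing R] {N : Type v} [AddCommGroup N]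
    [Module R N] {ι : Type} [Fintype ι] (V : Type*) [AddCommGroup V] [Module R V] [Module.Free R V]
    [Module.Finite R V] (g : ι → R) (k : ℕ) (a : ι → N →ₗ[R] V) (b : ι → V →ₗ[R] N)
    (h : ∀ i x, b i (a i x) = g i ^ k • x)
    (hg : ∀ y ∈ maximalIdeal R, ∃ n : ℕ, y ^ n ∈ Ideal.span (Set.range g)) : UP R N := by
  classical
  intro y hy
  obtain ⟨n, hn⟩ := hg y hy
  have h1 : y ∈ (Ideal.span (Set.range fun i => g i ^ k)).radical := by
    have h2 : Ideal.span (Set.range g) ≤ (Ideal.span (Set.range fun i => g i ^ k)).radical := by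
      rw [Ideal.span_le]
      rintro _ ⟨i, rfl⟩
      exact ⟨k, Ideal.subset_span ⟨i, rfl⟩⟩
    exact Ideal.mem_radical_of_pow_mem (h2 hn)
  obtain ⟨m, hm⟩ := h1
  obtain ⟨c, hc⟩ := (Submodule.mem_span_range_iff_exists_fun R).1 hm
  let e : (ι → V) ≃ₗ[R] (Fin (Module.finrank R (ι → V)) → R) :=
    (Module.finBasis R (ι → V)).equivFun
  refine ⟨m, Module.finrank R (ι → V), e.toLinearMap ∘ₗ LinearMap.pi a,
    (∑ i, c i • (b i ∘ₗ LinearMap.proj i)) ∘ₗ e.symm.toLinearMap, fun x => ?_⟩
  rw [LinearMap.comp_apply, LinearMap.comp_apply, LinearEquiv.coe_coe, LinearEquiv.coe_coe,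
    LinearEquiv.symm_apply_apply, LinearMap.sum_apply, ← hc, Finset.sum_smul]
  refine Finset.sum_congr rfl fun i _ => ?_
  rw [LinearMap.smul_apply, LinearMap.comp_apply, LinearMap.proj_apply, LinearMap.pi_apply, h,
    smul_smul, smul_eq_mul]

end Pool.Agent.Licci.XE

end
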