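import Pool.Agent.Work.MP_a98e4e_ag.Fu.Acyclic
import Mathlib
import Pool.Agent.Work.MP_a98e4e_ag.Fu.DLink
import Pool.Agent.Work.MP_a98e4e_ag.Fu.Bridge
import Pool.Agent.Work.MP_a98e4e_ag.Defs

section

/-!
# The acyclicity lemma for an explicit complex of five modules
-/

namespace LicciCodimFour

open RingTheory.Sequence

universe u v

variable {R : Type u} [CommRing R]

/-- The modules of a five term complex, extended by zero. -/
def fam5 (R : Type u) [CommRing R] (M1 M2 M3 M4 M5 : ModuleCat.{v} R) : ℕ → ModuleCat.{v} R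
  | 1 => M1
  | 2 => M2
  | 3 => M3
  | 4 => M4
  | 5 => M5
  | _ => ModuleCat.of R PUnit

/-- The differentials of a five term complex, extended by zero. -/
def famd5 (R : Type u) [CommRing R] (M1 M2 M3 M4 M5 : ModuleCat.{v} R)
    (f1 : M1 →ₗ[R] M2) (f2 : M2 →ₗ[R] M3) (f3 : M3 →ₗ[R] M4) (f4 : M4 →ₗ[R] M5) :
    ∀ i, (fam5 R M1 M2 M3 M4 M5 i) →ₗ[R] (fam5 R M1 M2 M3 M4 M5 (i + 1))
  | 0 => 0
  | 1 => f1
  | 2 => f2
  | 3 => f3
  | 4 => f4
  | _ + 5 => 0

/-- Acyclicity lemma for five explicit modules `M1 → M2 → M3 → M4 → M5` and a list of length four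
which is weakly regular on all of them and whose elements kill (up to powers) the cohomology at
`M1, …, M4`. -/
theorem acyclic5 {M1 M2 M3 M4 M5 : Type v} [AddCommGroup M1] [Module R M1] [AddCommGroup M2]
    [Module R M2] [AddCommGroup M3] [Module R M3] [AddCommGroup M4] [Module R M4]
    [AddCommGroup M5] [Module R M5] (f1 : M1 →ₗ[R] M2) (f2 : M2 →ₗ[R] M3) (f3 : M3 →ₗ[R] M4)
    (f4 : M4 →ₗ[R] M5) (h12 : ∀ x, f2 (f1 x) = 0) (h23 : ∀ x, f3 (f2 x) = 0)
    (h34 : ∀ x, f4 (f3 x) = 0) (rs : List R) (hlen : rs.length = 4)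
    (r1 : IsWeaklyRegular M1 rs) (r2 : IsWeaklyRegular M2 rs) (r3 : IsWeaklyRegular M3 rs)
    (r4 : IsWeaklyRegular M4 rs) (r5 : IsWeaklyRegular M5 rs)
    (k1 : ∀ r ∈ rs, ∀ z, f1 z = 0 → ∃ n : ℕ, r ^ n • z = 0)
    (k2 : ∀ r ∈ rs, ∀ z, f2 z = 0 → ∃ n : ℕ, ∃ y, f1 y = r ^ n • z)
    (k3 : ∀ r ∈ rs, ∀ z, f3 z = 0 → ∃ n : ℕ, ∃ y, f2 y = r ^ n • z)
    (k4 : ∀ r ∈ rs, ∀ z, f4 z = 0 → ∃ n : ℕ, ∃ y, f3 y = r ^ n • z) :
    Function.Injective f1 ∧ Function.Exact f1 f2 ∧ Function.Exact f2 f3 ∧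
      Function.Exact f3 f4 := by
  let A1 := ModuleCat.of R M1
  let A2 := ModuleCat.of R M2
  let A3 := ModuleCat.of R M3
  let A4 := ModuleCat.of R M4
  let A5 := ModuleCat.of R M5
  let g1 : A1 →ₗ[R] A2 := f1
  let g2 : A2 →ₗ[R] A3 := f2
  let g3 : A3 →ₗ[R] A4 := f3
  let g4 : A4 →ₗ[R] A5 := f4
  have hpu : IsWeaklyRegular (PUnit.{v + 1}) rs := by
    constructor
    intro i hi
    intro x y _
    exact Subsingleton.elim _ _
  have key := acyclic rs (fun i => fam5 R A1 A2 A3 A4 A5 i) (famd5 R A1 A2 A3 A4 A5 g1 g2 g3 g4)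
    (fun i => match i with
      | 0 => fun x => map_zero g1
      | 1 => fun x => h12 x
      | 2 => fun x => h23 x
      | 3 => fun x => h34 x
      | 4 => fun _ => rfl
      | _ + 5 => fun _ => rfl)
    (by show Subsingleton PUnit; infer_instance)
    (fun i => match i with
      | 0 => hpu
      | 1 => r1
      | 2 => r2
      | 3 => r3
      | 4 => r4
      | 5 => r5
      | _ + 6 => hpu)
    (fun r hr i hi => match i, hi with
      | 0, _ => fun z hz => by
          obtain ⟨n, hn⟩ := k1 r hr z hz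
          exact ⟨n, 0, ((map_zero _).trans hn.symm)⟩
      | 1, _ => fun z hz => k2 r hr z hz
      | 2, _ => fun z hz => k3 r hr z hz
      | 3, _ => fun z hz => k4 r hr z hz
      | _ + 4, h => absurd h (by omega))
  have e0 := key 0 (by omega)
  have e1 := key 1 (by omega)
  have e2 := key 2 (by omega)
  have e3 := key 3 (by omega)
  refine ⟨?_, ?_, ?_, ?_⟩
  · rw [injective_iff_map_eq_zero]
    intro z hz
    obtain ⟨y, hy⟩ := e0 z hz
    rw [← hy]
    rfl
  · intro z
    exact ⟨fun hz => e1 z hz, by rintro ⟨y, rfl⟩; exact h12 y⟩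
  · intro z
    exact ⟨fun hz => e2 z hz, by rintro ⟨y, rfl⟩; exact h23 y⟩
  · intro z
    exact ⟨fun hz => e3 z hz, by rintro ⟨y, rfl⟩; exact h34 y⟩

/-- Four term version: with `M5 = 0`, the last map is onto. -/
theorem acyclic4_surjective {M1 M2 M3 M4 : Type v} [AddCommGroup M1] [Module R M1]
    [AddCommGroup M2] [Module R M2] [AddCommGroup M3] [Module R M3] [AddCommGroup M4]
    [Module R M4] (f1 : M1 →ₗ[R] M2) (f2 : M2 →ₗ[R] M3) (f3 : M3 →ₗ[R] M4)
    (h12 : ∀ x, f2 (f1 x) = 0) (h23 : ∀ x, f3 (f2 x) = 0)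
    (rs : List R) (hlen : rs.length = 4)
    (r1 : IsWeaklyRegular M1 rs) (r2 : IsWeaklyRegular M2 rs) (r3 : IsWeaklyRegular M3 rs)
    (r4 : IsWeaklyRegular M4 rs)
    (k1 : ∀ r ∈ rs, ∀ z, f1 z = 0 → ∃ n : ℕ, r ^ n • z = 0)
    (k2 : ∀ r ∈ rs, ∀ z, f2 z = 0 → ∃ n : ℕ, ∃ y, f1 y = r ^ n • z)
    (k3 : ∀ r ∈ rs, ∀ z, f3 z = 0 → ∃ n : ℕ, ∃ y, f2 y = r ^ n • z)
    (k4 : ∀ r ∈ rs, ∀ z, ∃ n : ℕ, ∃ y, f3 y = r ^ n • z) :
    Function.Injective f1 ∧ Function.Exact f1 f2 ∧ Function.Exact f2 f3 ∧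
      Function.Surjective f3 := by
  have hpu : IsWeaklyRegular (PUnit.{v + 1}) rs := by
    constructor
    intro i hi
    intro x y _
    exact Subsingleton.elim _ _
  obtain ⟨a, b, c, d⟩ := acyclic5 f1 f2 f3 (0 : M4 →ₗ[R] PUnit.{v + 1}) h12 h23
    (fun x => rfl) rs hlen r1 r2 r3 r4 hpu k1 k2 k3 (fun r hr z _ => k4 r hr z)
  exact ⟨a, b, c, fun z => (d z).1 rfl⟩

end LicciCodimFour

end

section

/-!
The module `P'(f, ν) = {(v, w) ∈ M × Λ² M^* : f v = 0, f ∧ w = i_v ν}` of a linear form `f` whose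
values contain a regular sequence of length `4` and a four-form `ν` with `f ∧ ν = 0`, and its
perfect symmetric form.
-/

namespace Pool.Agent.Licci

open RingTheory.Sequence Pointwise

universe u v w

section general

variable {R : Type*} {M : Type*} {N : Type*} [CommRing R] [AddCommGroup M] [Module R M]
  [AddCommGroup N] [Module R N]

theorem contr_add_left (u v : M) (n : ℕ) (ω : M [⋀^Fin (n + 1)]→ₗ[R] N) :
    contr (u + v) n ω = contr u n ω + contr v n ω := by
  simp [contr]

theorem contr_smul_left (c : R) (u : M) (n : ℕ) (ω : M [⋀^Fin (n + 1)]→ₗ[R] N) :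
    contr (c • u) n ω = c • contr u n ω := by
  simp [contr]

theorem contr_zero_left (n : ℕ) (ω : M [⋀^Fin (n + 1)]→ₗ[R] N) :
    contr (0 : M) n ω = 0 := by
  simp [contr]

theorem wedge_contr (g : M →ₗ[R] R) (u : M) (n : ℕ) (ω : M [⋀^Fin (n + 1)]→ₗ[R] N) :
    wedge g n (contr u n ω) = g u • ω - contr u (n + 1) (wedge g (n + 1) ω) := by
  rw [contr_wedge, sub_sub_cancel]

theorem contr_contr_self (u : M) (n : ℕ) (ω : M [⋀^Fin (n + 2)]→ₗ[R] N) :
    contr u n (contr u (n + 1) ω) = 0 := by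
  ext v
  rw [contr_apply, contr_apply, AlternatingMap.zero_apply]
  apply ω.map_eq_zero_of_eq _ (i := 0) (j := 1)
  · simp
  · simp

theorem contr_contr_anti (u v : M) (n : ℕ) (ω : M [⋀^Fin (n + 2)]→ₗ[R] N) :
    contr u n (contr v (n + 1) ω) = - contr v n (contr u (n + 1) ω) := by
  have := contr_contr_self (u + v) n ω
  rw [contr_add_left, contr_add_left, map_add, map_add, contr_contr_self, contr_contr_self,
    zero_add, add_zero] at this
  exact eq_neg_of_add_eq_zero_left this

theorem alt2_add_left (w : M [⋀^Fin 2]→ₗ[R] N) (a b x : M) :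
    w ![a + b, x] = w ![a, x] + w ![b, x] := w.map_vecCons_add _ _ _

theorem alt2_smul_left (w : M [⋀^Fin 2]→ₗ[R] N) (c : R) (a x : M) :
    w ![c • a, x] = c • w ![a, x] := w.map_vecCons_smul _ _ _

theorem alt2_swap (w : M [⋀^Fin 2]→ₗ[R] N) (a b : M) : w ![a, b] = - w ![b, a] := by
  rw [← w.map_swap ![b, a] (i := 0) (j := 1) (by simp)]
  congr 1
  ext i
  fin_cases i <;> simp [Equiv.swap_apply_def]

theorem alt2_zero_left (w : M [⋀^Fin 2]→ₗ[R] N) (x : M) : w ![0, x] = 0 := by
  have := alt2_smul_left w 0 0 x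
  rwa [zero_smul, zero_smul] at this

/-- an alternating bilinear map as an alternating map -/
def mkAlt2 (b : M →ₗ[R] M →ₗ[R] N) (hb : ∀ x, b x x = 0) : M [⋀^Fin 2]→ₗ[R] N where
  toFun v := b (v 0) (v 1)
  map_update_add' := by
    intro inst v i x y
    rw [Subsingleton.elim inst (instDecidableEqFin 2)]
    fin_cases i <;> simp
  map_update_smul' := by
    intro inst v i c x
    rw [Subsingleton.elim inst (instDecidableEqFin 2)]
    fin_cases i <;> simp
  map_eq_zero_of_eq' := by
    intro v i j h hij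
    fin_cases i <;> fin_cases j
    · simp at hij
    · simp at h
      simp [h, hb]
    · simp at h
      simp [h, hb]
    · simp at hij

theorem mkAlt2_apply (b : M →ₗ[R] M →ₗ[R] N) (hb : ∀ x, b x x = 0) (x y : M) :
    mkAlt2 b hb ![x, y] = b x y := rfl

theorem wedge_zero_apply (f : M →ₗ[R] R) (ω : M [⋀^Fin 0]→ₗ[R] N) (x : M) :
    wedge f 0 ω ![x] = f x • ω ![] := by
  rw [wedge_apply]
  simp only [Fin.sum_univ_succ, Finset.univ_eq_empty, Finset.sum_empty]
  simp [Subsingleton.elim (Fin.removeNth 0 ![x]) ![]]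

theorem wedge_two_apply (f : M →ₗ[R] R) (w : M [⋀^Fin 2]→ₗ[R] N) (x y z : M) :
    wedge f 2 w ![x, y, z] = f x • w ![y, z] - f y • w ![x, z] + f z • w ![x, y] := by
  have h0 : (Fin.removeNth 0 ![x, y, z] : Fin 2 → M) = ![y, z] := by
    ext i; fin_cases i <;> rfl
  have h1 : (Fin.removeNth 1 ![x, y, z] : Fin 2 → M) = ![x, z] := by
    ext i; fin_cases i <;> rfl
  have h2 : (Fin.removeNth 2 ![x, y, z] : Fin 2 → M) = ![x, y] := by
    ext i; fin_cases i <;> rfl
  rw [wedge_apply, Fin.sum_univ_three, h0, h1, h2]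
  simp [sub_eq_add_neg]

theorem alt3_eq (w : M [⋀^Fin 3]→ₗ[R] N) (x : Fin 3 → M) : w x = w ![x 0, x 1, x 2] := by
  congr 1
  ext i; fin_cases i <;> rfl

theorem alt2_eq (w : M [⋀^Fin 2]→ₗ[R] N) (x : Fin 2 → M) : w x = w ![x 0, x 1] := by
  congr 1
  ext i; fin_cases i <;> rfl

theorem contr_apply_two (v x y : M) (w : M [⋀^Fin 3]→ₗ[R] N) :
    contr v 2 w ![x, y] = w ![v, x, y] := by
  rw [contr_apply]
  rfl

theorem contr_apply_three (v x y z : M) (w : M [⋀^Fin 4]→ₗ[R] N) :
    contr v 3 w ![x, y, z] = w ![v, x, y, z] := by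
  rw [contr_apply]
  rfl

end general

variable {R : Type u} [CommRing R] {M : Type w} [AddCommGroup M] [Module R M]

/-- The module `P'(f, ν)`. -/
def PP (f : M →ₗ[R] R) (ν : M [⋀^Fin 4]→ₗ[R] R) : Submodule R (M × (M [⋀^Fin 2]→ₗ[R] R)) where
  carrier := {p | f p.1 = 0 ∧ wedge f 2 p.2 = contr p.1 3 ν}
  add_mem' := by
    rintro p q ⟨hp1, hp2⟩ ⟨hq1, hq2⟩
    refine ⟨?_, ?_⟩
    · simp [hp1, hq1]
    · rw [Prod.snd_add, Prod.fst_add, map_add, contr_add_left, hp2, hq2]
  zero_mem' := by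
    refine ⟨by simp, ?_⟩
    rw [Prod.snd_zero, Prod.fst_zero, contr_zero_left, map_zero]
  smul_mem' := by
    rintro c p ⟨hp1, hp2⟩
    refine ⟨?_, ?_⟩
    · simp [hp1]
    · rw [Prod.smul_snd, Prod.smul_fst, map_smul, contr_smul_left, hp2]

theorem mem_PP {f : M →ₗ[R] R} {ν : M [⋀^Fin 4]→ₗ[R] R} {p : M × (M [⋀^Fin 2]→ₗ[R] R)} :
    p ∈ PP f ν ↔ f p.1 = 0 ∧ wedge f 2 p.2 = contr p.1 3 ν := Iff.rfl

/-- The values of `f` contain a weakly regular sequence of length `n`. -/
def HasReg (f : M →ₗ[R] R) (n : ℕ) : Prop :=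
  ∃ rs : List R, rs.length = n ∧ IsWeaklyRegular R rs ∧ ∀ r ∈ rs, ∃ x, f x = r

theorem HasReg.isCob [Module.Free R M] [Module.Finite R M] {f : M →ₗ[R] R} {n : ℕ}
    (h : HasReg f n) (i : ℕ) (hi : i < n) (ω : M [⋀^Fin i]→ₗ[R] R) (hω : wedge f i ω = 0) :
    IsCob f i ω := by
  obtain ⟨rs, h1, h2, h3⟩ := h
  exact koszul_exact' f rs h2 h3 i (h1 ▸ hi) ω hω

theorem HasReg.eq_zero_of_mul {f : M →ₗ[R] R} {n : ℕ} (h : HasReg f n) (hn : 0 < n) {r : R}
    (hr : ∀ x, r * f x = 0) : r = 0 := by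
  obtain ⟨rs, h1, h2, h3⟩ := h
  cases rs with
  | nil => simp at h1; omega
  | cons a rs =>
    obtain ⟨x, hx⟩ := h3 a (by simp)
    have ha : IsSMulRegular R a := ((isWeaklyRegular_cons_iff R a rs).1 h2).1
    apply ha
    show a * r = a * 0
    rw [mul_zero, mul_comm, ← hx, hr]

theorem HasReg.eq_zero_of_smul {f : M →ₗ[R] R} {n : ℕ} (h : HasReg f n) (hn : 0 < n)
    {N : Type*} [AddCommGroup N] [Module R N] (hN : ∀ y : N, (∀ φ : N →ₗ[R] R, φ y = 0) → y = 0)
    {y : N} (hr : ∀ x, f x • y = 0) : y = 0 := by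
  apply hN
  intro φ
  apply h.eq_zero_of_mul hn
  intro x
  rw [mul_comm, ← smul_eq_mul, ← map_smul, hr, map_zero]

/-- a linear form as a `1`-form -/
def one (l : M →ₗ[R] R) : M [⋀^Fin 1]→ₗ[R] R := AlternatingMap.ofSubsingleton R M R (0 : Fin 1) l

theorem one_apply (l : M →ₗ[R] R) (x : Fin 1 → M) : one l x = l (x 0) := rfl

theorem exists_eq_one (ω : M [⋀^Fin 1]→ₗ[R] R) : ∃ l, ω = one l :=
  ⟨(AlternatingMap.ofSubsingleton R M R (0 : Fin 1)).symm ω, by simp [one]⟩

theorem one_add (l l' : M →ₗ[R] R) : one (l + l') = one l + one l' := by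
  ext x; simp [one_apply]

theorem one_smul' (c : R) (l : M →ₗ[R] R) : one (c • l) = c • one l := by
  ext x; simp [one_apply]

theorem one_injective : Function.Injective (one : (M →ₗ[R] R) → _) :=
  (AlternatingMap.ofSubsingleton R M R (0 : Fin 1)).injective

theorem wedge_zero_eq (f : M →ₗ[R] R) (ω : M [⋀^Fin 0]→ₗ[R] R) :
    wedge f 0 ω = one (ω ![] • f) := by
  ext x
  have : x = ![x 0] := by ext i; fin_cases i; rfl
  rw [this, wedge_zero_apply, one_apply]
  simp [mul_comm]

theorem wedge_one_apply (f l : M →ₗ[R] R) (x y : M) :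
    wedge f 1 (one l) ![x, y] = f x * l y - f y * l x := by
  rw [wedge_apply]
  simp only [Fin.sum_univ_succ, Finset.univ_eq_empty, Finset.sum_empty, one_apply, smul_eq_mul]
  simp [Fin.removeNth, sub_eq_add_neg]

theorem contr_one (v : M) (l : M →ₗ[R] R) : contr v 0 (one l) = AlternatingMap.constOfIsEmpty R M
    (Fin 0) (l v) := by
  ext x
  rw [contr_apply, one_apply]
  rfl

theorem contr_apply_one (v x : M) (w : M [⋀^Fin 2]→ₗ[R] R) :
    contr v 1 w ![x] = w ![v, x] := by
  rw [contr_apply]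
  rfl

section form

variable [Module.Free R M] [Module.Finite R M] {f : M →ₗ[R] R} {ν : M [⋀^Fin 4]→ₗ[R] R}

theorem exists_B (hf : HasReg f 4) (p q : PP f ν) :
    ∃ b : R, ∀ x, q.1.2 ![p.1.1, x] + p.1.2 ![q.1.1, x] = b * f x := by
  obtain ⟨⟨v, w⟩, hv, hw⟩ := p
  obtain ⟨⟨v', w'⟩, hv', hw'⟩ := q
  simp only at hv hw hv' hw' ⊢
  have h : wedge f 1 (contr v 1 w' + contr v' 1 w) = 0 := by
    have h1 := contr_wedge f v 1 w'
    have h2 := contr_wedge f v' 1 w
    rw [hv, zero_smul, zero_sub, hw'] at h1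
    rw [hv', zero_smul, zero_sub, hw] at h2
    rw [map_add, eq_neg_of_add_eq_zero_left (a := wedge f 1 (contr v 1 w')), neg_add_cancel]
    rw [← neg_eq_zero, neg_add, ← h1, ← h2, contr_contr_anti, neg_add_cancel]
  obtain ⟨η, hη⟩ := hf.isCob 1 (by norm_num) _ h
  refine ⟨η ![], fun x => ?_⟩
  have := congrArg (fun ω => ω ![x]) hη
  simp only [AlternatingMap.add_apply, contr_apply_one] at this
  rw [← this, wedge_zero_apply, smul_eq_mul, mul_comm]

/-- The symmetric form on `P'`. -/
noncomputable def B (hf : HasReg f 4) : PP f ν →ₗ[R] PP f ν →ₗ[R] R :=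
  LinearMap.mk₂ R (fun p q => (exists_B hf p q).choose)
    (by
      intro p p' q
      apply sub_eq_zero.1
      apply hf.eq_zero_of_mul (by norm_num)
      intro x
      have h1 := (exists_B hf (p + p') q).choose_spec x
      have h2 := (exists_B hf p q).choose_spec x
      have h3 := (exists_B hf p' q).choose_spec x
      rw [sub_mul, add_mul, ← h1, ← h2, ← h3]
      simp only [Submodule.coe_add, Prod.fst_add, Prod.snd_add, alt2_add_left,
        AlternatingMap.add_apply]
      ring)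
    (by
      intro c p q
      apply sub_eq_zero.1
      apply hf.eq_zero_of_mul (by norm_num)
      intro x
      have h1 := (exists_B hf (c • p) q).choose_spec x
      have h2 := (exists_B hf p q).choose_spec x
      rw [smul_eq_mul, sub_mul, mul_assoc, ← h1, ← h2]
      simp only [Submodule.coe_smul, Prod.smul_fst, Prod.smul_snd, alt2_smul_left,
        AlternatingMap.smul_apply, smul_eq_mul]
      ring)
    (by
      intro p q q'
      apply sub_eq_zero.1
      apply hf.eq_zero_of_mul (by norm_num)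
      intro x
      have h1 := (exists_B hf p (q + q')).choose_spec x
      have h2 := (exists_B hf p q).choose_spec x
      have h3 := (exists_B hf p q').choose_spec x
      rw [sub_mul, add_mul, ← h1, ← h2, ← h3]
      simp only [Submodule.coe_add, Prod.fst_add, Prod.snd_add, alt2_add_left,
        AlternatingMap.add_apply]
      ring)
    (by
      intro c p q
      apply sub_eq_zero.1
      apply hf.eq_zero_of_mul (by norm_num)
      intro x
      have h1 := (exists_B hf p (c • q)).choose_spec x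
      have h2 := (exists_B hf p q).choose_spec x
      rw [smul_eq_mul, sub_mul, mul_assoc, ← h1, ← h2]
      simp only [Submodule.coe_smul, Prod.smul_fst, Prod.smul_snd, alt2_smul_left,
        AlternatingMap.smul_apply, smul_eq_mul]
      ring)

theorem B_spec (hf : HasReg f 4) (p q : PP f ν) (x : M) :
    q.1.2 ![p.1.1, x] + p.1.2 ![q.1.1, x] = B hf p q * f x :=
  (exists_B hf p q).choose_spec x

theorem eq_B (hf : HasReg f 4) (p q : PP f ν) (b : R)
    (h : ∀ x, q.1.2 ![p.1.1, x] + p.1.2 ![q.1.1, x] = b * f x) : B hf p q = b := by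
  apply sub_eq_zero.1
  apply hf.eq_zero_of_mul (by norm_num)
  intro x
  rw [sub_mul, ← h, ← B_spec, sub_self]

theorem B_comm (hf : HasReg f 4) (p q : PP f ν) : B hf p q = B hf q p := by
  apply eq_B
  intro x
  rw [add_comm, B_spec]

/-- The projection of `P'` onto the kernel of `f` is surjective. -/
theorem exists_PP (hf : HasReg f 4) (hν : wedge f 4 ν = 0) (v : M) (hv : f v = 0) :
    ∃ w, (v, w) ∈ PP f ν := by
  have h := contr_wedge f v 3 ν
  rw [hν, hv, zero_smul, zero_sub, map_zero] at h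
  obtain ⟨w, hw⟩ := hf.isCob 3 (by norm_num) (contr v 3 ν) (neg_eq_zero.1 h.symm)
  exact ⟨w, hv, hw⟩

/-- The elements `(0, f ∧ l)` of `P'`. -/
def inF (f : M →ₗ[R] R) (ν : M [⋀^Fin 4]→ₗ[R] R) (l : M →ₗ[R] R) : PP f ν :=
  ⟨(0, wedge f 1 (one l)), by
    rw [mem_PP, wedge_wedge_self, contr_zero_left]
    simp⟩

theorem exists_inF (hf : HasReg f 4) (p : PP f ν) (hp : p.1.1 = 0) : ∃ l, p = inF f ν l := by
  obtain ⟨⟨v, w⟩, hv, hw⟩ := p
  simp only at hp hv hw
  subst hp
  rw [contr_zero_left] at hw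
  obtain ⟨η, hη⟩ := hf.isCob 2 (by norm_num) w hw
  obtain ⟨l, rfl⟩ := exists_eq_one η
  exact ⟨l, Subtype.ext (Prod.ext rfl hη.symm)⟩

theorem B_inF (hf : HasReg f 4) (l : M →ₗ[R] R) (q : PP f ν) :
    B hf (inF f ν l) q = - l q.1.1 := by
  apply eq_B
  intro x
  have hq := q.2.1
  simp only [inF, alt2_zero_left, wedge_one_apply, hq]
  ring

theorem eq_smul_of_ker (hf : HasReg f 4) (l : M →ₗ[R] R) (h : ∀ v, f v = 0 → l v = 0) :
    ∃ c : R, l = c • f := by
  have h1 : wedge f 1 (one l) = 0 := by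
    ext x
    have : x = ![x 0, x 1] := by ext i; fin_cases i <;> rfl
    rw [this, wedge_one_apply, AlternatingMap.zero_apply]
    have := h (f (x 0) • x 1 - f (x 1) • x 0) (by simp [mul_comm])
    simpa using this
  obtain ⟨η, hη⟩ := hf.isCob 1 (by norm_num) _ h1
  rw [wedge_zero_eq] at hη
  exact ⟨_, one_injective hη.symm⟩

theorem B_injective (hf : HasReg f 4) (hν : wedge f 4 ν = 0)
    (hM : ∀ v : M, (∀ l : M →ₗ[R] R, l v = 0) → v = 0)
    (p : PP f ν) (hp : B hf p = 0) : p = 0 := by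
  have h1 : p.1.1 = 0 := by
    apply hM
    intro l
    have := B_inF hf l p
    rw [B_comm, hp, LinearMap.zero_apply] at this
    exact neg_eq_zero.1 this.symm
  obtain ⟨l, rfl⟩ := exists_inF hf p h1
  obtain ⟨c, rfl⟩ := eq_smul_of_ker hf l (by
    intro v hv
    obtain ⟨w, hw⟩ := exists_PP hf hν v hv
    have := B_inF hf l ⟨(v, w), hw⟩
    rw [hp, LinearMap.zero_apply] at this
    exact neg_eq_zero.1 this.symm)
  apply Subtype.ext
  refine Prod.ext rfl ?_
  show wedge f 1 (one (c • f)) = 0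
  ext x
  have : x = ![x 0, x 1] := by ext i; fin_cases i <;> rfl
  rw [this, wedge_one_apply, AlternatingMap.zero_apply]
  simp only [LinearMap.smul_apply, smul_eq_mul]
  ring

theorem mem_kappa (hν : wedge f 4 ν = 0) (x y : M) :
    (f x • y - f y • x, contr x 2 (contr y 3 ν)) ∈ PP f ν := by
  rw [mem_PP]
  refine ⟨by simp [mul_comm], ?_⟩
  show wedge f 2 (contr x 2 (contr y 3 ν)) = contr (f x • y - f y • x) 3 ν
  rw [wedge_contr, wedge_contr, hν, map_zero, sub_zero, map_smul]
  rw [sub_eq_add_neg (f x • y), contr_add_left, ← neg_smul, contr_smul_left, contr_smul_left,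
    sub_eq_add_neg]
  congr 1
  exact (neg_smul _ _).symm

/-- The Koszul elements of `P'`. -/
noncomputable def kappa (hν : wedge f 4 ν = 0) : M →ₗ[R] M →ₗ[R] PP f ν :=
  LinearMap.mk₂ R (fun x y => ⟨(f x • y - f y • x, contr x 2 (contr y 3 ν)), mem_kappa hν x y⟩)
    (by
      intro x x' y
      apply Subtype.ext
      refine Prod.ext ?_ ?_
      · simp only [map_add, add_smul, smul_add, Submodule.coe_add, Prod.fst_add]
        abel
      · simp only [contr_add_left, Submodule.coe_add, Prod.snd_add])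
    (by
      intro c x y
      apply Subtype.ext
      refine Prod.ext ?_ ?_
      · simp only [map_smul, smul_eq_mul, Submodule.coe_smul, Prod.smul_fst, smul_sub, mul_smul]
        rw [smul_comm (f y)]
      · simp only [contr_smul_left, Submodule.coe_smul, Prod.smul_snd])
    (by
      intro x y y'
      apply Subtype.ext
      refine Prod.ext ?_ ?_
      · simp only [map_add, add_smul, smul_add, Submodule.coe_add, Prod.fst_add]
        abel
      · simp only [contr_add_left, map_add, Submodule.coe_add, Prod.snd_add])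
    (by
      intro c x y
      apply Subtype.ext
      refine Prod.ext ?_ ?_
      · simp only [map_smul, smul_eq_mul, Submodule.coe_smul, Prod.smul_fst, smul_sub, mul_smul]
        rw [smul_comm (f x)]
      · simp only [contr_smul_left, map_smul, Submodule.coe_smul, Prod.smul_snd])

theorem kappa_fst (hν : wedge f 4 ν = 0) (x y : M) :
    (kappa hν x y).1.1 = f x • y - f y • x := rfl

theorem kappa_snd (hν : wedge f 4 ν = 0) (x y : M) :
    (kappa hν x y).1.2 = contr x 2 (contr y 3 ν) := rfl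

theorem kappa_self (hν : wedge f 4 ν = 0) (x : M) : kappa hν x x = 0 := by
  apply Subtype.ext
  refine Prod.ext ?_ ?_
  · rw [kappa_fst, sub_self]; rfl
  · rw [kappa_snd, contr_contr_self]; rfl

theorem PP_three (q : PP f ν) (x y z : M) :
    f x * q.1.2 ![y, z] - f y * q.1.2 ![x, z] + f z * q.1.2 ![x, y] = ν ![q.1.1, x, y, z] := by
  simp only [← smul_eq_mul]
  rw [← wedge_two_apply, q.2.2]
  exact contr_apply_three _ _ _ _ _

theorem B_kappa (hf : HasReg f 4) (hν : wedge f 4 ν = 0) (x y : M) (q : PP f ν) :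
    B hf (kappa hν x y) q = - q.1.2 ![x, y] := by
  apply eq_B
  intro z
  have hq := PP_three q x y z
  rw [kappa_fst, kappa_snd, contr_apply_two, contr_apply_three, sub_eq_add_neg, ← neg_smul,
    alt2_add_left, alt2_smul_left, alt2_smul_left]
  have h1 : ν ![y, x, q.1.1, z] = - ν ![q.1.1, x, y, z] := by
    rw [← ν.map_swap ![q.1.1, x, y, z] (i := 0) (j := 2) (by decide)]
    congr 1
    ext i
    fin_cases i <;> rfl
  rw [h1]
  simp only [smul_eq_mul]
  linear_combination hq

/-- the inclusion of `M^*`, linear version -/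
def inFL (f : M →ₗ[R] R) (ν : M [⋀^Fin 4]→ₗ[R] R) : (M →ₗ[R] R) →ₗ[R] PP f ν where
  toFun l := inF f ν l
  map_add' l l' := by
    apply Subtype.ext
    refine Prod.ext ?_ ?_
    · simp [inF]
    · simp [inF, one_add]
  map_smul' c l := by
    apply Subtype.ext
    refine Prod.ext ?_ ?_
    · simp [inF]
    · simp [inF, one_smul']

theorem inFL_apply (l : M →ₗ[R] R) : inFL f ν l = inF f ν l := rfl

theorem inF_self : inF f ν f = 0 := by
  apply Subtype.ext
  refine Prod.ext rfl ?_
  show wedge f 1 (one f) = 0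
  ext x
  have : x = ![x 0, x 1] := by ext i; fin_cases i <;> rfl
  rw [this, wedge_one_apply, AlternatingMap.zero_apply, mul_comm, sub_self]

theorem B_surjective (hf : HasReg f 4) (hν : wedge f 4 ν = 0) (φ : PP f ν →ₗ[R] R) :
    ∃ p, B hf p = φ := by
  obtain ⟨v0, hv0⟩ : ∃ v0 : M, ∀ l : M →ₗ[R] R, l v0 = φ (inF f ν l) := by
    refine ⟨(Module.evalEquiv R M).symm (φ ∘ₗ inFL f ν), fun l => ?_⟩
    rw [Module.apply_evalEquiv_symm_apply]
    rfl
  have hfv : f (-v0) = 0 := by rw [map_neg, hv0, inF_self, map_zero, neg_zero]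
  obtain ⟨w0, hw0⟩ := exists_PP hf hν (-v0) hfv
  set p0 : PP f ν := ⟨(-v0, w0), hw0⟩ with hp0
  set φ' := φ - B hf p0 with hφ'
  have h0 : ∀ l, φ' (inF f ν l) = 0 := by
    intro l
    rw [hφ', LinearMap.sub_apply, B_comm, B_inF, ← hv0, hp0, map_neg, neg_neg, sub_self]
  have h0' : ∀ q : PP f ν, q.1.1 = 0 → φ' q = 0 := by
    intro q hq
    obtain ⟨l, rfl⟩ := exists_inF hf q hq
    exact h0 l
  have hw1 : wedge f 2 (mkAlt2 ((kappa hν).compr₂ (-φ')) (fun x => by
      rw [LinearMap.compr₂_apply, kappa_self, map_zero])) = 0 := by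
    ext x
    rw [alt3_eq, wedge_two_apply, AlternatingMap.zero_apply]
    simp only [mkAlt2_apply, LinearMap.compr₂_apply]
    have h1 := h0' (f (x 0) • kappa hν (x 1) (x 2) + (-f (x 1)) • kappa hν (x 0) (x 2) +
      f (x 2) • kappa hν (x 0) (x 1)) (by
        simp only [Submodule.coe_add, Prod.fst_add, Submodule.coe_smul, Prod.smul_fst, kappa_fst]
        module)
    rw [LinearMap.map_add, LinearMap.map_add, LinearMap.map_smul, LinearMap.map_smul,
      LinearMap.map_smul] at h1
    simp only [smul_eq_mul, LinearMap.neg_apply] at h1 ⊢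
    linear_combination -h1
  obtain ⟨p1, hp1⟩ : ∃ p1 : PP f ν, p1.1.1 = 0 ∧ ∀ x y, p1.1.2 ![x, y] = - φ' (kappa hν x y) :=
    ⟨⟨(0, _), mem_PP.2 ⟨map_zero _, by rw [hw1, contr_zero_left]⟩⟩, rfl, fun x y => rfl⟩
  refine ⟨p0 + p1, ?_⟩
  set ψ : PP f ν →ₗ[R] R := φ' - B hf p1 with hψ
  have h5 : ∀ q : PP f ν, q.1.1 = 0 → ψ q = 0 := by
    intro q hq
    rw [hψ, LinearMap.sub_apply, h0' q hq]
    obtain ⟨l, rfl⟩ := exists_inF hf _ hq
    rw [B_comm, B_inF, hp1.1, map_zero, neg_zero, sub_zero]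
  have h6 : ∀ x y, ψ (kappa hν x y) = 0 := by
    intro x y
    rw [hψ, LinearMap.sub_apply, B_comm, B_kappa, hp1.2, neg_neg, sub_self]
  have h2 : ∀ q, ψ q = 0 := by
    intro q
    apply hf.eq_zero_of_mul (by norm_num)
    intro x
    have h4 : (f x • q - kappa hν x q.1.1).1.1 = 0 := by
      have := q.2.1
      rw [Submodule.coe_sub, Prod.fst_sub, kappa_fst, this]
      simp
    have h7 := h5 _ h4
    have h8 : f x • q = kappa hν x q.1.1 + (f x • q - kappa hν x q.1.1) := by abel
    have h9 := congrArg ψ h8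
    rw [LinearMap.map_smul, LinearMap.map_add, h7, h6, add_zero, smul_eq_mul] at h9
    rw [mul_comm, h9]
  ext q
  have := h2 q
  rw [hψ, hφ', LinearMap.sub_apply, LinearMap.sub_apply] at this
  rw [map_add, LinearMap.add_apply]
  linear_combination -this

end form

end Pool.Agent.Licci

end

section

/-!
# Null-homotopies of a resolution and exactness of the dual complex
-/

namespace LicciCodimFour

open RingTheory.Sequence

universe u

variable {R : Type u} [CommRing R]

theorem isWeaklyRegular_of_flat {rs : List R} (h : IsWeaklyRegular R rs) (N : Type*)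
    [AddCommGroup N] [Module R N] [Module.Flat R N] : IsWeaklyRegular N rs := by
  have h1 := IsWeaklyRegular.isWeaklyRegular_lTensor (M₂ := N) h
  exact (LinearEquiv.isWeaklyRegular_congr (TensorProduct.rid R N) rs).1 h1

/-- Multiplication by `x = e1 u` is null-homotopic on a resolution `0 → F4 → F3 → F2 → F1 → R`. -/
theorem null_homotopy {F1 F2 F3 F4 : Type*} [AddCommGroup F1] [Module R F1] [AddCommGroup F2]
    [Module R F2] [AddCommGroup F3] [Module R F3] [AddCommGroup F4] [Module R F4]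
    [Module.Projective R F1] [Module.Projective R F2] [Module.Projective R F3]
    (e1 : F1 →ₗ[R] R) (e2 : F2 →ₗ[R] F1) (e3 : F3 →ₗ[R] F2) (e4 : F4 →ₗ[R] F3)
    (h1 : Function.Exact e2 e1) (h2 : Function.Exact e3 e2) (h3 : Function.Exact e4 e3)
    (h4 : Function.Injective e4) (u : F1) :
    ∃ (g1 : F1 →ₗ[R] F2) (g2 : F2 →ₗ[R] F3) (g3 : F3 →ₗ[R] F4),
      (∀ z, e2 (g1 z) = e1 u • z - e1 z • u) ∧ (∀ z, e3 (g2 z) = e1 u • z - g1 (e2 z)) ∧
      (∀ z, e4 (g3 z) = e1 u • z - g2 (e3 z)) ∧ (∀ z, g3 (e4 z) = e1 u • z) := by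
  obtain ⟨g1, hg1⟩ := exists_lift h1 (e1 u • LinearMap.id - e1.smulRight u) (fun z => by
    simp only [LinearMap.sub_apply, LinearMap.smul_apply, LinearMap.id_apply,
      LinearMap.smulRight_apply, map_sub, map_smul, smul_eq_mul]
    ring)
  obtain ⟨g2, hg2⟩ := exists_lift h2 (e1 u • LinearMap.id - g1 ∘ₗ e2) (fun z => by
    simp only [LinearMap.sub_apply, LinearMap.smul_apply, LinearMap.id_apply,
      LinearMap.comp_apply, map_sub, map_smul, hg1, LinearMap.smulRight_apply]
    rw [h1.apply_apply_eq_zero]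
    simp)
  obtain ⟨g3, hg3⟩ := exists_lift h3 (e1 u • LinearMap.id - g2 ∘ₗ e3) (fun z => by
    simp only [LinearMap.sub_apply, LinearMap.smul_apply, LinearMap.id_apply,
      LinearMap.comp_apply, map_sub, map_smul, hg2]
    rw [h2.apply_apply_eq_zero]
    simp)
  simp only [LinearMap.sub_apply, LinearMap.smul_apply, LinearMap.id_apply,
    LinearMap.comp_apply, LinearMap.smulRight_apply] at hg1 hg2 hg3
  refine ⟨g1, g2, g3, hg1, hg2, hg3, fun z => ?_⟩
  apply h4
  rw [hg3, h3.apply_apply_eq_zero, map_smul]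
  simp

/-- Exactness of the dual of a resolution `0 → F4 → F3 → F2 → F1 → R` of `R ⧸ I` in degrees
`0, 1, 2, 3`, if `I` has grade at least four. -/
theorem dual_exact {F1 F2 F3 F4 : Type u} [AddCommGroup F1] [Module R F1] [AddCommGroup F2]
    [Module R F2] [AddCommGroup F3] [Module R F3] [AddCommGroup F4] [Module R F4]
    [Module.Projective R F1] [Module.Projective R F2] [Module.Projective R F3]
    [Module.Projective R F4] [Module.Finite R F1] [Module.Finite R F2] [Module.Finite R F3]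
    [Module.Finite R F4]
    (e1 : F1 →ₗ[R] R) (e2 : F2 →ₗ[R] F1) (e3 : F3 →ₗ[R] F2) (e4 : F4 →ₗ[R] F3)
    (h1 : Function.Exact e2 e1) (h2 : Function.Exact e3 e2) (h3 : Function.Exact e4 e3)
    (h4 : Function.Injective e4) (rs : List R) (hlen : rs.length = 4)
    (hrs : IsWeaklyRegular R rs) (hmem : ∀ r ∈ rs, r ∈ LinearMap.range e1) :
    (∀ c : R, c • e1 = 0 → c = 0) ∧
    (∀ ξ : F1 →ₗ[R] R, (∀ z, ξ (e2 z) = 0) → ∃ c : R, ξ = c • e1) ∧
    (∀ ξ : F2 →ₗ[R] R, (∀ z, ξ (e3 z) = 0) → ∃ η : F1 →ₗ[R] R, ∀ z, ξ z = η (e2 z)) ∧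
    (∀ ξ : F3 →ₗ[R] R, (∀ z, ξ (e4 z) = 0) → ∃ η : F2 →ₗ[R] R, ∀ z, ξ z = η (e3 z)) := by
  have key := acyclic5 (M1 := R) (M2 := Module.Dual R F1) (M3 := Module.Dual R F2)
    (M4 := Module.Dual R F3) (M5 := Module.Dual R F4)
    (LinearMap.toSpanSingleton R (Module.Dual R F1) e1) e2.dualMap e3.dualMap e4.dualMap
    (fun c => by
      ext z
      simp [LinearMap.dualMap_apply, h1.apply_apply_eq_zero])
    (fun ξ => by
      ext z
      simp [LinearMap.dualMap_apply, h2.apply_apply_eq_zero])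
    (fun ξ => by
      ext z
      simp [LinearMap.dualMap_apply, h3.apply_apply_eq_zero])
    rs hlen hrs (isWeaklyRegular_of_flat hrs _) (isWeaklyRegular_of_flat hrs _)
    (isWeaklyRegular_of_flat hrs _) (isWeaklyRegular_of_flat hrs _)
    (fun r hr c hc => by
      obtain ⟨u, rfl⟩ := hmem r hr
      refine ⟨1, ?_⟩
      have := LinearMap.congr_fun hc u
      simp only [LinearMap.toSpanSingleton_apply, LinearMap.smul_apply, smul_eq_mul,
        LinearMap.zero_apply] at this
      rw [pow_one, smul_eq_mul, mul_comm]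
      exact this)
    (fun r hr ξ hξ => by
      obtain ⟨u, rfl⟩ := hmem r hr
      obtain ⟨g1, g2, g3, hg1, hg2, hg3, hg4⟩ := null_homotopy e1 e2 e3 e4 h1 h2 h3 h4 u
      refine ⟨1, ξ u, ?_⟩
      ext z
      have h5 := congrArg ξ (hg1 z)
      have h6 := LinearMap.congr_fun hξ (g1 z)
      simp only [LinearMap.dualMap_apply, LinearMap.zero_apply] at h6
      rw [h6, map_sub, map_smul, map_smul, smul_eq_mul, smul_eq_mul] at h5
      simp only [LinearMap.toSpanSingleton_apply, LinearMap.smul_apply, smul_eq_mul, pow_one]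
      linear_combination h5)
    (fun r hr ξ hξ => by
      obtain ⟨u, rfl⟩ := hmem r hr
      obtain ⟨g1, g2, g3, hg1, hg2, hg3, hg4⟩ := null_homotopy e1 e2 e3 e4 h1 h2 h3 h4 u
      refine ⟨1, ξ ∘ₗ g1, ?_⟩
      ext z
      have h5 := congrArg ξ (hg2 z)
      have h6 := LinearMap.congr_fun hξ (g2 z)
      simp only [LinearMap.dualMap_apply, LinearMap.zero_apply] at h6
      rw [h6, map_sub, map_smul, smul_eq_mul] at h5
      simp only [LinearMap.dualMap_apply, LinearMap.comp_apply, LinearMap.smul_apply,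
        smul_eq_mul, pow_one]
      linear_combination h5)
    (fun r hr ξ hξ => by
      obtain ⟨u, rfl⟩ := hmem r hr
      obtain ⟨g1, g2, g3, hg1, hg2, hg3, hg4⟩ := null_homotopy e1 e2 e3 e4 h1 h2 h3 h4 u
      refine ⟨1, ξ ∘ₗ g2, ?_⟩
      ext z
      have h5 := congrArg ξ (hg3 z)
      have h6 := LinearMap.congr_fun hξ (g3 z)
      simp only [LinearMap.dualMap_apply, LinearMap.zero_apply] at h6
      rw [h6, map_sub, map_smul, smul_eq_mul] at h5
      simp only [LinearMap.dualMap_apply, LinearMap.comp_apply, LinearMap.smul_apply,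
        smul_eq_mul, pow_one]
      linear_combination h5)
  obtain ⟨a, b, c, d⟩ := key
  refine ⟨?_, ?_, ?_, ?_⟩
  · intro t ht
    apply a
    rw [map_zero]
    exact ht
  · intro ξ hξ
    obtain ⟨t, ht⟩ := (b ξ).1 (by ext z; exact hξ z)
    exact ⟨t, ht.symm⟩
  · intro ξ hξ
    obtain ⟨η, hη⟩ := (c ξ).1 (by ext z; exact hξ z)
    exact ⟨η, fun z => (LinearMap.congr_fun hη z).symm⟩
  · intro ξ hξ
    obtain ⟨η, hη⟩ := (d ξ).1 (by ext z; exact hξ z)
    exact ⟨η, fun z => (LinearMap.congr_fun hη z).symm⟩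

end LicciCodimFour

end

section

/-!
From an exact complex `0 → R → F3 → F2 → F1 → R` whose image has grade at least four to a four-form
`ν` on `F1` with `f ∧ ν = 0` and `P'(f, ν)` projective.
-/

namespace Pool.Agent.Licci

open RingTheory.Sequence Pointwise

universe u v

section lift

variable {R : Type u} [CommRing R] {M : Type v} {A B C : Type u} [AddCommGroup M] [Module R M]
  [AddCommGroup A] [Module R A] [AddCommGroup B] [Module R B] [AddCommGroup C] [Module R C]

theorem exists_lift_alt_exact [Module.Free R M] {u : A →ₗ[R] B} {v : B →ₗ[R] C}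
    (h : Function.Exact u v) (i : ℕ) (ω : M [⋀^Fin i]→ₗ[R] B)
    (hω : v.compAlternatingMap ω = 0) : ∃ η : M [⋀^Fin i]→ₗ[R] A, u.compAlternatingMap η = ω := by
  have hv : ∀ x, ω x ∈ LinearMap.range u := by
    intro x
    have h1 : v (ω x) = 0 := by
      have := congrArg (fun f => f x) hω
      simpa using this
    exact (h _).1 h1
  obtain ⟨η, hη⟩ := exists_lift_alt u.rangeRestrict (LinearMap.surjective_rangeRestrict _) i
    (ω.codRestrict _ hv)
  refine ⟨η, ?_⟩
  ext x
  have := congrArg (fun f => ((f x : LinearMap.range u) : B)) hη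
  simpa using this

/-- a linear map as a `1`-form with values -/
def oneN (l : M →ₗ[R] A) : M [⋀^Fin 1]→ₗ[R] A := AlternatingMap.ofSubsingleton R M A (0 : Fin 1) l

theorem oneN_apply (l : M →ₗ[R] A) (x : Fin 1 → M) : oneN l x = l (x 0) := rfl

/-- evaluation of an alternating map with values in a dual module -/
def evalAlt {k : ℕ} (ω : M [⋀^Fin k]→ₗ[R] Module.Dual R A) : A →ₗ[R] (M [⋀^Fin k]→ₗ[R] R) where
  toFun v := (LinearMap.applyₗ v).compAlternatingMap ω
  map_add' u v := by ext x; simp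
  map_smul' c v := by ext x; simp

theorem evalAlt_apply {k : ℕ} (ω : M [⋀^Fin k]→ₗ[R] Module.Dual R A) (v : A) (x : Fin k → M) :
    evalAlt ω v x = ω x v := rfl

theorem wedge_evalAlt {k : ℕ} (f : M →ₗ[R] R) (ω : M [⋀^Fin k]→ₗ[R] Module.Dual R A) (v : A) :
    wedge f k (evalAlt ω v) = evalAlt (wedge f k ω) v :=
  wedge_compRight f _ k ω

/-- contraction, linear in the vector -/
def contrL (n : ℕ) (ω : M [⋀^Fin (n + 1)]→ₗ[R] A) : M →ₗ[R] (M [⋀^Fin n]→ₗ[R] A) where
  toFun v := contr v n ω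
  map_add' u v := contr_add_left u v n ω
  map_smul' c v := contr_smul_left c v n ω

theorem contrL_apply (n : ℕ) (ω : M [⋀^Fin (n + 1)]→ₗ[R] A) (v : M) :
    contrL n ω v = contr v n ω := rfl

theorem HasReg.exact [Module.Free R M] [Module.Finite R M] {f : M →ₗ[R] R} {n : ℕ}
    (h : HasReg f n) (i : ℕ) (hi : i + 1 < n) :
    Function.Exact (wedge (N := R) f i) (wedge (N := R) f (i + 1)) := by
  intro ω
  constructor
  · intro hω
    exact h.isCob (i + 1) hi ω hω
  · rintro ⟨η, rfl⟩
    exact wedge_wedge_self f i η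

end lift

section main

variable {R : Type u} [CommRing R] {F1 F2 F3 : Type u} [AddCommGroup F1] [Module R F1]
  [AddCommGroup F2] [Module R F2] [AddCommGroup F3] [Module R F3]
  [Module.Free R F1] [Module.Free R F2] [Module.Free R F3]
  [Module.Finite R F1] [Module.Finite R F2] [Module.Finite R F3]

/-- the comparison data -/
structure Comparison (f : F1 →ₗ[R] R) (e2 : F2 →ₗ[R] F1) (e3 : F3 →ₗ[R] F2) (e4 : R →ₗ[R] F3) where
  x1 : F1 →ₗ[R] Module.Dual R F3
  x2 : F1 [⋀^Fin 2]→ₗ[R] Module.Dual R F2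
  x3 : F1 [⋀^Fin 3]→ₗ[R] Module.Dual R F1
  x4 : F1 [⋀^Fin 4]→ₗ[R] R
  h1 : ∀ x r, x1 x (e4 r) = f x * r
  h2 : e3.dualMap.compAlternatingMap x2 = wedge f 1 (oneN x1)
  h3 : e2.dualMap.compAlternatingMap x3 = wedge f 2 x2
  h4 : (LinearMap.toSpanSingleton R (Module.Dual R F1) f).compAlternatingMap x4 = wedge f 3 x3
  h5 : wedge f 4 x4 = 0

theorem exists_comparison (f : F1 →ₗ[R] R) (e2 : F2 →ₗ[R] F1) (e3 : F3 →ₗ[R] F2) (e4 : R →ₗ[R] F3)
    (h1 : Function.Exact e2 f) (h2 : Function.Exact e3 e2) (h3 : Function.Exact e4 e3)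
    (h4 : Function.Injective e4) (hf : HasReg f 4) : Nonempty (Comparison f e2 e3 e4) := by
  obtain ⟨rs, hlen, hreg, hmem⟩ := hf
  obtain ⟨d1, d2, d3, d4⟩ := LicciCodimFour.dual_exact f e2 e3 e4 h1 h2 h3 h4 rs hlen hreg hmem
  have E1 : Function.Injective (LinearMap.toSpanSingleton R (Module.Dual R F1) f) := by
    rw [injective_iff_map_eq_zero]
    intro c hc
    exact d1 c hc
  have E2 : Function.Exact (LinearMap.toSpanSingleton R (Module.Dual R F1) f) e2.dualMap := by
    intro ξ
    constructor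
    · intro h
      obtain ⟨c, rfl⟩ := d2 ξ (fun z => LinearMap.congr_fun h z)
      exact ⟨c, rfl⟩
    · rintro ⟨c, rfl⟩
      ext z
      simp [LinearMap.dualMap_apply, h1.apply_apply_eq_zero]
  have E3 : Function.Exact e2.dualMap e3.dualMap := by
    intro ξ
    constructor
    · intro h
      obtain ⟨η, hη⟩ := d3 ξ (fun z => LinearMap.congr_fun h z)
      exact ⟨η, by ext z; exact (hη z).symm⟩
    · rintro ⟨c, rfl⟩
      ext z
      simp [LinearMap.dualMap_apply, h2.apply_apply_eq_zero]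
  have E4 : Function.Exact e3.dualMap e4.dualMap := by
    intro ξ
    constructor
    · intro h
      obtain ⟨η, hη⟩ := d4 ξ (fun z => LinearMap.congr_fun h z)
      exact ⟨η, by ext z; exact (hη z).symm⟩
    · rintro ⟨c, rfl⟩
      ext z
      simp [LinearMap.dualMap_apply, h3.apply_apply_eq_zero]
  -- `x1`
  obtain ⟨x1, hx1⟩ : ∃ x1 : F1 →ₗ[R] Module.Dual R F3, ∀ x r, x1 x (e4 r) = f x * r := by
    have hm : ∀ x, (f.smulRight (LinearMap.id : R →ₗ[R] R)) x ∈ LinearMap.range e4.dualMap := by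
      intro x
      obtain ⟨g1, g2, g3, -, -, -, hg⟩ := LicciCodimFour.null_homotopy f e2 e3 e4 h1 h2 h3 h4 x
      refine ⟨g3, ?_⟩
      ext
      simp [LinearMap.dualMap_apply, hg]
    obtain ⟨x1, hx1⟩ := Module.projective_lifting_property e4.dualMap.rangeRestrict
      ((f.smulRight (LinearMap.id : R →ₗ[R] R)).codRestrict _ hm)
      e4.dualMap.surjective_rangeRestrict
    refine ⟨x1, fun x r => ?_⟩
    have := congrArg Subtype.val (LinearMap.congr_fun hx1 x)
    have := LinearMap.congr_fun this r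
    simpa [LinearMap.dualMap_apply] using this
  have hx1' : e4.dualMap.compAlternatingMap (oneN x1) =
      wedge f 0 (AlternatingMap.constOfIsEmpty R F1 (Fin 0) (LinearMap.id : R →ₗ[R] R)) := by
    ext x r
    rw [wedge_apply]
    simp [LinearMap.dualMap_apply, oneN_apply, hx1]
  obtain ⟨x2, hx2⟩ := exists_lift_alt_exact E4 2 (wedge f 1 (oneN x1)) (by
    rw [← wedge_compRight, hx1', wedge_wedge_self])
  obtain ⟨x3, hx3⟩ := exists_lift_alt_exact E3 3 (wedge f 2 x2) (by
    rw [← wedge_compRight, hx2, wedge_wedge_self])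
  obtain ⟨x4, hx4⟩ := exists_lift_alt_exact E2 4 (wedge f 3 x3) (by
    rw [← wedge_compRight, hx3, wedge_wedge_self])
  refine ⟨⟨x1, x2, x3, x4, hx1, hx2, hx3, hx4, ?_⟩⟩
  have h5 : (LinearMap.toSpanSingleton R (Module.Dual R F1) f).compAlternatingMap (wedge f 4 x4) =
      0 := by
    rw [← wedge_compRight, hx4, wedge_wedge_self]
  ext z
  apply E1
  have := congrArg (fun ω => ω z) h5
  simpa using this

variable {f : F1 →ₗ[R] R} {e2 : F2 →ₗ[R] F1} {e3 : F3 →ₗ[R] F2} {e4 : R →ₗ[R] F3}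

/-- The maps `F2 → Λ² F1^*`. -/
theorem Comparison.exists_w (c : Comparison f e2 e3 e4) (hf : HasReg f 4) :
    ∃ w : F2 →ₗ[R] (F1 [⋀^Fin 2]→ₗ[R] R),
      (∀ g, f (e2 g) = 0 → wedge f 2 (w g) = contr (e2 g) 3 c.x4) ∧
      ∀ h, e2 (e3 h) = 0 → w (e3 h) = wedge f 1 (one (c.x1.flip h)) := by
  obtain ⟨ε, hε⟩ := LicciCodimFour.exists_lift (hf.exact 2 (by norm_num))
    (contrL 3 c.x4 - evalAlt c.x3) (by
      intro v
      rw [LinearMap.sub_apply, map_sub, contrL_apply, wedge_contr, wedge_evalAlt, ← c.h4, c.h5,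
        map_zero, sub_zero]
      ext x
      simp [evalAlt_apply, mul_comm])
  refine ⟨evalAlt c.x2 + ε ∘ₗ e2, fun g _ => ?_, fun h hh => ?_⟩
  · rw [LinearMap.add_apply, LinearMap.comp_apply, map_add, hε, wedge_evalAlt, ← c.h3]
    ext x
    simp [evalAlt_apply, contrL_apply, LinearMap.dualMap_apply]
  · rw [LinearMap.add_apply, LinearMap.comp_apply, hh, map_zero, add_zero]
    have h1 : evalAlt c.x2 (e3 h) = evalAlt (e3.dualMap.compAlternatingMap c.x2) h := by
      ext x
      simp [evalAlt_apply, LinearMap.dualMap_apply]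
    rw [h1, c.h2, ← wedge_evalAlt]
    congr 1

theorem free_of_projective_local {R P : Type*} [CommRing R] [IsLocalRing R] [AddCommMonoid P]
    [Module R P] [Module.Projective R P] [Module.Finite R P] : Module.Free R P := by
  letI : AddCommGroup P := Module.addCommMonoidToAddCommGroup R
  exact Module.free_of_flat_of_isLocalRing

theorem exists_factor {R A P N : Type*} [CommRing R] [AddCommMonoid A] [Module R A]
    [AddCommMonoid P] [Module R P] [AddCommMonoid N] [Module R N] (π : A →ₗ[R] P)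
    (hπ : Function.Surjective π) (φ : A →ₗ[R] N) (h : ∀ a a', π a = π a' → φ a = φ a') :
    ∃ ψ : P →ₗ[R] N, ∀ a, ψ (π a) = φ a := by
  have hs : ∀ p, π (Function.surjInv hπ p) = p := fun p => Function.surjInv_eq hπ p
  refine ⟨⟨⟨fun p => φ (Function.surjInv hπ p), fun p q => ?_⟩, fun c p => ?_⟩, fun a => ?_⟩
  · rw [← map_add]
    apply h
    rw [hs, map_add, hs, hs]
  · rw [RingHom.id_apply, ← map_smul]
    apply h
    rw [map_smul]
    simp only [hs]
  · apply h
    exact hs _

/-- A surjectivity of the dual map gives a retraction. -/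
theorem exists_retraction {A F : Type u} [AddCommGroup A] [Module R A] [AddCommGroup F]
    [Module R F] [Module.Projective R F] [Module.Finite R F] (i : F →ₗ[R] A)
    (hi : Function.Surjective i.dualMap) : ∃ ρ : A →ₗ[R] F, ρ ∘ₗ i = LinearMap.id := by
  obtain ⟨σ, hσ⟩ := Module.projective_lifting_property i.dualMap LinearMap.id hi
  refine ⟨(Module.evalEquiv R F).symm.toLinearMap ∘ₗ σ.dualMap ∘ₗ Module.Dual.eval R A, ?_⟩
  ext z
  apply (Module.evalEquiv R F).injective
  ext ψ
  have h1 := LinearMap.congr_fun (LinearMap.congr_fun hσ ψ) z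
  simp only [LinearMap.comp_apply, LinearMap.dualMap_apply, LinearMap.id_apply] at h1
  simp [LinearMap.dualMap_apply, h1]

theorem Comparison.projective (c : Comparison f e2 e3 e4)
    (h1 : Function.Exact e2 f) (h2 : Function.Exact e3 e2) (h3 : Function.Exact e4 e3)
    (h4 : Function.Injective e4) (hf : HasReg f 4) :
    Module.Projective R (PP f c.x4) ∧ Module.Finite R (PP f c.x4) ∧
      Nonempty ((F3 × PP f c.x4) ≃ₗ[R] (F2 × Module.Dual R F1)) := by
  obtain ⟨rs, hlen, hreg, hmem⟩ := id hf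
  obtain ⟨d1, d2, d3, d4⟩ := LicciCodimFour.dual_exact f e2 e3 e4 h1 h2 h3 h4 rs hlen hreg hmem
  obtain ⟨w, hw1, hw2⟩ := c.exists_w hf
  have hfe : ∀ g, f (e2 g) = 0 := h1.apply_apply_eq_zero
  have hee : ∀ h, e2 (e3 h) = 0 := h2.apply_apply_eq_zero
  -- the map `G → P'`
  let π1 : F2 →ₗ[R] PP f c.x4 := LinearMap.codRestrict (PP f c.x4) (e2.prod w)
    (fun g => mem_PP.2 ⟨hfe g, hw1 g (hfe g)⟩)
  let π : (F2 × Module.Dual R F1) →ₗ[R] PP f c.x4 := π1.coprod (inFL f c.x4)
  let ι : F3 →ₗ[R] (F2 × Module.Dual R F1) := e3.prod (- c.x1.flip)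
  have hπι : ∀ h, π (ι h) = 0 := by
    intro h
    apply Subtype.ext
    refine Prod.ext ?_ ?_
    · show e2 (e3 h) + 0 = 0
      rw [hee, add_zero]
    · show w (e3 h) + wedge f 1 (one (- c.x1.flip h)) = 0
      rw [hw2 h (hee h), ← map_add, ← one_add, add_neg_cancel]
      have : one (0 : F1 →ₗ[R] R) = 0 := by ext; rfl
      rw [this, map_zero]
  have hιinj : Function.Injective ι := by
    rw [injective_iff_map_eq_zero]
    intro h hh
    have a1 : e3 h = 0 := congrArg Prod.fst hh
    have a2 : - c.x1.flip h = 0 := congrArg Prod.snd hh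
    obtain ⟨r, rfl⟩ := (h3 h).1 a1
    have : r = 0 := by
      apply hf.eq_zero_of_mul (by norm_num)
      intro x
      rw [mul_comm, ← c.h1]
      have := LinearMap.congr_fun (neg_eq_zero.1 a2) x
      simpa using this
    rw [this, map_zero]
  have hexact : ∀ a, π a = 0 → ∃ h, ι h = a := by
    rintro ⟨g, l⟩ ha
    have a1 : e2 g + 0 = 0 := congrArg (fun p : PP f c.x4 => p.1.1) ha
    have a2 : w g + wedge f 1 (one l) = 0 := congrArg (fun p : PP f c.x4 => p.1.2) ha
    rw [add_zero] at a1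
    obtain ⟨h, rfl⟩ := (h2 g).1 a1
    rw [hw2 h (hee h), ← map_add, ← one_add] at a2
    obtain ⟨η, hη⟩ := hf.isCob 1 (by norm_num) _ a2
    rw [wedge_zero_eq] at hη
    have hη' := one_injective hη
    refine ⟨h - e4 (η ![]), ?_⟩
    refine Prod.ext ?_ ?_
    · show e3 (h - e4 (η ![])) = e3 h
      rw [map_sub, h3.apply_apply_eq_zero, sub_zero]
    · show - c.x1.flip (h - e4 (η ![])) = l
      ext x
      have a3 := LinearMap.congr_fun hη' x
      simp only [LinearMap.smul_apply, LinearMap.add_apply, LinearMap.flip_apply,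
        smul_eq_mul] at a3
      simp only [LinearMap.neg_apply, LinearMap.flip_apply, map_sub, LinearMap.sub_apply, c.h1]
      linear_combination a3
  have hπsurj : Function.Surjective π := by
    intro p
    obtain ⟨g, hg⟩ := (h1 p.1.1).1 p.2.1
    have hz : (p - π (g, 0)).1.1 = 0 := by
      show p.1.1 - (e2 g + 0) = 0
      rw [hg, add_zero, sub_self]
    obtain ⟨l, hl⟩ := exists_inF hf _ hz
    refine ⟨(g, l), ?_⟩
    have : p = π (g, 0) + (p - π (g, 0)) := by abel
    rw [this, hl]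
    show π1 g + inFL f c.x4 l = (π1 g + inFL f c.x4 0) + inF f c.x4 l
    rw [map_zero, add_zero]
    rfl
  have hπeq : ∀ a a', π a = π a' → π (a - a') = 0 := by
    intro a a' h
    have h0 : π a = π (a - a') + π a' := by
      rw [← map_add, sub_add_cancel]
    rw [h] at h0
    exact right_eq_add.1 h0
  -- the map `A → A^*`
  let β : (F2 × Module.Dual R F1) →ₗ[R] Module.Dual R (F2 × Module.Dual R F1) :=
    π.dualMap ∘ₗ (B hf) ∘ₗ π
  have hβ : ∀ a a', β a a' = B hf (π a) (π a') := fun a a' => rfl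
  have hM : ∀ v : F1, (∀ l : F1 →ₗ[R] R, l v = 0) → v = 0 := by
    intro v hv
    exact (Module.forall_dual_apply_eq_zero_iff R v).1 hv
  have key := LicciCodimFour.acyclic4_surjective ι β ι.dualMap
    (fun h => by
      ext a <;> simp [hβ, hπι])
    (fun a => by
      ext h
      rw [LinearMap.dualMap_apply, hβ, hπι, map_zero, LinearMap.zero_apply])
    rs hlen (LicciCodimFour.isWeaklyRegular_of_flat hreg _)
    (LicciCodimFour.isWeaklyRegular_of_flat hreg _)
    (LicciCodimFour.isWeaklyRegular_of_flat hreg _)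
    (LicciCodimFour.isWeaklyRegular_of_flat hreg _)
    (fun r _ z hz => ⟨0, by
      rw [pow_zero, one_smul]
      apply hιinj
      rw [hz, map_zero]⟩)
    (fun r _ a ha => by
      have h0 : π a = 0 := by
        apply B_injective hf c.h5 hM
        ext p
        obtain ⟨a', rfl⟩ := hπsurj p
        rw [← hβ, ha]
        rfl
      obtain ⟨h, hh⟩ := hexact a h0
      exact ⟨0, h, by rw [pow_zero, one_smul, hh]⟩)
    (fun r _ φ hφ => by
      obtain ⟨φ', hφ'⟩ := exists_factor π hπsurj φ (fun a a' h => by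
        obtain ⟨z, hz⟩ := hexact _ (hπeq a a' h)
        have h0 := LinearMap.congr_fun hφ z
        rw [LinearMap.dualMap_apply, hz, LinearMap.zero_apply, map_sub] at h0
        exact sub_eq_zero.1 h0)
      obtain ⟨p, hp⟩ := B_surjective hf c.h5 φ'
      obtain ⟨a, rfl⟩ := hπsurj p
      refine ⟨0, a, ?_⟩
      rw [pow_zero, one_smul]
      apply LinearMap.ext
      intro a'
      rw [hβ, hp, hφ'])
    (fun r hr ψ => by
      obtain ⟨x, rfl⟩ := hmem r hr
      obtain ⟨g1, g2, g3, hg1, hg2, hg3, hg4⟩ :=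
        LicciCodimFour.null_homotopy f e2 e3 e4 h1 h2 h3 h4 x
      obtain ⟨η, hη⟩ := d4 (g3 - c.x1 x) (fun z => by
        rw [LinearMap.sub_apply, hg4, c.h1, smul_eq_mul, sub_self])
      let s : (F2 × Module.Dual R F1) →ₗ[R] F3 :=
        (g2 + e4 ∘ₗ η).coprod (- (e4 ∘ₗ LinearMap.applyₗ x))
      have hs : ∀ z, s (ι z) = f x • z := by
        intro z
        show (g2 (e3 z) + e4 (η (e3 z))) + - (e4 (- c.x1 x z)) = f x • z
        rw [← hη z, LinearMap.sub_apply, map_sub, hg3, map_neg]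
        abel
      refine ⟨1, ψ ∘ₗ s, ?_⟩
      ext z
      rw [LinearMap.dualMap_apply, LinearMap.comp_apply, hs, map_smul, pow_one]
      rfl)
  obtain ⟨-, -, -, hsurj⟩ := key
  obtain ⟨ρ, hρ⟩ := exists_retraction ι hsurj
  have hρ' : ∀ z, ρ (ι z) = z := fun z => LinearMap.congr_fun hρ z
  obtain ⟨i, hi⟩ := exists_factor π hπsurj (LinearMap.id - ι ∘ₗ ρ) (fun a a' h => by
    obtain ⟨z, hz⟩ := hexact _ (hπeq a a' h)
    have h0 : ((LinearMap.id : (F2 × Module.Dual R F1) →ₗ[R] _) - ι ∘ₗ ρ) (a - a') = 0 := by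
      rw [← hz, LinearMap.sub_apply, LinearMap.comp_apply, hρ', LinearMap.id_apply, sub_self]
    rw [map_sub] at h0
    exact sub_eq_zero.1 h0)
  have hsplit : π ∘ₗ i = LinearMap.id := by
    apply LinearMap.ext
    intro p
    obtain ⟨a, rfl⟩ := hπsurj p
    rw [LinearMap.comp_apply, hi, LinearMap.id_apply, LinearMap.sub_apply, LinearMap.id_apply,
      LinearMap.comp_apply]
    have h0 : a = (a - ι (ρ a)) + ι (ρ a) := by rw [sub_add_cancel]
    conv_rhs => rw [h0, map_add, hπι, add_zero]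
  have hsplit' : ∀ p, π (i p) = p := fun p => LinearMap.congr_fun hsplit p
  refine ⟨Module.Projective.of_split i π hsplit, Module.Finite.of_surjective π hπsurj, ⟨?_⟩⟩
  refine LinearEquiv.ofLinear (ι.coprod i) (ρ.prod π) ?_ ?_
  · apply LinearMap.ext
    intro a
    show ι (ρ a) + i (π a) = a
    rw [hi, LinearMap.sub_apply, LinearMap.id_apply, LinearMap.comp_apply, add_sub_cancel]
  · apply LinearMap.ext
    rintro ⟨z, p⟩
    have h5 : ρ (i p) = 0 := by
      obtain ⟨a, rfl⟩ := hπsurj p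
      rw [hi, LinearMap.sub_apply, LinearMap.id_apply, LinearMap.comp_apply, map_sub, hρ',
        sub_self]
    refine Prod.ext ?_ ?_
    · show ρ (ι z + i p) = z
      rw [map_add, hρ', h5, add_zero]
    · show π (ι z + i p) = p
      rw [map_add, hπι, hsplit', zero_add]

theorem exists_nu (h1 : Function.Exact e2 f) (h2 : Function.Exact e3 e2)
    (h3 : Function.Exact e4 e3) (h4 : Function.Injective e4) (hf : HasReg f 4) :
    ∃ ν : F1 [⋀^Fin 4]→ₗ[R] R, wedge f 4 ν = 0 ∧ Module.Projective R (PP f ν) ∧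
      Module.Finite R (PP f ν) ∧
      Nonempty ((F3 × PP f ν) ≃ₗ[R] (F2 × Module.Dual R F1)) := by
  obtain ⟨c⟩ := exists_comparison f e2 e3 e4 h1 h2 h3 h4 hf
  exact ⟨c.x4, c.h5, c.projective h1 h2 h3 h4 hf⟩

/-- Over a local ring `P'(f, ν)` is free, of rank `rank F2 + rank F1 - rank F3`. -/
theorem exists_nu_free [IsLocalRing R] (h1 : Function.Exact e2 f) (h2 : Function.Exact e3 e2)
    (h3 : Function.Exact e4 e3) (h4 : Function.Injective e4) (hf : HasReg f 4) :
    ∃ ν : F1 [⋀^Fin 4]→ₗ[R] R, wedge f 4 ν = 0 ∧ Module.Free R (PP f ν) ∧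
      Module.Finite R (PP f ν) ∧
      Module.finrank R F3 + Module.finrank R (PP f ν) =
        Module.finrank R F2 + Module.finrank R F1 := by
  obtain ⟨ν, hν, hp, hfin, ⟨e⟩⟩ := exists_nu h1 h2 h3 h4 hf
  have hfree : Module.Free R (PP f ν) := free_of_projective_local
  refine ⟨ν, hν, hfree, hfin, ?_⟩
  have h5 := LinearEquiv.finrank_eq e
  have h6 : Module.finrank R (F3 × PP f ν) =
      Module.finrank R F3 + Module.finrank R (PP f ν) := Module.finrank_prod
  rw [h6, Module.finrank_prod] at h5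
  rw [h5]
  congr 1
  exact ((Module.Free.chooseBasis R F1).toDualEquiv.finrank_eq).symm

end main

end Pool.Agent.Licci

end

section

/-!
# Grade `c` bridge, part A: null homotopies, dual complexes, the zigzag between a complex
`⋯ → G 1 → G 0` and the Koszul cochain complex
-/

set_option autoImplicit false

namespace Pool.Agent.Licci.D

open RingTheory.Sequence

universe u v

section homotopy

variable {R : Type u} [CommRing R] {G : ℕ → Type v} [∀ i, AddCommGroup (G i)]
  [∀ i, Module R (G i)]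

/-- the null homotopy of multiplication by `r` which extends `s0` -/
noncomputable def nh (u : ∀ i, G (i + 1) →ₗ[R] G i) (r : R) (s0 : G 0 →ₗ[R] G 1) :
    ∀ i, G i →ₗ[R] G (i + 1)
  | 0 => s0
  | i + 1 => Classical.epsilon fun t => ∀ x, u (i + 1) (t x) = r • x - nh u r s0 i (u i x)

theorem nh_spec [∀ i, Module.Projective R (G i)] (u : ∀ i, G (i + 1) →ₗ[R] G i) (r : R)
    (s0 : G 0 →ₗ[R] G 1) (h0 : ∀ x, u 0 (s0 x) = r • x) (n : ℕ)
    (hex : ∀ i, i < n → Function.Exact (u (i + 1)) (u i)) :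
    ∀ i, i < n → ∀ x, u (i + 1) (nh u r s0 (i + 1) x) + nh u r s0 i (u i x) = r • x := by
  intro i
  induction i with
  | zero =>
    intro hi x
    have h1 : ∃ t : G 1 →ₗ[R] G 2, ∀ x, u 1 (t x) = r • x - nh u r s0 0 (u 0 x) := by
      obtain ⟨t, ht⟩ := LicciCodimFour.exists_lift (hex 0 hi)
        (r • LinearMap.id - nh u r s0 0 ∘ₗ u 0) (fun x => by
          simp only [nh, LinearMap.sub_apply, LinearMap.smul_apply, LinearMap.id_apply,
            LinearMap.comp_apply, map_sub, map_smul, h0, sub_self])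
      exact ⟨t, ht⟩
    have h2 : u 1 (nh u r s0 1 x) = r • x - nh u r s0 0 (u 0 x) := Classical.epsilon_spec h1 x
    rw [h2, sub_add_cancel]
  | succ i ih =>
    intro hi x
    have ih' := ih (by omega)
    have h1 : ∃ t : G (i + 2) →ₗ[R] G (i + 3), ∀ x,
        u (i + 2) (t x) = r • x - nh u r s0 (i + 1) (u (i + 1) x) := by
      obtain ⟨t, ht⟩ := LicciCodimFour.exists_lift (hex (i + 1) hi)
        (r • LinearMap.id - nh u r s0 (i + 1) ∘ₗ u (i + 1)) (fun x => by
          have h3 := ih' (u (i + 1) x)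
          rw [(hex i (by omega)).apply_apply_eq_zero, map_zero, add_zero] at h3
          simp only [LinearMap.sub_apply, LinearMap.smul_apply, LinearMap.id_apply,
            LinearMap.comp_apply, map_sub, map_smul, h3, sub_self])
      exact ⟨t, ht⟩
    have h2 : u (i + 2) (nh u r s0 (i + 2) x) = r • x - nh u r s0 (i + 1) (u (i + 1) x) :=
      Classical.epsilon_spec h1 x
    rw [h2, sub_add_cancel]

end homotopy

section dual

variable {R : Type u} [CommRing R] {F : ℕ → Type u} [∀ i, AddCommGroup (F i)]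
  [∀ i, Module R (F i)] [∀ i, Module.Free R (F i)] [∀ i, Module.Finite R (F i)]

/-- The dual of a free resolution of a module killed by a regular sequence is exact below the
length of the sequence. -/
theorem dual_exact_gen (D : ∀ i, F (i + 1) →ₗ[R] F i)
    (hD : ∀ i, Function.Exact (D (i + 1)) (D i)) (rs : List R) (hreg : IsWeaklyRegular R rs)
    (hs : ∀ r ∈ rs, ∃ s0 : F 0 →ₗ[R] F 1, ∀ x, D 0 (s0 x) = r • x) :
    (0 < rs.length → Function.Injective (D 0).dualMap) ∧
      ∀ i, i + 1 < rs.length → Function.Exact (D i).dualMap (D (i + 1)).dualMap := by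
  have hdd : ∀ i (x : Module.Dual R (F i)), (D (i + 1)).dualMap ((D i).dualMap x) = 0 := by
    intro i x
    ext z
    simp [LinearMap.dualMap_apply, (hD i).apply_apply_eq_zero]
  obtain ⟨h0, h1⟩ := acyclic_of_homotopy rs (fun i => Module.Dual R (F i))
    (fun i => (D i).dualMap) hdd
    (fun i => LicciCodimFour.isWeaklyRegular_of_flat hreg _) (by
      intro r hr
      obtain ⟨s0, hs0⟩ := hs r hr
      refine ⟨fun i => (nh D r s0 i).dualMap, fun x => ?_, fun i x => ?_⟩
      · ext z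
        simp [LinearMap.dualMap_apply, nh, hs0]
      · ext z
        have h2 := nh_spec D r s0 hs0 (i + 1) (fun i _ => hD i) i (by omega) z
        simp only [LinearMap.add_apply, LinearMap.dualMap_apply, LinearMap.smul_apply]
        rw [← map_smul, ← h2, map_add]
        exact add_comm _ _)
  refine ⟨h0, fun i hi x => ⟨fun hx => h1 i hi x hx, ?_⟩⟩
  rintro ⟨y, rfl⟩
  exact hdd i y

end dual

section zigzag

variable {R : Type u} [CommRing R] {M : Type u} [AddCommGroup M] [Module R M]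
  [Module.Free R M] [Module.Finite R M]
  {G : ℕ → Type u} [∀ i, AddCommGroup (G i)] [∀ i, Module R (G i)]

/-- comparison families: `u_i ∘ x_{i+1} = f ∧ x_i` for `i ≤ k` -/
def IsComp (f : M →ₗ[R] R) (u : ∀ i, G (i + 1) →ₗ[R] G i) (k : ℕ)
    (x : ∀ i, M [⋀^Fin i]→ₗ[R] G i) : Prop :=
  ∀ i, i ≤ k → (u i).compAlternatingMap (x (i + 1)) = wedge f i (x i)

variable {f : M →ₗ[R] R} {u : ∀ i, G (i + 1) →ₗ[R] G i} {k : ℕ}

omit [Module.Free R M] [Module.Finite R M] in
theorem comp_add' {A B : Type u} [AddCommGroup A] [Module R A] [AddCommGroup B] [Module R B]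
    (q : A →ₗ[R] B) {n : ℕ} (ω η : M [⋀^Fin n]→ₗ[R] A) :
    q.compAlternatingMap (ω + η) = q.compAlternatingMap ω + q.compAlternatingMap η := by
  ext x
  exact LinearMap.map_add q _ _

omit [Module.Free R M] [Module.Finite R M] in
theorem comp_sub' {A B : Type u} [AddCommGroup A] [Module R A] [AddCommGroup B] [Module R B]
    (q : A →ₗ[R] B) {n : ℕ} (ω η : M [⋀^Fin n]→ₗ[R] A) :
    q.compAlternatingMap (ω - η) = q.compAlternatingMap ω - q.compAlternatingMap η := by
  ext x
  exact LinearMap.map_sub q _ _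

omit [Module.Free R M] [Module.Finite R M] in
theorem comp_smul' {A B : Type u} [AddCommGroup A] [Module R A] [AddCommGroup B] [Module R B]
    (q : A →ₗ[R] B) {n : ℕ} (y : R) (ω : M [⋀^Fin n]→ₗ[R] A) :
    q.compAlternatingMap (y • ω) = y • q.compAlternatingMap ω := by
  ext x
  exact LinearMap.map_smul q _ _

omit [Module.Free R M] [Module.Finite R M] in
theorem comp_comp_zero {A B C : Type u} [AddCommGroup A] [Module R A] [AddCommGroup B]
    [Module R B] [AddCommGroup C] [Module R C] {p : A →ₗ[R] B} {q : B →ₗ[R] C}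
    (h : Function.Exact p q) {n : ℕ} (ω : M [⋀^Fin n]→ₗ[R] A) :
    q.compAlternatingMap (p.compAlternatingMap ω) = 0 := by
  ext x
  exact h.apply_apply_eq_zero _

omit [Module.Free R M] [Module.Finite R M] in
theorem wedge_sub'' {N : Type u} [AddCommGroup N] [Module R N] (g : M →ₗ[R] R) (n : ℕ)
    (ω η : M [⋀^Fin n]→ₗ[R] N) : wedge g n (ω - η) = wedge g n ω - wedge g n η :=
  LinearMap.map_sub (wedge g n) ω η

omit [Module.Free R M] [Module.Finite R M] in
theorem wedge_add'' {N : Type u} [AddCommGroup N] [Module R N] (g : M →ₗ[R] R) (n : ℕ)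
    (ω η : M [⋀^Fin n]→ₗ[R] N) : wedge g n (ω + η) = wedge g n ω + wedge g n η :=
  LinearMap.map_add (wedge g n) ω η

omit [Module.Free R M] [Module.Finite R M] in
theorem wedge_smul'' {N : Type u} [AddCommGroup N] [Module R N] (g : M →ₗ[R] R) (n : ℕ) (y : R)
    (ω : M [⋀^Fin n]→ₗ[R] N) : wedge g n (y • ω) = y • wedge g n ω :=
  LinearMap.map_smul (wedge g n) y ω

/-- the Koszul complex with flat coefficients is exact below the grade -/
theorem koszul_lt {n : ℕ} (h : HasReg f n) {N : Type u} [AddCommGroup N] [Module R N]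
    [Module.Flat R N] (i : ℕ) (hi : i + 1 < n) (ω : M [⋀^Fin (i + 1)]→ₗ[R] N)
    (hω : wedge f (i + 1) ω = 0) : ∃ η, wedge f i η = ω := by
  obtain ⟨rs, h1, h2, h3⟩ := h
  exact koszul_exact' f rs (LicciCodimFour.isWeaklyRegular_of_flat h2 N) h3 (i + 1) (h1 ▸ hi) ω hω

theorem koszul_zero {n : ℕ} (h : HasReg f n) (hn : 0 < n) {N : Type u} [AddCommGroup N]
    [Module R N] [Module.Flat R N] (ω : M [⋀^Fin 0]→ₗ[R] N)
    (hω : wedge f 0 ω = 0) : ω = 0 := by
  obtain ⟨rs, h1, h2, h3⟩ := h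
  exact koszul_exact' f rs (LicciCodimFour.isWeaklyRegular_of_flat h2 N) h3 0 (h1 ▸ hn) ω hω

omit [Module.Finite R M] in
/-- existence of a comparison family with given start -/
theorem exists_comp (hu : ∀ i, i < k → Function.Exact (u (i + 1)) (u i))
    (hf : ∀ v (x : G 0), ∃ y, u 0 y = f v • x) (x0 : G 0) :
    ∃ x, IsComp f u k x ∧ x 0 = AlternatingMap.constOfIsEmpty R M (Fin 0) x0 := by
  have key : ∀ n, n ≤ k + 1 → ∃ x : ∀ i, M [⋀^Fin i]→ₗ[R] G i,
      (∀ i, i < n → (u i).compAlternatingMap (x (i + 1)) = wedge f i (x i)) ∧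
      x 0 = AlternatingMap.constOfIsEmpty R M (Fin 0) x0 := by
    intro n
    induction n with
    | zero =>
      intro _
      refine ⟨fun i => match i with
        | 0 => AlternatingMap.constOfIsEmpty R M (Fin 0) x0
        | _ + 1 => 0, fun i hi => absurd hi (by omega), rfl⟩
    | succ n ih =>
      intro hn
      obtain ⟨x, hx, hx0⟩ := ih (by omega)
      have h1 : ∃ y : M [⋀^Fin (n + 1)]→ₗ[R] G (n + 1),
          (u n).compAlternatingMap y = wedge f n (x n) := by
        cases n with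
        | zero =>
          have hv : ∀ v, wedge f 0 (x 0) v ∈ LinearMap.range (u 0) := by
            intro v
            rw [hx0, wedge_apply]
            obtain ⟨y, hy⟩ := hf (v 0) x0
            exact ⟨y, by simpa using hy⟩
          obtain ⟨η, hη⟩ := exists_lift_alt (u 0).rangeRestrict
            (LinearMap.surjective_rangeRestrict _) 1 ((wedge f 0 (x 0)).codRestrict _ hv)
          refine ⟨η, ?_⟩
          ext v
          exact congrArg (fun g => ((g v : LinearMap.range (u 0)) : G 0)) hη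
        | succ n =>
          refine exists_lift_alt_exact (hu n (by omega)) (n + 2) _ ?_
          rw [← wedge_compRight, hx n (by omega), wedge_wedge_self]
      obtain ⟨y, hy⟩ := h1
      refine ⟨Function.update x (n + 1) y, fun i hi => ?_, ?_⟩
      · rcases Nat.lt_succ_iff_lt_or_eq.1 hi with h | h
        · rw [Function.update_of_ne (by omega), Function.update_of_ne (by omega)]
          exact hx i h
        · subst h
          rw [Function.update_self, Function.update_of_ne (by omega)]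
          exact hy
      · rw [Function.update_of_ne (by omega)]
        exact hx0
  obtain ⟨x, hx, hx0⟩ := key (k + 1) le_rfl
  exact ⟨x, fun i hi => hx i (by omega), hx0⟩

omit [Module.Free R M] [Module.Finite R M] in
/-- the end of a comparison family is closed -/
theorem IsComp.closed {x : ∀ i, M [⋀^Fin i]→ₗ[R] G i} (hx : IsComp f u k x)
    (hinj : Function.Injective (u k)) : wedge f (k + 1) (x (k + 1)) = 0 := by
  have h1 : (u k).compAlternatingMap (wedge f (k + 1) (x (k + 1))) = 0 := by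
    rw [← wedge_compRight, hx k le_rfl, wedge_wedge_self]
  ext v
  apply hinj
  rw [AlternatingMap.zero_apply, map_zero]
  exact congrArg (fun g => g v) h1

/-- (B) if `y x_{k+1}` is a coboundary, then `y x_0` is in the image of `u_0` -/
theorem IsComp.mem {x : ∀ i, M [⋀^Fin i]→ₗ[R] G i} (hx : IsComp f u k x)
    [∀ i, Module.Flat R (G i)]
    (hu : ∀ i, i < k → Function.Exact (u (i + 1)) (u i)) (hf : HasReg f (k + 1)) {x0 : G 0}
    (hx0 : x 0 = AlternatingMap.constOfIsEmpty R M (Fin 0) x0) {y : R}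
    {η : M [⋀^Fin k]→ₗ[R] G (k + 1)} (hη : wedge f k η = y • x (k + 1)) :
    ∃ g, u 0 g = y • x0 := by
  have key : ∀ n i, i + n = k → ∃ τ : M [⋀^Fin i]→ₗ[R] G (i + 1),
      wedge f i (y • x i - (u i).compAlternatingMap τ) = 0 := by
    intro n
    induction n with
    | zero =>
      intro i hi
      obtain rfl : i = k := by omega
      refine ⟨η, ?_⟩
      rw [wedge_sub'', wedge_smul'', wedge_compRight, hη, comp_smul', hx i le_rfl, sub_self]
    | succ n ih =>
      intro i hi
      obtain ⟨τ, hτ⟩ := ih (i + 1) (by omega)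
      obtain ⟨σ, hσ⟩ := koszul_lt hf i (by omega) _ hτ
      refine ⟨σ, ?_⟩
      rw [wedge_sub'', wedge_smul'', wedge_compRight, hσ, comp_sub', comp_smul',
        comp_comp_zero (hu i (by omega)), sub_zero, hx i (by omega), sub_self]
  obtain ⟨τ, hτ⟩ := key k 0 (by omega)
  have h1 := koszul_zero hf (by omega) _ hτ
  refine ⟨τ ![], ?_⟩
  have h2 := congrArg (fun g => g ![]) h1
  rw [hx0] at h2
  simp only [AlternatingMap.sub_apply, AlternatingMap.smul_apply, AlternatingMap.zero_apply,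
    LinearMap.compAlternatingMap_apply, AlternatingMap.constOfIsEmpty_apply] at h2
  exact (sub_eq_zero.1 h2).symm

omit [Module.Finite R M] in
/-- a comparison family with trivial start ends in a coboundary -/
theorem IsComp.cob {x : ∀ i, M [⋀^Fin i]→ₗ[R] G i} (hx : IsComp f u k x)
    (hu : ∀ i, i < k → Function.Exact (u (i + 1)) (u i)) (hinj : Function.Injective (u k))
    (hx0 : x 0 = 0) : ∃ τ : M [⋀^Fin k]→ₗ[R] G (k + 1), x (k + 1) = wedge f k τ := by
  have key : ∀ i, i < k → ∃ τ : M [⋀^Fin i]→ₗ[R] G (i + 1),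
      (u i).compAlternatingMap (x (i + 1) - wedge f i τ) = 0 := by
    intro i
    induction i with
    | zero =>
      intro _
      refine ⟨0, ?_⟩
      rw [map_zero, sub_zero, hx 0 (by omega), hx0, map_zero]
    | succ i ih =>
      intro hi
      obtain ⟨τ, hτ⟩ := ih (by omega)
      obtain ⟨σ, hσ⟩ := exists_lift_alt_exact (hu i (by omega)) (i + 1) _ hτ
      refine ⟨σ, ?_⟩
      rw [comp_sub', hx (i + 1) (by omega), ← wedge_compRight, hσ, wedge_sub'',
        wedge_wedge_self, sub_zero, sub_self]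
  have key2 : ∃ τ : M [⋀^Fin k]→ₗ[R] G (k + 1),
      (u k).compAlternatingMap (x (k + 1) - wedge f k τ) = 0 := by
    cases k with
    | zero =>
      refine ⟨0, ?_⟩
      rw [map_zero, sub_zero, hx 0 (by omega), hx0, map_zero]
    | succ i =>
      obtain ⟨τ, hτ⟩ := key i (by omega)
      obtain ⟨σ, hσ⟩ := exists_lift_alt_exact (hu i (by omega)) (i + 1) _ hτ
      refine ⟨σ, ?_⟩
      rw [comp_sub', hx (i + 1) (by omega), ← wedge_compRight, hσ, wedge_sub'',
        wedge_wedge_self, sub_zero, sub_self]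
  obtain ⟨τ, hτ⟩ := key2
  refine ⟨τ, ?_⟩
  rw [← sub_eq_zero]
  ext v
  apply hinj
  rw [AlternatingMap.zero_apply, map_zero]
  exact congrArg (fun g => g v) hτ

/-- a closed form at the end comes from a comparison family -/
theorem exists_comp_of_closed [∀ i, Module.Flat R (G i)]
    (hu : ∀ i, i < k → Function.Exact (u (i + 1)) (u i)) (hf : HasReg f (k + 1))
    (ω : M [⋀^Fin (k + 1)]→ₗ[R] G (k + 1))
    (hω : ∃ ω', wedge f k ω' = (u k).compAlternatingMap ω) :
    ∃ x, IsComp f u k x ∧ x (k + 1) = ω := by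
  have key : ∀ n, n ≤ k → ∃ x : ∀ i, M [⋀^Fin i]→ₗ[R] G i,
      (∀ i, i ≤ k → k ≤ i + n → (u i).compAlternatingMap (x (i + 1)) = wedge f i (x i)) ∧
      x (k + 1) = ω := by
    intro n
    induction n with
    | zero =>
      intro _
      obtain ⟨ω', hω'⟩ := hω
      refine ⟨Function.update (Function.update (fun i => 0) (k + 1) ω) k ω',
        fun i hi hi' => ?_, ?_⟩
      · obtain rfl : i = k := by omega
        rw [Function.update_self, Function.update_of_ne (by omega), Function.update_self]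
        exact hω'.symm
      · rw [Function.update_of_ne (by omega), Function.update_self]
    | succ n ih =>
      intro hn
      obtain ⟨x, hx, hxω⟩ := ih (by omega)
      obtain ⟨m, hm⟩ : ∃ m, m + (n + 1) = k := ⟨k - (n + 1), by omega⟩
      obtain ⟨y, hy⟩ := koszul_lt hf m (by omega) ((u m).compAlternatingMap (x (m + 1))) (by
        rw [wedge_compRight, ← hx (m + 1) (by omega) (by omega),
          comp_comp_zero (hu m (by omega))])
      refine ⟨Function.update x m y, fun i hi hi' => ?_, ?_⟩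
      · by_cases h : i = m
        · subst h
          rw [Function.update_self, Function.update_of_ne (by omega)]
          exact hy.symm
        · rw [Function.update_of_ne (by omega), Function.update_of_ne h]
          exact hx i hi (by omega)
      · rw [Function.update_of_ne (by omega)]
        exact hxω
  obtain ⟨x, hx, hxω⟩ := key k le_rfl
  exact ⟨x, fun i hi => hx i hi (by omega), hxω⟩

end zigzag

end Pool.Agent.Licci.D

end

section

/-!
# Grade `c` bridge: from a free resolution of length `c` to the top Koszul cohomology and to the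
link identities, all codimensions and all types
-/

set_option autoImplicit false

namespace Pool.Agent.Licci.D

open RingTheory.Sequence

universe u

section algebra

variable {R : Type u} [CommRing R] {M : Type u} [AddCommGroup M] [Module R M]
  [Module.Free R M] [Module.Finite R M]
  {G : ℕ → Type u} [∀ i, AddCommGroup (G i)] [∀ i, Module R (G i)]
  {f : M →ₗ[R] R} {u : ∀ i, G (i + 1) →ₗ[R] G i} {k : ℕ}

omit [Module.Free R M] [Module.Finite R M] in
theorem IsComp.sub {x y : ∀ i, M [⋀^Fin i]→ₗ[R] G i} (hx : IsComp f u k x)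
    (hy : IsComp f u k y) : IsComp f u k (fun i => x i - y i) := by
  intro i hi
  rw [comp_sub', wedge_sub'', hx i hi, hy i hi]

omit [Module.Free R M] [Module.Finite R M] in
theorem IsComp.sum {ι : Type*} (s : Finset ι) (c : ι → R) {x : ι → ∀ i, M [⋀^Fin i]→ₗ[R] G i}
    (hx : ∀ a, IsComp f u k (x a)) : IsComp f u k (fun i => ∑ a ∈ s, c a • x a i) := by
  classical
  intro i hi
  induction s using Finset.induction_on with
  | empty =>
    simp only [Finset.sum_empty, map_zero]
    ext v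
    simp
  | insert a s ha ih =>
    simp only [Finset.sum_insert ha]
    rw [comp_add', wedge_add'', comp_smul', wedge_smul'', hx a i hi, ih]

omit [Module.Free R M] [Module.Finite R M] in
theorem alt_sum_apply {ι : Type*} (s : Finset ι) {N : Type*} [AddCommGroup N] [Module R N]
    {n : ℕ} (x : ι → M [⋀^Fin n]→ₗ[R] N) (v : Fin n → M) :
    (∑ a ∈ s, x a) v = ∑ a ∈ s, x a v := by
  classical
  induction s using Finset.induction_on with
  | empty => simp
  | insert a s ha ih =>
    rw [Finset.sum_insert ha, Finset.sum_insert ha, AlternatingMap.add_apply, ih]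

/-- a linear map into alternating forms, as an alternating map with values in a dual module -/
def flip' {A : Type u} [AddCommGroup A] [Module R A] {n : ℕ}
    (L : A →ₗ[R] (M [⋀^Fin n]→ₗ[R] R)) : M [⋀^Fin n]→ₗ[R] Module.Dual R A where
  toFun x :=
    { toFun := fun v => L v x
      map_add' := fun u v => by rw [map_add]; rfl
      map_smul' := fun c v => by rw [map_smul]; rfl }
  map_update_add' x i a b := by
    apply LinearMap.ext
    intro v
    exact (L v).map_update_add' x i a b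
  map_update_smul' x i c a := by
    apply LinearMap.ext
    intro v
    exact (L v).map_update_smul' x i c a
  map_eq_zero_of_eq' x i j h hij := by
    apply LinearMap.ext
    intro v
    exact (L v).map_eq_zero_of_eq' x i j h hij

omit [Module.Free R M] [Module.Finite R M] in
/-- a closed form contracts to a form one step up in the complex -/
theorem exists_up (α : G (k + 1) ≃ₗ[R] R) (β : G k ≃ₗ[R] Module.Dual R M)
    (hβ : ∀ g v, β (u k g) v = α g * f v) (ω : M [⋀^Fin (k + 1)]→ₗ[R] G (k + 1))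
    (hω : wedge f (k + 1) ω = 0) : ∃ ω', wedge f k ω' = (u k).compAlternatingMap ω := by
  have h0 : wedge f (k + 1) (α.toLinearMap.compAlternatingMap ω) = 0 := by
    rw [wedge_compRight, hω]
    ext x
    simp
  refine ⟨β.symm.toLinearMap.compAlternatingMap
    (flip' (contrL k (α.toLinearMap.compAlternatingMap ω))), ?_⟩
  rw [wedge_compRight]
  ext x
  apply β.injective
  ext v
  have h1 := wedge_evalAlt f (flip' (contrL k (α.toLinearMap.compAlternatingMap ω))) v
  have h2 : evalAlt (flip' (contrL k (α.toLinearMap.compAlternatingMap ω))) v =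
      contr v k (α.toLinearMap.compAlternatingMap ω) := rfl
  have h3 := contr_wedge f v k (α.toLinearMap.compAlternatingMap ω)
  rw [h0, map_zero] at h3
  have h4 := sub_eq_zero.1 h3.symm
  rw [h2, ← h4] at h1
  have h5 := congrArg (fun g => g x) h1
  simp only [AlternatingMap.smul_apply, evalAlt_apply, smul_eq_mul] at h5
  rw [LinearMap.compAlternatingMap_apply, LinearMap.compAlternatingMap_apply, hβ]
  simp only [LinearEquiv.coe_coe, LinearEquiv.apply_symm_apply]
  rw [← h5]
  simp [mul_comm]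

/-- The zigzag: generators of `G 0` modulo the image of `u 0` give generators of the top Koszul
cohomology, and a scalar which makes all of them coboundaries is in the image of `f`. -/
theorem zigzag [∀ i, Module.Free R (G i)] [∀ i, Module.Finite R (G i)]
    (hf : HasReg f (k + 1)) (hu : ∀ i, i < k → Function.Exact (u (i + 1)) (u i))
    (hinj : Function.Injective (u k)) (h0 : ∀ v (x : G 0), ∃ y, u 0 y = f v • x)
    (α : G (k + 1) ≃ₗ[R] R) (β : G k ≃ₗ[R] Module.Dual R M)
    (hβ : ∀ g v, β (u k g) v = α g * f v) {ι : Type*} [Fintype ι] (b : Module.Basis ι R (G 0)) :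
    ∃ ν : ι → M [⋀^Fin (k + 1)]→ₗ[R] R, (∀ a, wedge f (k + 1) (ν a) = 0) ∧
      (∀ y, (∀ a, ∃ η, wedge f k η = y • ν a) → y ∈ LinearMap.range f) ∧
      (∀ ω, wedge f (k + 1) ω = 0 → ∃ (c : ι → R) (η : M [⋀^Fin k]→ₗ[R] R),
        ω = ∑ a, c a • ν a + wedge f k η) := by
  classical
  choose x hx hx0 using fun a => exists_comp hu h0 (b a)
  have hc : ∀ a, wedge f (k + 1) (x a (k + 1)) = 0 := fun a => (hx a).closed hinj
  refine ⟨fun a => α.toLinearMap.compAlternatingMap (x a (k + 1)), fun a => ?_, fun y hy => ?_,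
    fun ω hω => ?_⟩
  · rw [wedge_compRight, hc]
    ext v
    simp
  · -- `y` kills `G 0 / im (u 0)`
    have h1 : ∀ a, ∃ g, u 0 g = y • b a := by
      intro a
      obtain ⟨η, hη⟩ := hy a
      refine (hx a).mem hu hf (hx0 a)
        (η := α.symm.toLinearMap.compAlternatingMap η) ?_
      rw [wedge_compRight, hη]
      ext v
      simp
    choose g hg using h1
    have h2 : ∀ z, u 0 (b.constr R g z) = y • z := by
      intro z
      have : u 0 ∘ₗ b.constr R g = y • LinearMap.id := by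
        apply b.ext
        intro a
        simp [hg]
      exact LinearMap.congr_fun this z
    have h3 : ∀ z, nh u y (b.constr R g) k (u k z) = y • z := by
      intro z
      apply hinj
      cases k with
      | zero => rw [map_smul]; exact h2 _
      | succ k =>
        have h4 := nh_spec u y (b.constr R g) h2 (k + 1) hu k (by omega) (u (k + 1) z)
        rw [(hu k (by omega)).apply_apply_eq_zero, map_zero, add_zero] at h4
        rw [h4, map_smul]
    have h4 : β.symm f = u k (α.symm 1) := by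
      rw [LinearEquiv.symm_apply_eq]
      ext v
      rw [hβ]
      simp
    refine ⟨(Module.evalEquiv R M).symm
      (α.toLinearMap ∘ₗ nh u y (b.constr R g) k ∘ₗ β.symm.toLinearMap), ?_⟩
    rw [Module.apply_evalEquiv_symm_apply]
    simp [h4, h3]
  · -- the class of `ω`
    have h1 : wedge f (k + 1) (α.symm.toLinearMap.compAlternatingMap ω) = 0 := by
      rw [wedge_compRight, hω]
      ext v
      simp
    obtain ⟨z, hz, hz1⟩ := exists_comp_of_closed hu hf _ (exists_up α β hβ _ h1)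
    have h2 := hz.sub (IsComp.sum Finset.univ (fun a => b.repr (z 0 ![]) a) hx)
    obtain ⟨τ, hτ⟩ := h2.cob hu hinj (by
      ext v
      have hv : v = ![] := Subsingleton.elim _ _
      subst hv
      simp only [hx0]
      rw [AlternatingMap.sub_apply, alt_sum_apply, AlternatingMap.zero_apply, sub_eq_zero]
      simp only [AlternatingMap.smul_apply, AlternatingMap.constOfIsEmpty_apply]
      exact (b.sum_repr _).symm)
    refine ⟨fun a => b.repr (z 0 ![]) a, α.toLinearMap.compAlternatingMap τ, ?_⟩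
    have h3 : ω = α.toLinearMap.compAlternatingMap (z (k + 1)) := by
      rw [hz1]
      ext v
      simp
    rw [wedge_compRight, ← hτ, h3]
    ext v
    simp [alt_sum_apply, map_sum]

end algebra

section link

variable {R : Type u} [CommRing R] {M : Type u} [AddCommGroup M] [Module R M]
  [Module.Free R M] [Module.Finite R M] {f : M →ₗ[R] R} {k : ℕ}

/-- the link identities from generators of the top cohomology -/
theorem link_of_zigzag {ι : Type*} [Fintype ι] (ν : ι → M [⋀^Fin (k + 1)]→ₗ[R] R)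
    (h1 : ∀ a, wedge f (k + 1) (ν a) = 0)
    (h2 : ∀ y, (∀ a, ∃ η, wedge f k η = y • ν a) → y ∈ LinearMap.range f)
    (h3 : ∀ ω, wedge f (k + 1) ω = 0 → ∃ (c : ι → R) (η : M [⋀^Fin k]→ₗ[R] R),
      ω = ∑ a, c a • ν a + wedge f k η)
    (e : Fin (k + 1) → M) (he : IsWeaklyRegular R (List.ofFn fun i => f (e i))) :
    (Ideal.span (Set.range fun i => f (e i))).colon ((LinearMap.range f : Ideal R) : Set R) =
        Ideal.span (Set.range fun i => f (e i)) ⊔ Ideal.span (Set.range fun a => ν a e) ∧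
      (Ideal.span (Set.range fun i => f (e i))).colon
        (((Ideal.span (Set.range fun i => f (e i))).colon
          ((LinearMap.range f : Ideal R) : Set R) : Ideal R) : Set R) = LinearMap.range f := by
  set A : Ideal R := Ideal.span (Set.range fun i => f (e i)) with hA
  have hcol : ∀ (J : Ideal R) r, r ∈ A.colon (J : Set R) ↔ ∀ x ∈ J, r * x ∈ A := by
    intro J r
    rw [Submodule.mem_colon]
    rfl
  have hcob : ∀ η : M [⋀^Fin k]→ₗ[R] R, wedge f k η e ∈ A := by
    intro η
    have h := wedge_apply_mem f k η e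
    rwa [smul_eq_mul, Ideal.mul_top] at h
  have hmul : ∀ a v, f v * ν a e ∈ A := by
    intro a v
    have h := contr_wedge f v k (ν a)
    rw [h1, map_zero] at h
    have h' := congrArg (fun g => g e) (sub_eq_zero.1 h.symm)
    simp only [AlternatingMap.smul_apply, smul_eq_mul] at h'
    rw [h']
    exact hcob _
  have hle : Ideal.span (Set.range fun a => ν a e) ≤ A.colon ((LinearMap.range f : Ideal R) : Set R) := by
    rw [Ideal.span_le]
    rintro _ ⟨a, rfl⟩
    rw [SetLike.mem_coe, hcol]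
    rintro _ ⟨v, rfl⟩
    rw [mul_comm]
    exact hmul a v
  refine ⟨le_antisymm ?_ (sup_le Ideal.le_colon hle), le_antisymm ?_ ?_⟩
  · intro y hy
    rw [hcol] at hy
    obtain ⟨ω, hω, hωe⟩ := exists_wedge_class f (k + 1) e he y (fun v => hy _ ⟨v, rfl⟩)
    obtain ⟨c, η, rfl⟩ := h3 ω hω
    rw [AlternatingMap.add_apply, alt_sum_apply] at hωe
    simp only [AlternatingMap.smul_apply, smul_eq_mul] at hωe
    have h4 : y = (wedge f k η e - (∑ a, c a * ν a e + wedge f k η e - y)) +
        ∑ a, c a * ν a e := by ring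
    rw [h4]
    refine Ideal.add_mem _ (Ideal.mem_sup_left (Ideal.sub_mem _ (hcob η) hωe))
      (Ideal.mem_sup_right (Ideal.sum_mem _ fun a _ => Ideal.mul_mem_left _ _
        (Ideal.subset_span ⟨a, rfl⟩)))
  · intro y hy
    rw [hcol] at hy
    apply h2
    intro a
    have h5 := hy (ν a e) (hle (Ideal.subset_span ⟨a, rfl⟩))
    exact isCob_of_apply_mem f (k + 1) e he (y • ν a) (by rw [wedge_smul'', h1, smul_zero]) h5
  · intro y hy
    rw [hcol]
    intro s hs
    rw [hcol] at hs
    rw [mul_comm]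
    exact hs y hy

end link

section resolution

variable {R : Type u} [CommRing R] {F : ℕ → Type u} [∀ i, AddCommGroup (F i)]
  [∀ i, Module R (F i)] [∀ i, Module.Free R (F i)] [∀ i, Module.Finite R (F i)]

/-- the dual map, with free indices -/
def uu (D : ∀ i, F (i + 1) →ₗ[R] F i) (m n : ℕ) (h : n = m + 1) :
    Module.Dual R (F m) →ₗ[R] Module.Dual R (F n) :=
  (D m ∘ₗ (show F n →ₗ[R] F (m + 1) by subst h; exact LinearMap.id)).dualMap

/-- the reversed dual complex -/
def uR (D : ∀ i, F (i + 1) →ₗ[R] F i) (c : ℕ) (j : ℕ) :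
    Module.Dual R (F (c - (j + 1))) →ₗ[R] Module.Dual R (F (c - j)) :=
  if h : c - j = c - (j + 1) + 1 then uu D _ _ h else 0

theorem uR_eq (D : ∀ i, F (i + 1) →ₗ[R] F i) (c j : ℕ) (h : c - j = c - (j + 1) + 1) :
    uR D c j = uu D _ _ h := dif_pos h

theorem uu_exact (D : ∀ i, F (i + 1) →ₗ[R] F i) (m n p : ℕ) (h1 : n = m + 1) (h2 : p = n + 1)
    (hex : Function.Exact (D m).dualMap (D (m + 1)).dualMap) :
    Function.Exact (uu D m n h1) (uu D n p h2) := by
  subst h1
  subst h2
  exact hex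

theorem uu_inj (D : ∀ i, F (i + 1) →ₗ[R] F i) (m n : ℕ) (hm : m = 0) (h1 : n = m + 1)
    (h : Function.Injective (D 0).dualMap) : Function.Injective (uu D m n h1) := by
  subst hm
  subst h1
  exact h

theorem uu_kill (D : ∀ i, F (i + 1) →ₗ[R] F i) (k m n : ℕ) (hn : n = k + 1) (h1 : n = m + 1)
    (r : R) (s : F (k + 1) →ₗ[R] F (k + 1 + 1)) (t : F k →ₗ[R] F (k + 1))
    (h : ∀ x, D (k + 1) (s x) + t (D k x) = r • x) (hz : ∀ x : F (k + 1 + 1), x = 0)
    (ξ : Module.Dual R (F n)) : ∃ y, uu D m n h1 y = r • ξ := by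
  subst hn
  obtain rfl : k = m := by omega
  refine ⟨ξ ∘ₗ t, ?_⟩
  ext x
  have h2 := h x
  rw [hz (s x), map_zero, zero_add] at h2
  show ξ (t (D k x)) = r • ξ x
  rw [h2, map_smul]

theorem uu_equiv (D : ∀ i, F (i + 1) →ₗ[R] F i) (e0 : F 0 ≃ₗ[R] R) (m n : ℕ) (hm : m = 0)
    (h1 : n = m + 1) : ∃ (α : Module.Dual R (F m) ≃ₗ[R] R)
      (β : Module.Dual R (F n) ≃ₗ[R] Module.Dual R (F 1)),
      ∀ g v, β (uu D m n h1 g) v = α g * e0 (D 0 v) := by
  subst hm
  subst h1
  refine ⟨e0.symm.dualMap ≪≫ₗ LinearMap.ringLmapEquivSelf R R R, LinearEquiv.refl _ _, ?_⟩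
  intro g v
  have h2 : e0.symm (e0 (D 0 v)) = e0 (D 0 v) • e0.symm 1 := by
    rw [← map_smul, smul_eq_mul, mul_one]
  show g (D 0 v) = _
  conv_lhs => rw [← e0.symm_apply_apply (D 0 v), h2, map_smul, smul_eq_mul, mul_comm]
  congr 1

/-- **Top Koszul cohomology from a free resolution**, all lengths and types. -/
theorem exists_nu_gen (D : ∀ i, F (i + 1) →ₗ[R] F i)
    (hD : ∀ i, Function.Exact (D (i + 1)) (D i)) (e0 : F 0 ≃ₗ[R] R) (k : ℕ)
    (hz : ∀ x : F (k + 1 + 1), x = 0)
    (hf : HasReg (e0.toLinearMap ∘ₗ D 0) (k + 1)) {ι : Type*} [Fintype ι]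
    (b : Module.Basis ι R (Module.Dual R (F (k + 1)))) :
    ∃ ν : ι → F 1 [⋀^Fin (k + 1)]→ₗ[R] R,
      (∀ a, wedge (e0.toLinearMap ∘ₗ D 0) (k + 1) (ν a) = 0) ∧
      (∀ y, (∀ a, ∃ η, wedge (e0.toLinearMap ∘ₗ D 0) k η = y • ν a) →
        y ∈ LinearMap.range (e0.toLinearMap ∘ₗ D 0)) ∧
      (∀ ω, wedge (e0.toLinearMap ∘ₗ D 0) (k + 1) ω = 0 →
        ∃ (c : ι → R) (η : F 1 [⋀^Fin k]→ₗ[R] R),
        ω = ∑ a, c a • ν a + wedge (e0.toLinearMap ∘ₗ D 0) k η) := by
  have hf' := hf
  obtain ⟨rs, hlen, hreg, hmem⟩ := hf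
  have hs : ∀ r ∈ LinearMap.range (e0.toLinearMap ∘ₗ D 0),
      ∃ s0 : F 0 →ₗ[R] F 1, ∀ x, D 0 (s0 x) = r • x := by
    rintro _ ⟨v, rfl⟩
    refine ⟨(LinearMap.toSpanSingleton R (F 1) v) ∘ₗ e0.toLinearMap, fun x => ?_⟩
    apply e0.injective
    simp [mul_comm]
  obtain ⟨i0, i1⟩ := dual_exact_gen D hD rs hreg (fun r hr => hs r (by
    obtain ⟨v, hv⟩ := hmem r hr
    exact ⟨v, hv⟩))
  obtain ⟨α, β, hβ⟩ := uu_equiv D e0 (k + 1 - (k + 1)) (k + 1 - k) (by omega) (by omega)
  exact zigzag (G := fun j => Module.Dual R (F (k + 1 - j))) (u := uR D (k + 1)) hf'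
    (fun i hi => by
      rw [uR_eq D (k + 1) (i + 1) (by omega), uR_eq D (k + 1) i (by omega)]
      exact uu_exact D _ _ _ _ _ (i1 _ (by omega)))
    (by
      rw [uR_eq D (k + 1) k (by omega)]
      exact uu_inj D _ _ (by omega) _ (i0 (by omega)))
    (fun v x => by
      obtain ⟨s0, hs0⟩ := hs _ ⟨v, rfl⟩
      rw [uR_eq D (k + 1) 0 (by omega)]
      exact uu_kill D k _ _ (by omega) _ _ _ _
        (nh_spec D _ s0 hs0 (k + 1) (fun i _ => hD i) k (by omega)) hz x)
    α β (by
      intro g v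
      rw [uR_eq D (k + 1) k (by omega)]
      exact hβ g v) b

end resolution

section minimal

open IsLocalRing LicciCodimFour

variable {R : Type u} [CommRing R]

/-- ranks of the resolution, including the ring -/
def bb (b : ℕ → ℕ) : ℕ → ℕ
  | 0 => 1
  | i + 1 => b (i + 1)

/-- maps of the resolution, including the augmentation -/
def DD [IsLocalRing R] {I : Ideal R} {b : ℕ → ℕ} (F : MinimalFreeResolution I b) :
    ∀ i, (Fin (bb b (i + 1)) → R) →ₗ[R] (Fin (bb b i) → R)
  | 0 => LinearMap.pi fun _ => F.aug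
  | i + 1 => F.d i

theorem DD_exact [IsLocalRing R] {I : Ideal R} {b : ℕ → ℕ} (F : MinimalFreeResolution I b) :
    ∀ i, Function.Exact (DD F (i + 1)) (DD F i)
  | 0 => by
      intro x
      constructor
      · intro hx
        exact (F.exact_aug x).1 (congrFun hx (0 : Fin 1))
      · intro hx
        funext i
        exact (F.exact_aug x).2 hx
  | i + 1 => F.exact_d i

/-- **The bridge**: a weakly regular sequence of length `c = pd (R ⧸ I)` in `I` and the link. -/
theorem bridge [IsLocalRing R] {I : Ideal R} {b : ℕ → ℕ} (F : MinimalFreeResolution I b) (k : ℕ)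
    (hb : ∀ i, k + 1 < i → b i = 0) (a : Fin (k + 1) → R) (ha : IsWeaklyRegular R (List.ofFn a))
    (haI : ∀ i, a i ∈ I) :
    ∃ w : Fin (b (k + 1)) → R,
      (Ideal.span (Set.range a)).colon (I : Set R) =
        Ideal.span (Set.range a) ⊔ Ideal.span (Set.range w) ∧
      (Ideal.span (Set.range a)).colon
        (((Ideal.span (Set.range a)).colon (I : Set R) : Ideal R) : Set R) = I := by
  classical
  let e0 : (Fin (bb b 0) → R) ≃ₗ[R] R := LinearEquiv.funUnique (Fin 1) R R
  have hf : e0.toLinearMap ∘ₗ DD F 0 = F.aug := by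
    ext x
    rfl
  have hrange : LinearMap.range (e0.toLinearMap ∘ₗ DD F 0) = I :=
    (congrArg LinearMap.range hf).trans F.range_aug
  have hex : ∀ i, ∃ x, F.aug x = a i := by
    intro i
    have := haI i
    rw [← F.range_aug] at this
    exact this
  choose e he using hex
  have he' : (fun i => (e0.toLinearMap ∘ₗ DD F 0) (e i)) = a := by
    funext i
    exact he i
  have hreg : HasReg (e0.toLinearMap ∘ₗ DD F 0) (k + 1) := by
    refine ⟨List.ofFn a, by simp, ha, ?_⟩
    intro r hr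
    obtain ⟨i, rfl⟩ := (List.mem_ofFn' _ _).1 hr
    exact ⟨e i, congrFun he' i⟩
  have hz : ∀ x : (Fin (bb b (k + 1 + 1)) → R), x = 0 := by
    intro x
    ext i
    have h0 : b (k + 1 + 1) = 0 := hb _ (by omega)
    have hi : (i : ℕ) < b (k + 1 + 1) := i.2
    omega
  have bs : Module.Basis (Fin (b (k + 1))) R (Module.Dual R (Fin (bb b (k + 1)) → R)) :=
    (Pi.basisFun R (Fin (b (k + 1)))).dualBasis
  obtain ⟨ν, h1, h2, h3⟩ := exists_nu_gen (F := fun i => Fin (bb b i) → R) (DD F) (DD_exact F)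
    e0 k hz hreg bs
  have key := link_of_zigzag ν h1 h2 h3 e (by rw [he']; exact ha)
  rw [he', hrange] at key
  exact ⟨fun j => ν j e, key⟩

/-- `bridge` with `c` in place of `k + 1`. -/
theorem bridge_c [IsLocalRing R] {I : Ideal R} {b : ℕ → ℕ} (F : MinimalFreeResolution I b) (c : ℕ)
    (hc : 1 ≤ c) (hb : ∀ i, c < i → b i = 0) (a : Fin c → R) (ha : IsWeaklyRegular R (List.ofFn a))
    (haI : ∀ i, a i ∈ I) :
    ∃ w : Fin (b c) → R,
      (Ideal.span (Set.range a)).colon (I : Set R) =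
        Ideal.span (Set.range a) ⊔ Ideal.span (Set.range w) ∧
      (Ideal.span (Set.range a)).colon
        (((Ideal.span (Set.range a)).colon (I : Set R) : Ideal R) : Set R) = I := by
  obtain ⟨k, rfl⟩ : ∃ k, c = k + 1 := ⟨c - 1, by omega⟩
  exact bridge F k hb a ha haI

/-- **Type one**: a form `ν` which generates the top Koszul cohomology, with annihilator `I`. -/
theorem exists_nu_of_resolution [IsLocalRing R] {I : Ideal R} {b : ℕ → ℕ}
    (F : MinimalFreeResolution I b) (k : ℕ) (hb : ∀ i, k + 1 < i → b i = 0) (hb1 : b (k + 1) = 1)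
    (hf : HasReg F.aug (k + 1)) :
    ∃ ν : (Fin (b 1) → R) [⋀^Fin (k + 1)]→ₗ[R] R, wedge F.aug (k + 1) ν = 0 ∧
      (∀ y η, wedge F.aug k η = y • ν → y ∈ I) ∧
      (∀ ω, wedge F.aug (k + 1) ω = 0 →
        ∃ (z : R) (η : (Fin (b 1) → R) [⋀^Fin k]→ₗ[R] R), ω = z • ν + wedge F.aug k η) := by
  classical
  let e0 : (Fin (bb b 0) → R) ≃ₗ[R] R := LinearEquiv.funUnique (Fin 1) R R
  have hz : ∀ x : (Fin (bb b (k + 1 + 1)) → R), x = 0 := by
    intro x
    ext i
    have h0 : b (k + 1 + 1) = 0 := hb _ (by omega)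
    have hi : (i : ℕ) < b (k + 1 + 1) := i.2
    omega
  have bs : Module.Basis (Fin 1) R (Module.Dual R (Fin (bb b (k + 1)) → R)) :=
    (Pi.basisFun R (Fin (b (k + 1)))).dualBasis.reindex (finCongr hb1)
  obtain ⟨ν, h1, h2, h3⟩ := exists_nu_gen (F := fun i => Fin (bb b i) → R) (DD F) (DD_exact F)
    e0 k hz hf bs
  refine ⟨ν 0, h1 0, fun y η hη => ?_, fun ω hω => ?_⟩
  · have h4 : y ∈ LinearMap.range F.aug := h2 y (fun a => ⟨η, by
      rw [Subsingleton.elim a 0]
      exact hη⟩)
    rwa [F.range_aug] at h4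
  · obtain ⟨c, η, h4⟩ := h3 ω hω
    refine ⟨c 0, η, ?_⟩
    rw [Fin.sum_univ_one] at h4
    exact h4

end minimal

end Pool.Agent.Licci.D

end
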