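import Mathlib
import Pool.Agent.Work.MP_a98e4e_ag.Fu.DLink
import Pool.Agent.Work.MP_a98e4e_ag.Fu.Acyclic5
import Pool.Agent.Work.MP_a98e4e_ag.Defs

section

/-!
MP_a98e4e_ag (licci, codimension 4), module H4a (helper43): the exchange lemma. The two colon
identities for `(f, ω)` (`f ∧ ω = 0`) do not depend on the regular sequence.
-/

set_option autoImplicit false

namespace Pool.Agent.Licci

open IsLocalRing RingTheory.Sequence

section algebra

variable {R : Type*} [CommRing R] {P : Type*} [AddCommGroup P] [Module R P]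

/-- exchange, first identity -/
theorem exch_colon {X : Ideal R} (f g : P →ₗ[R] R) (a b : P)
    (hrel : ∀ v, f v * g a - f a * g v ∈ X)
    (hreg' : RegMod X (f b))
    (hI : ∀ y, y * g a ∈ X ⊔ Ideal.span {f a} → y ∈ LinearMap.range f)
    (y : R) (hy : y * g b ∈ X ⊔ Ideal.span {f b}) : y ∈ LinearMap.range f := by
  obtain ⟨h, hh⟩ := mem_sup_span_singleton'.mp hy
  apply hI
  refine mem_sup_span_singleton'.mpr ⟨h, hreg' _ ?_⟩
  have e : f b * (y * g a - f a * h) = f a * (y * g b - f b * h) + y * (f b * g a - f a * g b) := by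
    ring
  rw [e]
  exact X.add_mem (X.mul_mem_left _ hh) (X.mul_mem_left _ (hrel b))

/-- exchange, second identity -/
theorem exch_colon' {X : Ideal R} (f g : P →ₗ[R] R) (a b : P)
    (hrel : ∀ v, f v * g a - f a * g v ∈ X)
    (hreg : RegMod X (f a)) (hreg' : RegMod X (f b))
    (hJ : ∀ y, (∀ v, y * f v ∈ X ⊔ Ideal.span {f a}) → y ∈ X ⊔ Ideal.span {f a, g a})
    (y : R) (hy : ∀ v, y * f v ∈ X ⊔ Ideal.span {f b}) : y ∈ X ⊔ Ideal.span {f b, g b} := by
  obtain ⟨h, hh⟩ := mem_sup_span_singleton'.mp (hy a)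
  -- `y f a = f b h`
  have h1 : h ∈ X ⊔ Ideal.span {f a, g a} := by
    apply hJ
    intro v
    obtain ⟨hv, hhv⟩ := mem_sup_span_singleton'.mp (hy v)
    refine mem_sup_span_singleton'.mpr ⟨hv, hreg' _ ?_⟩
    have e : f b * (h * f v - f a * hv) = f a * (y * f v - f b * hv) - f v * (y * f a - f b * h) := by
      ring
    rw [e]
    exact X.sub_mem (X.mul_mem_left _ hhv) (X.mul_mem_left _ hh)
  obtain ⟨x, hx, z, hz, rfl⟩ := Submodule.mem_sup.mp h1
  obtain ⟨p, q, rfl⟩ := Ideal.mem_span_pair.mp hz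
  have h2 : y - (p * f b + q * g b) ∈ X := by
    apply hreg
    have e : f a * (y - (p * f b + q * g b)) =
        (y * f a - f b * (x + (p * f a + q * g a))) + f b * x + q * (f b * g a - f a * g b) := by
      ring
    rw [e]
    exact X.add_mem (X.add_mem hh (X.mul_mem_left _ hx)) (X.mul_mem_left _ (hrel b))
  have e : y = (y - (p * f b + q * g b)) + (p * f b + q * g b) := by ring
  rw [e]
  exact Ideal.add_mem _ (Ideal.mem_sup_left h2)
    (Ideal.mem_sup_right (Ideal.mem_span_pair.mpr ⟨p, q, rfl⟩))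

end algebra

section good

variable {R : Type*} [CommRing R] {P : Type*} [AddCommGroup P] [Module R P]

/-- `f ∧ ω = 0` -/
def Cyc (f : P →ₗ[R] R) (ω : P [⋀^Fin 4]→ₗ[R] R) : Prop :=
  ∀ (a : Fin 4 → P) (v : P), ∑ j, f (a j) * ω (Function.update a j v) = f v * ω a

/-- the two colon identities for the regular sequence `f a0, f a1, f a2, f a3` -/
def Good (f : P →ₗ[R] R) (ω : P [⋀^Fin 4]→ₗ[R] R) (a0 a1 a2 a3 : P) : Prop :=
  (∀ y, y * ω ![a0, a1, a2, a3] ∈ Ideal.ofList [f a0, f a1, f a2, f a3] →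
    y ∈ LinearMap.range f) ∧
  (∀ y, (∀ v, y * f v ∈ Ideal.ofList [f a0, f a1, f a2, f a3]) →
    y ∈ Ideal.ofList [f a0, f a1, f a2, f a3] ⊔ Ideal.span {ω ![a0, a1, a2, a3]})

lemma ofList_four (x0 x1 x2 x3 : R) :
    Ideal.ofList [x0, x1, x2, x3] = Ideal.ofList [x0, x1, x2] ⊔ Ideal.span {x3} := by
  rw [show [x0, x1, x2, x3] = [x0, x1, x2] ++ [x3] from rfl, Ideal.ofList_append,
    Ideal.ofList_singleton]

lemma ofList_four_sup (x0 x1 x2 x3 w : R) :
    Ideal.ofList [x0, x1, x2, x3] ⊔ Ideal.span {w} =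
      Ideal.ofList [x0, x1, x2] ⊔ Ideal.span {x3, w} := by
  rw [ofList_four, sup_assoc]
  congr 1
  rw [Ideal.span_insert x3 {w}]

omit [AddCommGroup P] in
lemma update_three (a0 a1 a2 a3 v : P) : Function.update ![a0, a1, a2, a3] 3 v = ![a0, a1, a2, v] := by
  funext i; fin_cases i <;> simp [Function.update]

omit [AddCommGroup P] in
lemma update_two (a0 a1 a2 a3 v : P) : Function.update ![a0, a1, a2, a3] 2 v = ![a0, a1, v, a3] := by
  funext i; fin_cases i <;> simp [Function.update]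

omit [AddCommGroup P] in
lemma update_one (a0 a1 a2 a3 v : P) : Function.update ![a0, a1, a2, a3] 1 v = ![a0, v, a2, a3] := by
  funext i; fin_cases i <;> simp [Function.update]

omit [AddCommGroup P] in
lemma update_zero (a0 a1 a2 a3 v : P) : Function.update ![a0, a1, a2, a3] 0 v = ![v, a1, a2, a3] := by
  funext i; fin_cases i <;> simp [Function.update]

/-- the contraction with three vectors, as a linear form -/
def con3 (ω : P [⋀^Fin 4]→ₗ[R] R) (a0 a1 a2 : P) : P →ₗ[R] R where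
  toFun v := ω ![a0, a1, a2, v]
  map_add' v w := by
    have h := ω.map_update_add ![a0, a1, a2, 0] 3 v w
    rwa [update_three, update_three, update_three] at h
  map_smul' r v := by
    have h := ω.map_update_smul ![a0, a1, a2, 0] 3 r v
    rwa [update_three, update_three] at h

@[simp] lemma con3_apply (ω : P [⋀^Fin 4]→ₗ[R] R) (a0 a1 a2 v : P) :
    con3 ω a0 a1 a2 v = ω ![a0, a1, a2, v] := rfl

/-- rotation of the arguments -/
lemma rot_apply (ω : P [⋀^Fin 4]→ₗ[R] R) (a0 a1 a2 a3 : P) :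
    ω ![a3, a0, a1, a2] = - ω ![a0, a1, a2, a3] := by
  have e1 : ![a3, a0, a1, a2] = ![a0, a3, a1, a2] ∘ Equiv.swap 0 1 := by
    funext i; fin_cases i <;> simp [Equiv.swap_apply_def]
  have e2 : ![a0, a3, a1, a2] = ![a0, a1, a3, a2] ∘ Equiv.swap 1 2 := by
    funext i; fin_cases i <;> simp [Equiv.swap_apply_def]
  have e3 : ![a0, a1, a3, a2] = ![a0, a1, a2, a3] ∘ Equiv.swap 2 3 := by
    funext i; fin_cases i <;> simp [Equiv.swap_apply_def]
  rw [e1, ω.map_swap _ (by decide), e2, ω.map_swap _ (by decide), e3, ω.map_swap _ (by decide)]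
  simp

lemma rel_of_cyc {f : P →ₗ[R] R} {ω : P [⋀^Fin 4]→ₗ[R] R} (hω : Cyc f ω) (a0 a1 a2 a3 v : P) :
    f v * con3 ω a0 a1 a2 a3 - f a3 * con3 ω a0 a1 a2 v ∈ Ideal.ofList [f a0, f a1, f a2] := by
  have h := hω ![a0, a1, a2, a3] v
  rw [Fin.sum_univ_four, update_zero, update_one, update_two, update_three] at h
  simp only [Matrix.cons_val_zero, Matrix.cons_val_one, Matrix.cons_val] at h
  have e : f v * con3 ω a0 a1 a2 a3 - f a3 * con3 ω a0 a1 a2 v =
      ω ![v, a1, a2, a3] * f a0 + ω ![a0, v, a2, a3] * f a1 + ω ![a0, a1, v, a3] * f a2 := by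
    simp only [con3_apply]; linear_combination -h
  rw [e]
  have hm : ∀ x ∈ [f a0, f a1, f a2], x ∈ Ideal.ofList [f a0, f a1, f a2] := fun x hx =>
    Ideal.subset_span hx
  exact Ideal.add_mem _ (Ideal.add_mem _ (Ideal.mul_mem_left _ _ (hm _ (by simp)))
    (Ideal.mul_mem_left _ _ (hm _ (by simp)))) (Ideal.mul_mem_left _ _ (hm _ (by simp)))

lemma Good.exch {f : P →ₗ[R] R} {ω : P [⋀^Fin 4]→ₗ[R] R} (hω : Cyc f ω) {a0 a1 a2 a3 b : P}
    (h1 : IsWeaklyRegular R [f a0, f a1, f a2, f a3])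
    (h2 : IsWeaklyRegular R [f a0, f a1, f a2, f b])
    (h : Good f ω a0 a1 a2 a3) : Good f ω a0 a1 a2 b := by
  have r1 : RegMod (Ideal.ofList [f a0, f a1, f a2]) (f a3) :=
    (isWeaklyRegular_concat_iff (α := [f a0, f a1, f a2]).mp h1).2
  have r2 : RegMod (Ideal.ofList [f a0, f a1, f a2]) (f b) :=
    (isWeaklyRegular_concat_iff (α := [f a0, f a1, f a2]).mp h2).2
  obtain ⟨hA, hB⟩ := h
  rw [ofList_four_sup, ofList_four] at hB
  rw [ofList_four] at hA
  refine ⟨?_, ?_⟩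
  · rw [ofList_four]
    exact exch_colon f (con3 ω a0 a1 a2) a3 b (rel_of_cyc hω a0 a1 a2 a3) r2 hA
  · rw [ofList_four_sup, ofList_four]
    exact exch_colon' f (con3 ω a0 a1 a2) a3 b (rel_of_cyc hω a0 a1 a2 a3) r1 r2 hB

lemma ofList_perm {l l' : List R} (h : l.Perm l') : Ideal.ofList l = Ideal.ofList l' := by
  simp only [Ideal.ofList]
  congr 1
  ext x
  exact h.mem_iff

lemma Good.rot {f : P →ₗ[R] R} {ω : P [⋀^Fin 4]→ₗ[R] R} {a0 a1 a2 a3 : P}
    (h : Good f ω a0 a1 a2 a3) : Good f ω a3 a0 a1 a2 := by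
  have hp : [f a3, f a0, f a1, f a2].Perm [f a0, f a1, f a2, f a3] := by
    simpa using (List.perm_append_comm (l₁ := [f a3]) (l₂ := [f a0, f a1, f a2]))
  obtain ⟨hA, hB⟩ := h
  refine ⟨?_, ?_⟩
  · intro y hy
    rw [rot_apply, ofList_perm hp] at hy
    apply hA
    have : y * ω ![a0, a1, a2, a3] = - (y * -ω ![a0, a1, a2, a3]) := by ring
    rw [this]
    exact Ideal.neg_mem_iff _ |>.mpr hy
  · intro y hy
    rw [rot_apply, Ideal.span_singleton_neg, ofList_perm hp]
    rw [ofList_perm hp] at hy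
    exact hB y hy

lemma Good.unrot {f : P →ₗ[R] R} {ω : P [⋀^Fin 4]→ₗ[R] R} {a0 a1 a2 a3 : P}
    (h : Good f ω a3 a0 a1 a2) : Good f ω a0 a1 a2 a3 := h.rot.rot.rot

end good

section transfer

universe u

variable {R : Type u} [CommRing R]

lemma wr_init {l : List R} {x : R} (hl : IsWeaklyRegular R (l ++ [x])) : IsWeaklyRegular R l :=
  (isWeaklyRegular_concat_iff.mp hl).1

lemma apply_eq_sum {ι : Type*} [Fintype ι] [DecidableEq ι] (f : (ι → R) →ₗ[R] R) (a : ι → R) :
    f a = ∑ j, a j * f (Pi.single j 1) := by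
  conv_lhs => rw [← Finset.univ_sum_single a, map_sum]
  refine Finset.sum_congr rfl fun j _ => ?_
  have : (Pi.single j (a j) : ι → R) = a j • Pi.single j 1 := by
    rw [← Pi.single_smul]; simp
  rw [this, map_smul, smul_eq_mul]

lemma range_eq_span {ι : Type*} [Fintype ι] [DecidableEq ι] (f : (ι → R) →ₗ[R] R) :
    LinearMap.range f = Ideal.span (Set.range fun j => f (Pi.single j 1)) := by
  apply le_antisymm
  · rintro _ ⟨a, rfl⟩
    rw [apply_eq_sum f a]
    exact Ideal.sum_mem _ fun j _ => Ideal.mul_mem_left _ _ (Ideal.subset_span ⟨j, rfl⟩)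
  · refine Ideal.span_le.mpr ?_
    rintro _ ⟨j, rfl⟩
    exact ⟨_, rfl⟩

variable [IsLocalRing R] [IsNoetherianRing R]

lemma wr_perm {l l' : List R} (h : l.Perm l') (hm : ∀ x ∈ l, x ∈ maximalIdeal R)
    (hl : IsWeaklyRegular R l) : IsWeaklyRegular R l' :=
  IsLocalRing.isWeaklyRegular_of_perm_of_subset_maximalIdeal hl h hm

lemma wr_rot {x0 x1 x2 x3 : R} (hm : ∀ x ∈ [x0, x1, x2, x3], x ∈ maximalIdeal R)
    (hl : IsWeaklyRegular R [x0, x1, x2, x3]) : IsWeaklyRegular R [x3, x0, x1, x2] :=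
  wr_perm (by simpa using (List.perm_append_comm (l₁ := [x0, x1, x2]) (l₂ := [x3]))) hm hl

variable {ι : Type*} [Fintype ι]

/-- simultaneous choice of the next element for two lists -/
theorem gp_row_two [Infinite (ResidueField R)] (f : (ι → R) →ₗ[R] R)
    (hI : ∀ v, f v ∈ maximalIdeal R) {r : ℕ}
    (hgr : ∃ rs : List R, rs.length = r ∧ (∀ y ∈ rs, y ∈ LinearMap.range f) ∧ IsRegular R rs)
    (α β : List R) (hα : α.length < r) (hβ : β.length < r)
    (hαI : ∀ y ∈ α, y ∈ LinearMap.range f) (hβI : ∀ y ∈ β, y ∈ LinearMap.range f)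
    (hαreg : IsWeaklyRegular R α) (hβreg : IsWeaklyRegular R β)
    (S₀ : Finset (Submodule (ResidueField R) (ι → ResidueField R))) (hS₀ : ∀ V ∈ S₀, V ≠ ⊤) :
    ∃ a : ι → R, (∀ V ∈ S₀, red a ∉ V) ∧ IsWeaklyRegular R (α ++ [f a]) ∧
      IsWeaklyRegular R (β ++ [f a]) := by
  classical
  have hI' : LinearMap.range f ≤ maximalIdeal R := by rintro _ ⟨v, rfl⟩; exact hI v
  obtain ⟨y, hy, hy2⟩ := exists_regular_quot hI' α R r hgr hα hαI hαreg
  obtain ⟨z, hz, hz2⟩ := exists_regular_quot hI' β R r hgr hβ hβI hβreg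
  rw [range_eq_span] at hy hz
  obtain ⟨S, hS, hS2⟩ := gp1 (R ⧸ (Ideal.ofList α • ⊤ : Submodule R R))
    (fun j => f (Pi.single j 1)) ⟨y, hy, hy2⟩
  obtain ⟨S', hS', hS2'⟩ := gp1 (R ⧸ (Ideal.ofList β • ⊤ : Submodule R R))
    (fun j => f (Pi.single j 1)) ⟨z, hz, hz2⟩
  obtain ⟨a, ha⟩ := exists_avoid (R := R) (S₀ ∪ (S ∪ S')) (by
    intro V hV
    rcases Finset.mem_union.mp hV with h | h
    · exact hS₀ V h
    · rcases Finset.mem_union.mp h with h | h
      · exact hS V h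
      · exact hS' V h)
  refine ⟨a, fun V hV => ha V (Finset.mem_union_left _ hV), ?_, ?_⟩
  · rw [isWeaklyRegular_concat_iff, apply_eq_sum]
    exact ⟨hαreg, isSMulRegular_quot_ofList_iff.mp (hS2 a fun V hV => ha V
      (Finset.mem_union_right _ (Finset.mem_union_left _ hV)))⟩
  · rw [isWeaklyRegular_concat_iff, apply_eq_sum]
    exact ⟨hβreg, isSMulRegular_quot_ofList_iff.mp (hS2' a fun V hV => ha V
      (Finset.mem_union_right _ (Finset.mem_union_right _ hV)))⟩

/-- (H4a) The colon identities hold for one regular sequence iff they hold for all. -/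
theorem Good.transfer [Infinite (ResidueField R)] (f : (ι → R) →ₗ[R] R)
    (hI : ∀ v, f v ∈ maximalIdeal R) {ω : (ι → R) [⋀^Fin 4]→ₗ[R] R} (hω : Cyc f ω)
    {a0 a1 a2 a3 b0 b1 b2 b3 : ι → R}
    (ha : IsWeaklyRegular R [f a0, f a1, f a2, f a3])
    (hb : IsWeaklyRegular R [f b0, f b1, f b2, f b3])
    (h : Good f ω a0 a1 a2 a3) : Good f ω b0 b1 b2 b3 := by
  have hm : ∀ v0 v1 v2 v3 : ι → R, ∀ x ∈ [f v0, f v1, f v2, f v3], x ∈ maximalIdeal R := by
    intro v0 v1 v2 v3 x hx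
    simp only [List.mem_cons, List.not_mem_nil, or_false] at hx
    rcases hx with rfl | rfl | rfl | rfl <;> exact hI _
  have hmem : ∀ v0 v1 v2 : ι → R, ∀ x ∈ [f v0, f v1, f v2], x ∈ LinearMap.range f := by
    intro v0 v1 v2 x hx
    simp only [List.mem_cons, List.not_mem_nil, or_false] at hx
    rcases hx with rfl | rfl | rfl <;> exact ⟨_, rfl⟩
  have hgr : ∃ rs : List R, rs.length = 4 ∧ (∀ y ∈ rs, y ∈ LinearMap.range f) ∧
      IsRegular R rs := by
    refine ⟨[f a0, f a1, f a2, f a3], rfl, ?_,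
      IsRegular.of_isWeaklyRegular_of_mem_maximalIdeal R (hm a0 a1 a2 a3) ha⟩
    intro x hx
    simp only [List.mem_cons, List.not_mem_nil, or_false] at hx
    rcases hx with rfl | rfl | rfl | rfl <;> exact ⟨_, rfl⟩
  -- choose `c3`
  obtain ⟨c3, -, hc3a, hc3b⟩ := gp_row_two f hI hgr [f a0, f a1, f a2] [f b0, f b1, f b2]
    (by simp) (by simp) (hmem _ _ _) (hmem _ _ _)
    (wr_init (l := [f a0, f a1, f a2]) ha) (wr_init (l := [f b0, f b1, f b2]) hb) ∅ (by simp)
  have ra3 := wr_rot (hm a0 a1 a2 c3) hc3a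
  have rb3 := wr_rot (hm b0 b1 b2 c3) hc3b
  -- choose `c2`
  obtain ⟨c2, -, hc2a, hc2b⟩ := gp_row_two f hI hgr [f c3, f a0, f a1] [f c3, f b0, f b1]
    (by simp) (by simp) (hmem _ _ _) (hmem _ _ _)
    (wr_init (l := [f c3, f a0, f a1]) ra3) (wr_init (l := [f c3, f b0, f b1]) rb3) ∅ (by simp)
  have ra2 := wr_rot (hm c3 a0 a1 c2) hc2a
  have rb2 := wr_rot (hm c3 b0 b1 c2) hc2b
  -- choose `c1`
  obtain ⟨c1, -, hc1a, hc1b⟩ := gp_row_two f hI hgr [f c2, f c3, f a0] [f c2, f c3, f b0]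
    (by simp) (by simp) (hmem _ _ _) (hmem _ _ _)
    (wr_init (l := [f c2, f c3, f a0]) ra2) (wr_init (l := [f c2, f c3, f b0]) rb2) ∅ (by simp)
  have ra1 := wr_rot (hm c2 c3 a0 c1) hc1a
  have rb1 := wr_rot (hm c2 c3 b0 c1) hc1b
  -- walk from `a` to `b`
  have s1 : Good f ω c3 a0 a1 a2 := (h.exch hω ha hc3a).rot
  have s2 : Good f ω c2 c3 a0 a1 := (s1.exch hω ra3 hc2a).rot
  have s3 : Good f ω c1 c2 c3 a0 := (s2.exch hω ra2 hc1a).rot
  have s4 : Good f ω c1 c2 c3 b0 := s3.exch hω ra1 rb1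
  have s5 : Good f ω c2 c3 b0 b1 := s4.unrot.exch hω hc1b rb2
  have s6 : Good f ω c3 b0 b1 b2 := s5.unrot.exch hω hc2b rb3
  exact s6.unrot.exch hω hc3b hb

end transfer

end Pool.Agent.Licci

end

section

/-!
# The four-form of the resolution satisfies the two colon identities
-/

namespace Pool.Agent.Licci

open RingTheory.Sequence Pointwise

universe u v

section aux

variable {R : Type u} [CommRing R] {M : Type v} {A : Type u} [AddCommGroup M] [Module R M]
  [AddCommGroup A] [Module R A]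

/-- a linear map into alternating forms, as an alternating map with values in a dual module -/
def flipAlt {k : ℕ} (L : A →ₗ[R] (M [⋀^Fin k]→ₗ[R] R)) : M [⋀^Fin k]→ₗ[R] Module.Dual R A where
  toFun x :=
    { toFun := fun v => L v x
      map_add' := fun u v => by rw [map_add]; rfl
      map_smul' := fun c v => by rw [map_smul]; rfl }
  map_update_add' x i a b := by
    apply LinearMap.ext
    intro v
    exact (L v).map_update_add' x i a b
  map_update_smul' x i c a := by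
    apply LinearMap.ext
    intro v
    exact (L v).map_update_smul' x i c a
  map_eq_zero_of_eq' x i j h hij := by
    apply LinearMap.ext
    intro v
    exact (L v).map_eq_zero_of_eq' x i j h hij

theorem evalAlt_flipAlt {k : ℕ} (L : A →ₗ[R] (M [⋀^Fin k]→ₗ[R] R)) (v : A) :
    evalAlt (flipAlt L) v = L v := rfl

theorem wedge_sub' {N : Type u} [AddCommGroup N] [Module R N] (g : M →ₗ[R] R) (n : ℕ)
    (ω η : M [⋀^Fin n]→ₗ[R] N) : wedge g n (ω - η) = wedge g n ω - wedge g n η :=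
  LinearMap.map_sub (wedge g n) ω η

theorem wedge_smul' {N : Type u} [AddCommGroup N] [Module R N] (g : M →ₗ[R] R) (n : ℕ) (y : R)
    (ω : M [⋀^Fin n]→ₗ[R] N) : wedge g n (y • ω) = y • wedge g n ω :=
  LinearMap.map_smul (wedge g n) y ω

theorem comp_sub {N N' : Type u} [AddCommGroup N] [Module R N] [AddCommGroup N'] [Module R N']
    (q : N →ₗ[R] N') {n : ℕ} (ω η : M [⋀^Fin n]→ₗ[R] N) :
    q.compAlternatingMap (ω - η) = q.compAlternatingMap ω - q.compAlternatingMap η := by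
  ext x
  exact LinearMap.map_sub q _ _

theorem comp_smul {N N' : Type u} [AddCommGroup N] [Module R N] [AddCommGroup N'] [Module R N']
    (q : N →ₗ[R] N') {n : ℕ} (y : R) (ω : M [⋀^Fin n]→ₗ[R] N) :
    q.compAlternatingMap (y • ω) = y • q.compAlternatingMap ω := by
  ext x
  exact LinearMap.map_smul q _ _

theorem alt_sub_self {N : Type u} [AddCommGroup N] [Module R N] {n : ℕ}
    (ω : M [⋀^Fin n]→ₗ[R] N) : ω - ω = 0 := sub_self ω

theorem alt_sub_zero {N : Type u} [AddCommGroup N] [Module R N] {n : ℕ}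
    (ω : M [⋀^Fin n]→ₗ[R] N) : ω - 0 = ω := sub_zero ω

theorem HasReg.koszul [Module.Free R M] [Module.Finite R M] {f : M →ₗ[R] R} {n : ℕ}
    (h : HasReg f n) {N : Type u} [AddCommGroup N] [Module R N] [Module.Flat R N] (i : ℕ)
    (hi : i + 1 < n) (ω : M [⋀^Fin (i + 1)]→ₗ[R] N) (hω : wedge f (i + 1) ω = 0) :
    ∃ η, wedge f i η = ω := by
  obtain ⟨rs, h1, h2, h3⟩ := h
  exact koszul_exact' f rs (LicciCodimFour.isWeaklyRegular_of_flat h2 N) h3 (i + 1) (h1 ▸ hi) ω hω

end aux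

section main

set_option linter.unusedSectionVars false

variable {R : Type u} [CommRing R] {F1 F2 F3 : Type u} [AddCommGroup F1] [Module R F1]
  [AddCommGroup F2] [Module R F2] [AddCommGroup F3] [Module R F3]
  [Module.Free R F1] [Module.Free R F2] [Module.Free R F3]
  [Module.Finite R F1] [Module.Finite R F2] [Module.Finite R F3]
  {f : F1 →ₗ[R] R} {e2 : F2 →ₗ[R] F1} {e3 : F3 →ₗ[R] F2} {e4 : R →ₗ[R] F3}

theorem dual_seq (h1 : Function.Exact e2 f) (h2 : Function.Exact e3 e2)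
    (h3 : Function.Exact e4 e3) (h4 : Function.Injective e4) (hf : HasReg f 4) :
    Function.Injective (LinearMap.toSpanSingleton R (Module.Dual R F1) f) ∧
    Function.Exact (LinearMap.toSpanSingleton R (Module.Dual R F1) f) e2.dualMap ∧
    Function.Exact e2.dualMap e3.dualMap ∧
    Function.Exact e3.dualMap (LinearMap.applyₗ (e4 1) : Module.Dual R F3 →ₗ[R] R) := by
  obtain ⟨rs, hlen, hreg, hmem⟩ := hf
  obtain ⟨d1, d2, d3, d4⟩ := LicciCodimFour.dual_exact f e2 e3 e4 h1 h2 h3 h4 rs hlen hreg hmem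
  refine ⟨?_, ?_, ?_, ?_⟩
  · rw [injective_iff_map_eq_zero]
    intro c hc
    exact d1 c hc
  · intro ξ
    constructor
    · intro h
      obtain ⟨c, rfl⟩ := d2 ξ (fun z => LinearMap.congr_fun h z)
      exact ⟨c, rfl⟩
    · rintro ⟨c, rfl⟩
      ext z
      simp [LinearMap.dualMap_apply, h1.apply_apply_eq_zero]
  · intro ξ
    constructor
    · intro h
      obtain ⟨η, hη⟩ := d3 ξ (fun z => LinearMap.congr_fun h z)
      exact ⟨η, by ext z; exact (hη z).symm⟩
    · rintro ⟨c, rfl⟩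
      ext z
      simp [LinearMap.dualMap_apply, h2.apply_apply_eq_zero]
  · intro ξ
    constructor
    · intro h
      have h' : ξ (e4 1) = 0 := h
      obtain ⟨η, hη⟩ := d4 ξ (fun z => by
        have h5 : e4 z = z • e4 1 := by rw [← map_smul, smul_eq_mul, mul_one]
        rw [h5, map_smul, h', smul_zero])
      exact ⟨η, by ext z; exact (hη z).symm⟩
    · rintro ⟨c, rfl⟩
      simp [LinearMap.dualMap_apply, h3.apply_apply_eq_zero]

/-- the ideal of entries of `e4` lies in the image of `f` -/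
theorem exists_apply_eq (h1 : Function.Exact e2 f) (h2 : Function.Exact e3 e2)
    (h3 : Function.Exact e4 e3) (h4 : Function.Injective e4) (hf : HasReg f 4)
    (c : Module.Dual R F3) : ∃ v : F1, f v = c (e4 1) := by
  obtain ⟨E1, E2, E3, E4⟩ := dual_seq h1 h2 h3 h4 hf
  obtain ⟨g1, g2, g3, -, -, -, hg⟩ := LicciCodimFour.null_homotopy
    (LinearMap.applyₗ (e4 1) : Module.Dual R F3 →ₗ[R] R) e3.dualMap e2.dualMap
    (LinearMap.toSpanSingleton R (Module.Dual R F1) f) E4 E3 E2 E1 c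
  refine ⟨(Module.evalEquiv R F1).symm g3, ?_⟩
  rw [Module.apply_evalEquiv_symm_apply]
  have := hg 1
  rw [LinearMap.toSpanSingleton_apply, one_smul] at this
  rw [this]
  simp

theorem comp_e2_f (h1 : Function.Exact e2 f) {k : ℕ} (η : F1 [⋀^Fin k]→ₗ[R] R) :
    e2.dualMap.compAlternatingMap
      ((LinearMap.toSpanSingleton R (Module.Dual R F1) f).compAlternatingMap η) = 0 := by
  ext x z
  simp [LinearMap.dualMap_apply, h1.apply_apply_eq_zero]

theorem comp_e3_e2 (h2 : Function.Exact e3 e2) {k : ℕ} (η : F1 [⋀^Fin k]→ₗ[R] Module.Dual R F1) :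
    e3.dualMap.compAlternatingMap (e2.dualMap.compAlternatingMap η) = 0 := by
  ext x z
  simp [LinearMap.dualMap_apply, h2.apply_apply_eq_zero]

theorem comp_e4_e3 (h3 : Function.Exact e4 e3) {k : ℕ} (η : F1 [⋀^Fin k]→ₗ[R] Module.Dual R F2) :
    (LinearMap.applyₗ (e4 1) : Module.Dual R F3 →ₗ[R] R).compAlternatingMap
      (e3.dualMap.compAlternatingMap η) = 0 := by
  ext x
  simp [LinearMap.dualMap_apply, h3.apply_apply_eq_zero]

variable (c : Comparison f e2 e3 e4)

theorem Comparison.ev_x1 : (LinearMap.applyₗ (e4 1) : Module.Dual R F3 →ₗ[R] R).compAlternatingMap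
    (oneN c.x1) = one f := by
  ext x
  have := c.h1 (x 0) 1
  simp only [LinearMap.compAlternatingMap_apply, oneN_apply, LinearMap.applyₗ_apply_apply, one_apply]
  rw [this, mul_one]

/-- (B) `y ν` a coboundary implies `y ∈ I`. -/
theorem Comparison.mem_range (h1 : Function.Exact e2 f) (h2 : Function.Exact e3 e2)
    (h3 : Function.Exact e4 e3) (h4 : Function.Injective e4) (hf : HasReg f 4) {y : R}
    {η : F1 [⋀^Fin 3]→ₗ[R] R} (hη : wedge f 3 η = y • c.x4) : y ∈ LinearMap.range f := by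
  obtain ⟨η3, hη3⟩ := hf.koszul 2 (by norm_num)
    (y • c.x3 - (LinearMap.toSpanSingleton R (Module.Dual R F1) f).compAlternatingMap η) (by
      rw [wedge_sub', wedge_smul', wedge_compRight, hη, ← c.h4, comp_smul, alt_sub_self])
  obtain ⟨η2, hη2⟩ := hf.koszul 1 (by norm_num)
    (y • c.x2 - e2.dualMap.compAlternatingMap η3) (by
      rw [wedge_sub', wedge_smul', wedge_compRight, hη3, ← c.h3, comp_sub, comp_smul,
        comp_e2_f h1, alt_sub_zero, alt_sub_self])
  obtain ⟨η1, hη1⟩ := hf.koszul 0 (by norm_num)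
    (y • oneN c.x1 - e3.dualMap.compAlternatingMap η2) (by
      rw [wedge_sub', wedge_smul', wedge_compRight, hη2, ← c.h2, comp_sub, comp_smul,
        comp_e3_e2 h2, alt_sub_zero, alt_sub_self])
  obtain ⟨v, hv⟩ := exists_apply_eq h1 h2 h3 h4 hf (η1 ![])
  refine ⟨v, ?_⟩
  rw [hv]
  symm
  apply sub_eq_zero.1
  apply hf.eq_zero_of_mul (by norm_num)
  intro x
  have h5 : (LinearMap.applyₗ (e4 1) : Module.Dual R F3 →ₗ[R] R).compAlternatingMap
      (wedge f 0 η1) = y • one f := by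
    rw [hη1, comp_sub, comp_smul, comp_e4_e3 h3, alt_sub_zero, c.ev_x1]
  have h6 := congrArg (fun g => g ![x]) h5
  simp only [LinearMap.compAlternatingMap_apply, wedge_zero_apply, AlternatingMap.smul_apply,
    one_apply, LinearMap.applyₗ_apply_apply, LinearMap.smul_apply, smul_eq_mul,
    Matrix.cons_val_zero] at h6
  linear_combination -h6

/-- (C) `ν` generates the top Koszul cohomology. -/
theorem Comparison.exists_class (h1 : Function.Exact e2 f) (h2 : Function.Exact e3 e2)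
    (h3 : Function.Exact e4 e3) (h4 : Function.Injective e4) (hf : HasReg f 4)
    {ω : F1 [⋀^Fin 4]→ₗ[R] R} (hω : wedge f 4 ω = 0) :
    ∃ (z : R) (η : F1 [⋀^Fin 3]→ₗ[R] R), ω = z • c.x4 + wedge f 3 η := by
  obtain ⟨E1, E2, E3, E4⟩ := dual_seq h1 h2 h3 h4 hf
  set S := LinearMap.toSpanSingleton R (Module.Dual R F1) f with hS
  set ev : Module.Dual R F3 →ₗ[R] R := LinearMap.applyₗ (e4 1) with hev
  set ω3 : F1 [⋀^Fin 3]→ₗ[R] Module.Dual R F1 := flipAlt (contrL 3 ω) with hω3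
  have k3 : wedge f 3 ω3 = S.compAlternatingMap ω := by
    ext x v
    have h5 := wedge_evalAlt f ω3 v
    rw [hω3, evalAlt_flipAlt, contrL_apply] at h5
    have h6 := contr_wedge f v 3 ω
    rw [hω, map_zero] at h6
    have h7 := sub_eq_zero.1 h6.symm
    rw [← h7] at h5
    have h8 := congrArg (fun g => g x) h5
    simp only [AlternatingMap.smul_apply, evalAlt_apply, smul_eq_mul] at h8
    rw [hω3, ← h8, hS]
    simp [mul_comm]
  obtain ⟨ω2, k2⟩ := hf.koszul 2 (by norm_num) (e2.dualMap.compAlternatingMap ω3) (by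
    rw [wedge_compRight, k3, comp_e2_f h1])
  obtain ⟨ω1, k1⟩ := hf.koszul 1 (by norm_num) (e3.dualMap.compAlternatingMap ω2) (by
    rw [wedge_compRight, k2, comp_e3_e2 h2])
  obtain ⟨ω0, k0⟩ := hf.koszul 0 (by norm_num) (ev.compAlternatingMap ω1) (by
    rw [wedge_compRight, k1, comp_e4_e3 h3])
  set z : R := ω0 ![] with hz
  have m0 : ev.compAlternatingMap (ω1 - z • oneN c.x1) = 0 := by
    rw [comp_sub, comp_smul, c.ev_x1, ← k0, sub_eq_zero]
    ext x
    have hx : x = ![x 0] := by ext i; fin_cases i; rfl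
    rw [hx, wedge_zero_apply]
    simp [one_apply, hz, mul_comm]
  obtain ⟨τ1, t1⟩ := exists_lift_alt_exact E4 1 _ m0
  obtain ⟨τ2, t2⟩ := exists_lift_alt_exact E3 2 (ω2 - z • c.x2 - wedge f 1 τ1) (by
    rw [comp_sub, comp_sub, comp_smul, c.h2, ← wedge_compRight, t1, ← k1, wedge_sub', wedge_smul',
      alt_sub_self])
  obtain ⟨τ3, t3⟩ := exists_lift_alt_exact E2 3 (ω3 - z • c.x3 - wedge f 2 τ2) (by
    rw [comp_sub, comp_sub, comp_smul, c.h3, ← wedge_compRight, t2, ← k2, wedge_sub', wedge_sub',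
      wedge_smul', wedge_wedge_self, alt_sub_zero, alt_sub_self])
  refine ⟨z, τ3, ?_⟩
  have h5 : S.compAlternatingMap (ω - z • c.x4 - wedge f 3 τ3) = 0 := by
    rw [comp_sub, comp_sub, comp_smul, c.h4, ← wedge_compRight, t3, ← k3, wedge_sub', wedge_sub',
      wedge_smul', wedge_wedge_self, alt_sub_zero, alt_sub_self]
  have h6 : ω - z • c.x4 - wedge f 3 τ3 = 0 := by
    ext x
    apply E1
    rw [AlternatingMap.zero_apply, map_zero]
    exact congrArg (fun g => g x) h5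
  rw [sub_sub, sub_eq_zero] at h6
  exact h6

/-- (D) the two colon identities -/
theorem Comparison.good (h1 : Function.Exact e2 f) (h2 : Function.Exact e3 e2)
    (h3 : Function.Exact e4 e3) (h4 : Function.Injective e4) (hf : HasReg f 4)
    {a0 a1 a2 a3 : F1} (ha : IsWeaklyRegular R [f a0, f a1, f a2, f a3]) :
    Good f c.x4 a0 a1 a2 a3 := by
  have hreg : IsWeaklyRegular R (List.ofFn fun i : Fin 4 => f (![a0, a1, a2, a3] i)) := by
    simpa [List.ofFn_succ] using ha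
  have hspan : Ideal.span (Set.range fun i : Fin 4 => f (![a0, a1, a2, a3] i)) =
      Ideal.ofList [f a0, f a1, f a2, f a3] := by
    unfold Ideal.ofList
    congr 1
    ext r
    simp only [Set.mem_range, Fin.exists_fin_succ, List.mem_cons, List.not_mem_nil, or_false,
      Set.mem_ofPred_eq]
    simp [eq_comm]
  constructor
  · intro y hy
    have h5 : IsCob f 4 (y • c.x4) := by
      apply isCob_of_apply_mem f 4 ![a0, a1, a2, a3] hreg
      · rw [wedge_smul', c.h5, smul_zero]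
      · rw [hspan]
        exact hy
    obtain ⟨η, hη⟩ := h5
    exact c.mem_range h1 h2 h3 h4 hf hη
  · intro y hy
    obtain ⟨ω, hω, hω2⟩ := exists_wedge_class f 4 ![a0, a1, a2, a3] hreg y (by
      intro v
      rw [hspan]
      exact hy v)
    obtain ⟨z, η, rfl⟩ := c.exists_class h1 h2 h3 h4 hf hω
    have h6 := wedge_apply_mem f 3 η ![a0, a1, a2, a3]
    rw [smul_eq_mul, Ideal.mul_top, hspan] at h6
    rw [hspan, AlternatingMap.add_apply, AlternatingMap.smul_apply, smul_eq_mul] at hω2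
    have h7 : y = (wedge f 3 η ![a0, a1, a2, a3] -
        (z * c.x4 ![a0, a1, a2, a3] + wedge f 3 η ![a0, a1, a2, a3] - y)) +
        z * c.x4 ![a0, a1, a2, a3] := by ring
    rw [h7]
    exact Ideal.add_mem _ (Ideal.mem_sup_left (Ideal.sub_mem _ h6 hω2))
      (Ideal.mem_sup_right (Ideal.mul_mem_left _ _ (Ideal.subset_span rfl)))

/-- `exists_nu_free` with the colon identities -/
theorem exists_nu_good [IsLocalRing R] (h1 : Function.Exact e2 f) (h2 : Function.Exact e3 e2)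
    (h3 : Function.Exact e4 e3) (h4 : Function.Injective e4) (hf : HasReg f 4) :
    ∃ ν : F1 [⋀^Fin 4]→ₗ[R] R, wedge f 4 ν = 0 ∧ Module.Free R (PP f ν) ∧
      Module.Finite R (PP f ν) ∧
      Module.finrank R F3 + Module.finrank R (PP f ν) =
        Module.finrank R F2 + Module.finrank R F1 ∧
      ∀ a0 a1 a2 a3 : F1, IsWeaklyRegular R [f a0, f a1, f a2, f a3] → Good f ν a0 a1 a2 a3 := by
  obtain ⟨c⟩ := exists_comparison f e2 e3 e4 h1 h2 h3 h4 hf
  obtain ⟨hp, hfin, ⟨e⟩⟩ := c.projective h1 h2 h3 h4 hf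
  have hfree : Module.Free R (PP f c.x4) := free_of_projective_local
  refine ⟨c.x4, c.h5, hfree, hfin, ?_, fun a0 a1 a2 a3 ha => c.good h1 h2 h3 h4 hf ha⟩
  have h5 := LinearEquiv.finrank_eq e
  have h6 : Module.finrank R (F3 × PP f c.x4) =
      Module.finrank R F3 + Module.finrank R (PP f c.x4) := Module.finrank_prod
  rw [h6, Module.finrank_prod] at h5
  rw [h5]
  congr 1
  exact ((Module.Free.chooseBasis R F1).toDualEquiv.finrank_eq).symm

end main

end Pool.Agent.Licci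

end

section

/-!
# LICCI, codimension 4: the first state is good
-/

namespace Pool.Agent.Licci

open Module RingTheory.Sequence IsLocalRing

universe u

theorem good_of_exact {R : Type u} [CommRing R] [IsLocalRing R] [IsNoetherianRing R]
    {F1 F2 F3 : Type u} [AddCommGroup F1] [Module R F1]
    [AddCommGroup F2] [Module R F2] [AddCommGroup F3] [Module R F3]
    [Module.Free R F1] [Module.Free R F2] [Module.Free R F3]
    [Module.Finite R F1] [Module.Finite R F2] [Module.Finite R F3]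
    {f : F1 →ₗ[R] R} {e2 : F2 →ₗ[R] F1} {e3 : F3 →ₗ[R] F2} {e4 : R →ₗ[R] F3}
    (h1 : Function.Exact e2 f) (h2 : Function.Exact e3 e2)
    (h3 : Function.Exact e4 e3) (h4 : Function.Injective e4)
    (_hI : ∀ v, f v ∈ maximalIdeal R) (a0 a1 a2 a3 : F1)
    (ha : IsWeaklyRegular R [f a0, f a1, f a2, f a3]) :
    ∃ ν : F1 [⋀^Fin 4]→ₗ[R] R, wedge f 4 ν = 0 ∧ Module.Free R (PP f ν) ∧
      Module.Finite R (PP f ν) ∧
      Module.finrank R F3 + Module.finrank R (PP f ν) =
        Module.finrank R F2 + Module.finrank R F1 ∧ Good f ν a0 a1 a2 a3 := by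
  have hf : HasReg f 4 := by
    refine ⟨[f a0, f a1, f a2, f a3], rfl, ha, ?_⟩
    intro r hr
    simp only [List.mem_cons, List.not_mem_nil, or_false] at hr
    rcases hr with rfl | rfl | rfl | rfl <;> exact ⟨_, rfl⟩
  obtain ⟨ν, hν, hfree, hfin, hrank, hgood⟩ := exists_nu_good h1 h2 h3 h4 hf
  exact ⟨ν, hν, hfree, hfin, hrank, hgood a0 a1 a2 a3 ha⟩

end Pool.Agent.Licci

end

section

/-!
MP_a98e4e_ag (licci, codimension 4), module LS (helper43): one double link
`f ↦ f' = f + c ω(a0, a1, a2, ·)` as a pair of direct links.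
-/

set_option autoImplicit false

namespace Pool.Agent.Licci

open IsLocalRing RingTheory.Sequence LicciCodimFour

section

variable {R : Type*} [CommRing R] {P : Type*} [AddCommGroup P] [Module R P]

lemma mem_colon_iff' {I J : Ideal R} {r : R} :
    r ∈ I.colon (J : Set R) ↔ ∀ x ∈ J, r * x ∈ I := by
  rw [Submodule.mem_colon]
  rfl

lemma omega_last_self (ω : P [⋀^Fin 4]→ₗ[R] R) (a0 a1 a2 : P) :
    ω ![a0, a1, a2, a0] = 0 ∧ ω ![a0, a1, a2, a1] = 0 ∧ ω ![a0, a1, a2, a2] = 0 :=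
  ⟨ω.map_eq_zero_of_eq _ (i := 0) (j := 3) (by simp) (by decide),
    ω.map_eq_zero_of_eq _ (i := 1) (j := 3) (by simp) (by decide),
    ω.map_eq_zero_of_eq _ (i := 2) (j := 3) (by simp) (by decide)⟩

/-- `f (v) w ∈ α` -/
lemma mul_omega_mem {f : P →ₗ[R] R} {ω : P [⋀^Fin 4]→ₗ[R] R} (hω : Cyc f ω) (a0 a1 a2 a3 v : P) :
    f v * ω ![a0, a1, a2, a3] ∈ Ideal.ofList [f a0, f a1, f a2, f a3] := by
  rw [ofList_four]
  refine mem_sup_span_singleton'.mpr ⟨ω ![a0, a1, a2, v], ?_⟩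
  exact rel_of_cyc hω a0 a1 a2 a3 v

/-- the direct link `I ~ J`, `J = α + (w)` -/
theorem Good.link {f : P →ₗ[R] R} {ω : P [⋀^Fin 4]→ₗ[R] R} (hω : Cyc f ω) {a0 a1 a2 a3 : P}
    (hreg : IsRegular R [f a0, f a1, f a2, f a3]) (h : Good f ω a0 a1 a2 a3) :
    DirectlyLinked (LinearMap.range f)
      (Ideal.ofList [f a0, f a1, f a2, f a3] ⊔ Ideal.span {ω ![a0, a1, a2, a3]}) := by
  set A := Ideal.ofList [f a0, f a1, f a2, f a3] with hA
  set w := ω ![a0, a1, a2, a3] with hw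
  have hAI : A ≤ LinearMap.range f := by
    rw [hA, Ideal.ofList, Ideal.span_le]
    intro x hx
    simp only [List.mem_cons, List.not_mem_nil, or_false, Set.mem_ofPred_eq] at hx
    rcases hx with rfl | rfl | rfl | rfl <;> exact ⟨_, rfl⟩
  refine ⟨_, hreg, le_inf hAI le_sup_left, ?_, ?_⟩
  · apply le_antisymm
    · rintro _ ⟨v, rfl⟩
      rw [mem_colon_iff']
      intro x hx
      obtain ⟨y, hy, z, hz, rfl⟩ := Submodule.mem_sup.mp hx
      obtain ⟨q, rfl⟩ := Ideal.mem_span_singleton'.mp hz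
      have e : f v * (y + q * w) = f v * y + q * (f v * w) := by ring
      rw [e]
      exact Ideal.add_mem _ (Ideal.mul_mem_left _ _ hy)
        (Ideal.mul_mem_left _ _ (mul_omega_mem hω a0 a1 a2 a3 v))
    · intro y hy
      rw [mem_colon_iff'] at hy
      exact h.1 y (hy w (Ideal.mem_sup_right (Ideal.mem_span_singleton_self w)))
  · apply le_antisymm
    · intro x hx
      rw [mem_colon_iff']
      rintro _ ⟨v, rfl⟩
      obtain ⟨y, hy, z, hz, rfl⟩ := Submodule.mem_sup.mp hx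
      obtain ⟨q, rfl⟩ := Ideal.mem_span_singleton'.mp hz
      have e : (y + q * w) * f v = f v * y + q * (f v * w) := by ring
      rw [e]
      exact Ideal.add_mem _ (Ideal.mul_mem_left _ _ hy)
        (Ideal.mul_mem_left _ _ (mul_omega_mem hω a0 a1 a2 a3 v))
    · intro y hy
      rw [mem_colon_iff'] at hy
      exact h.2 y fun v => hy (f v) ⟨v, rfl⟩

/-- the new functional -/
def stepf (f : P →ₗ[R] R) (ω : P [⋀^Fin 4]→ₗ[R] R) (a0 a1 a2 : P) (c : R) : P →ₗ[R] R :=
  f + c • con3 ω a0 a1 a2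

lemma stepf_apply (f : P →ₗ[R] R) (ω : P [⋀^Fin 4]→ₗ[R] R) (a0 a1 a2 : P) (c : R) (v : P) :
    stepf f ω a0 a1 a2 c v = f v + c * ω ![a0, a1, a2, v] := by
  simp [stepf]

lemma stepf_self (f : P →ₗ[R] R) (ω : P [⋀^Fin 4]→ₗ[R] R) (a0 a1 a2 : P) (c : R) :
    stepf f ω a0 a1 a2 c a0 = f a0 ∧ stepf f ω a0 a1 a2 c a1 = f a1 ∧
      stepf f ω a0 a1 a2 c a2 = f a2 := by
  obtain ⟨h0, h1, h2⟩ := omega_last_self ω a0 a1 a2
  simp [stepf_apply, h0, h1, h2]

lemma mem_range_stepf (f : P →ₗ[R] R) (ω : P [⋀^Fin 4]→ₗ[R] R) (a0 a1 a2 : P) (c : R) :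
    ∀ x ∈ Ideal.ofList [f a0, f a1, f a2], x ∈ LinearMap.range (stepf f ω a0 a1 a2 c) := by
  obtain ⟨h0, h1, h2⟩ := stepf_self f ω a0 a1 a2 c
  have : Ideal.ofList [f a0, f a1, f a2] ≤ LinearMap.range (stepf f ω a0 a1 a2 c) := by
    rw [Ideal.ofList, Ideal.span_le]
    intro x hx
    simp only [List.mem_cons, List.not_mem_nil, or_false, Set.mem_ofPred_eq] at hx
    rcases hx with rfl | rfl | rfl
    exacts [⟨_, h0⟩, ⟨_, h1⟩, ⟨_, h2⟩]
  exact this

lemma step_colon {f : P →ₗ[R] R} {ω : P [⋀^Fin 4]→ₗ[R] R} (hω : Cyc f ω) {a0 a1 a2 a3 : P} {c : R}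
    (h1 : IsWeaklyRegular R [f a0, f a1, f a2, f a3])
    (h : Good f ω a0 a1 a2 a3) (y : R) :
    y * ω ![a0, a1, a2, a3] ∈ Ideal.ofList [f a0, f a1, f a2, f a3 + c * ω ![a0, a1, a2, a3]] ↔
      y ∈ LinearMap.range (stepf f ω a0 a1 a2 c) := by
  have r1 : RegMod (Ideal.ofList [f a0, f a1, f a2]) (f a3) :=
    (isWeaklyRegular_concat_iff (α := [f a0, f a1, f a2]).mp h1).2
  obtain ⟨hA, _⟩ := h
  rw [ofList_four] at hA ⊢
  exact double_link_colon f (con3 ω a0 a1 a2) a3 c (mem_range_stepf f ω a0 a1 a2 c)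
    (rel_of_cyc hω a0 a1 a2 a3) r1 hA y

/-- the two identities for the new pair -/
theorem Good.step {f : P →ₗ[R] R} {ω ω' : P [⋀^Fin 4]→ₗ[R] R} (hω : Cyc f ω)
    {a0 a1 a2 a3 : P} {c : R}
    (h1 : IsWeaklyRegular R [f a0, f a1, f a2, f a3])
    (h2 : IsWeaklyRegular R [f a0, f a1, f a2, f a3 + c * ω ![a0, a1, a2, a3]])
    (hw : ω' ![a0, a1, a2, a3] = ω ![a0, a1, a2, a3])
    (h : Good f ω a0 a1 a2 a3) : Good (stepf f ω a0 a1 a2 c) ω' a0 a1 a2 a3 := by
  have r2 : RegMod (Ideal.ofList [f a0, f a1, f a2]) (f a3 + c * ω ![a0, a1, a2, a3]) :=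
    (isWeaklyRegular_concat_iff (α := [f a0, f a1, f a2]).mp h2).2
  obtain ⟨e0, e1, e2⟩ := stepf_self f ω a0 a1 a2 c
  have e3 : stepf f ω a0 a1 a2 c a3 = f a3 + c * ω ![a0, a1, a2, a3] := stepf_apply _ _ _ _ _ _ _
  refine ⟨?_, ?_⟩
  · intro y hy
    rw [e0, e1, e2, e3, hw] at hy
    exact (step_colon hω h1 h y).mp hy
  · intro y hy
    rw [e0, e1, e2, e3] at hy ⊢
    rw [hw]
    obtain ⟨_, hB⟩ := h
    rw [ofList_four_sup, ofList_four] at hB
    rw [ofList_four] at hy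
    rw [ofList_four_sup]
    exact (double_link_colon' f (con3 ω a0 a1 a2) a3 c (rel_of_cyc hω a0 a1 a2 a3) r2 hB y).mp hy

lemma sup_step (f : P →ₗ[R] R) (ω : P [⋀^Fin 4]→ₗ[R] R) (a0 a1 a2 a3 : P) (c : R) :
    Ideal.ofList [f a0, f a1, f a2, f a3 + c * ω ![a0, a1, a2, a3]] ⊔
        Ideal.span {ω ![a0, a1, a2, a3]} =
      Ideal.ofList [f a0, f a1, f a2, f a3] ⊔ Ideal.span {ω ![a0, a1, a2, a3]} := by
  set w := ω ![a0, a1, a2, a3]
  rw [ofList_four_sup, ofList_four_sup]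
  congr 1
  apply le_antisymm
  · rw [Ideal.span_le]
    rintro z (rfl | rfl)
    · exact Ideal.add_mem _ (Ideal.subset_span (by simp))
        (Ideal.mul_mem_left _ _ (Ideal.subset_span (by simp)))
    · exact Ideal.subset_span (by simp)
  · rw [Ideal.span_le]
    rintro z (rfl | rfl)
    · have e : f a3 = (f a3 + c * w) - c * w := by ring
      have : f a3 ∈ Ideal.span ({f a3 + c * w, w} : Set R) := by
        rw [e]
        exact Ideal.sub_mem _ (Ideal.subset_span (by simp))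
          (Ideal.mul_mem_left _ _ (Ideal.subset_span (by simp)))
      exact this
    · exact Ideal.subset_span (by simp)

lemma DirectlyLinked.symm {I J : Ideal R} (h : DirectlyLinked I J) : DirectlyLinked J I := by
  obtain ⟨rs, h1, h2, h3, h4⟩ := h
  exact ⟨rs, h1, by rwa [inf_comm], h4, h3⟩

lemma IsLicci.of_linked {I J : Ideal R} (h : DirectlyLinked I J) (hJ : IsLicci J) : IsLicci I := by
  obtain ⟨K, hK, hK2⟩ := hJ
  exact ⟨K, Relation.ReflTransGen.head h hK, hK2⟩

end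

section loc

universe u

variable {R : Type u} [CommRing R] [IsLocalRing R] [IsNoetherianRing R]
variable {P : Type*} [AddCommGroup P] [Module R P]

lemma isRegular_four {x0 x1 x2 x3 : R} (h0 : x0 ∈ maximalIdeal R) (h1 : x1 ∈ maximalIdeal R)
    (h2 : x2 ∈ maximalIdeal R) (h3 : x3 ∈ maximalIdeal R)
    (h : IsWeaklyRegular R [x0, x1, x2, x3]) : IsRegular R [x0, x1, x2, x3] := by
  refine IsRegular.of_isWeaklyRegular_of_mem_maximalIdeal R ?_ h
  intro x hx
  simp only [List.mem_cons, List.not_mem_nil, or_false] at hx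
  rcases hx with rfl | rfl | rfl | rfl <;> assumption

/-- one double link: if the new ideal is licci, so is the old one. -/
theorem licci_of_step {f : P →ₗ[R] R} {ω ω' : P [⋀^Fin 4]→ₗ[R] R} (hω : Cyc f ω)
    (hI : ∀ v, f v ∈ maximalIdeal R)
    {a0 a1 a2 a3 : P} {c : R}
    (h1 : IsWeaklyRegular R [f a0, f a1, f a2, f a3])
    (h2 : IsWeaklyRegular R [f a0, f a1, f a2, f a3 + c * ω ![a0, a1, a2, a3]])
    (h : Good f ω a0 a1 a2 a3)
    (hI' : ∀ v, stepf f ω a0 a1 a2 c v ∈ maximalIdeal R)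
    (hω' : Cyc (stepf f ω a0 a1 a2 c) ω')
    (hw : ω' ![a0, a1, a2, a3] = ω ![a0, a1, a2, a3])
    (hL : IsLicci (LinearMap.range (stepf f ω a0 a1 a2 c))) : IsLicci (LinearMap.range f) := by
  have hreg := isRegular_four (hI a0) (hI a1) (hI a2) (hI a3) h1
  have e3 : stepf f ω a0 a1 a2 c a3 = f a3 + c * ω ![a0, a1, a2, a3] := stepf_apply _ _ _ _ _ _ _
  have hreg' := isRegular_four (hI a0) (hI a1) (hI a2) (e3 ▸ hI' a3) h2
  have l1 := h.link hω hreg
  have hG := h.step (ω' := ω') hω h1 h2 hw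
  obtain ⟨e0, e1, e2⟩ := stepf_self f ω a0 a1 a2 c
  have l2 := hG.link hω' (by rw [e0, e1, e2, e3]; exact hreg')
  rw [e0, e1, e2, e3, hw, sup_step] at l2
  exact IsLicci.of_linked l1 (IsLicci.of_linked (DirectlyLinked.symm l2) hL)

/-- the last step: if the new functional takes a unit value, the ideal is licci. -/
theorem licci_of_unit {f : P →ₗ[R] R} {ω : P [⋀^Fin 4]→ₗ[R] R} (hω : Cyc f ω)
    (hI : ∀ v, f v ∈ maximalIdeal R)
    {a0 a1 a2 a3 : P} {c : R}
    (h1 : IsWeaklyRegular R [f a0, f a1, f a2, f a3])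
    (h2 : IsWeaklyRegular R [f a0, f a1, f a2, f a3 + c * ω ![a0, a1, a2, a3]])
    (h : Good f ω a0 a1 a2 a3)
    (hu : ∃ v, IsUnit (stepf f ω a0 a1 a2 c v)) : IsLicci (LinearMap.range f) := by
  have hreg := isRegular_four (hI a0) (hI a1) (hI a2) (hI a3) h1
  have l1 := h.link hω hreg
  set w := ω ![a0, a1, a2, a3] with hw
  by_cases hwu : IsUnit w
  · -- then `I = α`
    refine ⟨_, Relation.ReflTransGen.refl, _, hreg, ?_⟩
    apply le_antisymm
    · rintro _ ⟨v, rfl⟩
      have h3 := mul_omega_mem hω a0 a1 a2 a3 v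
      rw [← hw] at h3
      obtain ⟨u, hu⟩ := hwu
      rw [← hu] at h3
      have h4 := Ideal.mul_mem_right ((↑u⁻¹ : R)) _ h3
      rwa [mul_assoc, Units.mul_inv, mul_one] at h4
    · rw [Ideal.ofList, Ideal.span_le]
      intro x hx
      simp only [List.mem_cons, List.not_mem_nil, or_false, Set.mem_ofPred_eq] at hx
      rcases hx with rfl | rfl | rfl | rfl <;> exact ⟨_, rfl⟩
  · -- `w ∈ α'`, so `J = α'`
    have hwm : w ∈ maximalIdeal R := (IsLocalRing.mem_maximalIdeal _).mpr hwu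
    have h3m : f a3 + c * w ∈ maximalIdeal R :=
      Ideal.add_mem _ (hI a3) (Ideal.mul_mem_left _ _ hwm)
    have hreg' := isRegular_four (hI a0) (hI a1) (hI a2) h3m h2
    have hw' : w ∈ Ideal.ofList [f a0, f a1, f a2, f a3 + c * w] := by
      obtain ⟨v, hv⟩ := hu
      have h5 : (1 : R) ∈ LinearMap.range (stepf f ω a0 a1 a2 c) := by
        obtain ⟨u, hu⟩ := hv
        refine ⟨(↑u⁻¹ : R) • v, ?_⟩
        rw [map_smul, ← hu, smul_eq_mul, Units.inv_mul]
      have h6 := (step_colon hω h1 h (c := c) 1).mpr h5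
      rwa [one_mul] at h6
    have hJ : Ideal.ofList [f a0, f a1, f a2, f a3] ⊔ Ideal.span {w} =
        Ideal.ofList [f a0, f a1, f a2, f a3 + c * w] := by
      rw [← sup_step]
      exact sup_eq_left.mpr (by rw [Ideal.span_singleton_le_iff_mem]; exact hw')
    rw [hJ] at l1
    exact IsLicci.of_linked l1 ⟨_, Relation.ReflTransGen.refl, _, hreg', rfl⟩

end loc

end Pool.Agent.Licci

end
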