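import Mathlib
import Pool.Agent.Work.MP_a98e4e_ag.Fu.L.FormA2
import Pool.Agent.Work.MP_a98e4e_ag.Fu.L.Jac

section

/-!
MP_a98e4e_ag (licci, codimension 4), module (4b) (helper43): termination, linear algebra over the
infinite field `k`.
-/

set_option autoImplicit false

noncomputable section

namespace Pool.Agent.Licci

open Module

section genk

variable {k : Type*} [Field k] {P : Type*} [AddCommGroup P] [Module k P]

/-- `Q x` holds for all `x` outside finitely many proper subspaces. -/
def GenK (Q : P → Prop) : Prop :=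
  ∃ S : Finset (Submodule k P), (∀ V ∈ S, V ≠ ⊤) ∧ ∀ x : P, (∀ V ∈ S, x ∉ V) → Q x

/-- `Q c` holds for all `c` outside a finite set -/
def GenC (Q : k → Prop) : Prop := ∃ Z : Finset k, ∀ c, c ∉ Z → Q c

lemma GenK.mono {Q Q' : P → Prop} (h : GenK (k := k) Q) (hQ : ∀ a, Q a → Q' a) :
    GenK (k := k) Q' := by
  obtain ⟨S, hS, h1⟩ := h
  exact ⟨S, hS, fun a ha => hQ a (h1 a ha)⟩

lemma GenK.of_forall {Q : P → Prop} (h : ∀ a, Q a) : GenK (k := k) Q :=
  ⟨∅, by simp, fun a _ => h a⟩

lemma GenK.of_linear {V : Type*} [AddCommGroup V] [Module k V] (g : P →ₗ[k] V) (h : g ≠ 0) :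
    GenK (k := k) fun a : P => g a ≠ 0 := by
  classical
  refine ⟨{LinearMap.ker g}, ?_, ?_⟩
  · intro V hV htop
    rw [Finset.mem_singleton] at hV
    subst hV
    exact h (LinearMap.ker_eq_top.mp htop)
  · intro a ha h0
    exact ha (LinearMap.ker g) (by simp) h0

lemma GenC.mono {Q Q' : k → Prop} (h : GenC Q) (hQ : ∀ a, Q a → Q' a) : GenC Q' := by
  obtain ⟨S, h1⟩ := h
  exact ⟨S, fun a ha => hQ a (h1 a ha)⟩

lemma GenC.and {Q Q' : k → Prop} (h : GenC Q) (h' : GenC Q') : GenC fun a => Q a ∧ Q' a := by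
  classical
  obtain ⟨S, h1⟩ := h
  obtain ⟨S', h1'⟩ := h'
  exact ⟨S ∪ S', fun a ha => ⟨h1 a fun hV => ha (Finset.mem_union_left _ hV),
    h1' a fun hV => ha (Finset.mem_union_right _ hV)⟩⟩

lemma GenC.of_poly (p : Polynomial k) (h : p ≠ 0) : GenC fun c : k => p.eval c ≠ 0 := by
  classical
  refine ⟨p.roots.toFinset, fun c hc h0 => hc ?_⟩
  rw [Multiset.mem_toFinset, Polynomial.mem_roots h]
  exact h0

/-- a nonzero trilinear map does not vanish at general triples -/
lemma gen_trilinear {V : Type*} [AddCommGroup V] [Module k V]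
    (ψ : P →ₗ[k] P →ₗ[k] P →ₗ[k] V) (h : ∃ x y z, ψ x y z ≠ 0) :
    GenK (k := k) fun x => GenK (k := k) fun y => GenK (k := k) fun z => ψ x y z ≠ 0 := by
  obtain ⟨x0, y0, z0, h0⟩ := h
  have h1 : ψ ≠ 0 := by rintro rfl; simp at h0
  refine (GenK.of_linear ψ h1).mono fun x hx => ?_
  refine (GenK.of_linear (ψ x) hx).mono fun y hy => ?_
  exact GenK.of_linear (ψ x y) hy

end genk

section poly

variable {k : Type*} [Field k] {S W : Type*} [AddCommGroup S] [Module k S] [FiniteDimensional k S]
  [AddCommGroup W] [Module k W]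

/-- a polynomial family of linear maps which is injective at `0` is injective for general `c` -/
theorem gen_injective (D0 D1 D2 : S →ₗ[k] W) (h : Function.Injective D0) :
    GenC fun c : k => Function.Injective (D0 + c • D1 + c ^ 2 • D2) := by
  classical
  obtain ⟨L, hL⟩ := D0.exists_leftInverse_of_injective (LinearMap.ker_eq_bot.mpr h)
  let b := Module.finBasis k S
  let M1 := LinearMap.toMatrix b b (L ∘ₗ D1)
  let M2 := LinearMap.toMatrix b b (L ∘ₗ D2)
  let p : Polynomial k := Matrix.det ((1 : Matrix _ _ (Polynomial k)) +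
    (Polynomial.X : Polynomial k) • M1.map Polynomial.C +
    (Polynomial.X ^ 2 : Polynomial k) • M2.map Polynomial.C)
  have hp : ∀ c, p.eval c = Matrix.det (1 + c • M1 + c ^ 2 • M2) := by
    intro c
    change (Polynomial.evalRingHom c) p = _
    rw [RingHom.map_det]
    congr 1
    ext i j
    simp only [RingHom.mapMatrix_apply, Matrix.map_apply, Matrix.add_apply, Matrix.smul_apply,
      smul_eq_mul, map_add, Polynomial.coe_evalRingHom, Polynomial.eval_mul,
      Polynomial.eval_X, Polynomial.eval_C, Polynomial.eval_pow]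
    congr 2
    by_cases hij : i = j
    · subst hij; simp
    · simp [Matrix.one_apply_ne hij]
  have hp0 : p ≠ 0 := by
    intro h0
    have := hp 0
    rw [h0] at this
    simp at this
  refine (GenC.of_poly p hp0).mono fun c hc => ?_
  rw [hp] at hc
  have hcomp : LinearMap.toMatrix b b (L ∘ₗ (D0 + c • D1 + c ^ 2 • D2)) =
      1 + c • M1 + c ^ 2 • M2 := by
    rw [LinearMap.comp_add, LinearMap.comp_add, LinearMap.comp_smul, LinearMap.comp_smul, hL]
    simp [M1, M2]
  have hunit : IsUnit (L ∘ₗ (D0 + c • D1 + c ^ 2 • D2)) := by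
    rw [LinearMap.isUnit_iff_isUnit_det, ← LinearMap.det_toMatrix b, hcomp]
    exact hc.isUnit
  have hinj : Function.Injective (L ∘ₗ (D0 + c • D1 + c ^ 2 • D2)) :=
    ((Module.End.isUnit_iff _).mp hunit).1
  exact Function.Injective.of_comp (f := L) hinj

/-- if moreover `D0 g = 0` and `D1 g` is not in the range of `D0`, the kernel gets smaller -/
theorem gen_finrank_ker_le (D0 D1 D2 : S →ₗ[k] W) :
    GenC fun c : k => finrank k (LinearMap.ker (D0 + c • D1 + c ^ 2 • D2)) ≤
      finrank k (LinearMap.ker D0) := by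
  obtain ⟨C, hC⟩ := Submodule.exists_isCompl (LinearMap.ker D0)
  have h0 : Function.Injective (D0.domRestrict C) := by
    rw [← LinearMap.ker_eq_bot, LinearMap.ker_eq_bot']
    intro x hx
    have h1 : (x : S) ∈ LinearMap.ker D0 ⊓ C := ⟨hx, x.2⟩
    rw [hC.inf_eq_bot, Submodule.mem_bot] at h1
    exact Subtype.ext h1
  refine (gen_injective (D0.domRestrict C) (D1.domRestrict C) (D2.domRestrict C) h0).mono
    fun c hc => ?_
  set K := LinearMap.ker (D0 + c • D1 + c ^ 2 • D2) with hK
  have hdisj : K ⊓ C = ⊥ := by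
    rw [eq_bot_iff]
    rintro x ⟨hx1, hx2⟩
    have h3 : (D0.domRestrict C + c • D1.domRestrict C + c ^ 2 • D2.domRestrict C) ⟨x, hx2⟩ = 0 := hx1
    have h4 := hc (h3.trans (map_zero _).symm)
    exact (Submodule.mem_bot k).mpr (congrArg Subtype.val h4)
  have h5 := Submodule.finrank_sup_add_finrank_inf_eq K C
  rw [hdisj, finrank_bot, add_zero] at h5
  have h6 := Submodule.finrank_le (K ⊔ C)
  have h7 := Submodule.finrank_add_eq_of_isCompl hC
  omega

theorem gen_finrank_ker_lt (D0 D1 D2 : S →ₗ[k] W) (g : S) (hg : D0 g = 0)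
    (hg1 : D1 g ∉ LinearMap.range D0) :
    GenC fun c : k => finrank k (LinearMap.ker (D0 + c • D1 + c ^ 2 • D2)) <
      finrank k (LinearMap.ker D0) := by
  classical
  obtain ⟨C, hC⟩ := Submodule.exists_isCompl (LinearMap.ker D0)
  -- the modified family on `C × k`
  let i : (C × k) →ₗ[k] S := C.subtype.coprod (LinearMap.toSpanSingleton k S g)
  let F0 : (C × k) →ₗ[k] W := (D0.domRestrict C).coprod (LinearMap.toSpanSingleton k W (D1 g))
  let F1 : (C × k) →ₗ[k] W := (D1.domRestrict C).coprod (LinearMap.toSpanSingleton k W (D2 g))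
  let F2 : (C × k) →ₗ[k] W := (D2.domRestrict C).coprod (LinearMap.toSpanSingleton k W 0)
  have h0 : Function.Injective F0 := by
    rw [← LinearMap.ker_eq_bot, LinearMap.ker_eq_bot']
    rintro ⟨x, a⟩ hx
    have hx' : D0 x + a • D1 g = 0 := hx
    have ha : a = 0 := by
      by_contra ha
      apply hg1
      refine ⟨-(a⁻¹ • (x : S)), ?_⟩
      rw [map_neg, map_smul, eq_neg_of_add_eq_zero_left hx', smul_neg, neg_neg, smul_smul,
        inv_mul_cancel₀ ha, one_smul]
    subst ha
    have h1 : (x : S) ∈ LinearMap.ker D0 ⊓ C := ⟨by simpa using hx', x.2⟩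
    rw [hC.inf_eq_bot, Submodule.mem_bot] at h1
    exact Prod.ext (Subtype.ext h1) rfl
  have hX : GenC fun c : k => c ≠ 0 := ⟨{0}, fun c hc => by simpa using hc⟩
  refine ((gen_injective F0 F1 F2 h0).and hX).mono fun c hc => ?_
  obtain ⟨hc, hc0⟩ := hc
  set K := LinearMap.ker (D0 + c • D1 + c ^ 2 • D2) with hK
  -- `C + k g` meets `K` trivially
  have hval : ∀ (x : C) (a : k), (D0 + c • D1 + c ^ 2 • D2) ((x : S) + a • g) =
      (F0 + c • F1 + c ^ 2 • F2) (x, c * a) := by
    intro x a
    simp only [F0, F1, F2, LinearMap.add_apply, LinearMap.smul_apply, LinearMap.coprod_apply,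
      LinearMap.toSpanSingleton_apply, LinearMap.domRestrict_apply, map_add, map_smul, hg,
      smul_zero, add_zero]
    module
  have hdisj : K ⊓ (C ⊔ Submodule.span k {g}) = ⊥ := by
    rw [eq_bot_iff]
    rintro s ⟨hx1, hx2⟩
    obtain ⟨x, hx, y, hy, rfl⟩ := Submodule.mem_sup.mp hx2
    obtain ⟨a, rfl⟩ := Submodule.mem_span_singleton.mp hy
    have h3 : (D0 + c • D1 + c ^ 2 • D2) (x + a • g) = 0 := hx1
    rw [hval ⟨x, hx⟩ a] at h3
    have h4 := hc (h3.trans (map_zero _).symm)
    have h5 := congrArg Prod.fst h4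
    have h6 : x = 0 := congrArg Subtype.val h5
    have h7 : c * a = 0 := congrArg Prod.snd h4
    have h8 : a = 0 := by
      rcases mul_eq_zero.mp h7 with h | h
      · exact absurd h hc0
      · exact h
    rw [h6, h8]; simp
  have hCg : finrank k (C ⊔ Submodule.span k {g} : Submodule k S) = finrank k C + 1 := by
    have hg0 : g ≠ 0 := by
      rintro rfl
      exact hg1 ⟨0, by simp⟩
    have hd : C ⊓ Submodule.span k {g} = ⊥ := by
      rw [eq_bot_iff]
      rintro s ⟨h1, h2⟩
      obtain ⟨a, rfl⟩ := Submodule.mem_span_singleton.mp h2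
      have h3 : a • g ∈ LinearMap.ker D0 ⊓ C := ⟨by simp [hg], h1⟩
      rw [hC.inf_eq_bot] at h3
      exact h3
    have h := Submodule.finrank_sup_add_finrank_inf_eq C (Submodule.span k {g})
    rw [hd, finrank_bot, add_zero, finrank_span_singleton hg0] at h
    exact h
  have h5 := Submodule.finrank_sup_add_finrank_inf_eq K (C ⊔ Submodule.span k {g})
  rw [hdisj, finrank_bot, add_zero, hCg] at h5
  have h6 := Submodule.finrank_le (K ⊔ (C ⊔ Submodule.span k {g}))
  have h7 := Submodule.finrank_add_eq_of_isCompl hC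
  omega

end poly

section term

variable {k : Type*} [Field k] {κ : Type*} {T : Type*} [AddCommGroup T] [Module k T]

/-- the vectors without components of degree `> j` -/
def Fil (k : Type*) [Field k] {κ : Type*} (deg : κ → ℕ) (j : ℕ) : Submodule k (κ → k) where
  carrier := {u | ∀ a, j < deg a → u a = 0}
  zero_mem' := fun _ _ => rfl
  add_mem' := fun {u v} hu hv a ha => by
    rw [Pi.add_apply, hu a ha, hv a ha, add_zero]
  smul_mem' := fun c u hu a ha => by
    rw [Pi.smul_apply, hu a ha, smul_zero]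

lemma mem_Fil {deg : κ → ℕ} {j : ℕ} {u : κ → k} : u ∈ Fil k deg j ↔ ∀ a, j < deg a → u a = 0 :=
  Iff.rfl

/-- the vectors whose image has no component of degree `> j` -/
def Kf (deg : κ → ℕ) (i : T →ₗ[k] (κ → k)) (j : ℕ) : Submodule k T := (Fil k deg j).comap i

lemma mem_Kf {deg : κ → ℕ} {i : T →ₗ[k] (κ → k)} {j : ℕ} {g : T} :
    g ∈ Kf deg i j ↔ ∀ a, j < deg a → i g a = 0 := Iff.rfl

lemma Kf_mono {deg : κ → ℕ} {i : T →ₗ[k] (κ → k)} {j j' : ℕ} (h : j ≤ j') :
    Kf deg i j ≤ Kf deg i j' := fun _ hg a ha => hg a (lt_of_le_of_lt h ha)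

open Classical in
/-- number of `j < 5` with `K_j = K_5` -/
def hgt (deg : κ → ℕ) (i : T →ₗ[k] (κ → k)) : ℕ :=
  ((Finset.range 5).filter fun j => Kf deg i j = Kf deg i 5).card

/-- the measure -/
def meas (deg : κ → ℕ) (i : T →ₗ[k] (κ → k)) : ℕ :=
  6 * finrank k (Kf deg i 5) + hgt deg i

/-- restriction to the components with `p` -/
def prj (k : Type*) [Field k] {κ : Type*} (p : κ → Prop) [DecidablePred p] :
    (κ → k) →ₗ[k] (κ → k) where
  toFun u := fun a => if p a then u a else 0
  map_add' u v := by funext a; by_cases h : p a <;> simp [h]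
  map_smul' c u := by funext a; by_cases h : p a <;> simp [h]

lemma prj_apply (p : κ → Prop) [DecidablePred p] (u : κ → k) (a : κ) :
    prj k p u a = if p a then u a else 0 := rfl

lemma Kf_five_eq_ker (deg : κ → ℕ) (i : T →ₗ[k] (κ → k)) :
    Kf deg i 5 = LinearMap.ker (prj k (fun a => 5 < deg a) ∘ₗ i) := by
  ext g
  rw [mem_Kf, LinearMap.mem_ker]
  constructor
  · intro h
    funext a
    rw [LinearMap.comp_apply, prj_apply]
    split_ifs with ha
    · exact h a ha
    · rfl
  · intro h a ha
    have := congrFun h a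
    rw [LinearMap.comp_apply, prj_apply, if_pos ha] at this
    exact this

variable {P : Type*} [AddCommGroup P] [Module k P]

/-- the move `1 + c E + (c²/2) E²` -/
def Mv (E : P →ₗ[k] P →ₗ[k] P →ₗ[k] Module.End k (κ → k)) (x y z : P) (c : k) :
    Module.End k (κ → k) :=
  1 + c • E x y z + (c ^ 2 / 2) • (E x y z * E x y z)

lemma Mv_apply (E : P →ₗ[k] P →ₗ[k] P →ₗ[k] Module.End k (κ → k)) (x y z : P) (c : k)
    (u : κ → k) (a : κ) :
    Mv E x y z c u a = u a + c * E x y z u a + c ^ 2 / 2 * E x y z (E x y z u) a := by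
  simp [Mv, smul_eq_mul]

/-- homogeneous of degree one -/
def Hom1 (deg : κ → ℕ) (E : P →ₗ[k] P →ₗ[k] P →ₗ[k] Module.End k (κ → k)) : Prop :=
  ∀ x y z (u : κ → k) (a : κ), (∀ b, deg b + 1 = deg a → u b = 0) → E x y z u a = 0

variable [FiniteDimensional k T]

/-- **Termination step** -/
theorem gen_meas_lt (deg : κ → ℕ) (hdeg : ∀ a, deg a ≤ 6)
    (E : P →ₗ[k] P →ₗ[k] P →ₗ[k] Module.End k (κ → k)) (hE : Hom1 deg E)
    (H1 : ∀ j, j ≤ 4 → ∀ u : κ → k, (∀ a, deg a ≠ j → u a = 0) → u ≠ 0 →
      ∃ x y z, E x y z u ≠ 0)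
    (H2 : ∀ u : κ → k, (∀ a, deg a ≠ 5 → u a = 0) → u ≠ 0 → ∀ A : Submodule k (κ → k),
      finrank k A ≤ 4 → ∃ x y z, E x y z u ∉ A)
    (H3 : ∀ x y z (u : κ → k), (∀ a, deg a ≠ 4 → u a = 0) → E x y z (E x y z u) = 0)
    (i : T →ₗ[k] (κ → k)) (hi : Function.Injective i)
    (hT : 4 < finrank k T)
    (hr : finrank k (LinearMap.range (prj k (fun a => 5 < deg a) ∘ₗ i)) ≤ 4) :
    GenK (k := k) fun x => GenK (k := k) fun y => GenK (k := k) fun z => GenC fun c =>
      meas deg (Mv E x y z c ∘ₗ i) < meas deg i := by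
  classical
  set D0 := prj k (fun a => 5 < deg a) ∘ₗ i with hD0
  -- the degree 6 part of the moved map
  have hD : ∀ x y z c, prj k (fun a => 5 < deg a) ∘ₗ (Mv E x y z c ∘ₗ i) =
      D0 + c • (prj k (fun a => 5 < deg a) ∘ₗ E x y z ∘ₗ i) +
        c ^ 2 • ((2 : k)⁻¹ • (prj k (fun a => 5 < deg a) ∘ₗ E x y z ∘ₗ E x y z ∘ₗ i)) := by
    intro x y z c
    ext g a
    simp only [hD0, LinearMap.comp_apply, LinearMap.add_apply, LinearMap.smul_apply, Pi.add_apply,
      Pi.smul_apply, prj_apply, smul_eq_mul, Mv_apply]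
    split_ifs with h
    · ring
    · simp
  have hker : finrank k (LinearMap.range D0) + finrank k (LinearMap.ker D0) = finrank k T :=
    LinearMap.finrank_range_add_finrank_ker D0
  by_cases hJ : Kf deg i 4 = Kf deg i 5
  · -- raise the top degree
    obtain ⟨J, hJmin⟩ : ∃ J, J ≤ 4 ∧ Kf deg i J = Kf deg i 5 ∧
        ∀ j, j < J → Kf deg i j ≠ Kf deg i 5 := by
      have hex : ∃ j, Kf deg i j = Kf deg i 5 := ⟨4, hJ⟩
      exact ⟨Nat.find hex, Nat.find_min' hex hJ, Nat.find_spec hex, fun j hj => Nat.find_min hex hj⟩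
    obtain ⟨hJ4, hJeq, hJlt⟩ := hJmin
    have hne : Kf deg i 5 ≠ ⊥ := by
      intro h0
      have : finrank k (LinearMap.ker D0) = 0 := by
        rw [← Kf_five_eq_ker, h0, finrank_bot]
      omega
    -- a vector with a component of degree exactly `J`
    obtain ⟨g, hg5, a, ha, hga⟩ : ∃ g ∈ Kf deg i 5, ∃ a, deg a = J ∧ i g a ≠ 0 := by
      rcases Nat.eq_zero_or_pos J with h0 | hpos
      · obtain ⟨g, hg, hg0⟩ := Submodule.exists_mem_ne_zero_of_ne_bot hne
        have h1 : i g ≠ 0 := fun h => hg0 (hi (h.trans (map_zero i).symm))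
        obtain ⟨a, ha⟩ := Function.ne_iff.mp h1
        refine ⟨g, hg, a, ?_, ha⟩
        by_contra hne'
        rw [← hJeq] at hg
        exact ha (hg a (by omega))
      · have h1 := hJlt (J - 1) (by omega)
        have h2 : Kf deg i (J - 1) ≤ Kf deg i 5 := Kf_mono (by omega)
        obtain ⟨g, hg, hg'⟩ := SetLike.exists_of_lt (lt_of_le_of_ne h2 h1)
        have h3 : ¬ ∀ a, J - 1 < deg a → i g a = 0 := hg'
        push Not at h3
        obtain ⟨a, ha, hga⟩ := h3
        refine ⟨g, hg, a, ?_, hga⟩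
        by_contra hne'
        rw [← hJeq] at hg
        exact hga (hg a (by omega))
    have hgJ : ∀ b, J < deg b → i g b = 0 := by
      rw [← hJeq] at hg5; exact hg5
    let uJ : κ → k := prj k (fun b => deg b = J) (i g)
    have huJ : ∀ b, deg b ≠ J → uJ b = 0 := fun b hb => by
      change prj k (fun b => deg b = J) (i g) b = 0
      rw [prj_apply, if_neg hb]
    have huJ' : ∀ b, deg b = J → uJ b = i g b := fun b hb => by
      change prj k (fun b => deg b = J) (i g) b = _
      rw [prj_apply, if_pos hb]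
    have huJ0 : uJ ≠ 0 := fun h => hga (by rw [← huJ' a ha, h]; rfl)
    let ψ : P →ₗ[k] P →ₗ[k] P →ₗ[k] (κ → k) :=
      E.compr₂ (LinearMap.compRight k (LinearMap.applyₗ uJ))
    have hψ : ∀ x y z, ψ x y z = E x y z uJ := fun x y z => rfl
    obtain ⟨x0, y0, z0, h0⟩ := H1 J hJ4 uJ huJ huJ0
    refine (gen_trilinear ψ ⟨x0, y0, z0, h0⟩).mono fun x hx => hx.mono fun y hy =>
      hy.mono fun z hz => ?_
    rw [hψ] at hz
    obtain ⟨b, hb⟩ := Function.ne_iff.mp hz
    have hbJ : deg b = J + 1 := by
      by_contra hne'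
      exact hb (hE x y z uJ b fun b' hb' => huJ b' (by omega))
    -- the component `b` of the moved vector
    have hEb : E x y z (i g) b = E x y z uJ b := by
      have h1 : E x y z (i g - uJ) b = 0 := hE x y z _ b fun b' hb' => by
        rw [Pi.sub_apply, huJ' b' (by omega), sub_self]
      rw [map_sub, Pi.sub_apply, sub_eq_zero] at h1
      exact h1
    have hgenb : GenC fun c : k => Mv E x y z c (i g) b ≠ 0 := by
      let p : Polynomial k := Polynomial.C (E x y z (i g) b) * Polynomial.X +
        Polynomial.C (E x y z (E x y z (i g)) b / 2) * Polynomial.X ^ 2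
      have hp : p ≠ 0 := by
        intro h
        have := congrArg (fun q => Polynomial.coeff q 1) h
        simp only [p, Polynomial.coeff_add, Polynomial.coeff_C_mul, Polynomial.coeff_X_one,
          Polynomial.coeff_X_pow, Polynomial.coeff_zero] at this
        norm_num at this
        exact hb (by rw [← hEb]; exact this)
      refine (GenC.of_poly p hp).mono fun c hc => ?_
      rw [Mv_apply, hgJ b (by omega)]
      simp only [p, Polynomial.eval_add, Polynomial.eval_mul, Polynomial.eval_C,
        Polynomial.eval_X, Polynomial.eval_pow] at hc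
      intro h
      apply hc
      rw [← h]; ring
    have hgenr := gen_finrank_ker_le D0 (prj k (fun a => 5 < deg a) ∘ₗ E x y z ∘ₗ i)
      ((2 : k)⁻¹ • (prj k (fun a => 5 < deg a) ∘ₗ E x y z ∘ₗ E x y z ∘ₗ i))
    refine (hgenb.and hgenr).mono fun c hc => ?_
    obtain ⟨hc1, hc2⟩ := hc
    set i' := Mv E x y z c ∘ₗ i with hi'
    have hfin : finrank k (Kf deg i' 5) ≤ finrank k (Kf deg i 5) := by
      rw [Kf_five_eq_ker, Kf_five_eq_ker, hi', hD]; exact hc2
    -- `g` is in `K'_5`
    have hg5' : g ∈ Kf deg i' 5 := by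
      intro e he
      have he6 : deg e = 6 := by have := hdeg e; omega
      change Mv E x y z c (i g) e = 0
      rw [Mv_apply, hg5 e he]
      have h1 : E x y z (i g) e = 0 := hE x y z _ e fun b' hb' => hgJ b' (by omega)
      have h2 : E x y z (E x y z (i g)) e = 0 := by
        let u4 : κ → k := prj k (fun b => deg b = 4) (i g)
        have h3 : E x y z (E x y z u4) = 0 := H3 x y z u4 fun b' hb' => by
          change prj k (fun b => deg b = 4) (i g) b' = 0
          rw [prj_apply, if_neg hb']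
        have h4 : E x y z (E x y z (i g - u4)) e = 0 := hE x y z _ e fun b' hb' =>
          hE x y z _ b' fun b'' hb'' => by
            rw [Pi.sub_apply]
            change i g b'' - prj k (fun b => deg b = 4) (i g) b'' = 0
            rw [prj_apply, if_pos (by omega), sub_self]
        rw [map_sub, map_sub, Pi.sub_apply, h3] at h4
        simpa using h4
      rw [h1, h2]; ring
    have hgJ' : g ∉ Kf deg i' J := fun h => hc1 (h b (by omega))
    have hh : hgt deg i' < hgt deg i := by
      have e1 : hgt deg i' ≤ ((Finset.range 5).filter fun j => J < j).card := by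
        apply Finset.card_le_card
        intro j hj
        rw [Finset.mem_filter] at hj ⊢
        refine ⟨hj.1, ?_⟩
        by_contra hle
        apply hgJ'
        have h1 : g ∈ Kf deg i' j := by rw [hj.2]; exact hg5'
        exact Kf_mono (by omega) h1
      have e2 : ((Finset.range 5).filter fun j => J ≤ j).card ≤ hgt deg i := by
        apply Finset.card_le_card
        intro j hj
        rw [Finset.mem_filter, Finset.mem_range] at hj
        rw [Finset.mem_filter, Finset.mem_range]
        refine ⟨hj.1, le_antisymm (Kf_mono (by omega)) ?_⟩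
        rw [← hJeq]
        exact Kf_mono hj.2
      have e3 : ((Finset.range 5).filter fun j => J < j).card <
          ((Finset.range 5).filter fun j => J ≤ j).card := by
        apply Finset.card_lt_card
        refine ⟨fun j hj => ?_, fun hsub => ?_⟩
        · rw [Finset.mem_filter] at hj ⊢; exact ⟨hj.1, hj.2.le⟩
        · have h1 : J ∈ (Finset.range 5).filter fun j => J ≤ j := by
            rw [Finset.mem_filter, Finset.mem_range]; exact ⟨by omega, le_rfl⟩
          have h2 := hsub h1
          rw [Finset.mem_filter] at h2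
          exact lt_irrefl _ h2.2
      omega
    unfold meas
    omega
  · -- raise the rank
    have h2 : Kf deg i 4 ≤ Kf deg i 5 := Kf_mono (by omega)
    obtain ⟨g, hg5, hg4⟩ := SetLike.exists_of_lt (lt_of_le_of_ne h2 hJ)
    have h3 : ¬ ∀ a, 4 < deg a → i g a = 0 := hg4
    push Not at h3
    obtain ⟨a, ha, hga⟩ := h3
    have ha5 : deg a = 5 := by
      by_contra hne'
      exact hga (hg5 a (by omega))
    let u5 : κ → k := prj k (fun b => deg b = 5) (i g)
    have hu5 : ∀ b, deg b ≠ 5 → u5 b = 0 := fun b hb => by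
      change prj k (fun b => deg b = 5) (i g) b = 0
      rw [prj_apply, if_neg hb]
    have hu5' : ∀ b, deg b = 5 → u5 b = i g b := fun b hb => by
      change prj k (fun b => deg b = 5) (i g) b = _
      rw [prj_apply, if_pos hb]
    have hu50 : u5 ≠ 0 := fun h => hga (by rw [← hu5' a ha5, h]; rfl)
    let A := LinearMap.range D0
    obtain ⟨x0, y0, z0, h0⟩ := H2 u5 hu5 hu50 A hr
    let ψ : P →ₗ[k] P →ₗ[k] P →ₗ[k] ((κ → k) ⧸ A) :=
      E.compr₂ (LinearMap.compRight k (A.mkQ ∘ₗ LinearMap.applyₗ u5))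
    have hψ : ∀ x y z, ψ x y z = A.mkQ (E x y z u5) := fun x y z => rfl
    refine (gen_trilinear ψ ⟨x0, y0, z0, ?_⟩).mono fun x hx => hx.mono fun y hy =>
      hy.mono fun z hz => ?_
    · rw [hψ]; intro h; exact h0 ((Submodule.Quotient.mk_eq_zero A).mp h)
    have hz' : E x y z u5 ∉ A := by
      intro h; apply hz; rw [hψ]; exact (Submodule.Quotient.mk_eq_zero A).mpr h
    have hE5 : (prj k (fun a => 5 < deg a) ∘ₗ E x y z ∘ₗ i) g = E x y z u5 := by
      funext e
      simp only [LinearMap.comp_apply, prj_apply]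
      split_ifs with he
      · have h1 : E x y z (i g - u5) e = 0 := hE x y z _ e fun b' hb' => by
          have := hdeg e
          rw [Pi.sub_apply, hu5' b' (by omega), sub_self]
        rw [map_sub, Pi.sub_apply, sub_eq_zero] at h1
        exact h1
      · exact (hE x y z _ e fun b' hb' => hu5 b' (by omega)).symm
    have hgD : D0 g = 0 := by
      have : g ∈ LinearMap.ker D0 := by rw [← Kf_five_eq_ker]; exact hg5
      exact this
    have hgenr := gen_finrank_ker_lt D0 (prj k (fun a => 5 < deg a) ∘ₗ E x y z ∘ₗ i)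
      ((2 : k)⁻¹ • (prj k (fun a => 5 < deg a) ∘ₗ E x y z ∘ₗ E x y z ∘ₗ i)) g hgD
      (by rw [hE5]; exact hz')
    refine hgenr.mono fun c hc => ?_
    have hfin : finrank k (Kf deg (Mv E x y z c ∘ₗ i) 5) < finrank k (Kf deg i 5) := by
      rw [Kf_five_eq_ker, Kf_five_eq_ker, hD]; exact hc
    have hh : hgt deg (Mv E x y z c ∘ₗ i) ≤ 5 := by
      unfold hgt
      exact (Finset.card_filter_le _ _).trans (by simp)
    unfold meas
    omega

end term

end Pool.Agent.Licci
end

end

section

/-!
MP_a98e4e_ag (licci, codimension 4), module (4b'') (helper43): the termination step of `Term.lean`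
for the full exponential `∑_(n < 7) c ^ n / n! E ^ n`.
-/

set_option autoImplicit false

noncomputable section

namespace Pool.Agent.Licci

open Module

section poly

variable {k : Type*} [Field k] {S W : Type*} [AddCommGroup S] [Module k S] [FiniteDimensional k S]
  [AddCommGroup W] [Module k W]

/-- `∑_(n < N) c ^ n D_n` -/
def pf (N : ℕ) (D : ℕ → S →ₗ[k] W) (c : k) : S →ₗ[k] W := ∑ n ∈ Finset.range N, c ^ n • D n

omit [FiniteDimensional k S] in
lemma pf_apply (N : ℕ) (D : ℕ → S →ₗ[k] W) (c : k) (x : S) :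
    pf N D c x = ∑ n ∈ Finset.range N, c ^ n • D n x := by
  simp [pf, LinearMap.sum_apply]

/-- a polynomial family of linear maps which is injective at `0` is injective for general `c` -/
theorem gen_injective' (N : ℕ) (D : ℕ → S →ₗ[k] W) (h : Function.Injective (D 0)) :
    GenC fun c : k => Function.Injective (pf (N + 1) D c) := by
  classical
  obtain ⟨L, hL⟩ := (D 0).exists_leftInverse_of_injective (LinearMap.ker_eq_bot.mpr h)
  let b := Module.finBasis k S
  let M : ℕ → Matrix _ _ k := fun n => LinearMap.toMatrix b b (L ∘ₗ D n)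
  let p : Polynomial k := Matrix.det (∑ n ∈ Finset.range (N + 1),
    (Polynomial.X ^ n : Polynomial k) • (M n).map Polynomial.C)
  have hp : ∀ c, p.eval c = Matrix.det (∑ n ∈ Finset.range (N + 1), c ^ n • M n) := by
    intro c
    change (Polynomial.evalRingHom c) p = _
    rw [RingHom.map_det]
    congr 1
    ext i j
    simp only [RingHom.mapMatrix_apply, Matrix.map_apply, Matrix.sum_apply, Matrix.smul_apply,
      smul_eq_mul, map_sum, Polynomial.coe_evalRingHom, Polynomial.eval_mul, Polynomial.eval_pow,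
      Polynomial.eval_X, Polynomial.eval_C]
  have hM0 : M 0 = 1 := by
    change LinearMap.toMatrix b b (L ∘ₗ D 0) = 1
    rw [hL, LinearMap.toMatrix_id]
  have hp0 : p ≠ 0 := by
    intro h0
    have := hp 0
    rw [h0, Finset.sum_range_succ'] at this
    simp [hM0] at this
  refine (GenC.of_poly p hp0).mono fun c hc => ?_
  rw [hp] at hc
  have hcomp : LinearMap.toMatrix b b (L ∘ₗ pf (N + 1) D c) =
      ∑ n ∈ Finset.range (N + 1), c ^ n • M n := by
    have e : L ∘ₗ pf (N + 1) D c =
        ∑ n ∈ Finset.range (N + 1), c ^ n • (L ∘ₗ D n) := by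
      ext x
      simp [pf, map_sum, LinearMap.sum_apply]
    rw [e, map_sum]
    refine Finset.sum_congr rfl fun n _ => ?_
    rw [map_smul]
  have hunit : IsUnit (L ∘ₗ pf (N + 1) D c) := by
    rw [LinearMap.isUnit_iff_isUnit_det, ← LinearMap.det_toMatrix b, hcomp]
    exact hc.isUnit
  have hinj : Function.Injective (L ∘ₗ pf (N + 1) D c) :=
    ((Module.End.isUnit_iff _).mp hunit).1
  exact Function.Injective.of_comp (f := L) hinj

theorem gen_finrank_ker_le' (N : ℕ) (D : ℕ → S →ₗ[k] W) :
    GenC fun c : k => finrank k (LinearMap.ker (pf (N + 1) D c)) ≤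
      finrank k (LinearMap.ker (D 0)) := by
  obtain ⟨C, hC⟩ := Submodule.exists_isCompl (LinearMap.ker (D 0))
  have h0 : Function.Injective ((D 0).domRestrict C) := by
    rw [← LinearMap.ker_eq_bot, LinearMap.ker_eq_bot']
    intro x hx
    have h1 : (x : S) ∈ LinearMap.ker (D 0) ⊓ C := ⟨hx, x.2⟩
    rw [hC.inf_eq_bot, Submodule.mem_bot] at h1
    exact Subtype.ext h1
  refine (gen_injective' N (fun n => (D n).domRestrict C) h0).mono fun c hc => ?_
  set K := LinearMap.ker (pf (N + 1) D c) with hK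
  have hdisj : K ⊓ C = ⊥ := by
    rw [eq_bot_iff]
    rintro x ⟨hx1, hx2⟩
    have h3 : pf (N + 1) (fun n => (D n).domRestrict C) c ⟨x, hx2⟩ = 0 := by
      have h3' : pf (N + 1) D c x = 0 := hx1
      rw [pf_apply] at h3' ⊢
      exact h3'
    have h4 := hc (h3.trans (map_zero _).symm)
    exact (Submodule.mem_bot k).mpr (congrArg Subtype.val h4)
  have h5 := Submodule.finrank_sup_add_finrank_inf_eq K C
  rw [hdisj, finrank_bot, add_zero] at h5
  have h6 := Submodule.finrank_le (K ⊔ C)
  have h7 := Submodule.finrank_add_eq_of_isCompl hC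
  omega

theorem gen_finrank_ker_lt' (N : ℕ) (D : ℕ → S →ₗ[k] W) (g : S) (hg : D 0 g = 0)
    (hg1 : D 1 g ∉ LinearMap.range (D 0)) :
    GenC fun c : k => finrank k (LinearMap.ker (pf (N + 2) D c)) <
      finrank k (LinearMap.ker (D 0)) := by
  classical
  obtain ⟨C, hC⟩ := Submodule.exists_isCompl (LinearMap.ker (D 0))
  -- the modified family on `C × k`
  let i : (C × k) →ₗ[k] S := C.subtype.coprod (LinearMap.toSpanSingleton k S g)
  let F : ℕ → (C × k) →ₗ[k] W := fun n => ((D n).domRestrict C).coprod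
    (LinearMap.toSpanSingleton k W (if n < N + 1 then D (n + 1) g else 0))
  have h0 : Function.Injective (F 0) := by
    rw [← LinearMap.ker_eq_bot, LinearMap.ker_eq_bot']
    rintro ⟨x, a⟩ hx
    have hx' : D 0 x + a • D 1 g = 0 := by
      have : D 0 x + a • (if 0 < N + 1 then D (0 + 1) g else 0) = 0 := hx
      rwa [if_pos (Nat.succ_pos N), zero_add] at this
    have ha : a = 0 := by
      by_contra ha
      apply hg1
      refine ⟨-(a⁻¹ • (x : S)), ?_⟩
      rw [map_neg, map_smul, eq_neg_of_add_eq_zero_left hx', smul_neg, neg_neg, smul_smul,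
        inv_mul_cancel₀ ha, one_smul]
    subst ha
    have h1 : (x : S) ∈ LinearMap.ker (D 0) ⊓ C := ⟨by simpa using hx', x.2⟩
    rw [hC.inf_eq_bot, Submodule.mem_bot] at h1
    exact Prod.ext (Subtype.ext h1) rfl
  have hX : GenC fun c : k => c ≠ 0 := ⟨{0}, fun c hc => by simpa using hc⟩
  refine ((gen_injective' (N + 1) F h0).and hX).mono fun c hc => ?_
  obtain ⟨hc, hc0⟩ := hc
  set K := LinearMap.ker (pf (N + 2) D c) with hK
  -- `C + k g` meets `K` trivially
  have hval : ∀ (x : C) (a : k), pf (N + 2) D c ((x : S) + a • g) =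
      pf (N + 1 + 1) F c (x, c * a) := by
    intro x a
    rw [pf_apply, pf_apply]
    simp only [map_add (D _), map_smul (D _)]
    have e1 : ∑ n ∈ Finset.range (N + 2), c ^ n • (D n (x : S) + a • D n g) =
        ∑ n ∈ Finset.range (N + 2), c ^ n • D n (x : S) +
          ∑ n ∈ Finset.range (N + 2), (c ^ n * a) • D n g := by
      rw [← Finset.sum_add_distrib]
      refine Finset.sum_congr rfl fun n _ => ?_
      rw [smul_add, smul_smul]
    have e2 : ∑ n ∈ Finset.range (N + 1 + 1), c ^ n • F n (x, c * a) =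
        ∑ n ∈ Finset.range (N + 2), c ^ n • D n (x : S) +
          ∑ n ∈ Finset.range (N + 1 + 1),
            (c ^ n * (c * a)) • (if n < N + 1 then D (n + 1) g else 0) := by
      rw [← Finset.sum_add_distrib]
      refine Finset.sum_congr rfl fun n _ => ?_
      change c ^ n • (D n (x : S) + (c * a) • (if n < N + 1 then D (n + 1) g else 0)) = _
      rw [smul_add, smul_smul]
    rw [e1, e2]
    congr 1
    rw [Finset.sum_range_succ' _ (N + 1), hg, smul_zero, add_zero,
      Finset.sum_range_succ _ (N + 1), if_neg (lt_irrefl _), smul_zero, add_zero]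
    refine Finset.sum_congr rfl fun n hn => ?_
    rw [if_pos (Finset.mem_range.mp hn)]
    congr 1
    ring
  have hdisj : K ⊓ (C ⊔ Submodule.span k {g}) = ⊥ := by
    rw [eq_bot_iff]
    rintro s ⟨hx1, hx2⟩
    obtain ⟨x, hx, y, hy, rfl⟩ := Submodule.mem_sup.mp hx2
    obtain ⟨a, rfl⟩ := Submodule.mem_span_singleton.mp hy
    have h3 : pf (N + 2) D c (x + a • g) = 0 := hx1
    rw [hval ⟨x, hx⟩ a] at h3
    have h4 := hc (h3.trans (map_zero _).symm)
    have h5 := congrArg Prod.fst h4
    have h6 : x = 0 := congrArg Subtype.val h5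
    have h7 : c * a = 0 := congrArg Prod.snd h4
    have h8 : a = 0 := by
      rcases mul_eq_zero.mp h7 with h | h
      · exact absurd h hc0
      · exact h
    rw [h6, h8]; simp
  have hCg : finrank k (C ⊔ Submodule.span k {g} : Submodule k S) = finrank k C + 1 := by
    have hg0 : g ≠ 0 := by
      rintro rfl
      exact hg1 ⟨0, by simp⟩
    have hd : C ⊓ Submodule.span k {g} = ⊥ := by
      rw [eq_bot_iff]
      rintro s ⟨h1, h2⟩
      obtain ⟨a, rfl⟩ := Submodule.mem_span_singleton.mp h2
      have h3 : a • g ∈ LinearMap.ker (D 0) ⊓ C := ⟨by simp [hg], h1⟩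
      rw [hC.inf_eq_bot] at h3
      exact h3
    have h := Submodule.finrank_sup_add_finrank_inf_eq C (Submodule.span k {g})
    rw [hd, finrank_bot, add_zero, finrank_span_singleton hg0] at h
    exact h
  have h5 := Submodule.finrank_sup_add_finrank_inf_eq K (C ⊔ Submodule.span k {g})
  rw [hdisj, finrank_bot, add_zero, hCg] at h5
  have h6 := Submodule.finrank_le (K ⊔ (C ⊔ Submodule.span k {g}))
  have h7 := Submodule.finrank_add_eq_of_isCompl hC
  omega

end poly

section term

variable {k : Type*} [Field k] [CharZero k] {κ : Type*} {T : Type*} [AddCommGroup T] [Module k T]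
variable {P : Type*} [AddCommGroup P] [Module k P]

/-- the move `∑_(n < 7) c ^ n / n! E ^ n` -/
def Mvx (E : P →ₗ[k] P →ₗ[k] P →ₗ[k] Module.End k (κ → k)) (x y z : P) (c : k) :
    Module.End k (κ → k) :=
  ∑ n ∈ Finset.range 7, c ^ n • (((n.factorial : k)⁻¹) • (E x y z) ^ n)

variable [FiniteDimensional k T]

/-- **Termination step**, for the full exponential -/
theorem gen_meas_lt' (deg : κ → ℕ) (hdeg : ∀ a, deg a ≤ 6)
    (E : P →ₗ[k] P →ₗ[k] P →ₗ[k] Module.End k (κ → k)) (hE : Hom1 deg E)
    (H1 : ∀ j, j ≤ 4 → ∀ u : κ → k, (∀ a, deg a ≠ j → u a = 0) → u ≠ 0 →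
      ∃ x y z, E x y z u ≠ 0)
    (H2 : ∀ u : κ → k, (∀ a, deg a ≠ 5 → u a = 0) → u ≠ 0 → ∀ A : Submodule k (κ → k),
      finrank k A ≤ 4 → ∃ x y z, E x y z u ∉ A)
    (H3 : ∀ x y z (u : κ → k), (∀ a, deg a ≠ 4 → u a = 0) → E x y z (E x y z u) = 0)
    (i : T →ₗ[k] (κ → k)) (hi : Function.Injective i)
    (hT : 4 < finrank k T)
    (hr : finrank k (LinearMap.range (prj k (fun a => 5 < deg a) ∘ₗ i)) ≤ 4) :
    GenK (k := k) fun x => GenK (k := k) fun y => GenK (k := k) fun z => GenC fun c =>
      meas deg (Mvx E x y z c ∘ₗ i) < meas deg i := by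
  classical
  set D0 := prj k (fun a => 5 < deg a) ∘ₗ i with hD0
  -- the coefficients of the degree 6 part of the moved map
  let D : P → P → P → ℕ → (T →ₗ[k] (κ → k)) := fun x y z n =>
    ((n.factorial : k)⁻¹) • (prj k (fun a => 5 < deg a) ∘ₗ ((E x y z) ^ n) ∘ₗ i)
  have hDz : ∀ x y z, D x y z 0 = D0 := by
    intro x y z
    ext g a
    simp [D, hD0]
  have hD : ∀ x y z c, prj k (fun a => 5 < deg a) ∘ₗ (Mvx E x y z c ∘ₗ i) =
      pf 7 (D x y z) c := by
    intro x y z c
    apply LinearMap.ext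
    intro g
    rw [pf_apply]
    simp only [D, Mvx, LinearMap.comp_apply, LinearMap.sum_apply, LinearMap.smul_apply, map_sum,
      map_smul]
  have hker : finrank k (LinearMap.range D0) + finrank k (LinearMap.ker D0) = finrank k T :=
    LinearMap.finrank_range_add_finrank_ker D0
  -- `E ^ 2` has no component of top degree
  have hEE : ∀ x y z (v : κ → k) (e : κ), deg e = 6 → E x y z (E x y z v) e = 0 := by
    intro x y z v e he6
    let u4 : κ → k := prj k (fun b => deg b = 4) v
    have h3 : E x y z (E x y z u4) = 0 := H3 x y z u4 fun b' hb' => by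
      change prj k (fun b => deg b = 4) v b' = 0
      rw [prj_apply, if_neg hb']
    have h4 : E x y z (E x y z (v - u4)) e = 0 := hE x y z _ e fun b' hb' =>
      hE x y z _ b' fun b'' hb'' => by
        rw [Pi.sub_apply]
        change v b'' - prj k (fun b => deg b = 4) v b'' = 0
        rw [prj_apply, if_pos (by omega), sub_self]
    rw [map_sub, map_sub, Pi.sub_apply, h3] at h4
    simpa using h4
  by_cases hJ : Kf deg i 4 = Kf deg i 5
  · -- raise the top degree
    obtain ⟨J, hJmin⟩ : ∃ J, J ≤ 4 ∧ Kf deg i J = Kf deg i 5 ∧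
        ∀ j, j < J → Kf deg i j ≠ Kf deg i 5 := by
      have hex : ∃ j, Kf deg i j = Kf deg i 5 := ⟨4, hJ⟩
      exact ⟨Nat.find hex, Nat.find_min' hex hJ, Nat.find_spec hex, fun j hj => Nat.find_min hex hj⟩
    obtain ⟨hJ4, hJeq, hJlt⟩ := hJmin
    have hne : Kf deg i 5 ≠ ⊥ := by
      intro h0
      have : finrank k (LinearMap.ker D0) = 0 := by
        rw [← Kf_five_eq_ker, h0, finrank_bot]
      omega
    -- a vector with a component of degree exactly `J`
    obtain ⟨g, hg5, a, ha, hga⟩ : ∃ g ∈ Kf deg i 5, ∃ a, deg a = J ∧ i g a ≠ 0 := by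
      rcases Nat.eq_zero_or_pos J with h0 | hpos
      · obtain ⟨g, hg, hg0⟩ := Submodule.exists_mem_ne_zero_of_ne_bot hne
        have h1 : i g ≠ 0 := fun h => hg0 (hi (h.trans (map_zero i).symm))
        obtain ⟨a, ha⟩ := Function.ne_iff.mp h1
        refine ⟨g, hg, a, ?_, ha⟩
        by_contra hne'
        rw [← hJeq] at hg
        exact ha (hg a (by omega))
      · have h1 := hJlt (J - 1) (by omega)
        have h2 : Kf deg i (J - 1) ≤ Kf deg i 5 := Kf_mono (by omega)
        obtain ⟨g, hg, hg'⟩ := SetLike.exists_of_lt (lt_of_le_of_ne h2 h1)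
        have h3 : ¬ ∀ a, J - 1 < deg a → i g a = 0 := hg'
        push Not at h3
        obtain ⟨a, ha, hga⟩ := h3
        refine ⟨g, hg, a, ?_, hga⟩
        by_contra hne'
        rw [← hJeq] at hg
        exact hga (hg a (by omega))
    have hgJ : ∀ b, J < deg b → i g b = 0 := by
      rw [← hJeq] at hg5; exact hg5
    let uJ : κ → k := prj k (fun b => deg b = J) (i g)
    have huJ : ∀ b, deg b ≠ J → uJ b = 0 := fun b hb => by
      change prj k (fun b => deg b = J) (i g) b = 0
      rw [prj_apply, if_neg hb]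
    have huJ' : ∀ b, deg b = J → uJ b = i g b := fun b hb => by
      change prj k (fun b => deg b = J) (i g) b = _
      rw [prj_apply, if_pos hb]
    have huJ0 : uJ ≠ 0 := fun h => hga (by rw [← huJ' a ha, h]; rfl)
    let ψ : P →ₗ[k] P →ₗ[k] P →ₗ[k] (κ → k) :=
      E.compr₂ (LinearMap.compRight k (LinearMap.applyₗ uJ))
    have hψ : ∀ x y z, ψ x y z = E x y z uJ := fun x y z => rfl
    obtain ⟨x0, y0, z0, h0⟩ := H1 J hJ4 uJ huJ huJ0
    refine (gen_trilinear ψ ⟨x0, y0, z0, h0⟩).mono fun x hx => hx.mono fun y hy =>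
      hy.mono fun z hz => ?_
    rw [hψ] at hz
    obtain ⟨b, hb⟩ := Function.ne_iff.mp hz
    have hbJ : deg b = J + 1 := by
      by_contra hne'
      exact hb (hE x y z uJ b fun b' hb' => huJ b' (by omega))
    -- the component `b` of the moved vector
    have hEb : E x y z (i g) b = E x y z uJ b := by
      have h1 : E x y z (i g - uJ) b = 0 := hE x y z _ b fun b' hb' => by
        rw [Pi.sub_apply, huJ' b' (by omega), sub_self]
      rw [map_sub, Pi.sub_apply, sub_eq_zero] at h1
      exact h1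
    have hgenb : GenC fun c : k => Mvx E x y z c (i g) b ≠ 0 := by
      let p : Polynomial k := ∑ n ∈ Finset.range 7,
        Polynomial.C ((n.factorial : k)⁻¹ * ((E x y z) ^ n) (i g) b) * Polynomial.X ^ n
      have hp : p ≠ 0 := by
        intro h
        have := congrArg (fun q => Polynomial.coeff q 1) h
        simp only [p, Polynomial.finsetSum_coeff, Polynomial.coeff_C_mul,
          Polynomial.coeff_X_pow, Polynomial.coeff_zero, mul_ite, mul_one, mul_zero] at this
        rw [Finset.sum_ite_eq] at this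
        simp at this
        exact hb (by rw [← hEb]; exact this)
      refine (GenC.of_poly p hp).mono fun c hc => ?_
      intro h
      apply hc
      rw [← h]
      simp only [p, Polynomial.eval_finsetSum, Polynomial.eval_mul, Polynomial.eval_C,
        Polynomial.eval_pow, Polynomial.eval_X, Mvx, LinearMap.sum_apply, LinearMap.smul_apply,
        Finset.sum_apply, Pi.smul_apply, smul_eq_mul]
      refine Finset.sum_congr rfl fun n _ => ?_
      ring
    have hgenr := gen_finrank_ker_le' 6 (D x y z)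
    refine (hgenb.and hgenr).mono fun c hc => ?_
    obtain ⟨hc1, hc2⟩ := hc
    set i' := Mvx E x y z c ∘ₗ i with hi'
    have hfin : finrank k (Kf deg i' 5) ≤ finrank k (Kf deg i 5) := by
      rw [Kf_five_eq_ker, Kf_five_eq_ker, hi', hD, ← hD0, ← hDz x y z]; exact hc2
    -- `g` is in `K'_5`
    have hg5' : g ∈ Kf deg i' 5 := by
      intro e he
      have he6 : deg e = 6 := by have := hdeg e; omega
      change Mvx E x y z c (i g) e = 0
      rw [Mvx, LinearMap.sum_apply, Finset.sum_apply]
      refine Finset.sum_eq_zero fun n _ => ?_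
      simp only [LinearMap.smul_apply, Pi.smul_apply]
      have hz0 : ((E x y z) ^ n) (i g) e = 0 := by
        match n with
        | 0 => simpa using hg5 e he
        | 1 =>
          rw [pow_one]
          exact hE x y z _ e fun b' hb' => hgJ b' (by omega)
        | n + 2 =>
          rw [show n + 2 = (n + 1) + 1 from rfl, pow_succ', pow_succ']
          exact hEE x y z _ e he6
      rw [hz0, smul_zero, smul_zero]
    have hgJ' : g ∉ Kf deg i' J := fun h => hc1 (h b (by omega))
    have hh : hgt deg i' < hgt deg i := by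
      have e1 : hgt deg i' ≤ ((Finset.range 5).filter fun j => J < j).card := by
        apply Finset.card_le_card
        intro j hj
        rw [Finset.mem_filter] at hj ⊢
        refine ⟨hj.1, ?_⟩
        by_contra hle
        apply hgJ'
        have h1 : g ∈ Kf deg i' j := by rw [hj.2]; exact hg5'
        exact Kf_mono (by omega) h1
      have e2 : ((Finset.range 5).filter fun j => J ≤ j).card ≤ hgt deg i := by
        apply Finset.card_le_card
        intro j hj
        rw [Finset.mem_filter, Finset.mem_range] at hj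
        rw [Finset.mem_filter, Finset.mem_range]
        refine ⟨hj.1, le_antisymm (Kf_mono (by omega)) ?_⟩
        rw [← hJeq]
        exact Kf_mono hj.2
      have e3 : ((Finset.range 5).filter fun j => J < j).card <
          ((Finset.range 5).filter fun j => J ≤ j).card := by
        apply Finset.card_lt_card
        refine ⟨fun j hj => ?_, fun hsub => ?_⟩
        · rw [Finset.mem_filter] at hj ⊢; exact ⟨hj.1, hj.2.le⟩
        · have h1 : J ∈ (Finset.range 5).filter fun j => J ≤ j := by
            rw [Finset.mem_filter, Finset.mem_range]; exact ⟨by omega, le_rfl⟩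
          have h2 := hsub h1
          rw [Finset.mem_filter] at h2
          exact lt_irrefl _ h2.2
      omega
    unfold meas
    omega
  · -- raise the rank
    have h2 : Kf deg i 4 ≤ Kf deg i 5 := Kf_mono (by omega)
    obtain ⟨g, hg5, hg4⟩ := SetLike.exists_of_lt (lt_of_le_of_ne h2 hJ)
    have h3 : ¬ ∀ a, 4 < deg a → i g a = 0 := hg4
    push Not at h3
    obtain ⟨a, ha, hga⟩ := h3
    have ha5 : deg a = 5 := by
      by_contra hne'
      exact hga (hg5 a (by omega))
    let u5 : κ → k := prj k (fun b => deg b = 5) (i g)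
    have hu5 : ∀ b, deg b ≠ 5 → u5 b = 0 := fun b hb => by
      change prj k (fun b => deg b = 5) (i g) b = 0
      rw [prj_apply, if_neg hb]
    have hu5' : ∀ b, deg b = 5 → u5 b = i g b := fun b hb => by
      change prj k (fun b => deg b = 5) (i g) b = _
      rw [prj_apply, if_pos hb]
    have hu50 : u5 ≠ 0 := fun h => hga (by rw [← hu5' a ha5, h]; rfl)
    let A := LinearMap.range D0
    obtain ⟨x0, y0, z0, h0⟩ := H2 u5 hu5 hu50 A hr
    let ψ : P →ₗ[k] P →ₗ[k] P →ₗ[k] ((κ → k) ⧸ A) :=
      E.compr₂ (LinearMap.compRight k (A.mkQ ∘ₗ LinearMap.applyₗ u5))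
    have hψ : ∀ x y z, ψ x y z = A.mkQ (E x y z u5) := fun x y z => rfl
    refine (gen_trilinear ψ ⟨x0, y0, z0, ?_⟩).mono fun x hx => hx.mono fun y hy =>
      hy.mono fun z hz => ?_
    · rw [hψ]; intro h; exact h0 ((Submodule.Quotient.mk_eq_zero A).mp h)
    have hz' : E x y z u5 ∉ A := by
      intro h; apply hz; rw [hψ]; exact (Submodule.Quotient.mk_eq_zero A).mpr h
    have hE5 : D x y z 1 g = E x y z u5 := by
      funext e
      simp only [D, Nat.factorial_one, Nat.cast_one, inv_one, one_smul, pow_one,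
        LinearMap.comp_apply, prj_apply]
      split_ifs with he
      · have h1 : E x y z (i g - u5) e = 0 := hE x y z _ e fun b' hb' => by
          have := hdeg e
          rw [Pi.sub_apply, hu5' b' (by omega), sub_self]
        rw [map_sub, Pi.sub_apply, sub_eq_zero] at h1
        exact h1
      · exact (hE x y z _ e fun b' hb' => hu5 b' (by omega)).symm
    have hgD : D x y z 0 g = 0 := by
      have : g ∈ LinearMap.ker D0 := by rw [← Kf_five_eq_ker]; exact hg5
      rw [hDz]
      exact this
    have hgenr := gen_finrank_ker_lt' 5 (D x y z) g hgD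
      (by rw [hE5, hDz]; exact hz')
    refine hgenr.mono fun c hc => ?_
    have hfin : finrank k (Kf deg (Mvx E x y z c ∘ₗ i) 5) < finrank k (Kf deg i 5) := by
      rw [Kf_five_eq_ker, Kf_five_eq_ker, hD, ← hD0, ← hDz x y z]; exact hc
    have hh : hgt deg (Mvx E x y z c ∘ₗ i) ≤ 5 := by
      unfold hgt
      exact (Finset.card_filter_le _ _).trans (by simp)
    unfold meas
    omega

end term

end Pool.Agent.Licci
end

end

section

/-!
# LICCI, codimension 4: the hypotheses of the termination step (helper43)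

`E x y z = ad (x ∧ y ∧ z)`; degree of the `m`-th basis vector = `z`-degree `+ 3`.
-/

set_option linter.unusedSectionVars false

noncomputable section

namespace Pool.Agent.Licci

open scoped BigOperators
open Module

variable {A : Type*} [CommRing A]

/-! ### `x ∧ y ∧ z` is trilinear -/

theorem tri_add_left (x x' y z : Vec A) : tri (x + x') y z = tri x y z + tri x' y z := by
  simp only [tri, ← Finset.sum_add_distrib, ← add_smul, Pi.add_apply]
  refine Finset.sum_congr rfl fun i _ => Finset.sum_congr rfl fun j _ =>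
    Finset.sum_congr rfl fun k _ => ?_
  congr 1
  ring

theorem tri_smul_left (c : A) (x y z : Vec A) : tri (c • x) y z = c • tri x y z := by
  simp only [tri, Finset.smul_sum, smul_smul, Pi.smul_apply, smul_eq_mul]
  refine Finset.sum_congr rfl fun i _ => Finset.sum_congr rfl fun j _ =>
    Finset.sum_congr rfl fun k _ => ?_
  congr 1
  ring

theorem tri_add_mid (x y y' z : Vec A) : tri x (y + y') z = tri x y z + tri x y' z := by
  simp only [tri, ← Finset.sum_add_distrib, ← add_smul, Pi.add_apply]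
  refine Finset.sum_congr rfl fun i _ => Finset.sum_congr rfl fun j _ =>
    Finset.sum_congr rfl fun k _ => ?_
  congr 1
  ring

theorem tri_smul_mid (c : A) (x y z : Vec A) : tri x (c • y) z = c • tri x y z := by
  simp only [tri, Finset.smul_sum, smul_smul, Pi.smul_apply, smul_eq_mul]
  refine Finset.sum_congr rfl fun i _ => Finset.sum_congr rfl fun j _ =>
    Finset.sum_congr rfl fun k _ => ?_
  congr 1
  ring

theorem tri_add_right (x y z z' : Vec A) : tri x y (z + z') = tri x y z + tri x y z' := by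
  simp only [tri, ← Finset.sum_add_distrib, ← add_smul, Pi.add_apply]
  refine Finset.sum_congr rfl fun i _ => Finset.sum_congr rfl fun j _ =>
    Finset.sum_congr rfl fun k _ => ?_
  congr 1
  ring

theorem tri_smul_right (c : A) (x y z : Vec A) : tri x y (c • z) = c • tri x y z := by
  simp only [tri, Finset.smul_sum, smul_smul, Pi.smul_apply, smul_eq_mul]
  refine Finset.sum_congr rfl fun i _ => Finset.sum_congr rfl fun j _ =>
    Finset.sum_congr rfl fun k _ => ?_
  congr 1
  ring

/-- `x ∧ y ∧ z` as a trilinear map -/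
def triL : Vec A →ₗ[A] Vec A →ₗ[A] Vec A →ₗ[A] E8 A :=
  LinearMap.mk₂ A (fun x y =>
    { toFun := fun z => tri x y z
      map_add' := tri_add_right x y
      map_smul' := fun c z => tri_smul_right c x y z })
    (fun x x' y => LinearMap.ext fun z => tri_add_left x x' y z)
    (fun c x y => LinearMap.ext fun z => tri_smul_left c x y z)
    (fun x y y' => LinearMap.ext fun z => tri_add_mid x y y' z)
    (fun c x y => LinearMap.ext fun z => tri_smul_mid c x y z)

@[simp] theorem triL_apply (x y z : Vec A) : triL x y z = tri x y z := rfl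

/-- `ad (x ∧ y ∧ z)` -/
def EL : Vec A →ₗ[A] Vec A →ₗ[A] Vec A →ₗ[A] Module.End A (Fin 248 → A) :=
  triL.compr₂ (LinearMap.compRight A brL)

@[simp] theorem EL_apply (x y z : Vec A) (u : Fin 248 → A) : EL x y z u = br (tri x y z) u := by
  unfold EL
  rw [LinearMap.compr₂_apply]
  rfl

theorem tri_single (i j k : Fin 8) :
    tri (Pi.single i (1 : A)) (Pi.single j 1) (Pi.single k 1) = T i j k := by
  unfold tri
  rw [Finset.sum_eq_single i]
  · rw [Finset.sum_eq_single j]
    · rw [Finset.sum_eq_single k]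
      · simp
      · intro b _ hb
        simp [hb]
      · intro h
        exact absurd (Finset.mem_univ _) h
    · intro b _ hb
      refine Finset.sum_eq_zero fun k' _ => ?_
      simp [hb]
    · intro h
      exact absurd (Finset.mem_univ _) h
  · intro b _ hb
    refine Finset.sum_eq_zero fun j' _ => Finset.sum_eq_zero fun k' _ => ?_
    simp [hb]
  · intro h
    exact absurd (Finset.mem_univ _) h

/-! ### degrees -/

/-- degree of a basis vector, shifted -/
def dgE (m : Fin 248) : ℕ := (zdg m + 3).toNat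

set_option maxRecDepth 100000 in
theorem zdg_chk : ∀ m : Fin 248, -3 ≤ zdg m ∧ zdg m ≤ 3 ∧ (zdg m = 3 → (m : ℕ) < 8) ∧
    (zdg m = 2 → 8 ≤ (m : ℕ) ∧ (m : ℕ) < 36) ∧ (zdg m ≤ 1 → 36 ≤ (m : ℕ)) ∧
    (36 ≤ (m : ℕ) → (m : ℕ) < 92 → zdg m = 1) ∧ (240 ≤ (m : ℕ) → zdg m = 0) := by
  decide +kernel

theorem dgE_eq_iff (m : Fin 248) (d : ℤ) (hd : -3 ≤ d) : dgE m = (d + 3).toNat ↔ zdg m = d := by
  have := (zdg_chk m).1
  unfold dgE
  omega

theorem dgE_le (m : Fin 248) : dgE m ≤ 6 := by
  have := zdg_chk m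
  unfold dgE
  omega


/-- brackets with the root vectors of degree `1` -/
def oneck (n c : ℕ) : Bool := (sp n c).all (fun p => decide (zdN p.1 = zdN c + 1))

set_option maxRecDepth 100000 in
theorem one_chk : (List.range 56).all (fun n => (List.range 248).all
    (fun c => oneck (36 + n) c)) = true := by decide +kernel


theorem sc_one {n c m : Fin 248} (h1 : 36 ≤ (n : ℕ)) (h2 : (n : ℕ) < 92) (h : sc n c m ≠ 0) :
    zdg c + 1 = zdg m := by
  have e1 := all_range one_chk (i := (n : ℕ) - 36) (by omega)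
  have e2 := all_range e1 (i := (c : ℕ)) c.2
  have e3 : 36 + ((n : ℕ) - 36) = n := by omega
  simp only [e3, oneck, List.all_eq_true, decide_eq_true_eq] at e2
  by_contra hc
  apply h
  refine cf_eq_zero_of_notMem _ _ fun p hp hl => hc ?_
  have e4 := e2 p hp
  rw [hl] at e4
  exact e4.symm

theorem br_T_deg (i j k : Fin 8) (u : E8 A) (a : Fin 248)
    (h : ∀ b, dgE b + 1 = dgE a → u b = 0) : br (T i j k) u a = 0 := by
  refine alt3_zero (fun i j k => br (T i j k) u a) ?_ ?_ ?_ ?_ i j k
  · intro i j k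
    rw [T_swap i j k, br_neg_left, Pi.neg_apply]
  · intro i j k
    rw [T_swap' i j k, br_neg_left, Pi.neg_apply]
  · intro i k
    rw [T_self, br_zero_left, Pi.zero_apply]
  · intro i j k h1 h2
    have hr := i1_rng i j k h1 h2
    unfold T
    rw [br_smul_left, Pi.smul_apply, br_eb_left]
    rw [Finset.sum_eq_zero, smul_zero]
    intro c _
    by_cases hs : sc (i1 i j k) c a = 0
    · rw [hs]
      simp
    · have h3 := sc_one hr.1 hr.2 hs
      have h4 := (zdg_chk c).1
      rw [h c (by unfold dgE; omega), mul_zero]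

theorem br_tri_deg (x y z : Vec A) (u : E8 A) (a : Fin 248)
    (h : ∀ b, dgE b + 1 = dgE a → u b = 0) : br (tri x y z) u a = 0 := by
  rw [br_tri_apply]
  refine Finset.sum_eq_zero fun i _ => Finset.sum_eq_zero fun j _ =>
    Finset.sum_eq_zero fun k _ => ?_
  rw [br_T_deg i j k u a h, mul_zero]

/-- `[x ∧ y ∧ z, [x ∧ y ∧ z, Y]]` has no component of degree `3` -/
theorem p3_tri_tri (x y z : Vec A) (Y : E8 A) : p3 (br (tri x y z) (br (tri x y z) Y)) = 0 := by
  have h1 : om (br (tri x y z) Y) x z = 0 := om_tri x y z Y z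
  have h2 : om (br (tri x y z) Y) x y = 0 := om_tri x y z Y y
  have h3 : om (br (tri x y z) Y) y z = 0 := by
    rw [tri_swap_left, br_neg_left, ← neg_one_smul A (br (tri y x z) Y)]
    have h4 := om_tri y x z Y z
    simp only [om, w2, Pi.smul_apply, smul_eq_mul] at h4 ⊢
    have h5 : ∑ i, ∑ j, (ep2 i j : A) * (-1 * br (tri y x z) Y (i2 i j)) * (y i * z j) =
        - ∑ i, ∑ j, (ep2 i j : A) * br (tri y x z) Y (i2 i j) * (y i * z j) := by
      rw [← Finset.sum_neg_distrib]
      refine Finset.sum_congr rfl fun i _ => ?_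
      rw [← Finset.sum_neg_distrib]
      refine Finset.sum_congr rfl fun j _ => ?_
      ring
    rw [h5, h4, neg_zero]
  rw [p3_tri, h1, h2, h3]
  simp

theorem H3E (x y z : Vec A) (u : E8 A) (hu : ∀ a, dgE a ≠ 4 → u a = 0) :
    br (tri x y z) (br (tri x y z) u) = 0 := by
  funext a
  by_cases ha : zdg a = 3
  · have h1 := (zdg_chk a).2.2.1 ha
    have h2 := congrFun (p3_tri_tri x y z u) ⟨a, h1⟩
    have h3 : ix ((⟨a, h1⟩ : Fin 8) : ℕ) = a := Fin.ext (ix_val a.2)
    simp only [p3] at h2
    rw [h3] at h2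
    exact h2
  · refine br_tri_deg x y z _ a fun b hb => br_tri_deg x y z u b fun c hc => hu c ?_
    have h4 := (zdg_chk a).1
    have h5 := (zdg_chk b).1
    have h6 := (zdg_chk c).1
    unfold dgE at hb hc ⊢
    omega

/-! ### faithfulness in degrees at most one -/

set_option maxRecDepth 100000 in
theorem pick_chk : ∀ m : Fin 248, 36 ≤ (m : ℕ) → (m : ℕ) < 240 → ∃ i j k : Fin 8, i < j ∧ j < k ∧
    fnd (cd (i1 i j k) + cd m) < 240 := by
  decide +kernel

theorem fnd_off : ¬ fnd (off + off) < 240 := by decide +kernel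

/-- the bracket of two roots whose sum is a root -/
theorem scN_root {i j : ℕ} (hi : i < 240) (hj : j < 240) (h : fnd (cd i + cd j) < 240) :
    scN i j (fnd (cd i + cd j)) = 1 ∨ scN i j (fnd (cd i + cd j)) = -1 := by
  have b1 : Nat.blt i 240 = true := by simpa [Nat.blt_eq] using hi
  have b2 : Nat.blt j 240 = true := by simpa [Nat.blt_eq] using hj
  have b3 : Nat.blt (fnd (Nat.add (cd i) (cd j))) 240 = true := by
    simpa [Nat.blt_eq] using h
  unfold scN sp
  simp only [b1, b2, b3, cond_true]
  cases h6 : sgB i j with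
  | true =>
    right
    simp only [cond_true]
    rw [cf_cons, cf_nil]
    simp
  | false =>
    left
    simp only [cond_false]
    rw [cf_cons, cf_nil]
    simp

variable {k : Type*} [Field k]

theorem eb_of_T {i j l : Fin 8} (h1 : i < j) (h2 : j < l) {u : E8 k} (h : br (T i j l) u = 0) :
    br (eb (i1 i j l)) u = 0 := by
  unfold T at h
  rw [br_smul_left, ep3_of_lt h1 h2, mul_one] at h
  have hs : ((sg3 i j l : ℤ) : k) * ((sg3 i j l : ℤ) : k) = 1 := by
    rw [← Int.cast_mul, sg3_sq, Int.cast_one]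
  have h3 := congrArg (fun v => (((-sg3 i j l : ℤ)) : k) • v) h
  simp only [smul_smul, smul_zero] at h3
  have h4 : (((-sg3 i j l : ℤ)) : k) * (((-sg3 i j l : ℤ)) : k) = 1 := by
    push_cast
    linear_combination hs
  rwa [h4, one_smul] at h3

theorem root_zero {u : E8 k} (h : ∀ x y z : Vec k, br (tri x y z) u = 0) (m : Fin 248)
    (h1 : 36 ≤ (m : ℕ)) (h2 : (m : ℕ) < 240) : u m = 0 := by
  obtain ⟨i, j, l, hij, hjl, hf⟩ := pick_chk m h1 h2
  have hr := i1_rng i j l hij hjl
  have h3 : br (T i j l) u = 0 := by rw [← tri_single]; exact h _ _ _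
  have h4 := eb_of_T hij hjl h3
  set n := i1 i j l with hn
  have hc : fnd (cd n + cd m) < 248 := by omega
  have e1 : cd (fnd (cd n + cd m)) + off = cd n + cd m := fnd_spec hf
  have e2 : (m : ℕ) = fnd (cd ((⟨fnd (cd n + cd m), hc⟩ : Fin 248) : ℕ) + off + off - cd n) := by
    change (m : ℕ) = fnd (cd (fnd (cd n + cd m)) + off + off - cd n)
    rw [show cd (fnd (cd n + cd m)) + off + off - cd n = cd m + off by omega, fnd_cd h2]
  have e3 : n ≠ (⟨fnd (cd n + cd m), hc⟩ : Fin 248) := by
    intro h5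
    have h6 : cd n = cd (fnd (cd n + cd m)) := congrArg (fun t : Fin 248 => cd t) h5
    have h7 : cd m = off := by omega
    have h8 := fnd_cd h2
    rw [h7] at h8
    exact fnd_off (by omega)
  have e4 := br_eb_left_of (n := n) (c := m) (m := ⟨fnd (cd n + cd m), hc⟩) (by omega) hf e3 e2 u
  rw [h4, Pi.zero_apply] at e4
  have e5 : sc n m ⟨fnd (cd n + cd m), hc⟩ = 1 ∨ sc n m ⟨fnd (cd n + cd m), hc⟩ = -1 :=
    scN_root (by omega) h2 hf
  rcases e5 with e5 | e5
  · rw [e5] at e4
    simpa using e4.symm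
  · rw [e5] at e4
    simpa using e4.symm

/-- eight roots of degree `1` -/
def tt : List (Fin 8 × Fin 8 × Fin 8) :=
  [(0, 2, 5), (1, 5, 6), (1, 3, 7), (2, 3, 4), (3, 4, 7), (1, 6, 7), (1, 2, 5), (0, 4, 6)]

/-- the inverse of the matrix of their pairings with the simple coroots -/
def CC : List (List ℤ) := [[1, 0, 1, 0, 0, 0, 0, 1], [1, 0, 2, 0, 0, 0, 1, 2],
  [2, 0, 2, 1, 0, 1, 1, 2], [3, 1, 3, 2, 0, 1, 0, 2], [3, 1, 3, 2, 1, 1, 1, 3],
  [2, 1, 2, 1, 1, 0, 1, 2], [1, 1, 1, 1, 0, 0, 0, 1], [2, 1, 1, 1, 1, 1, 0, 1]]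

/-- the `t`-th of the eight roots -/
def tI (t : Fin 8) : Fin 8 × Fin 8 × Fin 8 := tt.getD t (0, 0, 0)

/-- entries of `CC` -/
def cI (q t : Fin 8) : ℤ := (CC.getD q []).getD t 0

set_option maxRecDepth 100000 in
theorem car_chk : (∀ t : Fin 8, (tI t).1 < (tI t).2.1 ∧ (tI t).2.1 < (tI t).2.2) ∧
    ∀ q q' : Fin 8, ∑ t : Fin 8, cI q t * prN (i1 (tI t).1 (tI t).2.1 (tI t).2.2) q' =
      if q = q' then 1 else 0 := by
  decide +kernel

/-- the `q`-th Cartan index -/
def cq (q : Fin 8) : Fin 248 := ⟨240 + q, by omega⟩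

theorem br_eb_cartan (n : Fin 248) (hn : (n : ℕ) < 240) (u : E8 k) :
    br (eb n) u n = ∑ q : Fin 8, (((- prN n q : ℤ)) : k) * u (cq q) := by
  rw [br_eb_left]
  have h1 : ∀ c : Fin 248, (c : ℕ) < 240 → (sc n c n : k) * u c = 0 := by
    intro c hc
    have h2 : sc n c n = 0 := by
      by_contra hs
      have h3 := scN_wt n.2 c.2 hs
      have h4 : cd c = off := by omega
      have h5 := fnd_cd hc
      rw [h4] at h5
      exact fnd_off (by omega)
    rw [h2]
    simp
  have h6 : ∀ q : Fin 8, sc n (cq q) n = - prN n q := by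
    intro q
    have h7 : sp (n : ℕ) (240 + q) = [((n : ℕ), -prN n (240 + q - 240))] :=
      sp_cartan_right hn (by omega)
    change cf (sp (n : ℕ) (240 + q)) n = _
    rw [h7, cf_cons, cf_nil, if_pos rfl, add_zero, Nat.add_sub_cancel_left]
  have h8 : ∑ c : Fin 248, (sc n c n : k) * u c = ∑ q : Fin 8, (sc n (cq q) n : k) * u (cq q) := by
    symm
    rw [← Finset.sum_image (s := Finset.univ) (g := cq) (f := fun c => (sc n c n : k) * u c)]
    · apply Finset.sum_subset (Finset.subset_univ _)
      intro c _ hc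
      apply h1
      by_contra hge
      apply hc
      rw [Finset.mem_image]
      exact ⟨⟨(c : ℕ) - 240, by omega⟩, Finset.mem_univ _, Fin.ext (by simp only [cq]; omega)⟩
    · intro a _ b _ hab
      have := congrArg Fin.val hab
      simp only [cq] at this
      exact Fin.ext (by omega)
  rw [h8]
  refine Finset.sum_congr rfl fun q _ => ?_
  rw [h6]

theorem cartan_zero {u : E8 k} (h : ∀ x y z : Vec k, br (tri x y z) u = 0) (m : Fin 248)
    (h1 : 240 ≤ (m : ℕ)) : u m = 0 := by
  have h2 : ∀ t : Fin 8, ∑ q : Fin 8, ((prN (i1 (tI t).1 (tI t).2.1 (tI t).2.2) q : ℤ) : k) *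
      u (cq q) = 0 := by
    intro t
    obtain ⟨a1, a2⟩ := car_chk.1 t
    have hr := i1_rng _ _ _ a1 a2
    have h3 : br (T (tI t).1 (tI t).2.1 (tI t).2.2) u = 0 := by rw [← tri_single]; exact h _ _ _
    have h4 := congrFun (eb_of_T a1 a2 h3) (i1 (tI t).1 (tI t).2.1 (tI t).2.2)
    rw [br_eb_cartan _ (by omega), Pi.zero_apply] at h4
    rw [← neg_eq_zero, ← Finset.sum_neg_distrib, ← h4]
    refine Finset.sum_congr rfl fun q _ => ?_
    push_cast
    ring
  have h5 : m = cq ⟨(m : ℕ) - 240, by omega⟩ := Fin.ext (by simp only [cq]; omega)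
  rw [h5]
  generalize (⟨(m : ℕ) - 240, by omega⟩ : Fin 8) = q
  have h6 : u (cq q) = ∑ q' : Fin 8, (if q = q' then (1 : k) else 0) * u (cq q') := by simp
  have h7 : ∀ q' : Fin 8, (if q = q' then (1 : k) else 0) =
      ∑ t : Fin 8, ((cI q t : ℤ) : k) * ((prN (i1 (tI t).1 (tI t).2.1 (tI t).2.2) q' : ℤ) : k) := by
    intro q'
    have h8 := congrArg (fun n : ℤ => (n : k)) (car_chk.2 q q')
    simp only [Int.cast_sum, Int.cast_mul, Int.cast_ite, Int.cast_one, Int.cast_zero] at h8
    exact h8.symm
  rw [h6]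
  simp only [h7, Finset.sum_mul]
  rw [Finset.sum_comm]
  refine Finset.sum_eq_zero fun t _ => ?_
  simp only [mul_assoc]
  rw [← Finset.mul_sum, h2, mul_zero]

theorem H1E (j : ℕ) (hj : j ≤ 4) (u : E8 k) (hu : ∀ a, dgE a ≠ j → u a = 0) (hu0 : u ≠ 0) :
    ∃ x y z : Vec k, br (tri x y z) u ≠ 0 := by
  by_contra hcon
  push Not at hcon
  apply hu0
  funext m
  rw [Pi.zero_apply]
  by_cases hm : dgE m = j
  · have h1 : 36 ≤ (m : ℕ) := (zdg_chk m).2.2.2.2.1 (by
      have := (zdg_chk m).1
      unfold dgE at hm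
      omega)
    rcases lt_or_ge (m : ℕ) 240 with h2 | h2
    · exact root_zero hcon m h1 h2
    · exact cartan_zero hcon m h2
  · exact hu m hm

theorem card_pq : ∀ p q : Fin 8, p < q → Fintype.card {r : Fin 8 // r ≠ p ∧ r ≠ q} = 6 := by
  decide

theorem H2E (u : E8 k) (hu : ∀ a, dgE a ≠ 5 → u a = 0) (hu0 : u ≠ 0) (B : Submodule k (E8 k))
    (hB : finrank k B ≤ 4) : ∃ x y z : Vec k, br (tri x y z) u ∉ B := by
  by_contra hcon
  push Not at hcon
  obtain ⟨m, hm⟩ := Function.ne_iff.mp hu0
  rw [Pi.zero_apply] at hm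
  have h1 : dgE m = 5 := by
    by_contra h
    exact hm (hu m h)
  have h2 : zdg m = 2 := by
    have := (zdg_chk m).1
    unfold dgE at h1
    omega
  obtain ⟨h3, h4⟩ := (zdg_chk m).2.2.2.1 h2
  obtain ⟨p, q, hpq, rfl⟩ := i2_surj m h3 h4
  have h5 : w2 u p q ≠ 0 := by
    unfold w2
    rw [ep2_of_lt hpq]
    simpa using hm
  -- the coordinates outside `p`, `q`
  let F : B →ₗ[k] ({r : Fin 8 // r ≠ p ∧ r ≠ q} → k) :=
    { toFun := fun v r => (v : E8 k) (ix ((r : Fin 8) : ℕ))
      map_add' := fun v w => rfl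
      map_smul' := fun c v => rfl }
  have hF : Function.Surjective F := by
    intro t
    refine ⟨∑ r : {r : Fin 8 // r ≠ p ∧ r ≠ q}, ((w2 u p q)⁻¹ * t r) • (⟨br (T p q r) u, ?_⟩ : B), ?_⟩
    · rw [← tri_single]
      exact hcon _ _ _
    · rw [map_sum]
      funext r'
      rw [Finset.sum_apply, Finset.sum_eq_single r']
      · rw [map_smul, Pi.smul_apply]
        change ((w2 u p q)⁻¹ * t r') * br (T p q r') u (ix ((r' : Fin 8) : ℕ)) = t r'
        rw [br_T_three', if_neg r'.2.1, if_neg r'.2.2, if_pos rfl]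
        field_simp
        ring
      · intro r _ hr
        rw [map_smul, Pi.smul_apply]
        change ((w2 u p q)⁻¹ * t r) * br (T p q r) u (ix ((r' : Fin 8) : ℕ)) = 0
        rw [br_T_three', if_neg r'.2.1, if_neg r'.2.2, if_neg (fun h => hr (Subtype.ext h.symm))]
        ring
      · intro h
        exact absurd (Finset.mem_univ _) h
  have h6 := LinearMap.finrank_range_le F
  rw [LinearMap.range_eq_top.mpr hF, finrank_top, finrank_fintype_fun_eq_card] at h6
  have h7 := card_pq p q hpq
  omega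

/-! ### the exponential -/

theorem br_tri_pow_deg (x y z : Vec A) (n : ℕ) (u : E8 A) (a : Fin 248)
    (h : ∀ b, dgE b + n = dgE a → u b = 0) : ((brL (tri x y z)) ^ n) u a = 0 := by
  induction n generalizing a with
  | zero => simpa using h a rfl
  | succ n ih =>
    rw [pow_succ']
    change br (tri x y z) (((brL (tri x y z)) ^ n) u) a = 0
    refine br_tri_deg x y z _ a fun b hb => ih b fun c hc => h c (by omega)

theorem triE_nil (x y z : Vec A) : (brL (tri x y z)) ^ 7 = 0 := by
  apply LinearMap.ext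
  intro u
  funext a
  refine br_tri_pow_deg x y z 7 u a fun b hb => ?_
  have := dgE_le a
  omega

/-- the reduction of the move -/
theorem Mvx_eq_ex [CharZero k] [Algebra ℚ k] (x y z : Vec k) (c : k) (u : E8 k) :
    Mvx EL x y z c u = ex (tri (c • x) y z) u := by
  rw [ex_apply, Mvx, LinearMap.sum_apply]
  refine Finset.sum_congr rfl fun n _ => ?_
  have h1 : brL (tri (c • x) y z) = c • (EL x y z : Module.End k (Fin 248 → k)) := by
    apply LinearMap.ext
    intro v
    rw [brL_apply, tri_smul_left, br_smul_left]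
    rfl
  rw [h1, smul_pow, LinearMap.smul_apply, LinearMap.smul_apply, LinearMap.smul_apply, smul_smul,
    smul_smul]
  congr 1
  have h2 : (algebraMap ℚ k) ((n.factorial : ℚ)⁻¹) = ((n.factorial : k))⁻¹ := by
    rw [map_inv₀, map_natCast]
  rw [h2]
  ring

/-- **Termination step** for the table -/
theorem gen_meas_E [CharZero k] [Algebra ℚ k] {T : Type*} [AddCommGroup T] [Module k T]
    [FiniteDimensional k T] (i : T →ₗ[k] (Fin 248 → k)) (hi : Function.Injective i)
    (hT : 4 < finrank k T)
    (hr : finrank k (LinearMap.range (prj k (fun a => 5 < dgE a) ∘ₗ i)) ≤ 4) :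
    GenK (k := k) fun x : Vec k => GenK (k := k) fun y : Vec k => GenK (k := k) fun z : Vec k =>
      GenC fun c : k => meas dgE (ex (tri (c • x) y z) ∘ₗ i) < meas dgE i := by
  have h := gen_meas_lt' dgE dgE_le (EL (A := k)) (fun x y z u a h => br_tri_deg x y z u a h)
    (fun j hj u hu hu0 => H1E j hj u hu hu0) (fun u hu hu0 B hB => H2E u hu hu0 B hB)
    (fun x y z u hu => H3E x y z u hu) i hi hT hr
  refine h.mono fun x hx => hx.mono fun y hy => hy.mono fun z hz => hz.mono fun c hc => ?_
  have e : Mvx EL x y z c = ex (tri (c • x) y z) := LinearMap.ext fun u => Mvx_eq_ex x y z c u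
  rwa [e] at hc

end Pool.Agent.Licci
end

end
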