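import Pool.Agent.Work.MP_a98e4e_ag.Fu.Exch
import Pool.Agent.Work.MP_a98e4e_ag.Fu.D.Vol
import Pool.Agent.Work.MP_a98e4e_ag.Fu.CF.Defs
import Pool.Agent.Work.MP_a98e4e_ag.Fu.L.Jac
import Pool.Agent.Work.MP_a98e4e_ag.Fu.E.TrTab1
import Pool.Agent.Work.MP_a98e4e_ag.Fu.E.KForm
import Mathlib
import Pool.Agent.Work.MP_a98e4e_ag.Fu.Acyclic5
import Pool.Agent.Work.MP_a98e4e_ag.Fu.Term
import Pool.Agent.Work.MP_a98e4e_ag.Fu.L.Moves

section

/-!
MP_a98e4e_ag (licci, codimension 4), module (7) (helper43): the abstract descent. States with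
moves `f ↦ f + c ν(x, y, z, ·)`, a measure which drops for general `x, y, z, c`.
-/

set_option autoImplicit false

noncomputable section

namespace Pool.Agent.Licci

open IsLocalRing RingTheory.Sequence LicciCodimFour

section gen

universe u

variable {R : Type u} [CommRing R] [IsLocalRing R] {ι : Type*}

/-- `Q a` holds for all `a` whose reduction avoids finitely many proper subspaces. -/
def Gen1 (Q : (ι → R) → Prop) : Prop :=
  ∃ S : Finset (Submodule (ResidueField R) (ι → ResidueField R)), (∀ V ∈ S, V ≠ ⊤) ∧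
    ∀ a : ι → R, (∀ V ∈ S, red a ∉ V) → Q a

/-- `Q c` holds for all `c` outside finitely many residue classes. -/
def GenS (Q : R → Prop) : Prop :=
  ∃ T : Finset (ResidueField R), ∀ c : R, residue R c ∉ T → Q c

lemma Gen1.mono {Q Q' : (ι → R) → Prop} (h : Gen1 Q) (hQ : ∀ a, Q a → Q' a) : Gen1 Q' := by
  obtain ⟨S, hS, h1⟩ := h
  exact ⟨S, hS, fun a ha => hQ a (h1 a ha)⟩

lemma Gen1.and {Q Q' : (ι → R) → Prop} (h : Gen1 Q) (h' : Gen1 Q') :
    Gen1 fun a => Q a ∧ Q' a := by
  classical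
  obtain ⟨S, hS, h1⟩ := h
  obtain ⟨S', hS', h1'⟩ := h'
  refine ⟨S ∪ S', ?_, fun a ha => ⟨h1 a fun V hV => ha V (Finset.mem_union_left _ hV),
    h1' a fun V hV => ha V (Finset.mem_union_right _ hV)⟩⟩
  intro V hV
  rcases Finset.mem_union.mp hV with h | h
  exacts [hS V h, hS' V h]

lemma Gen1.of_forall {Q : (ι → R) → Prop} (h : ∀ a, Q a) : Gen1 Q :=
  ⟨∅, by simp, fun a _ => h a⟩

lemma GenS.mono {Q Q' : R → Prop} (h : GenS Q) (hQ : ∀ a, Q a → Q' a) : GenS Q' := by
  obtain ⟨S, h1⟩ := h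
  exact ⟨S, fun a ha => hQ a (h1 a ha)⟩

lemma GenS.and {Q Q' : R → Prop} (h : GenS Q) (h' : GenS Q') : GenS fun a => Q a ∧ Q' a := by
  classical
  obtain ⟨S, h1⟩ := h
  obtain ⟨S', h1'⟩ := h'
  exact ⟨S ∪ S', fun a ha => ⟨h1 a fun hV => ha (Finset.mem_union_left _ hV),
    h1' a fun hV => ha (Finset.mem_union_right _ hV)⟩⟩

lemma GenS.of_forall {Q : R → Prop} (h : ∀ a, Q a) : GenS Q := ⟨∅, fun a _ => h a⟩

lemma Gen1.exists [Infinite (ResidueField R)] [Finite ι] {Q : (ι → R) → Prop} (h : Gen1 Q) :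
    ∃ a, Q a := by
  obtain ⟨S, hS, h1⟩ := h
  obtain ⟨a, ha⟩ := exists_avoid (R := R) S hS
  exact ⟨a, h1 a ha⟩

lemma GenS.exists [Infinite (ResidueField R)] {Q : R → Prop} (h : GenS Q) : ∃ a, Q a := by
  classical
  obtain ⟨T, h1⟩ := h
  obtain ⟨t, ht⟩ := Infinite.exists_notMem_finset T
  obtain ⟨c, rfl⟩ := IsLocalRing.residue_surjective t
  exact ⟨c, h1 c ht⟩

/-- a vector outside a submodule with proper reduction -/
lemma Gen1.notMem [Finite ι] {N : Submodule R (ι → R)} (h : N ≠ ⊤) : Gen1 fun a => a ∉ N := by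
  classical
  refine ⟨{redSub N}, ?_, ?_⟩
  · intro V hV htop
    rw [Finset.mem_singleton] at hV
    subst hV
    exact h (eq_top_of_redSub_eq_top htop)
  · intro a ha hmem
    exact ha (redSub N) (by simp) (red_mem_redSub hmem)

/-- a linear form with a unit value takes unit values at general vectors -/
lemma Gen1.isUnit [Finite ι] (g : (ι → R) →ₗ[R] R) (h : ∃ a, IsUnit (g a)) :
    Gen1 fun a => IsUnit (g a) := by
  have h1 : Submodule.comap g (maximalIdeal R) ≠ ⊤ := by
    intro htop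
    obtain ⟨a, ha⟩ := h
    have : a ∈ Submodule.comap g (maximalIdeal R) := by rw [htop]; trivial
    exact (IsLocalRing.mem_maximalIdeal _).mp this ha
  refine (Gen1.notMem h1).mono fun a ha => ?_
  by_contra hcon
  exact ha ((IsLocalRing.mem_maximalIdeal _).mpr hcon)

/-- a nonzero linear map on `k ^ ι` does not vanish at general vectors -/
lemma Gen1.of_residue {V : Type*} [AddCommGroup V] [Module (ResidueField R) V]
    (g : (ι → ResidueField R) →ₗ[ResidueField R] V) (h : g ≠ 0) : Gen1 fun a : ι → R => g (red a) ≠ 0 := by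
  classical
  refine ⟨{LinearMap.ker g}, ?_, ?_⟩
  · intro V hV htop
    rw [Finset.mem_singleton] at hV
    subst hV
    exact h (LinearMap.ker_eq_top.mp htop)
  · intro a ha h0
    exact ha (LinearMap.ker g) (by simp) h0

/-- the scalars outside the zero set of a nonzero polynomial over `k` -/
lemma GenS.of_poly (p : Polynomial (ResidueField R)) (h : p ≠ 0) :
    GenS fun c : R => p.eval (residue R c) ≠ 0 := by
  classical
  refine ⟨p.roots.toFinset, fun c hc h0 => hc ?_⟩
  rw [Multiset.mem_toFinset, Polynomial.mem_roots h]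
  exact h0

end gen

section units

variable {R : Type*} [CommRing R] [IsLocalRing R] {ι : Type*} [Finite ι]

/-- a 4-form with a unit value takes unit values at general vectors -/
lemma gen_form_unit (ω : (ι → R) [⋀^Fin 4]→ₗ[R] R) (h : ∃ a, IsUnit (ω a)) :
    Gen1 fun x => Gen1 fun y => Gen1 fun z => Gen1 fun w => IsUnit (ω ![x, y, z, w]) := by
  have key : ∀ (i : Fin 4) (b : Fin 4 → ι → R), (∃ v, IsUnit (ω (Function.update b i v))) →
      Gen1 fun v => IsUnit (ω (Function.update b i v)) := fun i b hb =>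
    Gen1.isUnit (ω.toMultilinearMap.toLinearMap b i) hb
  obtain ⟨a, ha⟩ := h
  -- the submodules of vectors for which all further values are in the maximal ideal
  let N0 : Submodule R (ι → R) :=
    { carrier := {x | ∀ y z w, ω ![x, y, z, w] ∈ maximalIdeal R}
      zero_mem' := fun y z w => by
        rw [ω.map_coord_zero (i := 0) (by simp)]; exact Ideal.zero_mem _
      add_mem' := fun {x x'} hx hx' y z w => by
        have h := ω.map_update_add ![0, y, z, w] 0 x x'
        rw [update_zero, update_zero, update_zero] at h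
        rw [h]; exact Ideal.add_mem _ (hx y z w) (hx' y z w)
      smul_mem' := fun r x hx y z w => by
        have h := ω.map_update_smul ![0, y, z, w] 0 r x
        rw [update_zero, update_zero] at h
        rw [h]; exact Ideal.mul_mem_left _ _ (hx y z w) }
  have hN0 : N0 ≠ ⊤ := by
    intro htop
    have h1 : a 0 ∈ N0 := by rw [htop]; trivial
    have h2 := h1 (a 1) (a 2) (a 3)
    have h3 : ![a 0, a 1, a 2, a 3] = a := by funext i; fin_cases i <;> rfl
    rw [h3] at h2
    exact (IsLocalRing.mem_maximalIdeal _).mp h2 ha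
  refine (Gen1.notMem hN0).mono fun x hx => ?_
  have hx' : ∃ y z w, IsUnit (ω ![x, y, z, w]) := by
    by_contra hcon
    push Not at hcon
    exact hx fun y z w => (IsLocalRing.mem_maximalIdeal _).mpr (hcon y z w)
  obtain ⟨y0, z0, w0, hu⟩ := hx'
  let N1 : Submodule R (ι → R) :=
    { carrier := {y | ∀ z w, ω ![x, y, z, w] ∈ maximalIdeal R}
      zero_mem' := fun z w => by
        rw [ω.map_coord_zero (i := 1) (by simp)]; exact Ideal.zero_mem _
      add_mem' := fun {y y'} hy hy' z w => by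
        have h := ω.map_update_add ![x, 0, z, w] 1 y y'
        rw [update_one, update_one, update_one] at h
        rw [h]; exact Ideal.add_mem _ (hy z w) (hy' z w)
      smul_mem' := fun r y hy z w => by
        have h := ω.map_update_smul ![x, 0, z, w] 1 r y
        rw [update_one, update_one] at h
        rw [h]; exact Ideal.mul_mem_left _ _ (hy z w) }
  have hN1 : N1 ≠ ⊤ := by
    intro htop
    have h1 : y0 ∈ N1 := by rw [htop]; trivial
    exact (IsLocalRing.mem_maximalIdeal _).mp (h1 z0 w0) hu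
  refine (Gen1.notMem hN1).mono fun y hy => ?_
  have hy' : ∃ z w, IsUnit (ω ![x, y, z, w]) := by
    by_contra hcon
    push Not at hcon
    exact hy fun z w => (IsLocalRing.mem_maximalIdeal _).mpr (hcon z w)
  obtain ⟨z1, w1, hu1⟩ := hy'
  let N2 : Submodule R (ι → R) :=
    { carrier := {z | ∀ w, ω ![x, y, z, w] ∈ maximalIdeal R}
      zero_mem' := fun w => by
        rw [ω.map_coord_zero (i := 2) (by simp)]; exact Ideal.zero_mem _
      add_mem' := fun {z z'} hz hz' w => by
        have h := ω.map_update_add ![x, y, 0, w] 2 z z'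
        rw [update_two, update_two, update_two] at h
        rw [h]; exact Ideal.add_mem _ (hz w) (hz' w)
      smul_mem' := fun r z hz w => by
        have h := ω.map_update_smul ![x, y, 0, w] 2 r z
        rw [update_two, update_two] at h
        rw [h]; exact Ideal.mul_mem_left _ _ (hz w) }
  have hN2 : N2 ≠ ⊤ := by
    intro htop
    have h1 : z1 ∈ N2 := by rw [htop]; trivial
    exact (IsLocalRing.mem_maximalIdeal _).mp (h1 w1) hu1
  refine (Gen1.notMem hN2).mono fun z hz => ?_
  have hz' : ∃ w, IsUnit (ω ![x, y, z, w]) := by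
    by_contra hcon
    push Not at hcon
    exact hz fun w => (IsLocalRing.mem_maximalIdeal _).mpr (hcon w)
  obtain ⟨w2, hu2⟩ := hz'
  have h4 := key 3 ![x, y, z, 0] ⟨w2, by rw [update_three]; exact hu2⟩
  exact h4.mono fun w hw => by rwa [update_three] at hw

end units

section descent

universe u

variable {R : Type u} [CommRing R] [IsLocalRing R] [IsNoetherianRing R]
  [Infinite (ResidueField R)]
variable {ι : Type*} [Fintype ι]

/-- general combinations are regular, in the form `Gen1` -/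
lemma gen_regular (f : (ι → R) →ₗ[R] R) (hI : ∀ v, f v ∈ maximalIdeal R) {r : ℕ}
    (hgr : ∃ rs : List R, rs.length = r ∧ (∀ y ∈ rs, y ∈ LinearMap.range f) ∧ IsRegular R rs)
    (α : List R) (hα : α.length < r) (hαI : ∀ y ∈ α, y ∈ LinearMap.range f)
    (hαreg : IsWeaklyRegular R α) :
    Gen1 fun a : ι → R => IsWeaklyRegular R (α ++ [f a]) := by
  classical
  have hI' : LinearMap.range f ≤ maximalIdeal R := by rintro _ ⟨v, rfl⟩; exact hI v
  obtain ⟨y, hy, hy2⟩ := exists_regular_quot hI' α R r hgr hα hαI hαreg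
  rw [range_eq_span] at hy
  obtain ⟨S, hS, hS2⟩ := gp1 (R ⧸ (Ideal.ofList α • ⊤ : Submodule R R))
    (fun j => f (Pi.single j 1)) ⟨y, hy, hy2⟩
  refine ⟨S, hS, fun a ha => ?_⟩
  change IsWeaklyRegular R (α ++ [f a])
  rw [isWeaklyRegular_concat_iff, apply_eq_sum]
  exact ⟨hαreg, isSMulRegular_quot_ofList_iff.mp (hS2 a ha)⟩

omit [Infinite (ResidueField R)] in
lemma genS_regular (α : List R) (x w : R) (h : IsWeaklyRegular R (α ++ [x])) :
    GenS fun c : R => IsWeaklyRegular R (α ++ [x + c * w]) := by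
  obtain ⟨h1, h2⟩ := isWeaklyRegular_concat_iff.mp h
  obtain ⟨T, hT⟩ := gp2 (R ⧸ (Ideal.ofList α • ⊤ : Submodule R R)) x w
    (isSMulRegular_quot_ofList_iff.mpr h2)
  exact ⟨T, fun c hc => isWeaklyRegular_concat_iff.mpr
    ⟨h1, isSMulRegular_quot_ofList_iff.mp (hT c hc)⟩⟩

/-- the ideal has grade at least four: general quadruples are regular -/
lemma gen_quad (f : (ι → R) →ₗ[R] R) (hI : ∀ v, f v ∈ maximalIdeal R)
    (hgr : ∃ rs : List R, rs.length = 4 ∧ (∀ y ∈ rs, y ∈ LinearMap.range f) ∧ IsRegular R rs) :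
    Gen1 fun x => IsWeaklyRegular R [f x] ∧ Gen1 fun y => IsWeaklyRegular R [f x, f y] ∧
      Gen1 fun z => IsWeaklyRegular R [f x, f y, f z] ∧
        Gen1 fun w => IsWeaklyRegular R [f x, f y, f z, f w] := by
  refine (gen_regular f hI hgr [] (by simp) (by simp) (IsWeaklyRegular.nil R R)).mono
    fun x hx => ⟨hx, ?_⟩
  refine (gen_regular f hI hgr [f x] (by simp) ?_ hx).mono fun y hy => ⟨hy, ?_⟩
  · intro a ha; simp only [List.mem_singleton] at ha; subst ha; exact ⟨x, rfl⟩
  refine (gen_regular f hI hgr [f x, f y] (by simp) ?_ hy).mono fun z hz => ⟨hz, ?_⟩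
  · intro a ha
    simp only [List.mem_cons, List.not_mem_nil, or_false] at ha
    rcases ha with rfl | rfl
    exacts [⟨x, rfl⟩, ⟨y, rfl⟩]
  refine (gen_regular f hI hgr [f x, f y, f z] (by simp) ?_ hz).mono fun w hw => hw
  · intro a ha
    simp only [List.mem_cons, List.not_mem_nil, or_false] at ha
    rcases ha with rfl | rfl | rfl
    exacts [⟨x, rfl⟩, ⟨y, rfl⟩, ⟨z, rfl⟩]

/-- **Abstract descent**, flexible form: the next state is only required to exist. -/
theorem licci_of_descent' {𝒮 : Type*} (f : 𝒮 → (ι → R) →ₗ[R] R)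
    (ν : 𝒮 → (ι → R) [⋀^Fin 4]→ₗ[R] R) (hcyc : ∀ s, Cyc (f s) (ν s))
    (μ : 𝒮 → ℕ)
    (hdesc : ∀ s, (∀ v, f s v ∈ maximalIdeal R) → (∃ a, IsUnit (ν s a)) ∨
      Gen1 fun x => Gen1 fun y => Gen1 fun z => GenS fun c => ∃ s',
        f s' = stepf (f s) (ν s) x y z c ∧ (∀ w, ν s' ![x, y, z, w] = ν s ![x, y, z, w]) ∧
          μ s' < μ s)
    (s : 𝒮) (hI : ∀ v, f s v ∈ maximalIdeal R)
    (hgood : ∃ a0 a1 a2 a3 : ι → R, IsWeaklyRegular R [f s a0, f s a1, f s a2, f s a3] ∧
      Good (f s) (ν s) a0 a1 a2 a3) :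
    IsLicci (LinearMap.range (f s)) := by
  induction hn : μ s using Nat.strong_induction_on generalizing s with
  | _ n ih =>
  subst hn
  obtain ⟨a0, a1, a2, a3, ha, hg⟩ := hgood
  have hgr : ∃ rs : List R, rs.length = 4 ∧ (∀ y ∈ rs, y ∈ LinearMap.range (f s)) ∧
      IsRegular R rs := by
    refine ⟨[f s a0, f s a1, f s a2, f s a3], rfl, ?_,
      isRegular_four (hI a0) (hI a1) (hI a2) (hI a3) ha⟩
    intro x hx
    simp only [List.mem_cons, List.not_mem_nil, or_false] at hx
    rcases hx with rfl | rfl | rfl | rfl <;> exact ⟨_, rfl⟩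
  have hq := gen_quad (f s) hI hgr
  rcases hdesc s hI with hu | hd
  · -- a unit value of the form: the ideal is a complete intersection
    obtain ⟨x, ⟨_, hx⟩, hx'⟩ := (hq.and (gen_form_unit (ν s) hu)).exists
    obtain ⟨y, ⟨_, hy⟩, hy'⟩ := (hx.and hx').exists
    obtain ⟨z, ⟨_, hz⟩, hz'⟩ := (hy.and hy').exists
    obtain ⟨w, hw, hw'⟩ := (hz.and hz').exists
    have hG := hg.transfer (f s) hI (hcyc s) ha hw
    have hreg := isRegular_four (hI x) (hI y) (hI z) (hI w) hw
    refine ⟨_, Relation.ReflTransGen.refl, _, hreg, ?_⟩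
    apply le_antisymm
    · rintro _ ⟨v, rfl⟩
      have h3 := mul_omega_mem (hcyc s) x y z w v
      obtain ⟨u, hu⟩ := hw'
      rw [← hu] at h3
      have h4 := Ideal.mul_mem_right ((↑u⁻¹ : R)) _ h3
      rwa [mul_assoc, Units.mul_inv, mul_one] at h4
    · rw [Ideal.ofList, Ideal.span_le]
      intro x hx
      simp only [List.mem_cons, List.not_mem_nil, or_false, Set.mem_ofPred_eq] at hx
      rcases hx with rfl | rfl | rfl | rfl <;> exact ⟨_, rfl⟩
  · -- a double link
    obtain ⟨x, ⟨_, hx⟩, hx'⟩ := (hq.and hd).exists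
    obtain ⟨y, ⟨_, hy⟩, hy'⟩ := (hx.and hx').exists
    obtain ⟨z, ⟨_, hz⟩, hz'⟩ := (hy.and hy').exists
    obtain ⟨w, hw⟩ := hz.exists
    have hG := hg.transfer (f s) hI (hcyc s) ha hw
    obtain ⟨c, hc1, s', hmv, hν, hc2⟩ := ((genS_regular [f s x, f s y, f s z] (f s w)
      (ν s ![x, y, z, w]) hw).and hz').exists
    by_cases hm : ∀ v, f s' v ∈ maximalIdeal R
    · have hstep := hG.step (c := c) (ω' := ν s') (hcyc s) hw hc1 (hν w)
      rw [← hmv] at hstep
      have hreg' : IsWeaklyRegular R [f s' x, f s' y, f s' z, f s' w] := by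
        rw [hmv]
        obtain ⟨e0, e1, e2⟩ := stepf_self (f s) (ν s) x y z c
        rw [e0, e1, e2, stepf_apply]
        exact hc1
      have hL := ih (μ s') hc2 s' hm ⟨x, y, z, w, hreg', hstep⟩ rfl
      rw [hmv] at hL
      refine licci_of_step (ω' := ν s') (hcyc s) hI hw hc1 hG ?_ ?_ (hν w) hL
      · intro v; rw [← hmv]; exact hm v
      · rw [← hmv]; exact hcyc _
    · push Not at hm
      obtain ⟨v, hv⟩ := hm
      refine licci_of_unit (hcyc s) hI hw hc1 hG ⟨v, ?_⟩
      rw [← hmv]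
      by_contra hcon
      exact hv ((IsLocalRing.mem_maximalIdeal _).mpr hcon)

/-- **Abstract descent.** -/
theorem licci_of_descent {𝒮 : Type*} (f : 𝒮 → (ι → R) →ₗ[R] R)
    (ν : 𝒮 → (ι → R) [⋀^Fin 4]→ₗ[R] R) (hcyc : ∀ s, Cyc (f s) (ν s))
    (mv : 𝒮 → (ι → R) → (ι → R) → (ι → R) → R → 𝒮)
    (hmv : ∀ s x y z c, f (mv s x y z c) = stepf (f s) (ν s) x y z c)
    (hν : ∀ s x y z c w, ν (mv s x y z c) ![x, y, z, w] = ν s ![x, y, z, w])
    (μ : 𝒮 → ℕ)
    (hdesc : ∀ s, (∀ v, f s v ∈ maximalIdeal R) → (∃ a, IsUnit (ν s a)) ∨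
      Gen1 fun x => Gen1 fun y => Gen1 fun z => GenS fun c => μ (mv s x y z c) < μ s)
    (s : 𝒮) (hI : ∀ v, f s v ∈ maximalIdeal R)
    (hgood : ∃ a0 a1 a2 a3 : ι → R, IsWeaklyRegular R [f s a0, f s a1, f s a2, f s a3] ∧
      Good (f s) (ν s) a0 a1 a2 a3) :
    IsLicci (LinearMap.range (f s)) := by
  refine licci_of_descent' f ν hcyc μ (fun s hs => ?_) s hI hgood
  rcases hdesc s hs with h | h
  · exact Or.inl h
  · exact Or.inr (h.mono fun x hx => hx.mono fun y hy => hy.mono fun z hz => hz.mono fun c hc =>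
      ⟨mv s x y z c, hmv s x y z c, hν s x y z c, hc⟩)

end descent

end Pool.Agent.Licci
end

end

section

/-!
MP_a98e4e_ag (licci, any codimension `r + 1`), module DS2a (helper43): the exchange lemma. The two
colon identities for `(f, ω)` (`f ∧ ω = 0`, `ω` an `(r + 1)`-form) do not depend on the regular
sequence.
-/

set_option autoImplicit false

namespace LicciD

open IsLocalRing RingTheory.Sequence Pool.Agent.Licci

section good

variable {R : Type*} [CommRing R] {P : Type*} [AddCommGroup P] [Module R P]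

/-- the list of the values of `f` -/
def lst (f : P →ₗ[R] R) {n : ℕ} (a : Fin n → P) : List R := List.ofFn fun i => f (a i)

@[simp] lemma lst_length (f : P →ₗ[R] R) {n : ℕ} (a : Fin n → P) : (lst f a).length = n := by
  simp [lst]

lemma mem_lst {f : P →ₗ[R] R} {n : ℕ} {a : Fin n → P} {x : R} :
    x ∈ lst f a ↔ ∃ i, f (a i) = x := by
  simp [lst, List.mem_ofFn]

lemma lst_snoc (f : P →ₗ[R] R) {n : ℕ} (a : Fin n → P) (w : P) :
    lst f (Fin.snoc a w : Fin (n + 1) → P) = lst f a ++ [f w] := by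
  rw [lst, List.ofFn_succ']
  simp only [Fin.snoc_castSucc, Fin.snoc_last, List.concat_eq_append, lst]

lemma lst_cons (f : P →ₗ[R] R) {n : ℕ} (a : Fin n → P) (w : P) :
    lst f (Fin.cons w a : Fin (n + 1) → P) = f w :: lst f a := by
  simp [lst, List.ofFn_succ]

/-- taking out the entry `j` -/
lemma lst_perm (f : P →ₗ[R] R) {n : ℕ} (a : Fin (n + 1) → P) (j : Fin (n + 1)) :
    (lst f (j.removeNth a) ++ [f (a j)]).Perm (lst f a) := by
  rw [← Multiset.coe_eq_coe, ← Multiset.coe_add]
  simp only [lst, ← Fin.univ_val_map]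
  rw [Fin.univ_succAbove n j]
  simp only [Finset.cons_val, Multiset.map_cons, Finset.map_val, Multiset.map_map]
  rw [← Multiset.singleton_add, add_comm]
  rfl

/-- `f ∧ ω = 0` -/
def Cyc {r : ℕ} (f : P →ₗ[R] R) (ω : P [⋀^Fin (r + 1)]→ₗ[R] R) : Prop :=
  ∀ (a : Fin (r + 1) → P) (v : P), ∑ j, f (a j) * ω (Function.update a j v) = f v * ω a

/-- the two colon identities for the regular sequence `f (a 0), …, f (a r)` -/
def Good {r : ℕ} (f : P →ₗ[R] R) (ω : P [⋀^Fin (r + 1)]→ₗ[R] R) (a : Fin (r + 1) → P) : Prop :=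
  (∀ y, y * ω a ∈ Ideal.ofList (lst f a) → y ∈ LinearMap.range f) ∧
  (∀ y, (∀ v, y * f v ∈ Ideal.ofList (lst f a)) → y ∈ Ideal.ofList (lst f a) ⊔ Ideal.span {ω a})

lemma ofList_append_singleton (l : List R) (x : R) :
    Ideal.ofList (l ++ [x]) = Ideal.ofList l ⊔ Ideal.span {x} := by
  rw [Ideal.ofList_append, Ideal.ofList_singleton]

lemma ofList_append_singleton_sup (l : List R) (x w : R) :
    Ideal.ofList (l ++ [x]) ⊔ Ideal.span {w} = Ideal.ofList l ⊔ Ideal.span {x, w} := by
  rw [ofList_append_singleton, sup_assoc]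
  congr 1
  rw [Ideal.span_insert x {w}]

/-- the contraction at the index `j`, as a linear form -/
def conAt {r : ℕ} (ω : P [⋀^Fin (r + 1)]→ₗ[R] R) (a : Fin (r + 1) → P) (j : Fin (r + 1)) :
    P →ₗ[R] R := ω.toMultilinearMap.toLinearMap a j

@[simp] lemma conAt_apply {r : ℕ} (ω : P [⋀^Fin (r + 1)]→ₗ[R] R) (a : Fin (r + 1) → P)
    (j : Fin (r + 1)) (v : P) : conAt ω a j v = ω (Function.update a j v) := rfl

lemma mem_ofList_lst (f : P →ₗ[R] R) {n : ℕ} (a : Fin n → P) (i : Fin n) :
    f (a i) ∈ Ideal.ofList (lst f a) := Ideal.subset_span (mem_lst.mpr ⟨i, rfl⟩)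

lemma ofList_lst_le_range (f : P →ₗ[R] R) {n : ℕ} (a : Fin n → P) :
    Ideal.ofList (lst f a) ≤ LinearMap.range f := by
  rw [Ideal.ofList, Ideal.span_le]
  intro x hx
  obtain ⟨i, rfl⟩ := mem_lst.mp hx
  exact ⟨_, rfl⟩

lemma rel_of_cyc {r : ℕ} {f : P →ₗ[R] R} {ω : P [⋀^Fin (r + 1)]→ₗ[R] R} (hω : Cyc f ω)
    (a : Fin (r + 1) → P) (j : Fin (r + 1)) (v : P) :
    f v * conAt ω a j (a j) - f (a j) * conAt ω a j v ∈ Ideal.ofList (lst f (j.removeNth a)) := by
  have h := hω a v
  rw [Fin.sum_univ_succAbove _ j] at h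
  have e : f v * conAt ω a j (a j) - f (a j) * conAt ω a j v =
      ∑ i : Fin r, f (a (j.succAbove i)) * ω (Function.update a (j.succAbove i) v) := by
    rw [conAt_apply, conAt_apply, Function.update_eq_self, ← h]
    ring
  rw [e]
  exact Ideal.sum_mem _ fun i _ => Ideal.mul_mem_right _ _ (mem_ofList_lst f (j.removeNth a) i)

lemma ofList_lst (f : P →ₗ[R] R) {n : ℕ} (a : Fin (n + 1) → P) (j : Fin (n + 1)) :
    Ideal.ofList (lst f a) = Ideal.ofList (lst f (j.removeNth a)) ⊔ Ideal.span {f (a j)} := by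
  rw [← ofList_append_singleton]
  exact (ofList_perm (lst_perm f a j)).symm

lemma ofList_lst_sup (f : P →ₗ[R] R) {n : ℕ} (a : Fin (n + 1) → P) (j : Fin (n + 1)) (w : R) :
    Ideal.ofList (lst f a) ⊔ Ideal.span {w} =
      Ideal.ofList (lst f (j.removeNth a)) ⊔ Ideal.span {f (a j), w} := by
  rw [← ofList_append_singleton_sup, ofList_perm (lst_perm f a j)]

/-- the exchange at the index `j` -/
lemma Good.exch {r : ℕ} {f : P →ₗ[R] R} {ω : P [⋀^Fin (r + 1)]→ₗ[R] R} (hω : Cyc f ω)
    {a : Fin (r + 1) → P} (j : Fin (r + 1)) {b : P}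
    (h1 : IsWeaklyRegular R (lst f (j.removeNth a) ++ [f (a j)]))
    (h2 : IsWeaklyRegular R (lst f (j.removeNth a) ++ [f b]))
    (h : Good f ω a) : Good f ω (Function.update a j b) := by
  have r1 := (isWeaklyRegular_concat_iff.mp h1).2
  have r2 := (isWeaklyRegular_concat_iff.mp h2).2
  obtain ⟨hA, hB⟩ := h
  rw [ofList_lst_sup f a j, ofList_lst f a j] at hB
  rw [ofList_lst f a j] at hA
  have hrel := rel_of_cyc hω a j
  have e1 : ω a = conAt ω a j (a j) := by rw [conAt_apply, Function.update_eq_self]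
  have e2 : ω (Function.update a j b) = conAt ω a j b := (conAt_apply ω a j b).symm
  have e3 : j.removeNth (Function.update a j b) = j.removeNth a := Fin.removeNth_update j b a
  rw [e1] at hA hB
  refine ⟨?_, ?_⟩
  · rw [ofList_lst f _ j, e3, Function.update_self, e2]
    exact exch_colon f (conAt ω a j) (a j) b hrel r2 hA
  · rw [ofList_lst_sup f _ j, ofList_lst f _ j, e3, Function.update_self, e2]
    exact exch_colon' f (conAt ω a j) (a j) b hrel r1 r2 hB

end good

section transfer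

universe u

variable {R : Type u} [CommRing R] [IsLocalRing R] [IsNoetherianRing R]

lemma wr_lst_iff {P : Type*} [AddCommGroup P] [Module R P] {f : P →ₗ[R] R}
    (hI : ∀ v, f v ∈ maximalIdeal R) {n : ℕ} (a : Fin (n + 1) → P) (j : Fin (n + 1)) :
    IsWeaklyRegular R (lst f a) ↔ IsWeaklyRegular R (lst f (j.removeNth a) ++ [f (a j)]) := by
  constructor
  · refine wr_perm (lst_perm f a j).symm fun x hx => ?_
    obtain ⟨i, rfl⟩ := mem_lst.mp hx
    exact hI _
  · refine wr_perm (lst_perm f a j) fun x hx => ?_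
    rcases List.mem_append.mp hx with hx | hx
    · obtain ⟨i, rfl⟩ := mem_lst.mp hx
      exact hI _
    · rw [List.mem_singleton] at hx
      rw [hx]; exact hI _

lemma wr_update_iff {P : Type*} [AddCommGroup P] [Module R P] {f : P →ₗ[R] R}
    (hI : ∀ v, f v ∈ maximalIdeal R) {n : ℕ} (a : Fin (n + 1) → P) (j : Fin (n + 1)) (b : P) :
    IsWeaklyRegular R (lst f (Function.update a j b)) ↔
      IsWeaklyRegular R (lst f (j.removeNth a) ++ [f b]) := by
  rw [wr_lst_iff hI _ j, Fin.removeNth_update, Function.update_self]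

omit [IsNoetherianRing R] in
lemma isRegular_lst {P : Type*} [AddCommGroup P] [Module R P] {f : P →ₗ[R] R}
    (hI : ∀ v, f v ∈ maximalIdeal R) {n : ℕ} {a : Fin n → P}
    (h : IsWeaklyRegular R (lst f a)) : IsRegular R (lst f a) := by
  refine IsRegular.of_isWeaklyRegular_of_mem_maximalIdeal R ?_ h
  intro x hx
  obtain ⟨i, rfl⟩ := mem_lst.mp hx
  exact hI _

variable {ι : Type*} [Fintype ι]

/-- **Transfer.** The colon identities hold for one regular sequence iff they hold for all. -/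
theorem Good.transfer [Infinite (ResidueField R)] {r : ℕ} (f : (ι → R) →ₗ[R] R)
    (hI : ∀ v, f v ∈ maximalIdeal R) {ω : (ι → R) [⋀^Fin (r + 1)]→ₗ[R] R} (hω : Cyc f ω)
    {a b : Fin (r + 1) → ι → R}
    (ha : IsWeaklyRegular R (lst f a)) (hb : IsWeaklyRegular R (lst f b))
    (h : Good f ω a) : Good f ω b := by
  classical
  have hgr : ∃ rs : List R, rs.length = r + 1 ∧ (∀ y ∈ rs, y ∈ LinearMap.range f) ∧
      IsRegular R rs := by
    refine ⟨lst f a, by simp, ?_, isRegular_lst hI ha⟩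
    intro x hx
    obtain ⟨i, rfl⟩ := mem_lst.mp hx
    exact ⟨_, rfl⟩
  induction hn : (Finset.univ.filter fun i => a i ≠ b i).card using Nat.strong_induction_on
    generalizing a b with
  | _ n ih =>
  by_cases hab : a = b
  · rwa [← hab]
  obtain ⟨j, hj⟩ := Function.ne_iff.mp hab
  have ha' := (wr_lst_iff hI a j).mp ha
  have hb' := (wr_lst_iff hI b j).mp hb
  obtain ⟨c, -, hc1, hc2⟩ := gp_row_two f hI hgr (lst f (j.removeNth a)) (lst f (j.removeNth b))
    (by simp) (by simp)
    (fun y hy => by obtain ⟨i, rfl⟩ := mem_lst.mp hy; exact ⟨_, rfl⟩)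
    (fun y hy => by obtain ⟨i, rfl⟩ := mem_lst.mp hy; exact ⟨_, rfl⟩)
    (isWeaklyRegular_concat_iff.mp ha').1 (isWeaklyRegular_concat_iff.mp hb').1 ∅ (by simp)
  have s1 : Good f ω (Function.update a j c) := h.exch hω j ha' hc1
  have s2 : Good f ω (Function.update b j c) := by
    refine ih _ ?_ ((wr_update_iff hI a j c).mpr hc1) ((wr_update_iff hI b j c).mpr hc2) s1 rfl
    rw [← hn]
    refine Finset.card_lt_card ⟨?_, ?_⟩
    · intro i hi
      simp only [Finset.mem_filter, Finset.mem_univ, true_and] at hi ⊢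
      by_cases hij : i = j
      · subst hij; simp at hi
      · rwa [Function.update_of_ne hij, Function.update_of_ne hij] at hi
    · intro hsub
      have h1 := hsub (show j ∈ Finset.univ.filter fun i => a i ≠ b i by simpa using hj)
      simp at h1
  have s3 := s2.exch hω j (b := b j)
    (by rw [Fin.removeNth_update, Function.update_self]; exact hc2)
    (by rw [Fin.removeNth_update]; exact hb')
  rwa [Function.update_idem, Function.update_eq_self] at s3

end transfer

end LicciD

end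

section

/-!
MP_a98e4e_ag (licci, any codimension `r + 1`), module DS2b (helper43): one double link
`f ↦ f' = f + t ω(a, ·)` (`a` an `r`-tuple) as a pair of direct links.
-/

set_option autoImplicit false

namespace LicciD

open IsLocalRing RingTheory.Sequence Pool.Agent.Licci LicciCodimFour

section

variable {R : Type*} [CommRing R] {P : Type*} [AddCommGroup P] [Module R P]

/-- `f (v) w ∈ α` -/
lemma mul_omega_mem {r : ℕ} {f : P →ₗ[R] R} {ω : P [⋀^Fin (r + 1)]→ₗ[R] R} (hω : Cyc f ω)
    (a : Fin (r + 1) → P) (v : P) : f v * ω a ∈ Ideal.ofList (lst f a) := by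
  rw [← hω a v]
  exact Ideal.sum_mem _ fun i _ => Ideal.mul_mem_right _ _ (mem_ofList_lst f a i)

/-- the direct link `I ~ J`, `J = α + (w)` -/
theorem Good.link {r : ℕ} {f : P →ₗ[R] R} {ω : P [⋀^Fin (r + 1)]→ₗ[R] R} (hω : Cyc f ω)
    {a : Fin (r + 1) → P} (hreg : IsRegular R (lst f a)) (h : Good f ω a) :
    DirectlyLinked (LinearMap.range f) (Ideal.ofList (lst f a) ⊔ Ideal.span {ω a}) := by
  refine ⟨_, hreg, le_inf (ofList_lst_le_range f a) le_sup_left, ?_, ?_⟩
  · apply le_antisymm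
    · rintro _ ⟨v, rfl⟩
      rw [mem_colon_iff']
      intro x hx
      obtain ⟨y, hy, z, hz, rfl⟩ := Submodule.mem_sup.mp hx
      obtain ⟨q, rfl⟩ := Ideal.mem_span_singleton'.mp hz
      have e : f v * (y + q * ω a) = f v * y + q * (f v * ω a) := by ring
      rw [e]
      exact Ideal.add_mem _ (Ideal.mul_mem_left _ _ hy)
        (Ideal.mul_mem_left _ _ (mul_omega_mem hω a v))
    · intro y hy
      rw [mem_colon_iff'] at hy
      exact h.1 y (hy _ (Ideal.mem_sup_right (Ideal.mem_span_singleton_self _)))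
  · apply le_antisymm
    · intro x hx
      rw [mem_colon_iff']
      rintro _ ⟨v, rfl⟩
      obtain ⟨y, hy, z, hz, rfl⟩ := Submodule.mem_sup.mp hx
      obtain ⟨q, rfl⟩ := Ideal.mem_span_singleton'.mp hz
      have e : (y + q * ω a) * f v = f v * y + q * (f v * ω a) := by ring
      rw [e]
      exact Ideal.add_mem _ (Ideal.mul_mem_left _ _ hy)
        (Ideal.mul_mem_left _ _ (mul_omega_mem hω a v))
    · intro y hy
      rw [mem_colon_iff'] at hy
      exact h.2 y fun v => hy (f v) ⟨v, rfl⟩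

/-- the contraction with `r` vectors, as a linear form -/
def con {r : ℕ} (ω : P [⋀^Fin (r + 1)]→ₗ[R] R) (a : Fin r → P) : P →ₗ[R] R :=
  conAt ω (Fin.snoc a (0 : P)) (Fin.last r)

@[simp] lemma con_apply {r : ℕ} (ω : P [⋀^Fin (r + 1)]→ₗ[R] R) (a : Fin r → P) (v : P) :
    con ω a v = ω (Fin.snoc a v) := by
  rw [con, conAt_apply, Fin.update_snoc_last]

lemma omega_last_self {r : ℕ} (ω : P [⋀^Fin (r + 1)]→ₗ[R] R) (a : Fin r → P) (i : Fin r) :
    ω (Fin.snoc a (a i)) = 0 :=
  ω.map_eq_zero_of_eq _ (i := i.castSucc) (j := Fin.last r) (by simp)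
    (Fin.castSucc_lt_last i).ne

lemma rel_last {r : ℕ} {f : P →ₗ[R] R} {ω : P [⋀^Fin (r + 1)]→ₗ[R] R} (hω : Cyc f ω)
    (a : Fin r → P) (w v : P) :
    f v * con ω a w - f w * con ω a v ∈ Ideal.ofList (lst f a) := by
  have h := rel_of_cyc hω (Fin.snoc a w) (Fin.last r) v
  rw [conAt_apply, conAt_apply, Fin.update_snoc_last, Fin.update_snoc_last, Fin.snoc_last,
    Fin.removeNth_last, Fin.init_snoc] at h
  rwa [con_apply, con_apply]

/-- the new functional -/
def stepf {r : ℕ} (f : P →ₗ[R] R) (ω : P [⋀^Fin (r + 1)]→ₗ[R] R) (a : Fin r → P) (t : R) :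
    P →ₗ[R] R := f + t • con ω a

lemma stepf_apply {r : ℕ} (f : P →ₗ[R] R) (ω : P [⋀^Fin (r + 1)]→ₗ[R] R) (a : Fin r → P) (t : R)
    (v : P) : stepf f ω a t v = f v + t * ω (Fin.snoc a v) := by
  simp [stepf]

lemma stepf_self {r : ℕ} (f : P →ₗ[R] R) (ω : P [⋀^Fin (r + 1)]→ₗ[R] R) (a : Fin r → P) (t : R)
    (i : Fin r) : stepf f ω a t (a i) = f (a i) := by
  rw [stepf_apply, omega_last_self, mul_zero, add_zero]

lemma lst_stepf {r : ℕ} (f : P →ₗ[R] R) (ω : P [⋀^Fin (r + 1)]→ₗ[R] R) (a : Fin r → P) (t : R) :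
    lst (stepf f ω a t) a = lst f a := by
  simp only [lst, stepf_self]

lemma lst_stepf_snoc {r : ℕ} (f : P →ₗ[R] R) (ω : P [⋀^Fin (r + 1)]→ₗ[R] R) (a : Fin r → P)
    (t : R) (w : P) :
    lst (stepf f ω a t) (Fin.snoc a w : Fin (r + 1) → P) =
      lst f a ++ [f w + t * ω (Fin.snoc a w)] := by
  rw [lst_snoc, lst_stepf, stepf_apply]

lemma mem_range_stepf {r : ℕ} (f : P →ₗ[R] R) (ω : P [⋀^Fin (r + 1)]→ₗ[R] R) (a : Fin r → P)
    (t : R) : ∀ x ∈ Ideal.ofList (lst f a), x ∈ LinearMap.range (stepf f ω a t) := by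
  intro x hx
  rw [← lst_stepf f ω a t] at hx
  exact ofList_lst_le_range _ _ hx

lemma step_colon {r : ℕ} {f : P →ₗ[R] R} {ω : P [⋀^Fin (r + 1)]→ₗ[R] R} (hω : Cyc f ω)
    {a : Fin r → P} {w : P} {t : R}
    (h1 : IsWeaklyRegular R (lst f a ++ [f w]))
    (h : Good f ω (Fin.snoc a w)) (y : R) :
    y * ω (Fin.snoc a w) ∈ Ideal.ofList (lst f a ++ [f w + t * ω (Fin.snoc a w)]) ↔
      y ∈ LinearMap.range (stepf f ω a t) := by
  have r1 := (isWeaklyRegular_concat_iff.mp h1).2
  obtain ⟨hA, _⟩ := h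
  rw [lst_snoc, ofList_append_singleton, ← con_apply] at hA
  rw [ofList_append_singleton, ← con_apply]
  exact double_link_colon f (con ω a) w t (mem_range_stepf f ω a t) (rel_last hω a w) r1 hA y

/-- the two identities for the new pair -/
theorem Good.step {r : ℕ} {f : P →ₗ[R] R} {ω ω' : P [⋀^Fin (r + 1)]→ₗ[R] R} (hω : Cyc f ω)
    {a : Fin r → P} {w : P} {t : R}
    (h1 : IsWeaklyRegular R (lst f a ++ [f w]))
    (h2 : IsWeaklyRegular R (lst f a ++ [f w + t * ω (Fin.snoc a w)]))
    (hw : ω' (Fin.snoc a w) = ω (Fin.snoc a w))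
    (h : Good f ω (Fin.snoc a w)) : Good (stepf f ω a t) ω' (Fin.snoc a w) := by
  have r2 := (isWeaklyRegular_concat_iff.mp h2).2
  refine ⟨?_, ?_⟩
  · intro y hy
    rw [lst_stepf_snoc, hw] at hy
    exact (step_colon hω h1 h y).mp hy
  · intro y hy
    rw [lst_stepf_snoc] at hy ⊢
    rw [hw, ofList_append_singleton_sup]
    obtain ⟨_, hB⟩ := h
    rw [lst_snoc, ofList_append_singleton_sup, ofList_append_singleton, ← con_apply] at hB
    rw [ofList_append_singleton, ← con_apply] at hy
    rw [← con_apply] at r2 ⊢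
    exact (double_link_colon' f (con ω a) w t (rel_last hω a w) r2 hB y).mp hy

lemma sup_step (l : List R) (x w t : R) :
    Ideal.ofList (l ++ [x + t * w]) ⊔ Ideal.span {w} = Ideal.ofList (l ++ [x]) ⊔ Ideal.span {w} := by
  rw [ofList_append_singleton_sup, ofList_append_singleton_sup]
  congr 1
  apply le_antisymm
  · rw [Ideal.span_le]
    rintro z (rfl | rfl)
    · exact Ideal.add_mem _ (Ideal.subset_span (by simp))
        (Ideal.mul_mem_left _ _ (Ideal.subset_span (by simp)))
    · exact Ideal.subset_span (by simp)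
  · rw [Ideal.span_le]
    rintro z (rfl | rfl)
    · have : z ∈ Ideal.span ({z + t * w, w} : Set R) := by
        have e : z = (z + t * w) - t * w := by ring
        have h1 : (z + t * w) - t * w ∈ Ideal.span ({z + t * w, w} : Set R) :=
          Ideal.sub_mem _ (Ideal.subset_span (by simp))
            (Ideal.mul_mem_left _ _ (Ideal.subset_span (by simp)))
        rwa [← e] at h1
      exact this
    · exact Ideal.subset_span (by simp)

end

section loc

universe u

variable {R : Type u} [CommRing R]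
variable {P : Type*} [AddCommGroup P] [Module R P]

/-- a unit value of the form: the ideal is a complete intersection -/
theorem licci_of_form_unit {r : ℕ} {f : P →ₗ[R] R} {ω : P [⋀^Fin (r + 1)]→ₗ[R] R} (hω : Cyc f ω)
    {a : Fin (r + 1) → P} (hreg : IsRegular R (lst f a)) (hu : IsUnit (ω a)) :
    IsLicci (LinearMap.range f) := by
  refine ⟨_, Relation.ReflTransGen.refl, _, hreg, ?_⟩
  apply le_antisymm
  · rintro _ ⟨v, rfl⟩
    have h3 := mul_omega_mem hω a v
    obtain ⟨u, hu⟩ := hu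
    rw [← hu] at h3
    have h4 := Ideal.mul_mem_right ((↑u⁻¹ : R)) _ h3
    rwa [mul_assoc, Units.mul_inv, mul_one] at h4
  · exact ofList_lst_le_range f a

variable [IsLocalRing R]

/-- one double link: if the new ideal is licci, so is the old one. -/
theorem licci_of_step {r : ℕ} {f : P →ₗ[R] R} {ω ω' : P [⋀^Fin (r + 1)]→ₗ[R] R} (hω : Cyc f ω)
    (hI : ∀ v, f v ∈ maximalIdeal R)
    {a : Fin r → P} {w : P} {t : R}
    (h1 : IsWeaklyRegular R (lst f a ++ [f w]))
    (h2 : IsWeaklyRegular R (lst f a ++ [f w + t * ω (Fin.snoc a w)]))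
    (h : Good f ω (Fin.snoc a w))
    (hI' : ∀ v, stepf f ω a t v ∈ maximalIdeal R)
    (hω' : Cyc (stepf f ω a t) ω')
    (hw : ω' (Fin.snoc a w) = ω (Fin.snoc a w))
    (hL : IsLicci (LinearMap.range (stepf f ω a t))) : IsLicci (LinearMap.range f) := by
  have h1' : IsWeaklyRegular R (lst f (Fin.snoc a w : Fin (r + 1) → P)) := by rwa [lst_snoc]
  have h2' : IsWeaklyRegular R (lst (stepf f ω a t) (Fin.snoc a w : Fin (r + 1) → P)) := by
    rwa [lst_stepf_snoc]
  have l1 := h.link hω (isRegular_lst hI h1')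
  have hG := h.step (ω' := ω') hω h1 h2 hw
  have l2 := hG.link hω' (isRegular_lst hI' h2')
  rw [lst_stepf_snoc, hw, sup_step, ← lst_snoc] at l2
  exact IsLicci.of_linked l1 (IsLicci.of_linked (DirectlyLinked.symm l2) hL)

/-- the last step: if the new functional takes a unit value, the ideal is licci. -/
theorem licci_of_unit {r : ℕ} {f : P →ₗ[R] R} {ω : P [⋀^Fin (r + 1)]→ₗ[R] R} (hω : Cyc f ω)
    (hI : ∀ v, f v ∈ maximalIdeal R)
    {a : Fin r → P} {w : P} {t : R}
    (h1 : IsWeaklyRegular R (lst f a ++ [f w]))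
    (h2 : IsWeaklyRegular R (lst f a ++ [f w + t * ω (Fin.snoc a w)]))
    (h : Good f ω (Fin.snoc a w))
    (hu : ∃ v, IsUnit (stepf f ω a t v)) : IsLicci (LinearMap.range f) := by
  have h1' : IsWeaklyRegular R (lst f (Fin.snoc a w : Fin (r + 1) → P)) := by rwa [lst_snoc]
  have l1 := h.link hω (isRegular_lst hI h1')
  set z := ω (Fin.snoc a w) with hz
  by_cases hwu : IsUnit z
  · exact licci_of_form_unit hω (isRegular_lst hI h1') hwu
  · -- `z ∈ α'`, so `J = α'`
    have hzm : z ∈ maximalIdeal R := (IsLocalRing.mem_maximalIdeal _).mpr hwu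
    have hreg' : IsRegular R (lst f a ++ [f w + t * z]) := by
      refine IsRegular.of_isWeaklyRegular_of_mem_maximalIdeal R ?_ h2
      intro x hx
      rcases List.mem_append.mp hx with hx | hx
      · obtain ⟨i, rfl⟩ := mem_lst.mp hx
        exact hI _
      · rw [List.mem_singleton] at hx
        rw [hx]
        exact Ideal.add_mem _ (hI w) (Ideal.mul_mem_left _ _ hzm)
    have hw' : z ∈ Ideal.ofList (lst f a ++ [f w + t * z]) := by
      obtain ⟨v, hv⟩ := hu
      have h5 : (1 : R) ∈ LinearMap.range (stepf f ω a t) := by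
        obtain ⟨u, hu⟩ := hv
        refine ⟨(↑u⁻¹ : R) • v, ?_⟩
        rw [map_smul, ← hu, smul_eq_mul, Units.inv_mul]
      have h6 := (step_colon hω h1 h (t := t) 1).mpr h5
      rwa [one_mul] at h6
    have hJ : Ideal.ofList (lst f a ++ [f w]) ⊔ Ideal.span {z} =
        Ideal.ofList (lst f a ++ [f w + t * z]) := by
      rw [← sup_step _ _ _ t]
      exact sup_eq_left.mpr (by rw [Ideal.span_singleton_le_iff_mem]; exact hw')
    rw [lst_snoc, hJ] at l1
    exact IsLicci.of_linked l1 ⟨_, Relation.ReflTransGen.refl, _, hreg', rfl⟩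

end loc

end LicciD

end

section

/-!
MP_a98e4e_ag (licci, any codimension `r + 1`), module DS2c (helper43): the abstract descent.
States with moves `f ↦ f + t ν(a, ·)` (`a` an `r`-tuple), a measure which drops for general
`a`, `t`.
-/

set_option autoImplicit false

noncomputable section

namespace LicciD

open IsLocalRing RingTheory.Sequence Pool.Agent.Licci LicciCodimFour

section gen

universe u

variable {R : Type u} [CommRing R] [IsLocalRing R] {ι : Type*}

/-- `Q a` holds for general tuples `a`: for general `a 0`, then for general `a 1`, and so on. -/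
def GenN : (n : ℕ) → ((Fin n → ι → R) → Prop) → Prop
  | 0, Q => Q Fin.elim0
  | n + 1, Q => Gen1 fun x => GenN n fun a => Q (Fin.cons x a)

lemma GenN.mono {n : ℕ} {Q Q' : (Fin n → ι → R) → Prop} (h : GenN n Q) (hQ : ∀ a, Q a → Q' a) :
    GenN n Q' := by
  induction n with
  | zero => exact hQ _ h
  | succ n ih => exact Gen1.mono h fun x hx => ih hx fun a ha => hQ _ ha

lemma GenN.and {n : ℕ} {Q Q' : (Fin n → ι → R) → Prop} (h : GenN n Q) (h' : GenN n Q') :
    GenN n fun a => Q a ∧ Q' a := by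
  induction n with
  | zero => exact ⟨h, h'⟩
  | succ n ih => exact (Gen1.and h h').mono fun x hx => ih hx.1 hx.2

lemma GenN.of_forall {n : ℕ} {Q : (Fin n → ι → R) → Prop} (h : ∀ a, Q a) : GenN n Q := by
  induction n with
  | zero => exact h _
  | succ n ih => exact Gen1.of_forall fun x => ih fun a => h _

lemma GenN.exists [Infinite (ResidueField R)] [Finite ι] {n : ℕ} {Q : (Fin n → ι → R) → Prop}
    (h : GenN n Q) : ∃ a, Q a := by
  induction n with
  | zero => exact ⟨_, h⟩
  | succ n ih =>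
    obtain ⟨x, hx⟩ := Gen1.exists h
    obtain ⟨a, ha⟩ := ih hx
    exact ⟨_, ha⟩

/-- one tuple which is general at every coordinate -/
lemma GenN.of_forall_gen1 {n : ℕ} {Q : (ι → R) → Prop} (h : Gen1 Q) :
    GenN n fun a => ∀ i, Q (a i) := by
  induction n with
  | zero => intro i; exact i.elim0
  | succ n ih =>
    refine Gen1.mono h fun x hx => ih.mono fun a ha i => ?_
    refine Fin.cases ?_ (fun i => ?_) i
    · simpa using hx
    · simpa using ha i

/-- if a multilinear map to `R` has a unit value, its values at general tuples are units -/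
lemma gen_multi_unit [Finite ι] {n : ℕ} (g : MultilinearMap R (fun _ : Fin n => ι → R) R)
    (h : ∃ a, IsUnit (g a)) : GenN n fun a => IsUnit (g a) := by
  classical
  induction n with
  | zero =>
    obtain ⟨a, ha⟩ := h
    change IsUnit (g Fin.elim0)
    rwa [Subsingleton.elim Fin.elim0 a]
  | succ n ih =>
    let N : Submodule R (ι → R) :=
      { carrier := {x | ∀ a : Fin n → ι → R, g (Fin.cons x a) ∈ maximalIdeal R}
        zero_mem' := fun a => by
          rw [g.map_coord_zero 0 (by simp)]; exact Ideal.zero_mem _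
        add_mem' := fun {x y} hx hy a => by
          rw [g.cons_add]; exact Ideal.add_mem _ (hx a) (hy a)
        smul_mem' := fun t x hx a => by
          rw [g.cons_smul]; exact Ideal.mul_mem_left _ _ (hx a) }
    have hN : N ≠ ⊤ := by
      intro htop
      obtain ⟨a, ha⟩ := h
      have h1 : a 0 ∈ N := by rw [htop]; trivial
      have h2 := h1 (Fin.tail a)
      rw [Fin.cons_self_tail] at h2
      exact (IsLocalRing.mem_maximalIdeal _).mp h2 ha
    refine (Gen1.notMem hN).mono fun x hx => ?_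
    have hx' : ∃ a : Fin n → ι → R, IsUnit (g.curryLeft x a) := by
      by_contra hcon
      push Not at hcon
      exact hx fun a => (IsLocalRing.mem_maximalIdeal _).mpr (hcon a)
    exact ih (g.curryLeft x) hx'

/-- an alternating form with a unit value takes unit values at general tuples -/
lemma gen_form_unit [Finite ι] {n : ℕ} (ω : (ι → R) [⋀^Fin n]→ₗ[R] R) (h : ∃ a, IsUnit (ω a)) :
    GenN n fun a => IsUnit (ω a) := gen_multi_unit ω.toMultilinearMap h

/-- a nonzero multilinear map over the residue field does not vanish at general tuples -/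
lemma GenN.of_residue {n : ℕ} {V : Type*} [AddCommGroup V] [Module (ResidueField R) V]
    (g : MultilinearMap (ResidueField R) (fun _ : Fin n => ι → ResidueField R) V) (h : g ≠ 0) :
    GenN n fun a : Fin n → ι → R => g (fun i => red (a i)) ≠ 0 := by
  classical
  induction n with
  | zero =>
    intro h0
    apply h
    ext a
    rw [Subsingleton.elim a fun i => red ((Fin.elim0 : Fin 0 → ι → R) i)]
    exact h0
  | succ n ih =>
    have hc : g.curryLeft ≠ 0 := by
      intro h0
      apply h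
      ext a
      have h1 := congrFun (congrArg (fun u => (u : (ι → ResidueField R) → _)) (congrArg DFunLike.coe h0)) (a 0)
      have h2 := congrArg (fun u => u (Fin.tail a)) h1
      simpa using h2
    refine (Gen1.of_residue g.curryLeft hc).mono fun x hx => ?_
    refine (ih (g.curryLeft (red x)) hx).mono fun a ha h0 => ha ?_
    rw [MultilinearMap.curryLeft_apply, ← h0]
    congr 1
    funext i
    refine Fin.cases ?_ (fun i => ?_) i <;> simp

end gen

section descent

universe u

variable {R : Type u} [CommRing R] [IsLocalRing R] [IsNoetherianRing R]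
variable {ι : Type*} [Fintype ι]

/-- general combinations are regular sequences, up to the grade -/
lemma gen_wr [Infinite (ResidueField R)] (f : (ι → R) →ₗ[R] R)
    (hI : ∀ v, f v ∈ maximalIdeal R) {r : ℕ}
    (hgr : ∃ rs : List R, rs.length = r ∧ (∀ y ∈ rs, y ∈ LinearMap.range f) ∧ IsRegular R rs)
    (n : ℕ) (α : List R) (hα : α.length + n ≤ r) (hαI : ∀ y ∈ α, y ∈ LinearMap.range f)
    (hαreg : IsWeaklyRegular R α) :
    GenN n fun a : Fin n → ι → R => IsWeaklyRegular R (α ++ lst f a) := by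
  induction n generalizing α with
  | zero =>
    change IsWeaklyRegular R (α ++ lst f Fin.elim0)
    have : lst f (Fin.elim0 : Fin 0 → ι → R) = [] := by simp [lst]
    rwa [this, List.append_nil]
  | succ n ih =>
    refine (gen_regular f hI hgr α (by omega) hαI hαreg).mono fun x hx => ?_
    refine (ih (α ++ [f x]) (by simp; omega) ?_ hx).mono fun a ha => ?_
    · intro y hy
      rcases List.mem_append.mp hy with hy | hy
      · exact hαI y hy
      · rw [List.mem_singleton] at hy
        exact ⟨x, hy.symm⟩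
    · change IsWeaklyRegular R (α ++ lst f (Fin.cons x a : Fin (n + 1) → ι → R))
      rw [lst_cons]
      rwa [List.append_assoc, List.singleton_append] at ha

/-- general tuples are regular sequences -/
lemma gen_tuple [Infinite (ResidueField R)] (f : (ι → R) →ₗ[R] R)
    (hI : ∀ v, f v ∈ maximalIdeal R) {r : ℕ}
    (hgr : ∃ rs : List R, rs.length = r ∧ (∀ y ∈ rs, y ∈ LinearMap.range f) ∧ IsRegular R rs)
    (n : ℕ) (hn : n ≤ r) :
    GenN n fun a : Fin n → ι → R => IsWeaklyRegular R (lst f a) := by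
  have h := gen_wr f hI hgr n [] (by simpa using hn) (by simp) (IsWeaklyRegular.nil R R)
  exact h.mono fun a ha => by simpa using ha

/-- **Abstract descent**, in codimension `r + 1`. The states are pairs `(f, ν)` with `f ∧ ν = 0`;
for a general `r`-tuple `a` and general `t` there is a state `s'` with `f' = f + t ν(a, ·)`,
`ν'(a, ·) = ν(a, ·)` and smaller measure. Then the ideal of a state, which has grade `r + 1` and
satisfies the two colon identities for one regular sequence, is licci. The step may assume that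
the ideal is proper and has grade `r + 1`. -/
theorem licci_of_descentC [Infinite (ResidueField R)] {r : ℕ} {𝒮 : Type*}
    {M : Type*} [Preorder M] [WellFoundedLT M]
    (f : 𝒮 → (ι → R) →ₗ[R] R)
    (ν : 𝒮 → (ι → R) [⋀^Fin (r + 1)]→ₗ[R] R) (hcyc : ∀ s, Cyc (f s) (ν s))
    (μ : 𝒮 → M)
    (hdesc : ∀ s, (∀ v, f s v ∈ maximalIdeal R) →
      (∃ rs : List R, rs.length = r + 1 ∧ (∀ y ∈ rs, y ∈ LinearMap.range (f s)) ∧
        IsRegular R rs) →
      (∃ a, IsUnit (ν s a)) ∨ GenN r fun a => GenS fun t => ∃ s',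
        f s' = stepf (f s) (ν s) a t ∧
          (∀ w, ν s' (Fin.snoc a w) = ν s (Fin.snoc a w)) ∧ μ s' < μ s)
    (s : 𝒮) (hI : ∀ v, f s v ∈ maximalIdeal R)
    (hgood : ∃ a : Fin (r + 1) → ι → R, IsWeaklyRegular R (lst (f s) a) ∧ Good (f s) (ν s) a) :
    IsLicci (LinearMap.range (f s)) := by
  induction hn : μ s using WellFoundedLT.induction generalizing s with
  | _ n ih =>
  subst hn
  obtain ⟨a₀, ha, hg⟩ := hgood
  have hgr : ∃ rs : List R, rs.length = r + 1 ∧ (∀ y ∈ rs, y ∈ LinearMap.range (f s)) ∧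
      IsRegular R rs := by
    refine ⟨lst (f s) a₀, by simp, ?_, isRegular_lst hI ha⟩
    intro x hx
    obtain ⟨i, rfl⟩ := mem_lst.mp hx
    exact ⟨_, rfl⟩
  rcases hdesc s hI hgr with hu | hd
  · obtain ⟨a, ha1, ha2⟩ := ((gen_tuple (f s) hI hgr (r + 1) le_rfl).and
      (gen_form_unit (ν s) hu)).exists
    exact licci_of_form_unit (hcyc s) (isRegular_lst hI ha1) ha2
  obtain ⟨a, haw, had⟩ := ((gen_tuple (f s) hI hgr r (by omega)).and hd).exists
  obtain ⟨w, hw⟩ := (gen_regular (f s) hI hgr (lst (f s) a) (by simp)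
    (fun y hy => by obtain ⟨i, rfl⟩ := mem_lst.mp hy; exact ⟨_, rfl⟩) haw).exists
  have hG : Good (f s) (ν s) (Fin.snoc a w) :=
    hg.transfer (f s) hI (hcyc s) ha (by rwa [lst_snoc])
  obtain ⟨t, ht1, s', hmv, hν, ht2⟩ := ((genS_regular (lst (f s) a) (f s w)
    (ν s (Fin.snoc a w)) hw).and had).exists
  by_cases hm : ∀ v, f s' v ∈ maximalIdeal R
  · have hstep := hG.step (t := t) (ω' := ν s') (hcyc s) hw ht1 (hν w)
    rw [← hmv] at hstep
    have hreg' : IsWeaklyRegular R (lst (f s') (Fin.snoc a w : Fin (r + 1) → ι → R)) := by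
      rw [hmv, lst_stepf_snoc]
      exact ht1
    have hL := ih (μ s') ht2 s' hm ⟨Fin.snoc a w, hreg', hstep⟩ rfl
    rw [hmv] at hL
    refine licci_of_step (ω' := ν s') (hcyc s) hI hw ht1 hG ?_ ?_ (hν w) hL
    · intro v; rw [← hmv]; exact hm v
    · rw [← hmv]; exact hcyc _
  · push Not at hm
    obtain ⟨v, hv⟩ := hm
    refine licci_of_unit (hcyc s) hI hw ht1 hG ⟨v, ?_⟩
    rw [← hmv]
    by_contra hcon
    exact hv ((IsLocalRing.mem_maximalIdeal _).mpr hcon)

/-- the ideal of a tuple, as the span of the range -/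
lemma ofList_lst_eq {R : Type*} [CommRing R] {P : Type*} [AddCommGroup P] [Module R P]
    (f : P →ₗ[R] R) {n : ℕ} (a : Fin n → P) :
    Ideal.ofList (lst f a) = Ideal.span (Set.range fun i => f (a i)) := by
  rw [Ideal.ofList]
  congr 1
  ext x
  exact mem_lst

lemma good_iff {R : Type*} [CommRing R] {P : Type*} [AddCommGroup P] [Module R P] {r : ℕ}
    (f : P →ₗ[R] R) (ω : P [⋀^Fin (r + 1)]→ₗ[R] R) (a : Fin (r + 1) → P) :
    Good f ω a ↔
      (∀ y, y * ω a ∈ Ideal.span (Set.range fun i => f (a i)) → y ∈ LinearMap.range f) ∧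
      (∀ y, (∀ v, y * f v ∈ Ideal.span (Set.range fun i => f (a i))) →
        y ∈ Ideal.span (Set.range fun i => f (a i)) ⊔ Ideal.span {ω a}) := by
  rw [Good, ofList_lst_eq]

/-- the abstract descent, with the steps given by values, in terms of `List.ofFn` and spans -/
theorem licci_of_descentC' [Infinite (ResidueField R)] {r : ℕ} {𝒮 : Type*}
    {M : Type*} [Preorder M] [WellFoundedLT M]
    (f : 𝒮 → (ι → R) →ₗ[R] R)
    (ν : 𝒮 → (ι → R) [⋀^Fin (r + 1)]→ₗ[R] R)
    (hcyc : ∀ s (a : Fin (r + 1) → ι → R) v,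
      ∑ j, f s (a j) * ν s (Function.update a j v) = f s v * ν s a)
    (μ : 𝒮 → M)
    (hstep : ∀ s, (∀ v, f s v ∈ maximalIdeal R) →
      (∃ rs : List R, rs.length = r + 1 ∧ (∀ y ∈ rs, y ∈ LinearMap.range (f s)) ∧
        IsRegular R rs) →
      GenN r fun a => GenS fun t => ∃ s',
        (∀ v, f s' v = f s v + t * ν s (Fin.snoc a v)) ∧
          (∀ w, ν s' (Fin.snoc a w) = ν s (Fin.snoc a w)) ∧ μ s' < μ s)
    (s : 𝒮) (hI : ∀ v, f s v ∈ maximalIdeal R) (a : Fin (r + 1) → ι → R)
    (hreg : IsWeaklyRegular R (List.ofFn fun j => f s (a j)))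
    (h1 : ∀ y, y * ν s a ∈ Ideal.span (Set.range fun i => f s (a i)) →
      y ∈ LinearMap.range (f s))
    (h2 : ∀ y, (∀ v, y * f s v ∈ Ideal.span (Set.range fun i => f s (a i))) →
      y ∈ Ideal.span (Set.range fun i => f s (a i)) ⊔ Ideal.span {ν s a}) :
    IsLicci (LinearMap.range (f s)) := by
  refine licci_of_descentC f ν hcyc μ (fun s hs hg => Or.inr ?_) s hI
    ⟨a, hreg, (good_iff _ _ _).mpr ⟨h1, h2⟩⟩
  refine (hstep s hs hg).mono fun a ha => ha.mono fun t ht => ?_
  obtain ⟨s', h1, h2, h3⟩ := ht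
  exact ⟨s', LinearMap.ext fun v => by rw [h1, stepf_apply], h2, h3⟩

end descent

end LicciD
end

end

section

/-!
# LICCI, codimension 5 and 6: a general move raises the top degree (helper45)
-/

set_option linter.unusedSectionVars false

noncomputable section

namespace Pool.Agent.Licci

open scoped BigOperators

/-! ### basis moves -/

/-- `i, j, l` and then the other indices, in decreasing order -/
def sq (i j l : Fin 8) (r : Fin 8) : Fin 8 :=
  (i :: j :: l :: ((List.finRange 8).reverse.filter fun x => x ≠ i ∧ x ≠ j ∧ x ≠ l)).getD r 0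

set_option maxRecDepth 100000 in
theorem sq_chk : ∀ i j l : Fin 8, i < j → j < l → (∀ r s : Fin 8, sq i j l r = sq i j l s → r = s) ∧
    sq i j l 0 = i ∧ sq i j l 1 = j ∧ sq i j l 2 = l ∧ (l < 7 → sq i j l 3 = 7) := by
  decide +kernel

set_option maxRecDepth 100000 in
theorem pick5_chk : ∀ m : Fin 248, wtg 7 m = 1 → zdg m < 3 → ∃ i j k : Fin 8, i < j ∧ j < k ∧
    k < 7 ∧ fnd (cd (i1 i j k) + cd m) < 240 := by
  decide +kernel

set_option maxRecDepth 100000 in
theorem wt7_lt : ∀ m : Fin 248, wtg 7 m = 1 → (m : ℕ) < 240 := by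
  decide +kernel

section basis

variable {A : Type*} [CommRing A] [Algebra ℚ A]

/-- the move `e_{s 3} ∧ ⋯ ∧ e_{s 7}` -/
theorem M5_basis (s : Fin 8 → Fin 8) (hs : ∀ r r', s r = s r' → r = r') :
    ∃ c : A, IsUnit c ∧ M5 (dF A) (fun a : Fin 5 => Pi.single (s (Fin.natAdd 3 a)) 1) =
      c • T (s 0) (s 1) (s 2) := by
  set g : Matrix (Fin 8) (Fin 8) A := fun r => Pi.single (s r) 1 with hg
  have h1 : g * g.transpose = 1 := by
    ext r r'
    rw [Matrix.mul_apply, Matrix.one_apply]
    change ∑ m, (Pi.single (s r) 1 : Vec A) m * (Pi.single (s r') 1 : Vec A) m = _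
    rw [Finset.sum_eq_single (s r)]
    · rw [Pi.single_eq_same, one_mul, Pi.single_apply]
      refine if_congr ?_ rfl rfl
      exact ⟨fun h => hs _ _ h, fun h => by rw [h]⟩
    · intro b _ hb
      rw [Pi.single_eq_of_ne hb, zero_mul]
    · intro h
      exact absurd (Finset.mem_univ _) h
  refine ⟨-(dF A g), ?_, ?_⟩
  · have h2 : g.det * g.transpose.det = 1 := by rw [← Matrix.det_mul, h1, Matrix.det_one]
    have h3 : IsUnit g.det := IsUnit.of_mul_eq_one _ h2
    exact (dF_unit g h3).neg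
  · have h4 := M5_dec (detF_dF (A := A)) g g.transpose h1
    have hx : (fun r => g.transpose r 0) = (Pi.single (s 0) 1 : Vec A) := rfl
    have hy : (fun r => g.transpose r 1) = (Pi.single (s 1) 1 : Vec A) := rfl
    have hz : (fun r => g.transpose r 2) = (Pi.single (s 2) 1 : Vec A) := rfl
    have hu : (fun a : Fin 5 => g (Fin.natAdd 3 a)) =
        fun a : Fin 5 => (Pi.single (s (Fin.natAdd 3 a)) 1 : Vec A) := rfl
    rw [hx, hy, hz, tri_single, hu] at h4
    exact h4

end basis

section field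

variable {k : Type*} [Field k]

theorem root_ne {u : E8 k} {i j l : Fin 8} (hij : i < j) (hjl : j < l) (m : Fin 248)
    (h2 : (m : ℕ) < 240) (hf : fnd (cd (i1 i j l) + cd m) < 240) (h3 : br (T i j l) u = 0) :
    u m = 0 := by
  have hr := i1_rng i j l hij hjl
  have h4 := eb_of_T hij hjl h3
  set n := i1 i j l with hn
  have hc : fnd (cd n + cd m) < 248 := by omega
  have e1 : cd (fnd (cd n + cd m)) + off = cd n + cd m := fnd_spec hf
  have e2 : (m : ℕ) = fnd (cd ((⟨fnd (cd n + cd m), hc⟩ : Fin 248) : ℕ) + off + off - cd n) := by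
    change (m : ℕ) = fnd (cd (fnd (cd n + cd m)) + off + off - cd n)
    rw [show cd (fnd (cd n + cd m)) + off + off - cd n = cd m + off by omega, fnd_cd h2]
  have e3 : n ≠ (⟨fnd (cd n + cd m), hc⟩ : Fin 248) := by
    intro h5
    have h6 : cd n = cd (fnd (cd n + cd m)) := congrArg (fun t : Fin 248 => cd t) h5
    have h7 : cd m = off := by omega
    have h8 := fnd_cd h2
    rw [h7] at h8
    exact fnd_off (by omega)
  have e4 := br_eb_left_of (n := n) (c := m) (m := ⟨fnd (cd n + cd m), hc⟩) (by omega) hf e3 e2 u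
  rw [h4, Pi.zero_apply] at e4
  have e5 : sc n m ⟨fnd (cd n + cd m), hc⟩ = 1 ∨ sc n m ⟨fnd (cd n + cd m), hc⟩ = -1 :=
    scN_root (by omega) h2 hf
  rcases e5 with e5 | e5
  · rw [e5] at e4
    simpa using e4.symm
  · rw [e5] at e4
    simpa using e4.symm

/-- no nonzero vector of degree less than three is killed by all moves -/
theorem exists_T (y : E8 k) (d : ℕ) (hd : d ≤ 5) (hy : ∀ m, dgE m ≠ d → y m = 0) (hy0 : y ≠ 0) :
    ∃ i j l : Fin 8, i < j ∧ j < l ∧ br (T i j l) y ≠ 0 := by
  by_contra hcon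
  push Not at hcon
  have hT : ∀ i j l : Fin 8, br (T i j l) y = 0 := by
    intro i j l
    refine alt3_zero (fun i j l => br (T i j l) y) ?_ ?_ ?_ hcon i j l
    · intro i j l
      rw [T_swap i j l, br_neg_left]
    · intro i j l
      rw [T_swap' i j l, br_neg_left]
    · intro i l
      rw [T_self, br_zero_left]
  rcases Nat.lt_or_ge d 5 with h5 | h5
  · obtain ⟨a, b, c, h⟩ := H1E d (by omega) y hy hy0
    apply h
    funext m
    rw [br_tri_apply, Pi.zero_apply]
    refine Finset.sum_eq_zero fun i _ => Finset.sum_eq_zero fun j _ =>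
      Finset.sum_eq_zero fun l _ => ?_
    rw [hT, Pi.zero_apply, mul_zero]
  · have hd5 : d = 5 := by omega
    subst hd5
    obtain ⟨m, hm⟩ := Function.ne_iff.mp hy0
    rw [Pi.zero_apply] at hm
    have h1 : dgE m = 5 := by
      by_contra h
      exact hm (hy m h)
    have h2 : zdg m = 2 := by
      have := (zdg_chk m).1
      unfold dgE at h1
      omega
    obtain ⟨h3, h4⟩ := (zdg_chk m).2.2.2.1 h2
    obtain ⟨p, q, hpq, rfl⟩ := i2_surj m h3 h4
    obtain ⟨r, hrp, hrq⟩ := exists_third p q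
    have h6 := congrFun (hT p q r) (ix r)
    rw [br_T_three', if_neg hrp, if_neg hrq, if_pos rfl, Pi.zero_apply] at h6
    apply hm
    unfold w2 at h6
    rw [ep2_of_lt hpq] at h6
    simpa using h6

/-- the same for the `56` of weight `1` at the last place -/
theorem exists_T5 (y : E8 k) (d : ℕ) (hd : d ≤ 5) (hy : ∀ m, dgE m ≠ d → y m = 0)
    (hw : ∀ m, wtg 7 m ≠ 1 → y m = 0) (hy0 : y ≠ 0) :
    ∃ i j l : Fin 8, i < j ∧ j < l ∧ l < 7 ∧ br (T i j l) y ≠ 0 := by
  obtain ⟨m, hm⟩ := Function.ne_iff.mp hy0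
  rw [Pi.zero_apply] at hm
  have h1 : wtg 7 m = 1 := by
    by_contra h
    exact hm (hw m h)
  have h2 : dgE m = d := by
    by_contra h
    exact hm (hy m h)
  have h3 : zdg m < 3 := by
    unfold dgE at h2
    omega
  obtain ⟨i, j, l, hij, hjl, hl, hf⟩ := pick5_chk m h1 h3
  refine ⟨i, j, l, hij, hjl, hl, fun h => hm ?_⟩
  exact root_ne hij hjl m (wt7_lt m h1) hf h

end field

/-! ### the top degree -/

section tdeg

variable {k : Type*} [Field k]

open Classical in
/-- top degree (shifted by three) -/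
def tdeg (u : E8 k) : ℕ := (Finset.univ.filter fun m => u m ≠ 0).sup dgE

open Classical in
/-- top part -/
def topP (u : E8 k) : E8 k := fun m => if dgE m = tdeg u then u m else 0

theorem le_tdeg {u : E8 k} {m : Fin 248} (h : u m ≠ 0) : dgE m ≤ tdeg u := by
  classical
  exact Finset.le_sup (f := dgE) (by simpa using h)

theorem tdeg_le (u : E8 k) : tdeg u ≤ 6 := Finset.sup_le fun m _ => dgE_le m

theorem exists_tdeg {u : E8 k} (h : u ≠ 0) : ∃ m, u m ≠ 0 ∧ dgE m = tdeg u := by
  classical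
  obtain ⟨m, hm⟩ := Function.ne_iff.mp h
  have hne : (Finset.univ.filter fun m => u m ≠ 0).Nonempty := ⟨m, by simpa using hm⟩
  obtain ⟨m', hm', h2⟩ := Finset.exists_mem_eq_sup _ hne dgE
  refine ⟨m', ?_, ?_⟩
  · simpa using hm'
  · rw [← h2]
    unfold tdeg
    congr

theorem topP_ne {u : E8 k} (h : u ≠ 0) : topP u ≠ 0 := by
  obtain ⟨m, hm, hd⟩ := exists_tdeg h
  intro h0
  have := congrFun h0 m
  unfold topP at this
  rw [if_pos hd] at this
  exact hm this

theorem topP_deg (u : E8 k) (m : Fin 248) (h : dgE m ≠ tdeg u) : topP u m = 0 := by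
  unfold topP
  rw [if_neg h]

theorem topP_zero {u : E8 k} {m : Fin 248} (h : u m = 0) : topP u m = 0 := by
  unfold topP
  split_ifs
  · exact h
  · rfl

variable [Algebra ℚ k]

theorem ex_poly (M u : E8 k) (m : Fin 248) : ∃ P : Polynomial k, P.coeff 1 = br M u m ∧
    ∀ t : k, ex (t • M) u m = P.eval t := by
  refine ⟨∑ n ∈ Finset.range 7, Polynomial.C (algebraMap ℚ k ((n.factorial : ℚ)⁻¹) *
    ((brL M) ^ n) u m) * Polynomial.X ^ n, ?_, fun t => ?_⟩
  · rw [Polynomial.finsetSum_coeff, Finset.sum_eq_single 1]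
    · rw [Polynomial.coeff_C_mul_X_pow, if_pos rfl]
      simp
    · intro n _ hn
      rw [Polynomial.coeff_C_mul_X_pow, if_neg (Ne.symm hn)]
    · intro h
      exact absurd (Finset.mem_range.mpr (by norm_num)) h
  · rw [ex_apply, Finset.sum_apply, Polynomial.eval_finsetSum]
    refine Finset.sum_congr rfl fun n _ => ?_
    rw [Polynomial.eval_mul, Polynomial.eval_C, Polynomial.eval_pow, Polynomial.eval_X,
      Pi.smul_apply, smul_eq_mul, map_smul, smul_pow, LinearMap.smul_apply, Pi.smul_apply,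
      smul_eq_mul]
    ring

/-- the polynomial which witnesses the rise of the top degree -/
theorem rise (u : Fin 5 → Vec k) (x : E8 k) (h : br (M5 (dF k) u) (topP x) ≠ 0) :
    ∃ P : Polynomial k, P ≠ 0 ∧ ∀ t : k, P.eval t ≠ 0 →
      tdeg x < tdeg (ex (t • M5 (dF k) u) x) := by
  obtain ⟨m, hm⟩ := Function.ne_iff.mp h
  rw [Pi.zero_apply] at hm
  have h1 : dgE m = tdeg x + 1 := by
    by_contra hne
    apply hm
    refine br_M5_deg _ u _ m fun b hb => topP_deg x b fun hd => hne ?_
    omega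
  have h2 : br (M5 (dF k) u) x m = br (M5 (dF k) u) (topP x) m := by
    have h3 : br (M5 (dF k) u) (x - topP x) m = 0 := by
      refine br_M5_deg _ u _ m fun b hb => ?_
      have hd : dgE b = tdeg x := by omega
      rw [Pi.sub_apply]
      unfold topP
      rw [if_pos hd, sub_self]
    rw [br_sub_right, Pi.sub_apply, sub_eq_zero] at h3
    exact h3
  obtain ⟨P, hP1, hP2⟩ := ex_poly (M5 (dF k) u) x m
  refine ⟨P, ?_, fun t ht => ?_⟩
  · rintro rfl
    rw [Polynomial.coeff_zero, h2] at hP1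
    exact hm hP1.symm
  · rw [← hP2] at ht
    have := le_tdeg ht
    omega

end tdeg

/-! ### the inclusion of `A ^ 7` -/

section i7

variable {A : Type*} [CommRing A]

/-- the inclusion of `A ^ 7` -/
def i7 : (Fin 7 → A) →ₗ[A] Vec A where
  toFun v := Fin.snoc (α := fun _ => A) v 0
  map_add' v w := by
    funext i
    rw [Pi.add_apply]
    refine Fin.lastCases ?_ (fun i => ?_) i
    · rw [Fin.snoc_last, Fin.snoc_last, Fin.snoc_last, add_zero]
    · rw [Fin.snoc_castSucc, Fin.snoc_castSucc, Fin.snoc_castSucc, Pi.add_apply]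
  map_smul' c v := by
    funext i
    rw [Pi.smul_apply]
    refine Fin.lastCases ?_ (fun i => ?_) i
    · rw [Fin.snoc_last, Fin.snoc_last, smul_zero]
    · rw [Fin.snoc_castSucc, Fin.snoc_castSucc, Pi.smul_apply]
      rfl

theorem i7_apply (v : Fin 7 → A) : i7 v = (Fin.snoc (α := fun _ => A) v 0 : Fin 8 → A) := rfl

end i7

/-! ### moves as a multilinear map -/

section multi

variable {A : Type*} [CommRing A] [Algebra ℚ A]

/-- `M5` as a multilinear map -/
def M5L (ω : Vec A [⋀^Fin 8]→ₗ[A] A) : MultilinearMap A (fun _ : Fin 5 => Vec A) (E8 A) :=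
  ∑ i, ∑ j, ∑ k, (LinearMap.toSpanSingleton A (E8 A)
    ((-(algebraMap ℚ A (1 / 6))) • T i j k)).compMultilinearMap (vol3 ω i j k).toMultilinearMap

theorem multi_sum_apply {ι κ M N : Type*} [AddCommGroup M] [Module A M] [AddCommGroup N]
    [Module A N] (s : Finset ι) (f : ι → MultilinearMap A (fun _ : κ => M) N) (a : κ → M) :
    (∑ i ∈ s, f i) a = ∑ i ∈ s, f i a := by
  induction s using Finset.cons_induction with
  | empty => rfl
  | cons i s hi ih => rw [Finset.sum_cons, Finset.sum_cons, ← ih]; rfl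

theorem M5L_apply (ω : Vec A [⋀^Fin 8]→ₗ[A] A) (u : Fin 5 → Vec A) : M5L ω u = M5 ω u := by
  unfold M5L M5
  rw [multi_sum_apply]
  refine Finset.sum_congr rfl fun i _ => ?_
  rw [multi_sum_apply]
  refine Finset.sum_congr rfl fun j _ => ?_
  rw [multi_sum_apply]
  refine Finset.sum_congr rfl fun k _ => ?_
  rw [LinearMap.compMultilinearMap_apply, LinearMap.toSpanSingleton_apply, smul_smul]
  congr 1
  exact mul_comm _ _

/-- bracket with a fixed vector on the right -/
def brR (y : E8 A) : E8 A →ₗ[A] E8 A := brL.flip y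

theorem brR_apply (y x : E8 A) : brR y x = br x y := rfl

end multi

/-! ### genericity -/

section gen

universe u

open IsLocalRing

variable {R : Type u} [CommRing R] [IsLocalRing R] [Algebra ℚ R]

theorem red_ex5 (u : Fin 5 → Vec R) (t : R) (p : E8 R) :
    red (ex (t • M5 (dF R) u) p) =
      ex (residue R t • M5 (dF (ResidueField R)) (fun a => red (u a))) (red p) := by
  have h : ∀ {ι : Type} (v : ι → R), red v = residue R ∘ v := fun v => rfl
  rw [h, ex_map]
  have h2 : residue R ∘ (t • M5 (dF R) u) =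
      residue R t • M5 (dF (ResidueField R)) (fun a => red (u a)) := by
    have h3 := M5_map (residue R) u
    have h4 : residue R ∘ (t • M5 (dF R) u) = residue R t • (residue R ∘ M5 (dF R) u) := by
      funext m
      simp
    rw [h4, h3]
    rfl
  rw [h2]
  rfl

theorem genS_rise (u : Fin 5 → Vec R) (p : E8 R)
    (h : br (M5 (dF (ResidueField R)) (fun a => red (u a))) (topP (red p)) ≠ 0) :
    GenS fun t : R => tdeg (red p) < tdeg (red (ex (t • M5 (dF R) u) p)) := by
  obtain ⟨P, hP, hP2⟩ := rise (fun a => red (u a)) (red p) h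
  refine (GenS.of_poly P hP).mono fun t ht => ?_
  rw [red_ex5]
  exact hP2 _ ht

/-- codimension `6` -/
theorem gen_rise6 (p : E8 R) (hp : red p ≠ 0) (hd : tdeg (red p) ≤ 5) :
    LicciD.GenN 5 fun a : Fin 5 → Fin 8 → R => GenS fun t : R =>
      tdeg (red p) < tdeg (red (ex (t • M5 (dF R) a) p)) := by
  set k := ResidueField R with hk
  set y : E8 k := topP (red p) with hy
  let g : MultilinearMap k (fun _ : Fin 5 => Fin 8 → k) (E8 k) :=
    (brR y).compMultilinearMap (M5L (dF k))
  have hg : ∀ u, g u = br (M5 (dF k) u) y := by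
    intro u
    change brR y (M5L (dF k) u) = _
    rw [M5L_apply, brR_apply]
  obtain ⟨i, j, l, hij, hjl, hT⟩ := exists_T y (tdeg (red p)) hd (fun m hm => topP_deg _ m hm)
    (topP_ne hp)
  obtain ⟨hs, h0, h1, h2, -⟩ := sq_chk i j l hij hjl
  obtain ⟨c, hc, hM⟩ := M5_basis (A := k) (sq i j l) hs
  have hg0 : g ≠ 0 := by
    intro h
    have h3 : g (fun a : Fin 5 => Pi.single (sq i j l (Fin.natAdd 3 a)) 1) = 0 := by
      rw [h]
      rfl
    rw [hg, hM, h0, h1, h2, br_smul_left] at h3
    have h4 : c • br (T i j l) y = 0 := h3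
    rw [smul_eq_zero] at h4
    rcases h4 with h4 | h4
    · exact hc.ne_zero h4
    · exact hT h4
  refine (LicciD.GenN.of_residue g hg0).mono fun a ha => ?_
  rw [hg] at ha
  exact genS_rise a p ha

/-- codimension `5` -/
theorem gen_rise5 (p : E8 R) (hp : red p ≠ 0) (hd : tdeg (red p) ≤ 5)
    (hw : ∀ m, wtg 7 m ≠ 1 → p m = 0) :
    LicciD.GenN 4 fun a : Fin 4 → Fin 7 → R => GenS fun t : R =>
      tdeg (red p) < tdeg (red (ex (t • M5 (dF R)
        (Fin.cons (Pi.single 7 1) (fun r => i7 (a r)))) p)) := by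
  set k := ResidueField R with hk
  set y : E8 k := topP (red p) with hy
  let g5 : MultilinearMap k (fun _ : Fin 5 => Fin 8 → k) (E8 k) :=
    (brR y).compMultilinearMap (M5L (dF k))
  let g : MultilinearMap k (fun _ : Fin 4 => Fin 7 → k) (E8 k) :=
    (g5.curryLeft (Pi.single 7 1)).compLinearMap (fun _ => i7)
  have hg : ∀ u, g u = br (M5 (dF k) (Fin.cons (Pi.single 7 1) (fun r => i7 (u r)))) y := by
    intro u
    change brR y (M5L (dF k) _) = _
    rw [M5L_apply, brR_apply]
  have hw' : ∀ m, wtg 7 m ≠ 1 → y m = 0 := by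
    intro m hm
    refine topP_zero ?_
    change residue R (p m) = 0
    rw [hw m hm, map_zero]
  obtain ⟨i, j, l, hij, hjl, hl, hT⟩ := exists_T5 y (tdeg (red p)) hd
    (fun m hm => topP_deg _ m hm) hw' (topP_ne hp)
  obtain ⟨hs, h0, h1, h2, h7⟩ := sq_chk i j l hij hjl
  obtain ⟨c, hc, hM⟩ := M5_basis (A := k) (sq i j l) hs
  have hlt : ∀ a : Fin 4, ((sq i j l (Fin.natAdd 3 a.succ) : Fin 8) : ℕ) < 7 := by
    intro a
    by_contra hcon
    have e1 : sq i j l (Fin.natAdd 3 a.succ) = 7 := by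
      apply Fin.ext
      have := (sq i j l (Fin.natAdd 3 a.succ)).2
      change _ = 7
      omega
    rw [← h7 hl] at e1
    have e2 := hs _ _ e1
    have e3 : 3 + ((a : ℕ) + 1) = 3 := congrArg Fin.val e2
    omega
  have hg0 : g ≠ 0 := by
    intro h
    have h3 : g (fun a : Fin 4 =>
        Pi.single ⟨(sq i j l (Fin.natAdd 3 a.succ) : Fin 8), hlt a⟩ 1) = 0 := by
      rw [h]
      rfl
    rw [hg] at h3
    have h5 : (Fin.cons (Pi.single 7 1) (fun r : Fin 4 =>
        i7 (Pi.single (⟨(sq i j l (Fin.natAdd 3 r.succ) : Fin 8), hlt r⟩ : Fin 7) (1 : k))) :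
        Fin 5 → Vec k) = fun a : Fin 5 => Pi.single (sq i j l (Fin.natAdd 3 a)) 1 := by
      funext a
      refine Fin.cases ?_ (fun a => ?_) a
      · have e : (Fin.natAdd 3 (0 : Fin 5) : Fin 8) = 3 := rfl
        rw [Fin.cons_zero, e, h7 hl]
      · rw [Fin.cons_succ, i7_apply]
        funext m
        refine Fin.lastCases ?_ (fun m => ?_) m
        · rw [Fin.snoc_last, Pi.single_eq_of_ne]
          intro h6
          have := congrArg Fin.val h6
          have h7 := hlt a
          rw [← h6] at h7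
          simp at h7
        · rw [Fin.snoc_castSucc, Pi.single_apply, Pi.single_apply]
          refine if_congr ?_ rfl rfl
          rw [Fin.ext_iff, Fin.ext_iff]
          rfl
    rw [h5, hM, h0, h1, h2, br_smul_left] at h3
    have h4 : c • br (T i j l) y = 0 := h3
    rw [smul_eq_zero] at h4
    rcases h4 with h4 | h4
    · exact hc.ne_zero h4
    · exact hT h4
  refine (LicciD.GenN.of_residue g hg0).mono fun a ha => ?_
  rw [hg] at ha
  refine genS_rise _ p ?_
  convert ha using 2
  congr 1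
  funext r
  refine Fin.cases ?_ (fun r => ?_) r
  · funext s
    rw [Fin.cons_zero, Fin.cons_zero]
    change residue R ((Pi.single 7 1 : Vec R) s) = (Pi.single 7 1 : Vec k) s
    rw [Pi.single_apply, Pi.single_apply]
    split_ifs
    · exact map_one _
    · exact map_zero _
  · rw [Fin.cons_succ, Fin.cons_succ]
    funext s
    rw [i7_apply, i7_apply]
    refine Fin.lastCases ?_ (fun s => ?_) s
    · change residue R (Fin.snoc (α := fun _ => R) (a r) 0 (Fin.last 7)) = _
      rw [Fin.snoc_last, Fin.snoc_last, map_zero]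
    · change residue R (Fin.snoc (α := fun _ => R) (a r) 0 (Fin.castSucc s)) = _
      rw [Fin.snoc_castSucc, Fin.snoc_castSucc]
      rfl

end gen

end Pool.Agent.Licci
end

end

section

/-!
# LICCI, codimension 5 and 6: the descent from an extremal element with a unit coordinate (helper45)
-/

set_option linter.unusedSectionVars false

noncomputable section

namespace Pool.Agent.Licci

open scoped BigOperators
open IsLocalRing RingTheory.Sequence LicciCodimFour

section defs

variable {R : Type*} [CommRing R]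

/-- the linear form in codimension `5` -/
def f5 (p : E8 R) : (Fin 7 → R) →ₗ[R] R := fv p ∘ₗ i7

theorem f5_apply (p : E8 R) (v : Fin 7 → R) : f5 p v = fv p (i7 v) := rfl

/-- restriction of a `6`-form to codimension `5` -/
def res5 (ν : Vec R [⋀^Fin 6]→ₗ[R] R) : (Fin 7 → R) [⋀^Fin 5]→ₗ[R] R :=
  (cur1 (n := 5) ν (Pi.single 7 1)).compLinearMap i7

theorem res5_apply (ν : Vec R [⋀^Fin 6]→ₗ[R] R) (a : Fin 5 → Fin 7 → R) :
    res5 ν a = ν (Fin.cons (Pi.single 7 1) (fun r => i7 (a r))) := rfl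

variable [Algebra ℚ R]

/-- the `5`-form in codimension `5` -/
def nu5 (ω : Vec R [⋀^Fin 8]→ₗ[R] R) (p : E8 R) : (Fin 7 → R) [⋀^Fin 5]→ₗ[R] R :=
  res5 (nu6 ω p)

theorem nu5_apply (ω : Vec R [⋀^Fin 8]→ₗ[R] R) (p : E8 R) (a : Fin 5 → Fin 7 → R) :
    nu5 ω p a = nu6 ω p (Fin.cons (Pi.single 7 1) (fun r => i7 (a r))) := res5_apply _ a

end defs

universe u

variable {R : Type u} [CommRing R] [IsLocalRing R]

theorem infinite_residue [Algebra ℚ R] : Infinite (ResidueField R) :=
  Infinite.of_injective (algebraMap ℚ (ResidueField R)) (algebraMap ℚ (ResidueField R)).injective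

theorem red_ne_zero {p : E8 R} (h : ∃ m, IsUnit (p m)) : red p ≠ 0 := by
  obtain ⟨m, hm⟩ := h
  intro h0
  have h1 : residue R (p m) = 0 := congrFun h0 m
  rw [residue_eq_zero_iff, mem_maximalIdeal] at h1
  exact h1 hm

theorem tdeg_red_le {p : E8 R} (hI : ∀ i, p3 p i ∈ maximalIdeal R) : tdeg (red p) ≤ 5 := by
  by_contra hcon
  have h0 : red p ≠ 0 := by
    intro h
    apply hcon
    rw [h]
    unfold tdeg
    simp
  obtain ⟨m, hm, hd⟩ := exists_tdeg h0
  have h6 := tdeg_le (red p)
  have h1 : dgE m = 6 := by omega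
  have h2 : zdg m = 3 := by
    have := zdg_chk m
    unfold dgE at h1
    omega
  have h3 := (zdg_chk m).2.2.1 h2
  apply hm
  have h4 := hI ⟨m, h3⟩
  have h5 : ix ((⟨m, h3⟩ : Fin 8) : ℕ) = m := Fin.ext (ix_val m.2)
  unfold p3 at h4
  rw [h5] at h4
  exact (residue_eq_zero_iff _).mpr h4

theorem red_ex_ne_zero [Algebra ℚ R] (u : Fin 5 → Vec R) (t : R) {p : E8 R} (h : red p ≠ 0) :
    red (ex (t • M5 (dF R) u) p) ≠ 0 := by
  rw [red_ex5]
  intro h0
  apply h
  have h1 := (ex_isAut (M5_nil (dF (ResidueField R)) (fun a => red (u a)) (residue R t))).bij.1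
  apply h1
  rw [h0, map_zero]

variable [IsNoetherianRing R] [IsDomain R] [Algebra ℚ R]

theorem licci_six_aux (ω : Vec R [⋀^Fin 8]→ₗ[R] R) (hc : Cram ω)
    (hfv : ∀ (u : Fin 5 → Vec R) (t : R) (p : E8 R) (v : Vec R),
      fv (ex (t • M5 ω u) p) v = fv p v + t * nu6 ω p (Fin.snoc u v))
    (hnu : ∀ (u : Fin 5 → Vec R) (t : R) (p : E8 R) (w : Vec R),
      nu6 ω (ex (t • M5 ω u) p) (Fin.snoc u w) = nu6 ω p (Fin.snoc u w))
    (hrise : ∀ q : E8 R, red q ≠ 0 → tdeg (red q) ≤ 5 →
      LicciD.GenN 5 fun a : Fin 5 → Fin 8 → R => GenS fun t : R =>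
        tdeg (red q) < tdeg (red (ex (t • M5 ω a) q)))
    (hne : ∀ (u : Fin 5 → Vec R) (t : R) (q : E8 R), red q ≠ 0 → red (ex (t • M5 ω u) q) ≠ 0)
    (p : E8 R) (hext : Ext p) (hu : ∃ m, IsUnit (p m))
    (hI : ∀ v, fv p v ∈ maximalIdeal R) (a : Fin 6 → Vec R)
    (hreg : IsWeaklyRegular R (List.ofFn fun j => fv p (a j)))
    (h1 : ∀ y, y * nu6 ω p a ∈ Ideal.span (Set.range fun i => fv p (a i)) →
      y ∈ LinearMap.range (fv p))
    (h2 : ∀ y, (∀ v, y * fv p v ∈ Ideal.span (Set.range fun i => fv p (a i))) →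
      y ∈ Ideal.span (Set.range fun i => fv p (a i)) ⊔ Ideal.span {nu6 ω p a}) :
    IsLicci (LinearMap.range (fv p)) := by
  have := infinite_residue (R := R)
  refine LicciD.licci_of_descentC' (r := 5) (𝒮 := {p : E8 R // Ext p ∧ red p ≠ 0}) (M := ℕ)
    (fun s => fv s.1) (fun s => nu6 ω s.1)
    (fun s a v => nu6_cyc hc s.1 (fun i => s.2.1.om i) a v)
    (fun s => 6 - tdeg (red s.1)) ?_ ⟨p, hext, red_ne_zero hu⟩ hI a hreg h1 h2
  rintro ⟨q, hq, hq0⟩ hm -
  have hd : tdeg (red q) ≤ 5 := tdeg_red_le fun i => by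
    rw [← fv_single]
    exact hm _
  refine (hrise q hq0 hd).mono fun a ha => ha.mono fun t ht => ?_
  refine ⟨⟨ex (t • M5 ω a) q, hq.ex (M5_nil _ _ _), hne a t q hq0⟩, ?_, ?_, ?_⟩
  · exact fun v => hfv a t q v
  · exact fun w => hnu a t q w
  · have := tdeg_le (red (ex (t • M5 ω a) q))
    change 6 - tdeg (red (ex (t • M5 ω a) q)) < 6 - tdeg (red q)
    omega

/-- **Descent in codimension six.** -/
theorem licci_six (p : E8 R) (hext : Ext p) (hu : ∃ m, IsUnit (p m))
    (hI : ∀ v, fv p v ∈ maximalIdeal R) (a : Fin 6 → Vec R)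
    (hreg : IsWeaklyRegular R (List.ofFn fun j => fv p (a j)))
    (h1 : ∀ y, y * nu6 (dF R) p a ∈ Ideal.span (Set.range fun i => fv p (a i)) →
      y ∈ LinearMap.range (fv p))
    (h2 : ∀ y, (∀ v, y * fv p v ∈ Ideal.span (Set.range fun i => fv p (a i))) →
      y ∈ Ideal.span (Set.range fun i => fv p (a i)) ⊔ Ideal.span {nu6 (dF R) p a}) :
    IsLicci (LinearMap.range (fv p)) :=
  licci_six_aux (dF R) cram_dF fv_move nu6_move gen_rise6
    (fun u t _ h => red_ex_ne_zero u t h) p hext hu hI a hreg h1 h2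

/-! ### codimension five -/

set_option maxRecDepth 100000 in
theorem wt7_i1 : ∀ i j k : Fin 8, i ≠ 7 → j ≠ 7 → k ≠ 7 → ep3 i j k ≠ 0 →
    wtg 7 (i1 i j k) = 0 := by
  decide +kernel

theorem wt7_ix7 : wtg 7 (ix 7) ≠ 1 := by decide +kernel

theorem alt_eq_zero_of_mem {n : ℕ} {M N : Type*} [AddCommGroup M] [Module R M] [AddCommGroup N]
    [Module R N] (ω : M [⋀^Fin n]→ₗ[R] N) (b : Fin n → M) (r s : Fin n) (hrs : r ≠ s)
    (h : b r = b s) : ω b = 0 := ω.map_eq_zero_of_eq b h hrs

theorem vol3_seven (ω : Vec R [⋀^Fin 8]→ₗ[R] R) (i j k : Fin 8) (u : Fin 4 → Vec R)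
    (h : i = 7 ∨ j = 7 ∨ k = 7) : vol3 ω i j k (Fin.cons (Pi.single 7 1) u) = 0 := by
  rw [vol3_rw8]
  unfold rw8
  rcases h with rfl | rfl | rfl
  · exact alt_eq_zero_of_mem ω _ 0 3 (by decide) rfl
  · exact alt_eq_zero_of_mem ω _ 1 3 (by decide) rfl
  · exact alt_eq_zero_of_mem ω _ 2 3 (by decide) rfl

theorem M5_wt (ω : Vec R [⋀^Fin 8]→ₗ[R] R) (u : Fin 4 → Vec R) (m : Fin 248)
    (hm : wtg 7 m ≠ 0) : M5 ω (Fin.cons (Pi.single 7 1) u) m = 0 := by
  refine sum_T_zero _ m fun i j k => ?_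
  by_cases h : i = 7 ∨ j = 7 ∨ k = 7
  · left
    rw [vol3_seven _ i j k u h, mul_zero]
  · right
    push Not at h
    by_cases h3 : ep3 i j k = 0
    · unfold T
      rw [h3]
      simp
    · unfold T
      rw [Pi.smul_apply, eb_apply, if_neg, smul_zero]
      rintro rfl
      exact hm (wt7_i1 i j k h.1 h.2.1 h.2.2 h3)

theorem ex_wt {M p : E8 R} (hM : ∀ m, wtg 7 m ≠ 0 → M m = 0) (hp : ∀ m, wtg 7 m ≠ 1 → p m = 0)
    (m : Fin 248) (hm : wtg 7 m ≠ 1) : ex M p m = 0 := by
  have hM' : U.Sup (wtg 7) 0 M := hM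
  have hpow : ∀ n : ℕ, U.Sup (wtg 7) 1 (((brL M) ^ n) p) := by
    intro n
    induction n with
    | zero => exact hp
    | succ n ih =>
      rw [pow_succ']
      have h := Sup.br (d := wtg 7) (fun i j k h => sc_wtg 7 h) hM' ih
      rw [zero_add] at h
      exact h
  rw [ex_apply, Finset.sum_apply]
  refine Finset.sum_eq_zero fun n _ => ?_
  rw [Pi.smul_apply, hpow n m hm, smul_zero]

theorem i7_snoc (a : Fin 4 → Fin 7 → R) (v : Fin 7 → R) :
    (Fin.cons (Pi.single 7 1) (fun r => i7 ((Fin.snoc a v : Fin 5 → Fin 7 → R) r)) :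
      Fin 6 → Vec R) =
      Fin.snoc (Fin.cons (Pi.single 7 1) (fun r => i7 (a r)) : Fin 5 → Vec R) (i7 v) := by
  have h1 : (fun r => i7 ((Fin.snoc a v : Fin 5 → Fin 7 → R) r)) =
      (Fin.snoc (fun r => i7 (a r)) (i7 v) : Fin 5 → Vec R) := by
    funext r
    refine Fin.lastCases ?_ (fun r => ?_) r
    · rw [Fin.snoc_last, Fin.snoc_last]
    · rw [Fin.snoc_castSucc, Fin.snoc_castSucc]
  rw [h1]
  exact Fin.cons_snoc_eq_snoc_cons _ _ _

theorem nu5_cyc {ω : Vec R [⋀^Fin 8]→ₗ[R] R} (hc : Cram ω) (p : E8 R)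
    (hp : ∀ i, ∑ s, w2 p s i * p3 p s = 0)
    (hw : ∀ m, wtg 7 m ≠ 1 → p m = 0) (a : Fin 5 → Fin 7 → R) (v : Fin 7 → R) :
    ∑ j, f5 p (a j) * nu5 ω p (Function.update a j v) = f5 p v * nu5 ω p a := by
  have h := nu6_cyc hc p hp (Fin.cons (Pi.single 7 1) (fun r => i7 (a r))) (i7 v)
  rw [Fin.sum_univ_succ] at h
  have h0 : fv p (Pi.single 7 1) = 0 := by
    rw [fv_single]
    exact hw _ wt7_ix7
  simp only [Fin.cons_zero, Fin.cons_succ, h0, zero_mul, zero_add, ← Fin.cons_update] at h
  rw [f5_apply, nu5_apply, ← h]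
  refine Finset.sum_congr rfl fun j _ => ?_
  rw [f5_apply, nu5_apply]
  congr 2
  funext r
  refine Fin.cases ?_ (fun r => ?_) r
  · rfl
  · rw [Fin.cons_succ, Fin.cons_succ]
    by_cases hr : r = j
    · subst hr
      rw [Function.update_self, Function.update_self]
    · rw [Function.update_of_ne hr, Function.update_of_ne hr]

theorem licci_five_aux (ω : Vec R [⋀^Fin 8]→ₗ[R] R) (hc : Cram ω)
    (hfv : ∀ (u : Fin 5 → Vec R) (t : R) (p : E8 R) (v : Vec R),
      fv (ex (t • M5 ω u) p) v = fv p v + t * nu6 ω p (Fin.snoc u v))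
    (hnu : ∀ (u : Fin 5 → Vec R) (t : R) (p : E8 R) (w : Vec R),
      nu6 ω (ex (t • M5 ω u) p) (Fin.snoc u w) = nu6 ω p (Fin.snoc u w))
    (hrise : ∀ q : E8 R, red q ≠ 0 → tdeg (red q) ≤ 5 → (∀ m, wtg 7 m ≠ 1 → q m = 0) →
      LicciD.GenN 4 fun a : Fin 4 → Fin 7 → R => GenS fun t : R =>
        tdeg (red q) < tdeg (red (ex (t • M5 ω
          (Fin.cons (Pi.single 7 1) (fun r => i7 (a r)))) q)))
    (hne : ∀ (u : Fin 5 → Vec R) (t : R) (q : E8 R), red q ≠ 0 → red (ex (t • M5 ω u) q) ≠ 0)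
    (p : E8 R) (hext : Ext p) (hu : ∃ m, IsUnit (p m))
    (hw : ∀ m, wtg 7 m ≠ 1 → p m = 0)
    (hI : ∀ v, f5 p v ∈ maximalIdeal R) (a : Fin 5 → Fin 7 → R)
    (hreg : IsWeaklyRegular R (List.ofFn fun j => f5 p (a j)))
    (h1 : ∀ y, y * nu5 ω p a ∈ Ideal.span (Set.range fun i => f5 p (a i)) →
      y ∈ LinearMap.range (f5 p))
    (h2 : ∀ y, (∀ v, y * f5 p v ∈ Ideal.span (Set.range fun i => f5 p (a i))) →
      y ∈ Ideal.span (Set.range fun i => f5 p (a i)) ⊔ Ideal.span {nu5 ω p a}) :
    IsLicci (LinearMap.range (f5 p)) := by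
  have := infinite_residue (R := R)
  refine LicciD.licci_of_descentC' (r := 4)
    (𝒮 := {p : E8 R // Ext p ∧ red p ≠ 0 ∧ ∀ m, wtg 7 m ≠ 1 → p m = 0}) (M := ℕ)
    (fun s => f5 s.1) (fun s => nu5 ω s.1)
    (fun s a v => nu5_cyc hc s.1 (fun i => s.2.1.om i) s.2.2.2 a v)
    (fun s => 6 - tdeg (red s.1)) ?_ ⟨p, hext, red_ne_zero hu, hw⟩ hI a hreg h1 h2
  rintro ⟨q, hq, hq0, hqw⟩ hm -
  have hd : tdeg (red q) ≤ 5 := tdeg_red_le fun i => by
    by_cases hi : i = 7
    · subst hi
      have h7 : p3 q 7 = 0 := hqw _ wt7_ix7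
      rw [h7]
      exact Ideal.zero_mem _
    · have hlt : (i : ℕ) < 7 := by
        by_contra hcon
        apply hi
        apply Fin.ext
        have := i.2
        change (i : ℕ) = 7
        omega
      have h3 := hm (Pi.single ⟨i, hlt⟩ 1)
      change fv q (i7 (Pi.single ⟨i, hlt⟩ 1)) ∈ maximalIdeal R at h3
      have h4 : i7 (Pi.single (⟨i, hlt⟩ : Fin 7) (1 : R)) = Pi.single i 1 := by
        funext m
        rw [i7_apply]
        refine Fin.lastCases ?_ (fun m => ?_) m
        · rw [Fin.snoc_last, Pi.single_eq_of_ne]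
          intro h6
          apply hi
          rw [← h6]
          rfl
        · rw [Fin.snoc_castSucc, Pi.single_apply, Pi.single_apply]
          refine if_congr ?_ rfl rfl
          rw [Fin.ext_iff, Fin.ext_iff]
          rfl
      rw [h4, fv_single] at h3
      exact h3
  refine (hrise q hq0 hd hqw).mono fun a ha => ha.mono fun t ht => ?_
  refine ⟨⟨ex (t • M5 ω (Fin.cons (Pi.single 7 1) (fun r => i7 (a r)))) q,
    hq.ex (M5_nil _ _ _), hne _ t q hq0, ?_⟩, ?_, ?_, ?_⟩
  · intro m hm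
    refine ex_wt ?_ hqw m hm
    intro m hm
    rw [Pi.smul_apply, M5_wt ω _ m hm, smul_zero]
  · intro v
    change fv _ (i7 v) = fv q (i7 v) + t * nu5 ω q (Fin.snoc a v)
    rw [hfv, nu5_apply, i7_snoc]
  · intro w
    change nu5 ω _ (Fin.snoc a w) = nu5 ω q (Fin.snoc a w)
    rw [nu5_apply, nu5_apply, i7_snoc]
    exact hnu _ t q _
  · have := tdeg_le (red (ex (t • M5 ω (Fin.cons (Pi.single 7 1) (fun r => i7 (a r)))) q))
    change 6 - tdeg (red (ex (t • M5 ω (Fin.cons (Pi.single 7 1) (fun r => i7 (a r)))) q)) <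
      6 - tdeg (red q)
    omega

/-- **Descent in codimension five.** -/
theorem licci_five (p : E8 R) (hext : Ext p) (hu : ∃ m, IsUnit (p m))
    (hw : ∀ m, wtg 7 m ≠ 1 → p m = 0)
    (hI : ∀ v, f5 p v ∈ maximalIdeal R) (a : Fin 5 → Fin 7 → R)
    (hreg : IsWeaklyRegular R (List.ofFn fun j => f5 p (a j)))
    (h1 : ∀ y, y * nu5 (dF R) p a ∈ Ideal.span (Set.range fun i => f5 p (a i)) →
      y ∈ LinearMap.range (f5 p))
    (h2 : ∀ y, (∀ v, y * f5 p v ∈ Ideal.span (Set.range fun i => f5 p (a i))) →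
      y ∈ Ideal.span (Set.range fun i => f5 p (a i)) ⊔ Ideal.span {nu5 (dF R) p a}) :
    IsLicci (LinearMap.range (f5 p)) :=
  licci_five_aux (dF R) cram_dF fv_move nu6_move gen_rise5
    (fun u t _ h => red_ex_ne_zero u t h) p hext hu hw hI a hreg h1 h2

end Pool.Agent.Licci
end

end

section

/-!
# LICCI, codimension 5 and 6: the descent in terms of linkage data (helper45)
-/

set_option linter.unusedSectionVars false

noncomputable section

namespace Pool.Agent.Licci

open scoped BigOperators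
open IsLocalRing RingTheory.Sequence LicciCodimFour

universe u

variable {R : Type u} [CommRing R]

theorem Cone.ext' [IsDomain R] [Algebra ℚ R] {p : E8 R} (h : Cone p) : Ext p :=
  fun y => ⟨-(2 * kf p y), h y⟩

/-- the class `w` only matters modulo the regular sequence -/
theorem D.GDat.congr [IsLocalRing R] {n c : ℕ} {f : (Fin n → R) →ₗ[R] R} {a : Fin c → Fin n → R}
    {w w' : R} (h : D.GDat R f a w)
    (hw : w' - w ∈ Ideal.span (Set.range fun i => f (a i))) : D.GDat R f a w' where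
  mem := h.mem
  reg := h.reg
  col y hy := by
    have h1 := h.col y hy
    rw [Submodule.mem_sup] at h1 ⊢
    obtain ⟨z, hz, x, hx, hzx⟩ := h1
    obtain ⟨r, rfl⟩ := Ideal.mem_span_singleton'.mp hx
    refine ⟨z - r * (w' - w), Ideal.sub_mem _ hz (Ideal.mul_mem_left _ _ hw), r * w',
      Ideal.mem_span_singleton'.mpr ⟨r, rfl⟩, ?_⟩
    rw [← hzx]
    ring
  ann y := by
    rw [← h.ann y]
    have e : y * w' = y * w + y * (w' - w) := by ring
    have h1 := Ideal.mul_mem_left (Ideal.span (Set.range fun i => f (a i))) y hw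
    rw [e]
    exact ⟨fun h2 => by
      have := Ideal.sub_mem _ h2 h1
      rwa [add_sub_cancel_right] at this, fun h2 => Ideal.add_mem _ h2 h1⟩

variable [IsLocalRing R] [IsNoetherianRing R] [IsDomain R] [Algebra ℚ R]

/-- **SIX.** -/
theorem six (p : E8 R) (hp : Cone p) (hu : ∃ m, IsUnit (p m)) (f : (Fin 8 → R) →ₗ[R] R)
    (hf : ∀ v, f v = fv p v) (a : Fin 6 → Fin 8 → R) (w : R) (h : D.GDat R f a w)
    (hw : nu6 (dF R) p a - w ∈ Ideal.span (Set.range fun i => f (a i))) :
    IsLicci (LinearMap.range f) := by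
  have hf' : f = fv p := LinearMap.ext hf
  subst hf'
  have h' := h.congr hw
  exact licci_six p hp.ext' hu h'.mem a h'.reg (fun y hy => (h'.ann y).mp hy) h'.col

/-- **FIVE.** -/
theorem five (p : E8 R) (hp : Cone p) (hu : ∃ m, IsUnit (p m)) (h1 : ∀ m, wtg 7 m ≠ 1 → p m = 0)
    (f : (Fin 7 → R) →ₗ[R] R) (hf : ∀ v, f v = f5 p v) (a : Fin 5 → Fin 7 → R) (w : R)
    (h : D.GDat R f a w)
    (hw : nu5 (dF R) p a - w ∈ Ideal.span (Set.range fun i => f (a i))) :
    IsLicci (LinearMap.range f) := by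
  have hf' : f = f5 p := LinearMap.ext hf
  subst hf'
  have h' := h.congr hw
  exact licci_five p hp.ext' hu h1 h'.mem a h'.reg (fun y hy => (h'.ann y).mp hy) h'.col

end Pool.Agent.Licci
end

end

section

/-!
# LICCI, codimension 5: the vector in the 56 from the vector in `e_8` over `R⟦X⟧` (helper62)

For the `ℤ`-grading `wtg q` of `e_8` (of type `1 | 56 | e_7 + 1 | 56 | 1`):

* `cone_cmp`: if `p` is extremal without component of weight `2`, its component of weight `1` is
  extremal;
* `cone_add`: if `p` is extremal of weight `1`, then `x • eb (ix q) + p` is extremal;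
* `exists_p56`: the vector in the 56 over `R` from a vector in `e_8` over `R⟦X⟧` whose component of
  `z`-degree `3` is `(f, X)`.
-/

set_option autoImplicit false

namespace Pool.Agent.Licci.V56

open scoped BigOperators

open U (Sup)

section weights

theorem kc_wtg (q : Fin 8) {i j : Fin 248} (h : kc i j ≠ 0) : wtg q i + wtg q j = 0 := by
  have h1 := kcN_wt i.2 j.2 h
  have h2 : cd i + cd j = cd 240 + off := by rw [h1, cd_cartan le_rfl (by norm_num)]
  have h3 := dg_add i.2 j.2 (k := 240) (by norm_num) h2 q q.2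
  have h4 : wtN 240 q = 0 := t_wtN_cartan le_rfl (by norm_num) q
  unfold wtN at h4
  unfold wtg wtN
  omega

theorem wtg_two : ∀ (q : Fin 8) (m : Fin 248), wtg q m = 2 → m = ix q := by decide +kernel

theorem wtg_neg_two : ∀ (q : Fin 8) (m : Fin 248), wtg q m = -2 → m = ix (232 + q) := by
  decide +kernel

theorem wtg_ix_self : ∀ q : Fin 8, wtg q (ix q) = 2 := by decide +kernel

theorem wtg_ix_ne : ∀ q r : Fin 8, q ≠ r → wtg q (ix r) = 1 := by decide +kernel

theorem wtg_i2 : ∀ q i j : Fin 8, i ≠ j → wtg q (i2 i j) = if q = i ∨ q = j then 0 else 1 := by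
  decide +kernel

end weights

variable {A : Type*} [CommRing A]

/-- component of weight `j` -/
def cmp (q : Fin 8) (j : ℤ) (y : E8 A) : E8 A := fun m => if wtg q m = j then y m else 0

theorem cmp_of_eq {q : Fin 8} {j : ℤ} {y : E8 A} {m : Fin 248} (h : wtg q m = j) :
    cmp q j y m = y m := if_pos h

theorem cmp_of_ne {q : Fin 8} {j : ℤ} {y : E8 A} {m : Fin 248} (h : wtg q m ≠ j) :
    cmp q j y m = 0 := if_neg h

theorem sup_cmp (q : Fin 8) (j : ℤ) (y : E8 A) : Sup (wtg q) j (cmp q j y) :=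
  fun _ hm => cmp_of_ne hm

theorem sup_eb (q : Fin 8) (n : Fin 248) : Sup (wtg q) (wtg q n) (eb n : E8 A) := by
  intro m hm
  rw [eb_apply, if_neg]
  rintro rfl
  exact hm rfl

theorem kf_eq_zero (q : Fin 8) {x y : E8 A} {a b : ℤ} (hx : Sup (wtg q) a x)
    (hy : Sup (wtg q) b y) (hab : a + b ≠ 0) : kf x y = 0 := by
  rw [kf_def]
  refine Finset.sum_eq_zero fun i _ => Finset.sum_eq_zero fun j _ => ?_
  by_cases h : kc i j = 0
  · rw [h, Int.cast_zero, zero_mul]
  · have h1 := kc_wtg q h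
    by_cases hi : wtg q i = a
    · rw [hy j (by omega), mul_zero, mul_zero]
    · rw [hx i hi, zero_mul, mul_zero]

theorem kf_eb_congr (q : Fin 8) {x y : E8 A} (n : Fin 248)
    (h : ∀ m, wtg q m = - wtg q n → x m = y m) : kf x (eb n) = kf y (eb n) := by
  rw [kf_def, kf_def]
  refine Finset.sum_congr rfl fun i _ => Finset.sum_congr rfl fun j _ => ?_
  by_cases hj : j = n
  · subst hj
    by_cases h0 : kc i j = 0
    · rw [h0, Int.cast_zero, zero_mul, zero_mul]
    · rw [h i (by have := kc_wtg q h0; omega)]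
  · rw [eb_apply, if_neg hj, mul_zero, mul_zero, mul_zero, mul_zero]

/-- the cone condition only has to be checked on basis vectors -/
theorem cone_of_basis {p : E8 A}
    (h : ∀ n, br p (br p (eb n)) = (-(2 * kf p (eb n))) • p) : Cone p := by
  intro y
  rw [E8.eq_sum y, br_sum_right, br_sum_right, kf_sum_right, Finset.mul_sum,
    ← Finset.sum_neg_distrib, Finset.sum_smul]
  refine Finset.sum_congr rfl fun n _ => ?_
  rw [br_smul_right, br_smul_right, h n, kf_smul_right, smul_smul]
  congr 1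
  ring

theorem cone_map {B : Type*} [CommRing B] (φ : A →+* B) {p : E8 A} (h : Cone p) :
    Cone (φ ∘ p : E8 B) := by
  have heb : ∀ n, (eb n : E8 B) = φ ∘ (eb n : E8 A) := by
    intro n
    funext m
    rw [eb_apply, Function.comp_apply, eb_apply]
    split_ifs <;> simp
  apply cone_of_basis
  intro n
  rw [heb, ← br_map, ← br_map, ← kf_map, h (eb n)]
  funext m
  simp only [Pi.smul_apply, Function.comp_apply, smul_eq_mul, map_mul, map_neg, map_ofNat]

theorem le_eb (q : Fin 8) (n : Fin 248) : Le (wtg q) (wtg q n) (eb n : E8 A) :=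
  fun m hm => sup_eb q n m (by omega)

/-- **component of weight one** -/
theorem cone_cmp (q : Fin 8) {p : E8 A} (h : Cone p) (h2 : ∀ m, 1 < wtg q m → p m = 0) :
    Cone (cmp q 1 p) := by
  apply cone_of_basis
  intro n
  funext k
  rw [Pi.smul_apply, smul_eq_mul]
  have hp : Le (wtg q) 1 p := h2
  have hp1 : Le (wtg q) 1 (cmp q 1 p) := fun m hm => cmp_of_ne (by omega)
  by_cases hk : wtg q k = 1 + (1 + wtg q n)
  · have e1 : ∀ m, wtg q m = 1 + wtg q n →
        br (cmp q 1 p) (eb n) m = br p (eb n : E8 A) m := fun m hm =>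
      br_top (fun i j k => sc_wtg q) hp1 (le_eb q n) hp (le_eb q n)
        (fun m hm => cmp_of_eq hm) (fun m _ => rfl) m hm
    have e2 : br (cmp q 1 p) (br (cmp q 1 p) (eb n)) k = br p (br p (eb n)) k :=
      br_top (fun i j k => sc_wtg q) hp1 (Le.br (fun i j k => sc_wtg q) hp1 (le_eb q n)) hp
        (Le.br (fun i j k => sc_wtg q) hp (le_eb q n))
        (fun m hm => cmp_of_eq hm) e1 k hk
    rw [e2, h (eb n), Pi.smul_apply, smul_eq_mul]
    rcases lt_trichotomy (wtg q n) (-1) with hj | hj | hj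
    · have e3 : kf p (eb n : E8 A) = 0 := by
        rw [kf_eb_congr q (x := p) (y := 0) n (fun m hm => h2 m (by omega)), kf_zero_left]
      rw [e3, cmp_of_ne (by omega : wtg q k ≠ 1)]
      ring
    · have e3 : kf p (eb n : E8 A) = kf (cmp q 1 p) (eb n) :=
        kf_eb_congr q n (fun m hm => (cmp_of_eq (by omega)).symm)
      rw [e3, cmp_of_eq (by omega : wtg q k = 1)]
    · rw [h2 k (by omega), cmp_of_ne (by omega : wtg q k ≠ 1), mul_zero, mul_zero]
  · have e1 : br (cmp q 1 p) (br (cmp q 1 p) (eb n)) k = 0 :=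
      Sup.br (fun i j k => sc_wtg q) (sup_cmp q 1 p)
        (Sup.br (fun i j k => sc_wtg q) (sup_cmp q 1 p) (sup_eb q n)) k hk
    rw [e1]
    by_cases h1 : wtg q k = 1
    · rw [kf_eq_zero q (sup_cmp q 1 p) (sup_eb q n) (by omega)]
      ring
    · rw [cmp_of_ne h1, mul_zero]

theorem sup_one_br_eb (q : Fin 8) {p : E8 A} (hp : Sup (wtg q) 1 p) :
    br (eb (ix q)) p = 0 := by
  funext m
  have := Sup.br (fun i j k => sc_wtg q) (sup_eb q (ix q)) hp (A := A) m
  apply this
  have h1 := wtg_ix_self q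
  have h2 := wtg_le q m
  omega

theorem sup_two (q : Fin 8) {u : E8 A} (hu : Sup (wtg q) 2 u) :
    u = kf u (wq q) • (eb (ix q) : E8 A) := by
  have h1 : u = u (ix q) • (eb (ix q) : E8 A) := by
    funext m
    rw [Pi.smul_apply, smul_eq_mul, eb_apply]
    by_cases hm : m = ix q
    · rw [if_pos hm, mul_one, hm]
    · rw [if_neg hm, mul_zero]
      exact hu m fun h => hm (wtg_two q m h)
  have h2 : kf u (wq q) = u (ix q) := by
    rw [h1, kf_smul_left, (pair_eb q).one, mul_one, Pi.smul_apply, smul_eq_mul, eb_apply,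
      if_pos rfl, mul_one]
  rw [h2]
  exact h1

theorem br_hq_sup (q : Fin 8) {y : E8 A} {j : ℤ} (hy : Sup (wtg q) j y) :
    br (hq q) y = (j : A) • y := by
  funext m
  rw [br_hq, Pi.smul_apply, smul_eq_mul]
  by_cases h : wtg q m = j
  · rw [h]
  · rw [hy m h, mul_zero, mul_zero]

theorem key_basis (q : Fin 8) {p : E8 A} (hp : Sup (wtg q) 1 p) (n : Fin 248) :
    br (eb (ix q)) (br p (eb n)) =
      -(kf (eb (ix q)) (eb n : E8 A) • p + kf p (eb n : E8 A) • (eb (ix q) : E8 A)) := by
  have he : Sup (wtg q) 2 (eb (ix q) : E8 A) := by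
    have := sup_eb (A := A) q (ix q)
    rwa [wtg_ix_self] at this
  have hn := sup_eb (A := A) q n
  have hL : Sup (wtg q) (2 + (1 + wtg q n)) (br (eb (ix q)) (br p (eb n : E8 A))) :=
    Sup.br (fun i j k => sc_wtg q) he (Sup.br (fun i j k => sc_wtg q) hp hn)
  have hge := wtg_ge q n
  rcases lt_trichotomy (wtg q n) (-1) with hj | hj | hj
  · have hn2 : wtg q n = -2 := by omega
    have hw : (eb n : E8 A) = - wq q := by
      rw [wtg_neg_two q n hn2, wq, neg_neg]
    have e1 : kf (eb (ix q) : E8 A) (eb n) = -1 := by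
      rw [hw, kf_neg_right, (pair_eb q).one]
    have e2 : kf p (eb n : E8 A) = 0 := kf_eq_zero q hp hn (by omega)
    rw [e1, e2, jacobi, sup_one_br_eb q hp, br_zero_left, zero_add, zero_smul, add_zero]
    have e3 : br (eb (ix q)) (eb n) = - (hq q : E8 A) := by
      rw [hw, br_neg_right]
      rfl
    rw [e3, br_neg_right, ← br_skew, br_hq_sup q hp]
    simp
  · have hL' : Sup (wtg q) 2 (br (eb (ix q)) (br p (eb n : E8 A))) := by
      rw [hj] at hL
      exact hL
    rw [sup_two q hL', kf_eq_zero q he hn (by omega), zero_smul, zero_add]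
    have e1 : kf (br (eb (ix q)) (br p (eb n))) (wq q : E8 A) = - kf p (eb n : E8 A) := by
      rw [kf_br_left]
      change - kf (br p (eb n)) (hq q : E8 A) = _
      rw [kf_inv, br_skew, kf_neg_right, br_hq_sup q hn, hj, kf_smul_right]
      push_cast
      ring
    rw [e1, neg_smul]
  · have e0 : br (eb (ix q)) (br p (eb n : E8 A)) = 0 := by
      funext m
      exact hL m (by have := wtg_le q m; omega)
    rw [e0, kf_eq_zero q he hn (by omega), kf_eq_zero q hp hn (by omega)]
    simp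

theorem key_all (q : Fin 8) {p : E8 A} (hp : Sup (wtg q) 1 p) (y : E8 A) :
    br (eb (ix q)) (br p y) = -(kf (eb (ix q)) y • p + kf p y • (eb (ix q) : E8 A)) := by
  conv_lhs => rw [E8.eq_sum y, br_sum_right, br_sum_right]
  conv_rhs => rw [E8.eq_sum y, kf_sum_right, kf_sum_right, Finset.sum_smul, Finset.sum_smul,
    ← Finset.sum_add_distrib, ← Finset.sum_neg_distrib]
  refine Finset.sum_congr rfl fun n _ => ?_
  rw [br_smul_right, br_smul_right, key_basis q hp n, kf_smul_right, kf_smul_right, smul_neg,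
    smul_add, smul_smul, smul_smul]

/-- **adding a multiple of the vector of weight two** -/
theorem cone_add (q : Fin 8) {p : E8 A} (h : Cone p) (hp : Sup (wtg q) 1 p) (x : A) :
    Cone (x • (eb (ix q) : E8 A) + p) := by
  intro y
  have e1 := key_all q hp y
  have e2 : br p (br (eb (ix q)) y) = br (eb (ix q)) (br p y) := by
    rw [jacobi, br_skew p, sup_one_br_eb q hp, neg_zero, br_zero_left, zero_add]
  have e3 := cone_eb (A := A) q y
  have e4 := h y
  simp only [br_add_left, br_add_right, br_smul_left, br_smul_right]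
  rw [e2, e3, e4, e1, kf_add_left, kf_smul_left]
  funext m
  simp only [Pi.add_apply, Pi.smul_apply, Pi.neg_apply, smul_eq_mul]
  ring

/-! ### power series -/

open PowerSeries in
/-- **the vector in the 56** over `R` from a vector in `e_8` over `R⟦X⟧` -/
theorem exists_p56 {R : Type*} [CommRing R] (g : Fin 7 → R) {p' : E8 R⟦X⟧} (hc : Cone p')
    (h3 : ∀ i : Fin 8, p' (ix i) = Fin.snoc (α := fun _ => R⟦X⟧) (fun i => C (g i)) X i) :
    ∃ p : E8 R, Cone p ∧ Sup (wtg 7) 1 p ∧
      (∀ i : Fin 8, p (ix i) = Fin.snoc (α := fun _ => R) g 0 i) ∧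
      (∀ i j : Fin 8, i ≠ 7 → j ≠ 7 → w2 p i j = constantCoeff (w2 p' i j)) ∧
      (∀ i j : Fin 8, i = 7 ∨ j = 7 → w2 p i j = 0) := by
  let p0 : E8 R := (constantCoeff (R := R)) ∘ p'
  have hp0 : Cone p0 := cone_map _ hc
  have h3' : ∀ i : Fin 8, p0 (ix i) = Fin.snoc (α := fun _ => R) g 0 i := by
    intro i
    show constantCoeff (p' (ix i)) = _
    rw [h3 i]
    refine Fin.lastCases ?_ (fun j => ?_) i
    · rw [Fin.snoc_last, Fin.snoc_last, constantCoeff_X]
    · rw [Fin.snoc_castSucc, Fin.snoc_castSucc, constantCoeff_C]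
  have h70 : p0 (ix (7 : Fin 8)) = 0 := by
    rw [h3' 7, show (7 : Fin 8) = Fin.last 7 from rfl, Fin.snoc_last]
  have h2 : ∀ m, 1 < wtg 7 m → p0 m = 0 := by
    intro m hm
    have h4 := wtg_le 7 m
    rw [wtg_two 7 m (by omega)]
    exact h70
  have hw2 : ∀ i j, w2 (cmp 7 1 p0) i j =
      if i = j ∨ i = 7 ∨ j = 7 then 0 else constantCoeff (w2 p' i j) := by
    intro i j
    unfold w2
    by_cases hij : i = j
    · rw [if_pos (Or.inl hij), hij]
      have : ep2 j j = 0 := by simp [ep2]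
      rw [this, Int.cast_zero, zero_mul]
    · have h5 := wtg_i2 7 i j hij
      by_cases h7 : i = 7 ∨ j = 7
      · rw [if_pos (Or.inr h7), cmp_of_ne, mul_zero]
        rw [h5, if_pos (by rcases h7 with h | h <;> simp [h])]
        norm_num
      · rw [if_neg (by tauto), cmp_of_eq, map_mul, map_intCast]
        · rfl
        · rw [h5, if_neg]
          push Not at h7 ⊢
          exact ⟨fun h => h7.1 h.symm, fun h => h7.2 h.symm⟩
  refine ⟨cmp 7 1 p0, cone_cmp 7 hp0 h2, sup_cmp 7 1 p0, fun i => ?_, fun i j hi hj => ?_,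
    fun i j h => ?_⟩
  · by_cases h7 : i = 7
    · subst h7
      rw [cmp_of_ne]
      · rw [show (7 : Fin 8) = Fin.last 7 from rfl, Fin.snoc_last]
      · rw [wtg_ix_self]
        norm_num
    · rw [cmp_of_eq (wtg_ix_ne 7 i (Ne.symm h7)), h3' i]
  · rw [hw2]
    by_cases hij : i = j
    · rw [if_pos (Or.inl hij), hij]
      have : ep2 j j = 0 := by simp [ep2]
      rw [w2, this, Int.cast_zero, zero_mul, map_zero]
    · rw [if_neg (by tauto)]
  · rw [hw2, if_pos (Or.inr h)]

open PowerSeries in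
/-- the vector `X e + p` -/
noncomputable def up {S : Type*} [CommRing S] (p : E8 S) : E8 S⟦X⟧ :=
  (X : S⟦X⟧) • (eb (ix (7 : Fin 8)) : E8 S⟦X⟧) + (C (R := S)) ∘ p

open PowerSeries in
theorem cone_up {S : Type*} [CommRing S] {p : E8 S} (h : Cone p) (hp : Sup (wtg 7) 1 p) :
    Cone (up p) := by
  refine cone_add 7 (cone_map _ h) (fun m hm => ?_) _
  rw [Function.comp_apply, hp m hm, map_zero]

open PowerSeries in
theorem up_apply {S : Type*} [CommRing S] (p : E8 S) (m : Fin 248) :
    up p m = (if m = ix (7 : Fin 8) then X else 0) + C (p m) := by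
  rw [up, Pi.add_apply, Pi.smul_apply, eb_apply, smul_eq_mul, Function.comp_apply]
  split_ifs <;> simp

open PowerSeries in
theorem constantCoeff_up {S : Type*} [CommRing S] (p : E8 S) (m : Fin 248) :
    constantCoeff (up p m) = p m := by
  rw [up_apply, map_add, constantCoeff_C]
  split_ifs <;> simp

theorem isUnit_of_up {S : Type*} [CommRing S] {p : E8 S} {m : Fin 248} (h : IsUnit (up p m)) :
    IsUnit (p m) := by
  have := h.map (PowerSeries.constantCoeff (R := S))
  rwa [constantCoeff_up] at this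

open PowerSeries in
theorem ix_up {S : Type*} [CommRing S] {p : E8 S} {g : Fin 7 → S}
    (h : ∀ i : Fin 8, p (ix i) = Fin.snoc (α := fun _ => S) g 0 i) (i : Fin 8) :
    up p (ix i) = Fin.snoc (α := fun _ => S⟦X⟧) (fun i => C (g i)) X i := by
  rw [up_apply, h i]
  refine Fin.lastCases ?_ (fun j => ?_) i
  · rw [Fin.snoc_last, Fin.snoc_last, map_zero, add_zero]
    exact if_pos rfl
  · rw [Fin.snoc_castSucc, Fin.snoc_castSucc, if_neg, zero_add]
    have : ∀ j : Fin 7, ix (j.castSucc : Fin 8) ≠ ix (7 : Fin 8) := by decide +kernel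
    exact this j

open PowerSeries in
theorem w2_up {S : Type*} [CommRing S] (p : E8 S) (i j : Fin 8) :
    w2 (up p) i j = C (w2 p i j) := by
  unfold w2
  rw [up_apply, map_mul, map_intCast]
  have h : ∀ i j : Fin 8, ep2 i j = 0 ∨ i2 i j ≠ ix (7 : Fin 8) := by decide +kernel
  rcases h i j with h | h
  · rw [h, Int.cast_zero, zero_mul, zero_mul]
  · rw [if_neg h, zero_add]

end Pool.Agent.Licci.V56

end

section

/-!
MP_a98e4e_ag (licci), module Z2 (helper23): the power series ring over a regular local ring and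
the passage from Gorenstein data of grade `c` over `R` to Gorenstein data of grade `c + 1` over
`R⟦X⟧`: `f' = (f, X)`, `a' = (e_last, a)`, `w' = w`.
-/

set_option autoImplicit false

namespace Pool.Agent.Licci.D

open IsLocalRing RingTheory.Sequence PowerSeries

universe u

/-! ## the ring -/

section ring

variable (R : Type u) [CommRing R]

theorem ps_decomp (y : R⟦X⟧) : ∃ z : R⟦X⟧, y = C (constantCoeff y) + X * z := by
  obtain ⟨z, hz⟩ := (X_dvd_iff (φ := y - C (constantCoeff y))).2 (by simp)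
  exact ⟨z, by rw [← hz]; ring⟩

variable [IsLocalRing R]

theorem ps_mem_maximalIdeal (y : R⟦X⟧) :
    y ∈ maximalIdeal R⟦X⟧ ↔ constantCoeff y ∈ maximalIdeal R := by
  rw [mem_maximalIdeal, mem_maximalIdeal, mem_nonunits_iff, mem_nonunits_iff,
    PowerSeries.isUnit_iff_constantCoeff]

theorem ps_C_mem {r : R} : (C r : R⟦X⟧) ∈ maximalIdeal R⟦X⟧ ↔ r ∈ maximalIdeal R := by
  rw [ps_mem_maximalIdeal, constantCoeff_C]

theorem ps_maximalIdeal (s : Set R) (hs : Ideal.span s = maximalIdeal R) :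
    maximalIdeal R⟦X⟧ = Ideal.span (insert X ((C : R →+* R⟦X⟧) '' s)) := by
  have h1 : (maximalIdeal R).map (C : R →+* R⟦X⟧) = Ideal.span ((C : R →+* R⟦X⟧) '' s) := by
    rw [← hs, Ideal.map_span]
  rw [Ideal.span_insert, ← h1]
  apply le_antisymm
  · intro y hy
    rw [ps_mem_maximalIdeal] at hy
    obtain ⟨z, hz⟩ := ps_decomp R y
    rw [hz, add_comm]
    exact Ideal.add_mem _ (Ideal.mem_sup_left (Ideal.mul_mem_right _ _
      (Ideal.mem_span_singleton_self _))) (Ideal.mem_sup_right (Ideal.mem_map_of_mem _ hy))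
  · apply sup_le
    · rw [Ideal.span_singleton_le_iff_mem, ps_mem_maximalIdeal, constantCoeff_X]
      exact Ideal.zero_mem _
    · rw [Ideal.map_le_iff_le_comap]
      intro r hr
      exact (ps_C_mem R).2 hr

end ring

section regular

variable (R : Type u) [CommRing R] [IsRegularLocalRing R]

theorem ps_spanFinrank_le :
    (maximalIdeal R⟦X⟧).spanFinrank ≤ (maximalIdeal R).spanFinrank + 1 := by
  obtain ⟨s, hs1, hs2⟩ := Submodule.FG.exists_span_set_encard_eq_spanFinrank
    (IsNoetherian.noetherian (maximalIdeal R) : (maximalIdeal R).FG)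
  have hfin : s.Finite := Set.finite_of_encard_eq_coe hs1
  have h1 := ps_maximalIdeal R s hs2
  have h2 : (insert X ((C : R →+* R⟦X⟧) '' s)).Finite := (hfin.image _).insert _
  have h3 := Submodule.spanFinrank_span_le_ncard_of_finite (R := R⟦X⟧) h2
  have h4 : (maximalIdeal R⟦X⟧).spanFinrank ≤ (insert X ((C : R →+* R⟦X⟧) '' s)).ncard := by
    rw [h1]; exact h3
  have h5 : (insert X ((C : R →+* R⟦X⟧) '' s)).ncard ≤ s.ncard + 1 :=
    (Set.ncard_insert_le _ _).trans (Nat.add_le_add_right (Set.ncard_image_le hfin) 1)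
  have h6 : s.ncard = (maximalIdeal R).spanFinrank := by
    rw [Set.ncard, hs1]; rfl
  omega

instance ps_regular : IsRegularLocalRing R⟦X⟧ := by
  refine IsRegularLocalRing.of_spanFinrank_maximalIdeal_le (R := R⟦X⟧) ?_
  have h1 := ringKrullDim_succ_le_ringKrullDim_powerseries (R := R)
  have h2 := IsRegularLocalRing.spanFinrank_maximalIdeal (R := R)
  have h3 := ps_spanFinrank_le R
  refine le_trans ?_ h1
  rw [← h2]
  exact_mod_cast h3

theorem ps_spanFinrank :
    (maximalIdeal R⟦X⟧).spanFinrank = (maximalIdeal R).spanFinrank + 1 := by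
  refine le_antisymm (ps_spanFinrank_le R) ?_
  have h1 := ringKrullDim_succ_le_ringKrullDim_powerseries (R := R)
  rw [← IsRegularLocalRing.spanFinrank_maximalIdeal (R := R),
    ← IsRegularLocalRing.spanFinrank_maximalIdeal (R := R⟦X⟧)] at h1
  exact_mod_cast h1

end regular

/-! ## the datum -/

section datum

variable {R : Type u} [CommRing R]

/-- the linear form `(f, X)` -/
noncomputable def extForm {n : ℕ} (f : (Fin n → R) →ₗ[R] R) : (Fin (n + 1) → R⟦X⟧) →ₗ[R⟦X⟧] R⟦X⟧ :=
  Fintype.linearCombination R⟦X⟧ (Fin.snoc (fun i => C (f (Pi.single i 1))) X)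

/-- the vector `(a, 0)` -/
noncomputable def extVec {n : ℕ} (a : Fin n → R) : Fin (n + 1) → R⟦X⟧ := Fin.snoc (fun i => C (a i)) 0

/-- the tuple `(e_last, a)` -/
noncomputable def extTup {n c : ℕ} (a : Fin c → Fin n → R) : Fin (c + 1) → Fin (n + 1) → R⟦X⟧ :=
  Fin.cons (Pi.single (Fin.last n) 1) fun i => extVec (a i)

theorem extForm_apply {n : ℕ} (f : (Fin n → R) →ₗ[R] R) (v : Fin (n + 1) → R⟦X⟧) :
    extForm f v = ∑ i : Fin n, v i.castSucc * C (f (Pi.single i 1)) + v (Fin.last n) * X := by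
  rw [extForm, Fintype.linearCombination_apply, Fin.sum_univ_castSucc]
  simp

theorem form_eq {n : ℕ} (f : (Fin n → R) →ₗ[R] R) (v : Fin n → R) :
    f v = ∑ i, v i * f (Pi.single i 1) := by
  conv_lhs => rw [pi_eq_sum_univ' v]
  rw [map_sum]
  refine Finset.sum_congr rfl fun i _ => ?_
  rw [map_smul, smul_eq_mul]

theorem extForm_last {n : ℕ} (f : (Fin n → R) →ₗ[R] R) :
    extForm f (Pi.single (Fin.last n) 1) = X := by
  rw [extForm, Fintype.linearCombination_apply, Finset.sum_eq_single (Fin.last n)]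
  · simp
  · intro j _ hj
    rw [Pi.single_eq_of_ne hj, zero_smul]
  · simp

theorem extForm_castSucc {n : ℕ} (f : (Fin n → R) →ₗ[R] R) (i : Fin n) :
    extForm f (Pi.single i.castSucc 1) = C (f (Pi.single i 1)) := by
  rw [extForm, Fintype.linearCombination_apply, Finset.sum_eq_single i.castSucc]
  · simp
  · intro j _ hj
    rw [Pi.single_eq_of_ne hj, zero_smul]
  · simp

theorem extForm_extVec {n : ℕ} (f : (Fin n → R) →ₗ[R] R) (v : Fin n → R) :
    extForm f (extVec v) = C (f v) := by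
  rw [extForm_apply, form_eq f v]
  simp [extVec]

theorem constantCoeff_extForm {n : ℕ} (f : (Fin n → R) →ₗ[R] R) (v : Fin (n + 1) → R⟦X⟧) :
    constantCoeff (extForm f v) = f fun i => constantCoeff (v i.castSucc) := by
  rw [extForm_apply, form_eq f]
  simp

theorem mem_range_extForm {n : ℕ} (f : (Fin n → R) →ₗ[R] R) (y : R⟦X⟧) :
    y ∈ LinearMap.range (extForm f) ↔ constantCoeff y ∈ LinearMap.range f := by
  constructor
  · rintro ⟨v, rfl⟩
    exact ⟨_, (constantCoeff_extForm f v).symm⟩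
  · rintro ⟨v, hv⟩
    obtain ⟨z, hz⟩ := ps_decomp R y
    rw [hz]
    refine Submodule.add_mem _ ⟨extVec v, ?_⟩ ⟨z • Pi.single (Fin.last n) 1, ?_⟩
    · rw [extForm_extVec, hv]
    · rw [map_smul, extForm_last, smul_eq_mul, mul_comm]

theorem mem_span_extTup {n c : ℕ} (f : (Fin n → R) →ₗ[R] R) (a : Fin c → Fin n → R) (y : R⟦X⟧) :
    y ∈ Ideal.span (Set.range fun i => extForm f (extTup a i)) ↔
      constantCoeff y ∈ Ideal.span (Set.range fun i => f (a i)) := by
  constructor
  · intro hy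
    have h1 : Ideal.span (Set.range fun i => extForm f (extTup a i)) ≤
        (Ideal.span (Set.range fun i => f (a i))).comap (constantCoeff (R := R)) := by
      rw [Ideal.span_le]
      rintro _ ⟨i, rfl⟩
      refine Fin.cases ?_ (fun i => ?_) i
      · show constantCoeff (extForm f (extTup a 0)) ∈ Ideal.span (Set.range fun i => f (a i))
        rw [extTup, Fin.cons_zero, extForm_last, constantCoeff_X]
        exact Ideal.zero_mem _
      · show constantCoeff (extForm f (extTup a i.succ)) ∈ Ideal.span (Set.range fun i => f (a i))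
        rw [extTup, Fin.cons_succ, extForm_extVec, constantCoeff_C]
        exact Ideal.subset_span ⟨i, rfl⟩
    exact h1 hy
  · intro hy
    obtain ⟨z, hz⟩ := ps_decomp R y
    rw [hz]
    refine Ideal.add_mem _ ?_ ?_
    · have h1 : (Ideal.span (Set.range fun i => f (a i))).map (C : R →+* R⟦X⟧) ≤
          Ideal.span (Set.range fun i => extForm f (extTup a i)) := by
        rw [Ideal.map_span, Ideal.span_le]
        rintro _ ⟨_, ⟨i, rfl⟩, rfl⟩
        refine Ideal.subset_span ⟨i.succ, ?_⟩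
        show extForm f (extTup a i.succ) = _
        rw [extTup, Fin.cons_succ, extForm_extVec]
      exact h1 (Ideal.mem_map_of_mem _ hy)
    · refine Ideal.mul_mem_right _ _ (Ideal.subset_span ⟨0, ?_⟩)
      show extForm f (extTup a 0) = _
      rw [extTup, Fin.cons_zero, extForm_last]

theorem ext_col {n c : ℕ} {f : (Fin n → R) →ₗ[R] R} {a : Fin c → Fin n → R} {w : R}
    (h : ∀ y, (∀ v, y * f v ∈ Ideal.span (Set.range fun i => f (a i))) →
      y ∈ Ideal.span (Set.range fun i => f (a i)) ⊔ Ideal.span {w}) (y : R⟦X⟧)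
    (hy : ∀ v, y * extForm f v ∈ Ideal.span (Set.range fun i => extForm f (extTup a i))) :
    y ∈ Ideal.span (Set.range fun i => extForm f (extTup a i)) ⊔ Ideal.span {C w} := by
  have h1 := h (constantCoeff y) (fun v => by
    have := (mem_span_extTup f a _).1 (hy (extVec v))
    rwa [map_mul, extForm_extVec, constantCoeff_C] at this)
  obtain ⟨s, hs, t, ht, hst⟩ := Submodule.mem_sup.1 h1
  obtain ⟨r, rfl⟩ := Ideal.mem_span_singleton'.1 ht
  have h2 : y - C (r * w) ∈ Ideal.span (Set.range fun i => extForm f (extTup a i)) := by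
    rw [mem_span_extTup, map_sub, constantCoeff_C, ← hst, add_sub_cancel_right]
    exact hs
  have h3 : y = (y - C (r * w)) + C r * C w := by rw [map_mul]; ring
  rw [h3]
  exact Ideal.add_mem _ (Ideal.mem_sup_left h2) (Ideal.mem_sup_right
    (Ideal.mul_mem_left _ _ (Ideal.mem_span_singleton_self _)))

theorem ext_iff {n c : ℕ} {f : (Fin n → R) →ₗ[R] R} {a : Fin c → Fin n → R} {w : R}
    (h : ∀ y, y * w ∈ Ideal.span (Set.range fun i => f (a i)) ↔ y ∈ LinearMap.range f) (y : R⟦X⟧) :
    y * C w ∈ Ideal.span (Set.range fun i => extForm f (extTup a i)) ↔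
      y ∈ LinearMap.range (extForm f) := by
  rw [mem_span_extTup, mem_range_extForm, map_mul, constantCoeff_C, h]

theorem ext_primary [IsLocalRing R] {n : ℕ} {f : (Fin n → R) →ₗ[R] R}
    (h : ∃ k, ∀ r ∈ maximalIdeal R ^ k, r ∈ LinearMap.range f) :
    ∃ k, ∀ r ∈ maximalIdeal R⟦X⟧ ^ k, r ∈ LinearMap.range (extForm f) := by
  obtain ⟨k, hk⟩ := h
  refine ⟨k, fun r hr => ?_⟩
  rw [mem_range_extForm]
  apply hk
  have h1 : (maximalIdeal R⟦X⟧).map (constantCoeff (R := R)) ≤ maximalIdeal R := by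
    rw [Ideal.map_le_iff_le_comap]
    intro y hy
    exact (ps_mem_maximalIdeal R y).1 hy
  have h2 := Ideal.mem_map_of_mem (constantCoeff (R := R)) hr
  rw [Ideal.map_pow] at h2
  exact Ideal.pow_right_mono h1 k h2

end datum

/-! ## regular sequences -/

section seq

variable {R : Type u} [CommRing R]

theorem X_isSMulRegular : IsSMulRegular R⟦X⟧ (X : R⟦X⟧) := by
  intro a b hab
  have h : (X : R⟦X⟧) * a = X * b := hab
  exact X_mul_inj.1 h

/-- the constant coefficient as a semilinear map -/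
noncomputable def ccSemi (R : Type u) [CommRing R] : R⟦X⟧ →ₛₗ[constantCoeff (R := R)] R where
  toFun := constantCoeff
  map_add' x y := map_add _ x y
  map_smul' c x := by rw [smul_eq_mul, map_mul, smul_eq_mul]

/-- `R⟦X⟧ / X → R` -/
noncomputable def ccQuot (R : Type u) [CommRing R] : QuotSMulTop (X : R⟦X⟧) R⟦X⟧ →ₗ[R] R where
  toFun := Submodule.liftQ _ (ccSemi R) (by
    intro y hy
    obtain ⟨z, -, rfl⟩ := (Submodule.mem_smul_pointwise_iff_exists _ _ _).1 hy
    show constantCoeff (X * z) = 0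
    simp)
  map_add' x y := map_add _ x y
  map_smul' c x := by
    have h : c • x = (C c : R⟦X⟧) • x := (algebraMap_smul R⟦X⟧ c x).symm
    rw [h, LinearMap.map_smulₛₗ, constantCoeff_C]
    rfl

theorem ccQuot_bij (R : Type u) [CommRing R] : Function.Bijective (ccQuot R) := by
  constructor
  · rw [injective_iff_map_eq_zero]
    intro x hx
    obtain ⟨y, rfl⟩ := Submodule.Quotient.mk_surjective _ x
    have hx' : constantCoeff y = 0 := hx
    obtain ⟨z, hz⟩ := ps_decomp R y
    rw [hx', map_zero, zero_add] at hz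
    rw [Submodule.Quotient.mk_eq_zero]
    exact (Submodule.mem_smul_pointwise_iff_exists _ _ _).2 ⟨z, trivial, hz.symm⟩
  · intro r
    exact ⟨Submodule.Quotient.mk (C r), constantCoeff_C r⟩

/-- `X` followed by a weakly regular sequence of `R` -/
theorem ext_regular (rs : List R) (h : IsWeaklyRegular R rs) :
    IsWeaklyRegular R⟦X⟧ (X :: rs.map (C : R →+* R⟦X⟧)) := by
  rw [isWeaklyRegular_cons_iff]
  refine ⟨X_isSMulRegular, ?_⟩
  have hC : (C : R →+* R⟦X⟧) = algebraMap R R⟦X⟧ := rfl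
  rw [hC, isWeaklyRegular_map_algebraMap_iff]
  refine ((LinearEquiv.ofBijective (ccQuot R) (ccQuot_bij R)).symm.isWeaklyRegular_congr rs).1 h

/-- the list `f' (a' ·)` -/
theorem ext_ofFn {n c : ℕ} (f : (Fin n → R) →ₗ[R] R) (a : Fin c → Fin n → R) :
    List.ofFn (fun i => extForm f (extTup a i)) =
      X :: (List.ofFn fun i => f (a i)).map (C : R →+* R⟦X⟧) := by
  rw [List.ofFn_succ, List.map_ofFn]
  congr 1
  · rw [extTup, Fin.cons_zero, extForm_last]
  · congr 1
    funext i
    show extForm f (extTup a i.succ) = C (f (a i))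
    rw [extTup, Fin.cons_succ, extForm_extVec]

theorem ext_regular_tup {n c : ℕ} {f : (Fin n → R) →ₗ[R] R} {a : Fin c → Fin n → R}
    (h : IsWeaklyRegular R (List.ofFn fun i => f (a i))) :
    IsWeaklyRegular R⟦X⟧ (List.ofFn fun i => extForm f (extTup a i)) := by
  rw [ext_ofFn]
  exact ext_regular _ h

end seq

end Pool.Agent.Licci.D

end

section

/-!
# LICCI: `MainG R 6` and `MainG R 5` from the core (helper62)
-/

set_option autoImplicit false

noncomputable section

namespace Pool.Agent.Licci.Fin6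

open scoped BigOperators
open IsLocalRing RingTheory.Sequence LicciCodimFour D
open U (Sup)
open V56 (cone_map)

universe u

/-! ### base change -/

section map

variable {A B : Type*} [CommRing A] [CommRing B] (φ : A →+* B)

theorem p3_map (p : E8 A) (i : Fin 8) : p3 (φ ∘ p) i = φ (p3 p i) := rfl

theorem w2_map (p : E8 A) (i j : Fin 8) : w2 (φ ∘ p) i j = φ (w2 p i j) := by
  unfold w2
  rw [map_mul, map_intCast]
  rfl

theorem fv_map (p : E8 A) (v : Vec A) : fv (φ ∘ p) (fun i => φ (v i)) = φ (fv p v) := by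
  rw [fv_apply, fv_apply, map_sum]
  refine Finset.sum_congr rfl fun m _ => ?_
  rw [map_mul, p3_map]

theorem single_map (i s : Fin 8) : φ ((Pi.single i 1 : Vec A) s) = (Pi.single i 1 : Vec B) s := by
  rw [Pi.single_apply, Pi.single_apply]
  split_ifs
  · exact map_one φ
  · exact map_zero φ

theorem vol2_map (i j : Fin 8) (a : Fin 6 → Vec A) :
    φ (vol2 (dF A) i j a) = vol2 (dF B) i j (fun r s => φ (a r s)) := by
  rw [vol2_apply, vol2_apply, dF_map φ]
  congr 1
  funext r s
  refine Fin.cases ?_ (fun r => ?_) r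
  · exact single_map φ i s
  · refine Fin.cases ?_ (fun r => ?_) r
    · exact single_map φ j s
    · rfl

variable [Algebra ℚ A] [Algebra ℚ B]

theorem nu6_congr (ω : Vec A [⋀^Fin 8]→ₗ[A] A) {Y Z : E8 A} (h : ∀ i j, w2 Y i j = w2 Z i j)
    (a : Fin 6 → Vec A) : nu6 ω Y a = nu6 ω Z a := by
  rw [nu6_apply, nu6_apply]
  simp only [h]

theorem nu6_map (p : E8 A) (a : Fin 6 → Vec A) :
    φ (nu6 (dF A) p a) = nu6 (dF B) (φ ∘ p) (fun r s => φ (a r s)) := by
  rw [nu6_apply, nu6_apply]
  simp only [map_mul, map_sum, vol2_map, w2_map, φ.map_rat_algebraMap]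

end map

/-! ### the core and the point of the cone -/

/-- the core: a point of the cone which represents linkage data over a regular local ring of
dimension six has a unit coordinate -/
def CoreUnit (S : Type u) [CommRing S] [IsRegularLocalRing S] [Algebra ℚ S] : Prop :=
  ∀ (p : E8 S) (a : Fin 6 → Fin 8 → S) (w : S), Cone p → GDat S (fv p) a w →
    nu6 (dF S) p a - w ∈ Ideal.span (Set.range fun i => fv p (a i)) →
    ringKrullDim S = (6 : ℕ) → ∃ m, IsUnit (p m)

/-- the linear form of a vector -/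
def fL' {R : Type*} [CommRing R] {n : ℕ} (f : Fin n → R) : (Fin n → R) →ₗ[R] R :=
  Fintype.linearCombination R f

/-- existence of the point of the cone -/
def PointCone (R : Type u) [CommRing R] : Prop :=
  ∀ (f : Vec R), HasReg (fL' f) 6 → ∀ (z : Fin 8 → Fin 8 → R), (∀ i, z i i = 0) →
    (∀ i j, z i j = - z j i) → (∀ j, ∑ i, f i * z i j = 0) →
    ∃ p : E8 R, p3 p = f ∧ (∀ i j, w2 p i j = z i j) ∧ Cone p

/-- from `6`-forms to bivectors -/
def Hodge6 (R : Type u) [CommRing R] [Algebra ℚ R] : Prop :=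
  ∀ (f : (Fin 8 → R) →ₗ[R] R) (ν : (Fin 8 → R) [⋀^Fin 6]→ₗ[R] R), wedge f 6 ν = 0 →
    ∃ z : Fin 8 → Fin 8 → R, (∀ i, z i i = 0) ∧ (∀ i j, z i j = - z j i) ∧
      (∀ j, ∑ i, f (Pi.single i 1) * z i j = 0) ∧
      ∀ p : E8 R, (∀ i j, w2 p i j = z i j) → nu6 (dF R) p = ν

/-- from `5`-forms to bivectors -/
def Hodge5 (R : Type u) [CommRing R] [Algebra ℚ R] : Prop :=
  ∀ (f : (Fin 7 → R) →ₗ[R] R) (ν : (Fin 7 → R) [⋀^Fin 5]→ₗ[R] R), wedge f 5 ν = 0 →
    ∃ z : Fin 8 → Fin 8 → R, (∀ i, z i i = 0) ∧ (∀ i j, z i j = - z j i) ∧ (∀ i, z i 7 = 0) ∧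
      (∀ j, ∑ i : Fin 7, f (Pi.single i 1) * z i.castSucc j = 0) ∧
      ∀ p : E8 R, (∀ i j, w2 p i j = z i j) → nu5 (dF R) p = ν

theorem form_eq_fL' {R : Type*} [CommRing R] {n : ℕ} (f : (Fin n → R) →ₗ[R] R) :
    f = fL' fun i => f (Pi.single i 1) := by
  apply LinearMap.ext
  intro v
  rw [form_eq f v, fL', Fintype.linearCombination_apply]
  rfl

theorem gdat_mul_mem {R : Type u} [CommRing R] [IsLocalRing R] {n c : ℕ}
    {f : (Fin n → R) →ₗ[R] R} {a : Fin c → Fin n → R} {w : R} (h : GDat R f a w) (v : Fin n → R) :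
    w * f v ∈ Ideal.span (Set.range fun i => f (a i)) := by
  rw [mul_comm]
  exact (h.ann (f v)).2 ⟨v, rfl⟩

theorem gdat_hasReg {R : Type u} [CommRing R] [IsLocalRing R] {n c : ℕ}
    {f : (Fin n → R) →ₗ[R] R} {a : Fin c → Fin n → R} {w : R} (h : GDat R f a w) :
    HasReg f c := by
  refine ⟨List.ofFn fun i => f (a i), by simp, h.reg, ?_⟩
  intro r hr
  obtain ⟨i, rfl⟩ := (List.mem_ofFn' _ _).1 hr
  exact ⟨_, rfl⟩

theorem algebra_of_hom {R S : Type*} [CommRing R] [CommRing S] [Algebra ℚ R] (π : R →+* S) :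
    Nonempty (Algebra ℚ S) := ⟨(π.comp (algebraMap ℚ R)).toAlgebra⟩

/-- **codimension six** -/
theorem mainG_six (R : Type u) [CommRing R] [IsRegularLocalRing R] [IsDomain R] [Algebra ℚ R]
    (hP : PointCone R) (hH : Hodge6 R)
    (core : ∀ (S : Type u) [CommRing S] [IsRegularLocalRing S] [Algebra ℚ S], CoreUnit S) :
    MainG R 6 := by
  intro f a w h hsl
  -- the six-form
  obtain ⟨ν, hν, hνw⟩ := exists_wedge_class f 6 a h.reg w (gdat_mul_mem h)
  obtain ⟨z, z1, z2, z3, z4⟩ := hH f ν hν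
  have hf0 : HasReg (fL' fun i => f (Pi.single i 1)) 6 := by
    rw [← form_eq_fL']
    exact gdat_hasReg h
  obtain ⟨p, hp3, hpw, hpc⟩ := hP (fun i => f (Pi.single i 1)) hf0 z z1 z2 z3
  have hf : f = fv p := by
    apply LinearMap.ext
    intro v
    rw [form_eq f v, fv_apply, hp3]
    exact Finset.sum_congr rfl fun i _ => mul_comm _ _
  have hnu : nu6 (dF R) p = ν := z4 p hpw
  have hw : nu6 (dF R) p a - w ∈ Ideal.span (Set.range fun i => f (a i)) := by
    rw [hnu]
    exact hνw
  -- a unit coordinate from the slice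
  obtain ⟨S, iS1, iS2, π, f', hs, hm, hdim, hf', hg⟩ := hsl
  obtain ⟨iQ⟩ := algebra_of_hom π
  have hlift : ∀ v : Fin 8 → S, ∃ v0 : Fin 8 → R, v = fun i => π (v0 i) := by
    intro v
    choose v0 hv0 using fun i => hs (v i)
    exact ⟨v0, funext fun i => (hv0 i).symm⟩
  have hfS : f' = fv (π ∘ p) := by
    apply LinearMap.ext
    intro v
    obtain ⟨v0, rfl⟩ := hlift v
    rw [hf', fv_map, ← hf]
  rw [hfS] at hg
  have hu : ∃ m, IsUnit (p m) := by
    obtain ⟨m, hmu⟩ := core S (π ∘ p) (fun i j => π (a i j)) (π w) (cone_map π hpc) hg (by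
      rw [← nu6_map, ← map_sub]
      have h1 := Ideal.mem_map_of_mem π hw
      rw [Ideal.map_span, ← Set.range_comp] at h1
      have e : (π ∘ fun i => f (a i)) = fun i => fv (π ∘ p) fun j => π (a i j) := by
        funext i
        rw [fv_map, ← hf]
        rfl
      rwa [e] at h1) hdim
    refine ⟨m, ?_⟩
    by_contra hc
    exact (mem_maximalIdeal _).1 ((hm (p m)).2 ((mem_maximalIdeal _).2 hc)) hmu
  exact six p hpc hu f (fun v => by rw [← hf]) a w h hw

/-! ### codimension five -/

open PowerSeries in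
theorem gdat_ext {R : Type u} [CommRing R] [IsLocalRing R] {n c : ℕ}
    {f : (Fin n → R) →ₗ[R] R} {a : Fin c → Fin n → R} {w : R} (h : GDat R f a w) :
    GDat R⟦X⟧ (extForm f) (extTup a) (C w) where
  mem v := by
    rw [ps_mem_maximalIdeal, constantCoeff_extForm]
    exact h.mem _
  reg := ext_regular_tup h.reg
  col y hy := ext_col h.col y hy
  ann y := ext_iff h.ann y

theorem i7_castSucc {A : Type*} [CommRing A] (v : Fin 7 → A) (i : Fin 7) :
    i7 v i.castSucc = v i := by
  show (Fin.snoc (α := fun _ => A) v 0 : Fin 8 → A) i.castSucc = v i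
  rw [Fin.snoc_castSucc]

theorem i7_last {A : Type*} [CommRing A] (v : Fin 7 → A) : i7 v (Fin.last 7) = 0 := by
  show (Fin.snoc (α := fun _ => A) v 0 : Fin 8 → A) (Fin.last 7) = 0
  rw [Fin.snoc_last]

/-- the tuple `(e_7, a)` -/
def tup {A : Type*} [CommRing A] (a : Fin 5 → Fin 7 → A) : Fin 6 → Vec A :=
  Fin.cons (α := fun _ => Vec A) (Pi.single 7 1) (fun r => i7 (a r))

theorem nu5_eq {A : Type*} [CommRing A] [Algebra ℚ A] (ω : Vec A [⋀^Fin 8]→ₗ[A] A) (p : E8 A)
    (a : Fin 5 → Fin 7 → A) : nu5 ω p a = nu6 ω p (tup a) := rfl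

section five

variable {A B : Type*} [CommRing A] [CommRing B] (φ : A →+* B)

theorem tup_map (a : Fin 5 → Fin 7 → A) :
    (fun r s => φ (tup a r s)) = tup fun i j => φ (a i j) := by
  funext r s
  refine Fin.cases ?_ (fun r => ?_) r
  · exact single_map φ 7 s
  · show φ (i7 (a r) s) = i7 (fun j => φ (a r j)) s
    refine Fin.lastCases ?_ (fun s => ?_) s
    · rw [i7_last, i7_last, map_zero]
    · rw [i7_castSucc, i7_castSucc]

open PowerSeries in
theorem extTup_eq (a : Fin 5 → Fin 7 → A) :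
    extTup a = fun r s => (C : A →+* A⟦X⟧) (tup a r s) := by
  funext r s
  refine Fin.cases ?_ (fun r => ?_) r
  · exact (single_map (C : A →+* A⟦X⟧) 7 s).symm
  · show extVec (a r) s = C (i7 (a r) s)
    refine Fin.lastCases ?_ (fun s => ?_) s
    · rw [i7_last, map_zero]
      exact Fin.snoc_last (α := fun _ => A⟦X⟧) _ _
    · rw [i7_castSucc]
      exact Fin.snoc_castSucc (α := fun _ => A⟦X⟧) _ _ _

variable [Algebra ℚ A] [Algebra ℚ B]

theorem nu5_map (p : E8 A) (a : Fin 5 → Fin 7 → A) :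
    φ (nu5 (dF A) p a) = nu5 (dF B) (φ ∘ p) (fun i j => φ (a i j)) := by
  rw [nu5_eq (dF A) p a, nu5_eq (dF B) (φ ∘ p), nu6_map φ p (tup a), tup_map]

open PowerSeries in
omit [Algebra ℚ A] in
theorem w2_up_eq (q : E8 A) (i j : Fin 8) :
    w2 (V56.up q) i j = w2 ((C : A →+* A⟦X⟧) ∘ q) i j := by
  rw [V56.w2_up, w2_map]

open PowerSeries in
theorem nu6_up_eq (ω : Vec A⟦X⟧ [⋀^Fin 8]→ₗ[A⟦X⟧] A⟦X⟧) (q : E8 A) (b : Fin 6 → Vec A⟦X⟧) :
    nu6 ω (V56.up q) b = nu6 ω ((C : A →+* A⟦X⟧) ∘ q) b :=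
  nu6_congr ω (w2_up_eq q) b

open PowerSeries in
theorem nu6_tup_eq (ω : Vec A⟦X⟧ [⋀^Fin 8]→ₗ[A⟦X⟧] A⟦X⟧) (q : E8 A⟦X⟧) (a : Fin 5 → Fin 7 → A) :
    nu6 ω q (extTup a) = nu6 ω q (fun r s => (C : A →+* A⟦X⟧) (tup a r s)) := by
  rw [extTup_eq]

/-- `nu6 (dF A)` as a plain function (the coercion of `dF` must not be compared by the kernel over
two different instances) -/
def nu6v (A : Type*) [CommRing A] [Algebra ℚ A] (p : E8 A) (a : Fin 6 → Fin 8 → A) : A :=
  nu6 (dF A) p a

theorem nu6v_map (p : E8 A) (a : Fin 6 → Fin 8 → A) :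
    φ (nu6v A p a) = nu6v B (φ ∘ p) (fun r s => φ (a r s)) := nu6_map φ p a

theorem nu6v_eq (p : E8 A) (a : Fin 6 → Fin 8 → A) : nu6v A p a = nu6 (dF A) p a := rfl

open PowerSeries in
theorem nu6v_ps (q : E8 A) (b : Fin 6 → Fin 8 → A) :
    (C : A →+* A⟦X⟧) (nu6v A q b) =
      nu6v A⟦X⟧ ((C : A →+* A⟦X⟧) ∘ q) (fun r s => (C : A →+* A⟦X⟧) (b r s)) :=
  nu6v_map C q b

theorem nu5v_eq (p : E8 A) (a : Fin 5 → Fin 7 → A) : nu6v A p (tup a) = nu5 (dF A) p a :=
  (nu6v_eq p (tup a)).trans (nu5_eq (dF A) p a).symm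

open PowerSeries in
theorem nu6_up (q : E8 A) (a : Fin 5 → Fin 7 → A) :
    nu6 (dF A⟦X⟧) (V56.up q) (extTup a) = C (nu5 (dF A) q a) := by
  rw [nu6_up_eq, nu6_tup_eq, ← nu6v_eq, ← nu6v_ps, nu5v_eq]

end five

theorem f5_eq {A : Type*} [CommRing A] {p : E8 A} {g : Fin 7 → A}
    (h : ∀ i : Fin 8, p (ix i) = Fin.snoc (α := fun _ => A) g 0 i) : f5 p = fL' g := by
  apply LinearMap.ext
  intro v
  have h0 : f5 p v = fv p (i7 v) := rfl
  rw [h0, fv_apply, Fin.sum_univ_castSucc, fL', Fintype.linearCombination_apply]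
  have h1 : p3 p (Fin.last 7) = 0 := by
    show p (ix (Fin.last 7 : Fin 8)) = 0
    rw [h, Fin.snoc_last]
  rw [h1, zero_mul, add_zero]
  refine Finset.sum_congr rfl fun i _ => ?_
  have h2 : p3 p i.castSucc = g i := by
    show p (ix (i.castSucc : Fin 8)) = g i
    rw [h, Fin.snoc_castSucc]
  rw [h2, i7_castSucc, smul_eq_mul, mul_comm]

open PowerSeries in
theorem fv_up {A : Type*} [CommRing A] {q : E8 A} {g : Fin 7 → A}
    (h : ∀ i : Fin 8, q (ix i) = Fin.snoc (α := fun _ => A) g 0 i) {f : (Fin 7 → A) →ₗ[A] A}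
    (hf : ∀ i, f (Pi.single i 1) = g i) : fv (V56.up q) = extForm f := by
  have h1 : ∀ i : Fin 8, p3 (V56.up q) i =
      Fin.snoc (α := fun _ => A⟦X⟧) (fun i => C (f (Pi.single i 1))) X i := by
    intro i
    have h2 := V56.ix_up h i
    have h3 : (fun i => (C (f (Pi.single i 1)) : A⟦X⟧)) = fun i => C (g i) := by
      funext i
      rw [hf]
    rw [h3]
    exact h2
  apply LinearMap.ext
  intro v
  rw [fv_apply, extForm, Fintype.linearCombination_apply]
  refine Finset.sum_congr rfl fun i _ => ?_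
  rw [h1, smul_eq_mul, mul_comm]

theorem dim_ps {S : Type u} [CommRing S] [IsRegularLocalRing S] {n : ℕ}
    (h : ringKrullDim S = (n : ℕ)) : ringKrullDim (PowerSeries S) = ((n + 1 : ℕ) : WithBot ℕ∞) := by
  rw [← IsRegularLocalRing.spanFinrank_maximalIdeal (R := S)] at h
  rw [← IsRegularLocalRing.spanFinrank_maximalIdeal (R := PowerSeries S), ps_spanFinrank]
  have : (maximalIdeal S).spanFinrank = n := by exact_mod_cast h
  rw [this]

open PowerSeries in
/-- **codimension five** -/
theorem mainG_five (R : Type u) [CommRing R] [IsRegularLocalRing R] [IsDomain R] [Algebra ℚ R]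
    (hP : PointCone R⟦X⟧) (hH : Hodge5 R)
    (core : ∀ (S : Type u) [CommRing S] [IsRegularLocalRing S] [Algebra ℚ S], CoreUnit S) :
    MainG R 5 := by
  intro f a w h hsl
  obtain ⟨ν, hν, hνw⟩ := exists_wedge_class f 5 a h.reg w (gdat_mul_mem h)
  obtain ⟨z, z1, z2, z7, z3, z4⟩ := hH f ν hν
  let g : Fin 7 → R := fun i => f (Pi.single i 1)
  have hz7 : ∀ j, z 7 j = 0 := fun j => by rw [z2, z7, neg_zero]
  -- the point of the cone over `R⟦X⟧`
  obtain ⟨p', hp3, hpw, hpc⟩ := hP (Fin.snoc (α := fun _ => R⟦X⟧) (fun i => C (g i)) X)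
    (gdat_hasReg (gdat_ext h)) (fun i j => C (z i j)) (fun i => by rw [z1, map_zero])
    (fun i j => by rw [← map_neg, ← z2]) (by
      intro j
      rw [Fin.sum_univ_castSucc]
      have e1 : z (Fin.last 7) j = 0 := hz7 j
      rw [e1, map_zero, mul_zero, add_zero]
      have e2 : ∀ i : Fin 7, (Fin.snoc (α := fun _ => R⟦X⟧) (fun i => C (g i)) X i.castSucc : R⟦X⟧) *
          C (z i.castSucc j) = C (f (Pi.single i 1) * z i.castSucc j) := by
        intro i
        rw [Fin.snoc_castSucc, map_mul]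
      rw [Finset.sum_congr rfl fun i _ => e2 i, ← map_sum, z3, map_zero])
  obtain ⟨p, hc, hsup, hpix, hw1, hw2⟩ := V56.exists_p56 g hpc (fun i => congrFun hp3 i)
  have hwz : ∀ i j, w2 p i j = z i j := by
    intro i j
    by_cases h7 : i = 7 ∨ j = 7
    · rw [hw2 i j h7]
      rcases h7 with rfl | rfl
      · exact (hz7 j).symm
      · exact (z7 i).symm
    · push Not at h7
      rw [hw1 i j h7.1 h7.2, hpw, constantCoeff_C]
  have hf : f = f5 p := by
    rw [f5_eq hpix]
    exact form_eq_fL' f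
  have hnu : nu5 (dF R) p = ν := z4 p hwz
  have hw : nu5 (dF R) p a - w ∈ Ideal.span (Set.range fun i => f (a i)) := by
    rw [hnu]
    exact hνw
  -- a unit coordinate from the slice
  obtain ⟨S, iS1, iS2, π, f', hs, hm, hdim, hf', hg⟩ := hsl
  obtain ⟨iQ⟩ := algebra_of_hom π
  have hfs : ∀ i, f' (Pi.single i 1) = π (g i) := by
    intro i
    rw [← hf']
    congr 1
    funext j
    rw [Pi.single_apply, Pi.single_apply]
    split_ifs <;> simp
  have hqix : ∀ i : Fin 8, (π ∘ p) (ix i) = Fin.snoc (α := fun _ => S) (fun i => π (g i)) 0 i := by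
    intro i
    rw [Function.comp_apply, hpix]
    refine Fin.lastCases ?_ (fun i => ?_) i
    · rw [Fin.snoc_last, Fin.snoc_last, map_zero]
    · rw [Fin.snoc_castSucc, Fin.snoc_castSucc]
  have hfv : fv (V56.up (π ∘ p)) = extForm f' := fv_up hqix hfs
  have hsupq : Sup (wtg 7) 1 (π ∘ p : E8 S) := fun m hm => by
    rw [Function.comp_apply, hsup m hm, map_zero]
  have hu : ∃ m, IsUnit (p m) := by
    obtain ⟨m, hmu⟩ := core S⟦X⟧ (V56.up (π ∘ p)) (extTup fun i j => π (a i j)) (C (π w))
      (V56.cone_up (cone_map π hc) hsupq) (by rw [hfv]; exact gdat_ext hg) (by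
        rw [hfv, nu6_up, ← nu5_map, ← map_sub, mem_span_extTup, constantCoeff_C, ← map_sub]
        have h1 := Ideal.mem_map_of_mem π hw
        rw [Ideal.map_span, ← Set.range_comp] at h1
        have e : (π ∘ fun i => f (a i)) = fun i => f' fun j => π (a i j) := by
          funext i
          rw [hf']
          rfl
        rwa [e] at h1) (dim_ps hdim)
    refine ⟨m, ?_⟩
    by_contra hcon
    exact (mem_maximalIdeal _).1 ((hm (p m)).2 ((mem_maximalIdeal _).2 hcon))
      (V56.isUnit_of_up hmu)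
  exact five p hc hu hsup f (fun v => by rw [← hf]) a w h hw

end Pool.Agent.Licci.Fin6
end

end

section

/-!
MP_a98e4e_ag (licci, codimension 4) (helper43): the abstract descent, final form.
-/

set_option autoImplicit false

noncomputable section

namespace Pool.Agent.Licci

open IsLocalRing RingTheory.Sequence LicciCodimFour

universe u

variable {R : Type u} [CommRing R] [IsLocalRing R] [IsNoetherianRing R]
  [Infinite (ResidueField R)]
variable {ι : Type*} [Fintype ι]

/-- **Abstract descent**; the ideal of a state may be assumed to have grade four. -/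
theorem licci_of_descent2 {𝒮 : Type*} (f : 𝒮 → (ι → R) →ₗ[R] R)
    (ν : 𝒮 → (ι → R) [⋀^Fin 4]→ₗ[R] R) (hcyc : ∀ s, Cyc (f s) (ν s))
    (μ : 𝒮 → ℕ)
    (hdesc : ∀ s, (∀ v, f s v ∈ maximalIdeal R) →
      (∃ rs : List R, rs.length = 4 ∧ (∀ y ∈ rs, y ∈ LinearMap.range (f s)) ∧ IsRegular R rs) →
      Gen1 fun x => Gen1 fun y => Gen1 fun z => GenS fun c => ∃ s',
        f s' = stepf (f s) (ν s) x y z c ∧ (∀ w, ν s' ![x, y, z, w] = ν s ![x, y, z, w]) ∧
          μ s' < μ s)
    (s : 𝒮) (hI : ∀ v, f s v ∈ maximalIdeal R)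
    (hgood : ∃ a0 a1 a2 a3 : ι → R, IsWeaklyRegular R [f s a0, f s a1, f s a2, f s a3] ∧
      Good (f s) (ν s) a0 a1 a2 a3) :
    IsLicci (LinearMap.range (f s)) := by
  induction hn : μ s using Nat.strong_induction_on generalizing s with
  | _ n ih =>
  subst hn
  obtain ⟨a0, a1, a2, a3, ha, hg⟩ := hgood
  have hgr : ∃ rs : List R, rs.length = 4 ∧ (∀ y ∈ rs, y ∈ LinearMap.range (f s)) ∧
      IsRegular R rs := by
    refine ⟨[f s a0, f s a1, f s a2, f s a3], rfl, ?_,
      isRegular_four (hI a0) (hI a1) (hI a2) (hI a3) ha⟩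
    intro x hx
    simp only [List.mem_cons, List.not_mem_nil, or_false] at hx
    rcases hx with rfl | rfl | rfl | rfl <;> exact ⟨_, rfl⟩
  have hq := gen_quad (f s) hI hgr
  have hd := hdesc s hI hgr
  obtain ⟨x, ⟨_, hx⟩, hx'⟩ := (hq.and hd).exists
  obtain ⟨y, ⟨_, hy⟩, hy'⟩ := (hx.and hx').exists
  obtain ⟨z, ⟨_, hz⟩, hz'⟩ := (hy.and hy').exists
  obtain ⟨w, hw⟩ := hz.exists
  have hG := hg.transfer (f s) hI (hcyc s) ha hw
  obtain ⟨c, hc1, s', hmv, hν, hc2⟩ := ((genS_regular [f s x, f s y, f s z] (f s w)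
    (ν s ![x, y, z, w]) hw).and hz').exists
  by_cases hm : ∀ v, f s' v ∈ maximalIdeal R
  · have hstep := hG.step (c := c) (ω' := ν s') (hcyc s) hw hc1 (hν w)
    rw [← hmv] at hstep
    have hreg' : IsWeaklyRegular R [f s' x, f s' y, f s' z, f s' w] := by
      rw [hmv]
      obtain ⟨e0, e1, e2⟩ := stepf_self (f s) (ν s) x y z c
      rw [e0, e1, e2, stepf_apply]
      exact hc1
    have hL := ih (μ s') hc2 s' hm ⟨x, y, z, w, hreg', hstep⟩ rfl
    rw [hmv] at hL
    refine licci_of_step (ω' := ν s') (hcyc s) hI hw hc1 hG ?_ ?_ (hν w) hL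
    · intro v; rw [← hmv]; exact hm v
    · rw [← hmv]; exact hcyc _
  · push Not at hm
    obtain ⟨v, hv⟩ := hm
    refine licci_of_unit (hcyc s) hI hw hc1 hG ⟨v, ?_⟩
    rw [← hmv]
    by_contra hcon
    exact hv ((IsLocalRing.mem_maximalIdeal _).mpr hcon)

end Pool.Agent.Licci
end

end

section

/-!
MP_a98e4e_ag (licci, codimension 4), module (4b') (helper43): reduction modulo the maximal ideal of
the data of a state; the rank of `d(m)` is at most 4 if the ideal has grade 4; the hypothesis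
`hdesc` of `licci_of_descent` from `gen_meas_lt`.
-/

set_option autoImplicit false

noncomputable section

namespace Pool.Agent.Licci

open IsLocalRing RingTheory.Sequence LicciCodimFour Module

section red

universe u

variable {R : Type u} [CommRing R] [IsLocalRing R]

lemma redSub_mono {ι : Type*} {N N' : Submodule R (ι → R)} (h : N ≤ N') :
    redSub N ≤ redSub N' := by
  rintro _ ⟨a, ha, rfl⟩
  exact ⟨a, h ha, rfl⟩

/-- reduction of a linear map between finite free modules -/
def redMap {τ κ : Type*} [Fintype τ] [DecidableEq τ] (g : (τ → R) →ₗ[R] (κ → R)) :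
    (τ → ResidueField R) →ₗ[ResidueField R] (κ → ResidueField R) :=
  Fintype.linearCombination (ResidueField R) (fun j => red (g (Pi.single j 1)))

lemma redMap_red {τ κ : Type*} [Fintype τ] [DecidableEq τ] (g : (τ → R) →ₗ[R] (κ → R))
    (v : τ → R) : redMap g (red v) = red (g v) := by
  have h1 : g v = ∑ j, v j • g (Pi.single j 1) := by
    conv_lhs => rw [← Finset.univ_sum_single v, map_sum]
    refine Finset.sum_congr rfl fun j _ => ?_
    have : (Pi.single j (v j) : τ → R) = v j • Pi.single j 1 := by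
      rw [← Pi.single_smul]; simp
    rw [this, map_smul]
  rw [h1, redMap, Fintype.linearCombination_apply]
  funext a
  simp [red, Finset.sum_apply, map_sum]

lemma redMap_unique {τ κ : Type*} [Fintype τ] [DecidableEq τ] (g : (τ → R) →ₗ[R] (κ → R))
    (h : (τ → ResidueField R) →ₗ[ResidueField R] (κ → ResidueField R))
    (hh : ∀ v, h (red v) = red (g v)) : redMap g = h := by
  apply LinearMap.ext
  intro w
  obtain ⟨v, rfl⟩ := red_surjective w
  rw [redMap_red, hh]

lemma redSub_range {τ κ : Type*} [Fintype τ] [DecidableEq τ] (g : (τ → R) →ₗ[R] (κ → R)) :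
    redSub (LinearMap.range g) = LinearMap.range (redMap g) := by
  ext w
  constructor
  · rintro ⟨_, ⟨v, rfl⟩, rfl⟩
    exact ⟨red v, redMap_red g v⟩
  · rintro ⟨w', rfl⟩
    obtain ⟨v, rfl⟩ := red_surjective w'
    exact ⟨g v, ⟨v, rfl⟩, (redMap_red g v).symm⟩

lemma GenK.gen1 {ι : Type*} {Q : (ι → ResidueField R) → Prop}
    (h : GenK (k := ResidueField R) Q) : Gen1 fun a : ι → R => Q (red a) := by
  obtain ⟨S, hS, h1⟩ := h
  exact ⟨S, hS, fun a ha => h1 (red a) ha⟩

lemma GenC.genS {Q : ResidueField R → Prop} (h : GenC Q) : GenS fun c : R => Q (residue R c) := by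
  obtain ⟨S, h1⟩ := h
  exact ⟨S, fun c hc => h1 _ hc⟩

end red

section rank

universe u

variable {R : Type u} [CommRing R] [IsLocalRing R] [IsNoetherianRing R]
  [Infinite (ResidueField R)]

/-- an ideal with three generators does not contain a regular sequence of length four. -/
theorem three_gen (f : (Fin 3 → R) →ₗ[R] R) (hI : ∀ v, f v ∈ maximalIdeal R)
    (hgr : ∃ rs : List R, rs.length = 4 ∧ (∀ y ∈ rs, y ∈ LinearMap.range f) ∧ IsRegular R rs) :
    False := by
  classical
  have hq := gen_quad f hI hgr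
  -- `x ≠ 0`, `y ∉ k x`, `z ∉ k x + k y`
  have hx0 : Gen1 fun x : Fin 3 → R => red x ∉ (⊥ : Submodule (ResidueField R) _) := by
    refine ⟨{⊥}, ?_, fun a ha => ha ⊥ (by simp)⟩
    intro V hV
    rw [Finset.mem_singleton] at hV
    subst hV
    exact bot_ne_top
  obtain ⟨x, ⟨_, hx⟩, hxb⟩ := (hq.and hx0).exists
  have hy0 : Gen1 fun y : Fin 3 → R => red y ∉ Submodule.span (ResidueField R) {red x} := by
    refine ⟨{Submodule.span (ResidueField R) {red x}}, ?_, fun a ha => ha _ (by simp)⟩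
    intro V hV
    rw [Finset.mem_singleton] at hV
    subst hV
    intro htop
    have h1 := finrank_span_le_card (R := ResidueField R) ({red x} : Set (Fin 3 → ResidueField R))
    rw [htop, finrank_top] at h1
    simp at h1
  obtain ⟨y, ⟨_, hy⟩, hyb⟩ := (hx.and hy0).exists
  have hz0 : Gen1 fun z : Fin 3 → R => red z ∉ Submodule.span (ResidueField R) {red x, red y} := by
    refine ⟨{Submodule.span (ResidueField R) {red x, red y}}, ?_, fun a ha => ha _ (by simp)⟩
    intro V hV
    rw [Finset.mem_singleton] at hV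
    subst hV
    intro htop
    have h1 := finrank_span_finset_le_card (R := ResidueField R)
      ({red x, red y} : Finset (Fin 3 → ResidueField R))
    have h2 : ((({red x, red y} : Finset (Fin 3 → ResidueField R)) :
      Set (Fin 3 → ResidueField R))) = {red x, red y} := by simp
    have h4 := Finset.card_le_two (a := red x) (b := red y)
    rw [Set.finrank, h2, htop, finrank_top] at h1
    simp at h1
    omega
  obtain ⟨z, ⟨_, hz⟩, hzb⟩ := (hy.and hz0).exists
  obtain ⟨w, hw⟩ := hz.exists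
  -- `x, y, z` generate `R ^ 3`
  have htop : Submodule.span R {x, y, z} = ⊤ := by
    apply eq_top_of_redSub_eq_top
    let V1 := Submodule.span (ResidueField R) {red x}
    let V2 := Submodule.span (ResidueField R) {red x, red y}
    let V3 := redSub (Submodule.span R {x, y, z})
    have l01 : (⊥ : Submodule (ResidueField R) (Fin 3 → ResidueField R)) < V1 :=
      lt_of_le_of_ne bot_le fun h => hxb (by
        rw [h]; exact Submodule.mem_span_singleton_self _)
    have l12 : V1 < V2 := by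
      refine lt_of_le_of_ne (Submodule.span_mono (by intro t ht; simp_all)) fun h => hyb ?_
      change red y ∈ V1
      rw [h]
      exact Submodule.subset_span (by simp)
    have hxV : red x ∈ V3 := red_mem_redSub (Submodule.subset_span (by simp))
    have hyV : red y ∈ V3 := red_mem_redSub (Submodule.subset_span (by simp))
    have hzV : red z ∈ V3 := red_mem_redSub (Submodule.subset_span (by simp))
    have l23 : V2 < V3 := by
      refine lt_of_le_of_ne ?_ fun h => hzb ?_
      · rw [Submodule.span_le]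
        rintro t (rfl | rfl)
        exacts [hxV, hyV]
      · change red z ∈ V2
        rw [h]; exact hzV
    have f1 := Submodule.finrank_lt_finrank_of_lt l01
    have f2 := Submodule.finrank_lt_finrank_of_lt l12
    have f3 := Submodule.finrank_lt_finrank_of_lt l23
    apply Submodule.eq_top_of_finrank_eq
    have f4 := Submodule.finrank_le V3
    have f5 : finrank (ResidueField R) (Fin 3 → ResidueField R) = 3 := by simp
    change finrank (ResidueField R) V3 = finrank (ResidueField R) (Fin 3 → ResidueField R)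
    omega
  have h3 := (isWeaklyRegular_concat_iff (α := [f x, f y, f z]).mp hw).2
  have h4 : f w ∈ Ideal.ofList [f x, f y, f z] := by
    have h5 : w ∈ Submodule.span R {x, y, z} := by rw [htop]; trivial
    obtain ⟨a, b, c, habc⟩ := Submodule.mem_span_triple.mp h5
    rw [← habc, map_add, map_add, map_smul, map_smul, map_smul]
    have hm : ∀ t ∈ [f x, f y, f z], t ∈ Ideal.ofList [f x, f y, f z] := fun t ht =>
      Ideal.subset_span ht
    exact Ideal.add_mem _ (Ideal.add_mem _ (Ideal.mul_mem_left _ _ (hm _ (by simp)))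
      (Ideal.mul_mem_left _ _ (hm _ (by simp)))) (Ideal.mul_mem_left _ _ (hm _ (by simp)))
  have h6 : (1 : R) ∈ Ideal.ofList [f x, f y, f z] := h3 1 (by rwa [mul_one])
  have h7 : Ideal.ofList [f x, f y, f z] ≤ maximalIdeal R := by
    rw [Ideal.ofList, Ideal.span_le]
    intro t ht
    simp only [List.mem_cons, List.not_mem_nil, or_false, Set.mem_ofPred_eq] at ht
    rcases ht with rfl | rfl | rfl <;> exact hI _
  exact (IsLocalRing.mem_maximalIdeal _).mp (h7 h6) isUnit_one

/-- the rank of the relations modulo the maximal ideal -/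
theorem finrank_redSub_le {n : ℕ} (f : (Fin n → R) →ₗ[R] R) (hI : ∀ v, f v ∈ maximalIdeal R)
    (hgr : ∃ rs : List R, rs.length = 4 ∧ (∀ y ∈ rs, y ∈ LinearMap.range f) ∧ IsRegular R rs)
    (D : Submodule R (Fin n → R)) (hD : D ≤ LinearMap.ker f) :
    finrank (ResidueField R) (redSub D) + 4 ≤ n := by
  classical
  by_contra hcon
  obtain ⟨C, hC⟩ := Submodule.exists_isCompl (redSub D)
  have h1 := Submodule.finrank_add_eq_of_isCompl hC
  have h2 : finrank (ResidueField R) (Fin n → ResidueField R) = n := by simp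
  have h3 : finrank (ResidueField R) C ≤ 3 := by omega
  -- three vectors spanning `C`
  obtain ⟨c, hc⟩ : ∃ c : Fin 3 → (Fin n → ResidueField R), C ≤ Submodule.span (ResidueField R) (Set.range c) := by
    let b := Module.finBasis (ResidueField R) C
    refine ⟨fun i => if h : (i : ℕ) < finrank (ResidueField R) C then ((b ⟨i, h⟩ : C) : Fin n → ResidueField R) else 0, ?_⟩
    intro t ht
    have h4 := b.sum_repr ⟨t, ht⟩
    have h5 : t = ∑ i, (b.repr ⟨t, ht⟩ i) • ((b i : C) : Fin n → ResidueField R) := by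
      have := congrArg C.subtype h4
      rw [map_sum] at this
      simpa only [map_smul, Submodule.subtype_apply] using this.symm
    rw [h5]
    refine Submodule.sum_mem _ fun i _ => Submodule.smul_mem _ _ (Submodule.subset_span ?_)
    refine ⟨⟨i, lt_of_lt_of_le i.2 h3⟩, ?_⟩
    simp
  choose c' hc' using fun i => red_surjective (R := R) (c i)
  let g : (Fin 3 → R) →ₗ[R] (Fin n → R) := Fintype.linearCombination R c'
  have hg : ∀ i, g (Pi.single i 1) = c' i := fun i => by
    simp [g, Fintype.linearCombination_apply, Pi.single_apply]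
  have htop : D ⊔ LinearMap.range g = ⊤ := by
    apply eq_top_of_redSub_eq_top
    rw [eq_top_iff, ← hC.sup_eq_top]
    refine sup_le (redSub_mono le_sup_left) (hc.trans ?_)
    rw [Submodule.span_le]
    rintro _ ⟨i, rfl⟩
    rw [← hc' i]
    exact red_mem_redSub (Submodule.mem_sup_right ⟨_, hg i⟩)
  -- the range of `f` is generated by three elements
  refine three_gen (f ∘ₗ g) (fun v => hI _) ?_
  have hrange : LinearMap.range (f ∘ₗ g) = LinearMap.range f := by
    apply le_antisymm
    · rintro _ ⟨v, rfl⟩; exact ⟨g v, rfl⟩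
    · rintro _ ⟨v, rfl⟩
      have hv : v ∈ D ⊔ LinearMap.range g := by rw [htop]; trivial
      obtain ⟨p, hp, q, ⟨w, rfl⟩, rfl⟩ := Submodule.mem_sup.mp hv
      refine ⟨w, ?_⟩
      have h6 : f p = 0 := hD hp
      rw [map_add, h6, zero_add]; rfl
  rw [hrange]
  exact hgr

end rank

end Pool.Agent.Licci
end

end

section

/-!
# LICCI, codimension 4: the descent from an integral state (helper43)
-/

set_option linter.unusedSectionVars false

noncomputable section

namespace Pool.Agent.Licci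

open scoped BigOperators
open Module RingTheory.Sequence IsLocalRing LicciCodimFour

universe u

/-! ### `f ∘ d = 0` -/

section comp

variable {R : Type u} [CommRing R]

/-- the cyclic sum -/
theorem Th_cyc (X Y Z : E8 R) : Th X Y (p3 Z) + Th Y Z (p3 X) + Th Z X (p3 Y) = 0 := by
  unfold Th
  rw [om_swap Y (p3 X) (p3 Z), om_swap X (p3 Y) (p3 Z), om_swap Z (p3 Y) (p3 X)]
  ring

variable {K : Type u} [Field K] [Algebra R K]

theorem RState.comp [IsDomain R] [Algebra ℚ R] {M : Matrix (Fin 14) (Fin 14) R}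
    (hMu : IsUnit M.det) (s : RState R K M) (n : Fin 14) : s.f (p3 (s.γ n)) = 0 := by
  -- the matrix is symmetric
  obtain ⟨u0, hu0⟩ : ∃ u, s.f u ≠ 0 := by
    by_contra h
    push Not at h
    exact s.f0 (LinearMap.ext h)
  have hsym : ∀ l m, M l m = M m l := by
    intro l m
    have h1 := s.th l m u0
    have h2 := s.th m l u0
    have h3 : Th (s.γ l) (s.γ m) u0 = Th (s.γ m) (s.γ l) u0 := by
      unfold Th
      ring
    rw [h1, h2] at h3
    exact mul_right_cancel₀ hu0 h3
  have hN : M⁻¹ * M = 1 := Matrix.nonsing_inv_mul M hMu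
  have hN' : M * M⁻¹ = 1 := Matrix.mul_nonsing_inv M hMu
  set N := M⁻¹ with hNdef
  have hrel : ∀ l m, M l m * s.f (p3 (s.γ n)) + M m n * s.f (p3 (s.γ l)) +
      M n l * s.f (p3 (s.γ m)) = 0 := by
    intro l m
    rw [← s.th l m, ← s.th m n, ← s.th n l]
    exact Th_cyc _ _ _
  have hsum : ∑ l, ∑ m, N l m * (M l m * s.f (p3 (s.γ n)) + M m n * s.f (p3 (s.γ l)) +
      M n l * s.f (p3 (s.γ m))) = 0 := by
    refine Finset.sum_eq_zero fun l _ => Finset.sum_eq_zero fun m _ => ?_
    rw [hrel, mul_zero]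
  have h1 : ∑ l, ∑ m, N l m * (M l m * s.f (p3 (s.γ n))) = 14 * s.f (p3 (s.γ n)) := by
    have h2 : ∀ l, ∑ m, N l m * (M l m * s.f (p3 (s.γ n))) = s.f (p3 (s.γ n)) := by
      intro l
      have h3 : (N * M) l l = 1 := by rw [hN]; simp
      rw [Matrix.mul_apply] at h3
      have h4 : ∑ m, N l m * (M l m * s.f (p3 (s.γ n))) =
          (∑ m, N l m * M m l) * s.f (p3 (s.γ n)) := by
        rw [Finset.sum_mul]
        refine Finset.sum_congr rfl fun m _ => ?_
        rw [hsym l m]
        ring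
      rw [h4, h3, one_mul]
    simp only [h2]
    simp
  have h5 : ∑ l, ∑ m, N l m * (M m n * s.f (p3 (s.γ l))) = s.f (p3 (s.γ n)) := by
    have h6 : ∀ l, ∑ m, N l m * (M m n * s.f (p3 (s.γ l))) =
        (if l = n then 1 else 0) * s.f (p3 (s.γ l)) := by
      intro l
      have h7 : (N * M) l n = if l = n then 1 else 0 := by rw [hN, Matrix.one_apply]
      rw [Matrix.mul_apply] at h7
      rw [← h7, Finset.sum_mul]
      refine Finset.sum_congr rfl fun m _ => ?_
      ring
    simp only [h6]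
    simp
  have h8 : ∑ l, ∑ m, N l m * (M n l * s.f (p3 (s.γ m))) = s.f (p3 (s.γ n)) := by
    rw [Finset.sum_comm]
    have h9 : ∀ m, ∑ l, N l m * (M n l * s.f (p3 (s.γ m))) =
        (if n = m then 1 else 0) * s.f (p3 (s.γ m)) := by
      intro m
      have h7 : (M * N) n m = if n = m then 1 else 0 := by rw [hN', Matrix.one_apply]
      rw [Matrix.mul_apply] at h7
      rw [← h7, Finset.sum_mul]
      refine Finset.sum_congr rfl fun l _ => ?_
      ring
    simp only [h9]
    simp
  simp only [mul_add, Finset.sum_add_distrib] at hsum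
  rw [h1, h5, h8] at hsum
  have h10 : (16 : R) * s.f (p3 (s.γ n)) = 0 := by linear_combination hsum
  have h11 : algebraMap ℚ R (16⁻¹ : ℚ) * (16 : R) = 1 := by
    have h12 : algebraMap ℚ R 16 = (16 : R) := map_ofNat (algebraMap ℚ R) 16
    rw [← h12, ← map_mul, inv_mul_cancel₀ (by norm_num), map_one]
  have h13 := congrArg (fun t => algebraMap ℚ R (16⁻¹ : ℚ) * t) h10
  simp only [← mul_assoc, h11, one_mul, mul_zero] at h13
  exact h13

end comp

/-! ### the reduced map -/

section reduced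

variable {R : Type u} [CommRing R] [IsLocalRing R]

/-- the reduction modulo the maximal ideal of 14 vectors -/
def redI (γ : Fin 14 → E8 R) : (Fin 14 → ResidueField R) →ₗ[ResidueField R]
    (Fin 248 → ResidueField R) :=
  Fintype.linearCombination (ResidueField R) (fun l => red (γ l))

theorem redI_apply (γ : Fin 14 → E8 R) (c : Fin 14 → ResidueField R) :
    redI γ c = ∑ l, c l • red (γ l) := by
  rw [redI, Fintype.linearCombination_apply]

theorem red_eq_comp {ι : Type*} (v : ι → R) : red v = residue R ∘ v := rfl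

/-- the reduction of a moved vector -/
theorem red_ex [Algebra ℚ R] (x y z : Vec R) (c : R) (Y : E8 R) :
    red (ex (tri (c • x) y z) Y) = ex (tri (residue R c • red x) (red y) (red z)) (red Y) := by
  rw [red_eq_comp, ex_map, MV.tri_map]
  congr 2

theorem redI_move [Algebra ℚ R] (γ γ' : Fin 14 → E8 R) (x y z : Vec R) (c : R)
    (h : ∀ l, γ' l = ex (tri (c • x) y z) (γ l)) :
    redI γ' = ex (tri (residue R c • red x) (red y) (red z)) ∘ₗ redI γ := by
  apply LinearMap.ext
  intro t
  rw [LinearMap.comp_apply, redI_apply, redI_apply, map_sum]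
  refine Finset.sum_congr rfl fun l _ => ?_
  rw [h, red_ex, map_smul]

/-- the inclusion of the degree `3` part -/
def V3L (k : Type*) [Field k] : (Fin 8 → k) →ₗ[k] (Fin 248 → k) where
  toFun v := fun m => if h : (m : ℕ) < 8 then v ⟨m, h⟩ else 0
  map_add' v w := by
    funext m
    by_cases h : (m : ℕ) < 8 <;> simp [h]
  map_smul' c v := by
    funext m
    by_cases h : (m : ℕ) < 8 <;> simp [h]

theorem five_lt_iff (m : Fin 248) : 5 < dgE m ↔ (m : ℕ) < 8 := by
  have h := zdg_chk m
  unfold dgE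
  constructor
  · intro h1
    exact h.2.2.1 (by omega)
  · intro h1
    have h2 : zdg m = 3 := by
      by_contra h3
      rcases le_or_gt (zdg m) 1 with h4 | h4
      · have := h.2.2.2.2.1 h4
        omega
      · have := h.2.2.2.1 (by omega)
        omega
    omega

/-- the rank of the degree `3` part -/
theorem rank_top (γ : Fin 14 → E8 R) :
    finrank (ResidueField R) (LinearMap.range (prj (ResidueField R) (fun a => 5 < dgE a) ∘ₗ
      redI γ)) ≤ finrank (ResidueField R) (redSub (Submodule.span R (Set.range fun l => p3 (γ l)))) := by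
  have h1 : LinearMap.range (prj (ResidueField R) (fun a => 5 < dgE a) ∘ₗ redI γ) ≤
      (redSub (Submodule.span R (Set.range fun l => p3 (γ l)))).map (V3L (ResidueField R)) := by
    rintro _ ⟨t, rfl⟩
    refine ⟨∑ l, t l • red (p3 (γ l)), ?_, ?_⟩
    · exact Submodule.sum_mem _ fun l _ => Submodule.smul_mem _ _
        (red_mem_redSub (Submodule.subset_span ⟨l, rfl⟩))
    · funext m
      rw [LinearMap.comp_apply, prj_apply]
      change (if h : (m : ℕ) < 8 then (∑ l, t l • red (p3 (γ l))) ⟨m, h⟩ else 0) = _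
      by_cases h : (m : ℕ) < 8
      · rw [dif_pos h, if_pos ((five_lt_iff m).mpr h), redI_apply, Finset.sum_apply,
          Finset.sum_apply]
        refine Finset.sum_congr rfl fun l _ => ?_
        simp only [Pi.smul_apply, red_eq_comp, Function.comp_apply, p3]
        rw [show ix (((⟨m, h⟩ : Fin 8) : Fin 8) : ℕ) = m from Fin.ext (ix_val m.2)]
      · rw [dif_neg h, if_neg (fun h2 => h ((five_lt_iff m).mp h2))]
  exact (Submodule.finrank_mono h1).trans (Submodule.finrank_map_le _ _)

end reduced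


/-! ### the descent -/

section desc

variable {R : Type u} [CommRing R] [IsDomain R] [IsLocalRing R] [IsNoetherianRing R] [Algebra ℚ R]
  [Infinite (ResidueField R)] {K : Type u} [Field K] [Algebra R K] [IsFractionRing R K]
  [Algebra ℚ K] {M : Matrix (Fin 14) (Fin 14) R}

/-- the states whose 14 vectors are linearly independent modulo the maximal ideal -/
def GState (R : Type u) [CommRing R] [IsLocalRing R] (K : Type u) [Field K] [Algebra R K]
    (M : Matrix (Fin 14) (Fin 14) R) : Type u :=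
  {s : RState R K M // Function.Injective (redI s.γ)}

/-- the `4`-form of a state -/
def RState.nu (hMu : IsUnit M.det) (s : RState R K M) : Vec R [⋀^Fin 4]→ₗ[R] R :=
  (s.exists_nu hMu).choose

theorem RState.nu_spec (hMu : IsUnit M.det) (s : RState R K M) (x y z u : Vec R) :
    algebraMap R K (s.nu hMu ![x, y, z, u]) = nuOf s.k (algebraMap R K ∘ x) (algebraMap R K ∘ y)
        (algebraMap R K ∘ z) (algebraMap R K ∘ u) :=
  (s.exists_nu hMu).choose_spec.1 x y z u

theorem RState.nu_cyc (hMu : IsUnit M.det) (s : RState R K M) : Cyc s.f (s.nu hMu) :=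
  (s.exists_nu hMu).choose_spec.2.1

/-- termination step, without `CharZero` -/
theorem gen_meas_red {k : Type*} [Field k] [Algebra ℚ k] (i : (Fin 14 → k) →ₗ[k] (Fin 248 → k))
    (hi : Function.Injective i)
    (hr : finrank k (LinearMap.range (prj k (fun a => 5 < dgE a) ∘ₗ i)) ≤ 4) :
    GenK (k := k) fun x : Vec k => GenK (k := k) fun y : Vec k => GenK (k := k) fun z : Vec k =>
      GenC fun c : k => meas dgE (ex (tri (c • x) y z) ∘ₗ i) < meas dgE i := by
  have : CharZero k := algebraRat.charZero _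
  exact gen_meas_E i hi (by simp) hr

/-- one general move -/
theorem gen_move (hMu : IsUnit M.det) (s : GState R K M)
    (hI : ∀ v, s.1.f v ∈ maximalIdeal R)
    (hgr : ∃ rs : List R, rs.length = 4 ∧ (∀ y ∈ rs, y ∈ LinearMap.range s.1.f) ∧
      IsRegular R rs) :
    Gen1 fun x => Gen1 fun y => Gen1 fun z => GenS fun c => ∃ s' : GState R K M,
      s'.1.f = stepf s.1.f (s.1.nu hMu) x y z c ∧
        (∀ w, s'.1.nu hMu ![x, y, z, w] = s.1.nu hMu ![x, y, z, w]) ∧
          meas dgE (redI s'.1.γ) < meas dgE (redI s.1.γ) := by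
  have hinjK : Function.Injective (algebraMap R K) := IsFractionRing.injective R K
  have h1 := finrank_redSub_le s.1.f hI hgr (Submodule.span R (Set.range fun l => p3 (s.1.γ l))) (by
    rw [Submodule.span_le]
    rintro _ ⟨l, rfl⟩
    exact s.1.comp hMu l)
  have h2 := rank_top s.1.γ
  have h3 := gen_meas_red (redI s.1.γ) s.2 (by omega)
  have h4 : Gen1 fun x : Vec R => x ∉ LinearMap.ker s.1.f :=
    Gen1.notMem fun h => s.1.f0 (LinearMap.ker_eq_top.mp h)
  refine (h3.gen1.and h4).mono fun x hx => hx.1.gen1.mono fun y hy => hy.gen1.mono fun z hz =>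
    hz.genS.mono fun c hc => ?_
  obtain ⟨s', h5, h7, h8⟩ := s.1.exists_move hMu x y z c hx.2
  have h9 := redI_move s.1.γ s'.γ x y z c h5
  have h10 : Function.Injective (redI s'.γ) := by
    rw [h9]
    exact ((ex_isAut (triE_nil _ _ _)).bij.1).comp s.2
  refine ⟨⟨s', h10⟩, ?_, ?_, ?_⟩
  · apply LinearMap.ext
    intro u
    apply hinjK
    rw [stepf_apply, map_add, map_mul, RState.nu_spec]
    exact h7 u
  · intro w
    exact hinjK (((s'.nu_spec hMu x y z w).trans (h8 _)).trans (s.1.nu_spec hMu x y z w).symm)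
  · change meas dgE (redI s'.γ) < _
    rw [h9]
    exact hc

/-- **The ideal of an integral state is licci.** -/
theorem RState.licci (hMu : IsUnit M.det) (s : RState R K M)
    (hinj : ∀ c : Fin 14 → R, (∀ b, ∑ l, c l * s.γ l b ∈ maximalIdeal R) →
      ∀ l, c l ∈ maximalIdeal R)
    (hI : ∀ v, s.f v ∈ maximalIdeal R)
    (ν : Vec R [⋀^Fin 4]→ₗ[R] R)
    (hν : ∀ x y z u, algebraMap R K (ν ![x, y, z, u]) =
      nuOf s.k (algebraMap R K ∘ x) (algebraMap R K ∘ y) (algebraMap R K ∘ z)
        (algebraMap R K ∘ u))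
    (a0 a1 a2 a3 : Vec R) (ha : IsWeaklyRegular R [s.f a0, s.f a1, s.f a2, s.f a3])
    (hgood : Good s.f ν a0 a1 a2 a3) : IsLicci (LinearMap.range s.f) := by
  have hinj' : Function.Injective (redI s.γ) := by
    rw [← LinearMap.ker_eq_bot, LinearMap.ker_eq_bot']
    intro t ht
    obtain ⟨c, rfl⟩ := red_surjective t
    rw [redI_apply] at ht
    have h1 := hinj c (fun b => by
      have h2 := congrFun ht b
      rw [Finset.sum_apply] at h2
      rw [← residue_eq_zero_iff, map_sum]
      simpa [red_eq_comp] using h2)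
    funext l
    exact (residue_eq_zero_iff _).mpr (h1 l)
  have hinjK : Function.Injective (algebraMap R K) := IsFractionRing.injective R K
  have hν' : ν = s.nu hMu := by
    ext a
    have e : a = ![a 0, a 1, a 2, a 3] := by
      funext j
      fin_cases j <;> rfl
    apply hinjK
    rw [e, hν, RState.nu_spec]
  subst hν'
  exact licci_of_descent2 (𝒮 := GState R K M) (fun s => s.1.f) (fun s => s.1.nu hMu)
    (fun s => s.1.nu_cyc hMu) (fun s => meas dgE (redI s.1.γ))
    (fun s hI hgr => gen_move hMu s hI hgr) ⟨s, hinj'⟩ hI ⟨a0, a1, a2, a3, ha, hgood⟩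

end desc

/-- the descent, in the form of `licci_TasksM` -/
theorem licci_of_rstate {R : Type u} [CommRing R] [IsDomain R] [IsLocalRing R] [IsNoetherianRing R]
    [Infinite (ResidueField R)] [Algebra ℚ R] {K : Type u} [Field K] [Algebra R K]
    [IsFractionRing R K] {M : Matrix (Fin 14) (Fin 14) R} (hMu : IsUnit M.det) (s : RState R K M)
    (hind : ∀ c : Fin 14 → R, (∀ b, ∑ l, c l * s.γ l b ∈ maximalIdeal R) →
      ∀ l, c l ∈ maximalIdeal R) (ν : Vec R [⋀^Fin 4]→ₗ[R] R) (hν : s.IsNu ν)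
    (hI : ∀ v, s.f v ∈ maximalIdeal R) (a0 a1 a2 a3 : Vec R)
    (ha : IsWeaklyRegular R [s.f a0, s.f a1, s.f a2, s.f a3]) (hg : Good s.f ν a0 a1 a2 a3) :
    LicciCodimFour.IsLicci (LinearMap.range s.f) := by
  let _ : Algebra ℚ K := ((algebraMap R K).comp (algebraMap ℚ R)).toAlgebra
  exact RState.licci hMu s hind hI ν hν a0 a1 a2 a3 ha hg

end Pool.Agent.Licci
end

end
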