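import Pool.Agent.Work.MP_a98e4e_ag.Fu.Acyclic5
import Pool.Agent.Work.MP_a98e4e_ag.Fu.Bridge
import Pool.Agent.Work.MP_a98e4e_ag.Fu.XE.PhiDefs
import Pool.Agent.Work.MP_a98e4e_ag.Fu.E.KForm
import Pool.Agent.Work.MP_a98e4e_ag.Fu.E.TrTab1

section

/-!
# The resolution of the link of an almost complete intersection (dual mapping cone)
-/

namespace LicciCodimFour

open RingTheory.Sequence

universe u

variable {R : Type u} [CommRing R]

/-! ### Transposes of the Koszul maps -/

section transpose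

variable {N : Type*} [AddCommGroup N] [Module R N]

theorem lin6 (ξ : (Fin 6 → R) →ₗ[R] N) (x : Fin 6 → R) :
    ξ x = x 0 • ξ (Pi.single 0 1) + x 1 • ξ (Pi.single 1 1) +
        x 2 • ξ (Pi.single 2 1) + x 3 • ξ (Pi.single 3 1) + x 4 • ξ (Pi.single 4 1) +
        x 5 • ξ (Pi.single 5 1) := by
  simp only [← map_smul, ← map_add]
  congr 1
  ext i
  fin_cases i <;> simp

theorem lin4 (ξ : (Fin 4 → R) →ₗ[R] N) (x : Fin 4 → R) :
    ξ x = x 0 • ξ (Pi.single 0 1) + x 1 • ξ (Pi.single 1 1) +
        x 2 • ξ (Pi.single 2 1) + x 3 • ξ (Pi.single 3 1) := by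
  simp only [← map_smul, ← map_add]
  congr 1
  ext i
  fin_cases i <;> simp

theorem t3_of (a : Fin 4 → R) (ξ : (Fin 6 → R) →ₗ[R] N) :
    t3 a (fun j => ξ (Pi.single j 1)) = fun j => ξ (k3 a (Pi.single j 1)) := by
  rw [t3_apply]
  ext i
  rw [lin6 ξ (k3 a (Pi.single i 1)), k3_apply]
  fin_cases i <;> simp <;> module

theorem t2_of (a : Fin 4 → R) (ξ : (Fin 4 → R) →ₗ[R] N) :
    t2 a (fun j => ξ (Pi.single j 1)) = fun j => ξ (k2 a (Pi.single j 1)) := by
  rw [t2_apply]
  ext i
  rw [lin4 ξ (k2 a (Pi.single i 1)), k2_apply]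
  fin_cases i <;> simp <;> module

theorem t4_of (a : Fin 4 → R) (ξ : (Fin 4 → R) →ₗ[R] N) :
    t4 a (fun j => ξ (Pi.single j 1)) = fun _ => ξ (k4 a (fun _ => 1)) := by
  rw [t4_apply]
  ext i
  rw [lin4 ξ (k4 a (fun _ => 1)), k4_apply]
  fin_cases i
  simp
  module

end transpose

/-- The comparison map from the Koszul complex to a resolution. -/
theorem exists_comparison {F1 F2 F3 F4 : Type*} [AddCommGroup F1] [Module R F1] [AddCommGroup F2]
    [Module R F2] [AddCommGroup F3] [Module R F3] [AddCommGroup F4] [Module R F4]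
    (e1 : F1 →ₗ[R] R) (e2 : F2 →ₗ[R] F1) (e3 : F3 →ₗ[R] F2) (e4 : F4 →ₗ[R] F3)
    (h1 : Function.Exact e2 e1) (h2 : Function.Exact e3 e2) (h3 : Function.Exact e4 e3)
    (a : Fin 4 → R) (haI : ∀ i, a i ∈ LinearMap.range e1) :
    ∃ (p1 : (Fin 4 → R) →ₗ[R] F1) (p2 : (Fin 6 → R) →ₗ[R] F2) (p3 : (Fin 4 → R) →ₗ[R] F3)
      (p4 : (Fin 1 → R) →ₗ[R] F4), (∀ x, e1 (p1 x) = k1 a x 0) ∧ (∀ x, e2 (p2 x) = p1 (k2 a x)) ∧
      (∀ x, e3 (p3 x) = p2 (k3 a x)) ∧ (∀ x, e4 (p4 x) = p3 (k4 a x)) := by
  obtain ⟨p1, hp1⟩ : ∃ p1 : (Fin 4 → R) →ₗ[R] F1, ∀ x, e1 (p1 x) = k1 a x 0 := by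
    choose y hy using haI
    refine ⟨Fintype.linearCombination R y, ?_⟩
    intro x
    rw [Fintype.linearCombination_apply, map_sum, k1_apply]
    simp [Fin.sum_univ_succ, hy]
    ring
  obtain ⟨p2, hp2⟩ := exists_lift h1 (p1 ∘ₗ k2 a) (fun x => by
    rw [LinearMap.comp_apply, hp1, k1_k2]; rfl)
  obtain ⟨p3, hp3⟩ := exists_lift h2 (p2 ∘ₗ k3 a) (fun x => by
    rw [LinearMap.comp_apply, hp2, LinearMap.comp_apply, k2_k3, map_zero])
  obtain ⟨p4, hp4⟩ := exists_lift h3 (p3 ∘ₗ k4 a) (fun x => by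
    rw [LinearMap.comp_apply, hp3, LinearMap.comp_apply, k3_k4, map_zero])
  exact ⟨p1, p2, p3, p4, hp1, hp2, hp3, hp4⟩

/-- values of a functional on the standard basis -/
def coeffs {n : ℕ} {F : Type*} [AddCommGroup F] [Module R F] (p : (Fin n → R) →ₗ[R] F) :
    Module.Dual R F →ₗ[R] (Fin n → R) where
  toFun η := fun j => η (p (Pi.single j 1))
  map_add' _ _ := rfl
  map_smul' _ _ := rfl

theorem coeffs_apply {n : ℕ} {F : Type*} [AddCommGroup F] [Module R F]
    (p : (Fin n → R) →ₗ[R] F) (η : Module.Dual R F) (j : Fin n) :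
    coeffs p η j = η (p (Pi.single j 1)) := rfl

/-- The dual mapping cone: from a resolution `F` of an ideal `I = (a₀, …, a₃, w)` (the first module
being free on lifts of `a₀, …, a₃, w`) to a resolution of the link `(a) : I`. -/
theorem map_cone {F1 F2 F3 F4 : Type u} [AddCommGroup F1] [Module R F1] [AddCommGroup F2]
    [Module R F2] [AddCommGroup F3] [Module R F3] [AddCommGroup F4] [Module R F4]
    [Module.Projective R F1] [Module.Projective R F2] [Module.Projective R F3]
    [Module.Projective R F4] [Module.Finite R F1] [Module.Finite R F2] [Module.Finite R F3]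
    [Module.Finite R F4]
    (e1 : F1 →ₗ[R] R) (e2 : F2 →ₗ[R] F1) (e3 : F3 →ₗ[R] F2) (e4 : F4 →ₗ[R] F3)
    (h1 : Function.Exact e2 e1) (h2 : Function.Exact e3 e2) (h3 : Function.Exact e4 e3)
    (h4 : Function.Injective e4) (a : Fin 4 → R) (ha : IsWeaklyRegular R (list4 a))
    (haI : ∀ i, a i ∈ LinearMap.range e1)
    (p1 : (Fin 4 → R) →ₗ[R] F1) (p2 : (Fin 6 → R) →ₗ[R] F2) (p3 : (Fin 4 → R) →ₗ[R] F3)
    (p4 : (Fin 1 → R) →ₗ[R] F4) (hp1 : ∀ x, e1 (p1 x) = k1 a x 0)
    (hp2 : ∀ x, e2 (p2 x) = p1 (k2 a x)) (hp3 : ∀ x, e3 (p3 x) = p2 (k3 a x))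
    (hp4 : ∀ x, e4 (p4 x) = p3 (k4 a x)) (E : ((Fin 4 → R) × R) ≃ₗ[R] F1)
    (hE : ∀ x, E (x, 0) = p1 x) :
    ∃ (δ4 : R →ₗ[R] Module.Dual R F2)
      (δ3 : Module.Dual R F2 →ₗ[R] (Module.Dual R F3 × (Fin 6 → R)))
      (δ2 : (Module.Dual R F3 × (Fin 6 → R)) →ₗ[R] (Module.Dual R F4 × (Fin 4 → R)))
      (δ1 : (Module.Dual R F4 × (Fin 4 → R)) →ₗ[R] R),
      Function.Injective δ4 ∧ Function.Exact δ4 δ3 ∧ Function.Exact δ3 δ2 ∧
      Function.Exact δ2 δ1 ∧ ∀ y, δ1 y = y.1 (p4 (fun _ => 1)) - t4 a y.2 0 := by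
  have ha1 : ∀ m, IsWeaklyRegular (Fin m → R) (list4 a) := fun m => isWeaklyRegular_pi ha m
  obtain ⟨tinj, tex1, tex2, tex3⟩ := koszul_dual_exact (N := R) a ha1
  have hmem : ∀ r ∈ list4 a, r ∈ LinearMap.range e1 := by
    intro r hr
    simp only [list4, List.mem_cons, List.not_mem_nil, or_false] at hr
    rcases hr with rfl | rfl | rfl | rfl <;> exact haI _
  obtain ⟨de0, de1, de2, de3⟩ := dual_exact e1 e2 e3 e4 h1 h2 h3 h4 (list4 a) rfl ha hmem
  have hreg0 : IsSMulRegular R (a 0) := by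
    have := ha
    rw [list4, isWeaklyRegular_cons_iff] at this
    exact this.1
  -- the functional `ε`
  let ε : F1 →ₗ[R] R := LinearMap.snd R (Fin 4 → R) R ∘ₗ E.symm.toLinearMap
  have hεE : ∀ y, ε (E y) = y.2 := by
    intro y
    simp [ε]
  have hεp : ∀ x, ε (p1 x) = 0 := by
    intro x
    rw [← hE, hεE]
  let δ4 : R →ₗ[R] Module.Dual R F2 := LinearMap.toSpanSingleton R (Module.Dual R F2) (ε ∘ₗ e2)
  let δ3 : Module.Dual R F2 →ₗ[R] (Module.Dual R F3 × (Fin 6 → R)) :=
    LinearMap.prod e3.dualMap (coeffs p2)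
  let δ2 : (Module.Dual R F3 × (Fin 6 → R)) →ₗ[R] (Module.Dual R F4 × (Fin 4 → R)) :=
    LinearMap.prod (e4.dualMap ∘ₗ LinearMap.fst R _ _)
      (coeffs p3 ∘ₗ LinearMap.fst R _ _ - t3 a ∘ₗ LinearMap.snd R _ _)
  let δ1 : (Module.Dual R F4 × (Fin 4 → R)) →ₗ[R] R :=
    (Module.Dual.eval R F4 (p4 (fun _ => 1))) ∘ₗ LinearMap.fst R _ _ -
      (LinearMap.proj 0 ∘ₗ t4 a) ∘ₗ LinearMap.snd R _ _
  have hδ4 : ∀ r z, δ4 r z = r * ε (e2 z) := fun r z => rfl
  have hδ3a : ∀ η z, (δ3 η).1 z = η (e3 z) := fun η z => rfl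
  have hδ3b : ∀ η, (δ3 η).2 = fun j => η (p2 (Pi.single j 1)) := fun η => rfl
  have hδ2a : ∀ y z, (δ2 y).1 z = y.1 (e4 z) := fun η z => rfl
  have hδ2b : ∀ y, (δ2 y).2 = (fun j => y.1 (p3 (Pi.single j 1))) - t3 a y.2 := fun y => rfl
  have hδ1 : ∀ y, δ1 y = y.1 (p4 (fun _ => 1)) - t4 a y.2 0 := fun y => rfl
  -- compositions
  have c43 : ∀ r, δ3 (δ4 r) = 0 := by
    intro r
    apply Prod.ext
    · ext z
      rw [hδ3a, hδ4, h2.apply_apply_eq_zero, map_zero, mul_zero]
      rfl
    · rw [hδ3b]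
      ext j
      rw [hδ4, hp2, hεp, mul_zero]
      rfl
  have c32 : ∀ η, δ2 (δ3 η) = 0 := by
    intro η
    apply Prod.ext
    · ext z
      rw [hδ2a, hδ3a, h3.apply_apply_eq_zero, map_zero]
      rfl
    · rw [hδ2b, hδ3b]
      have h5 := t3_of a (η ∘ₗ p2)
      simp only [LinearMap.comp_apply] at h5
      rw [h5]
      ext j
      simp only [Pi.sub_apply, hδ3a, hp3, sub_self]
      rfl
  have c21 : ∀ y, δ1 (δ2 y) = 0 := by
    intro y
    rw [hδ1, hδ2a, hδ2b, map_sub, t4_t3, sub_zero]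
    have h5 := t4_of a (y.1 ∘ₗ p3)
    simp only [LinearMap.comp_apply] at h5
    rw [h5, hp4, sub_self]
  -- (i)
  have i4 : Function.Injective δ4 := by
    rw [injective_iff_map_eq_zero]
    intro r hr
    obtain ⟨c, hc⟩ := de1 (r • ε) (fun z => by
      have := LinearMap.congr_fun hr z
      rw [hδ4] at this
      simpa using this)
    have h5 := LinearMap.congr_fun hc (p1 ![1, 0, 0, 0])
    rw [LinearMap.smul_apply, hεp, smul_zero, LinearMap.smul_apply, hp1, k1_apply] at h5
    have h6 : c = 0 := by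
      apply hreg0
      simp at h5
      show a 0 • c = a 0 • (0 : R)
      rw [smul_eq_mul, smul_zero, mul_comm]
      exact h5.symm
    rw [h6, zero_smul] at hc
    have h7 := LinearMap.congr_fun hc (E (0, 1))
    rw [LinearMap.smul_apply, hεE] at h7
    simpa using h7
  -- functionals on `F1` with given values
  have hF1 : ∀ (ξ ξ' : F1 →ₗ[R] R), (∀ x, ξ (p1 x) = ξ' (p1 x)) →
      ξ (E (0, 1)) = ξ' (E (0, 1)) → ξ = ξ' := by
    intro ξ ξ' h5 h6
    ext z
    obtain ⟨⟨x, s⟩, rfl⟩ := E.surjective z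
    have h7 : ((x, s) : (Fin 4 → R) × R) = (x, 0) + s • (0, 1) := by
      apply Prod.ext <;> simp
    rw [h7, map_add, map_smul, hE, map_add, map_add, map_smul, map_smul, h5, h6]
  -- (ii)
  have i3 : Function.Exact δ4 δ3 := by
    intro η
    constructor
    · intro hη
      have h5 : ∀ z, η (e3 z) = 0 := fun z => by
        rw [← hδ3a, hη]
        rfl
      have h6 : ∀ x, η (p2 x) = 0 := by
        intro x
        have h7 : η ∘ₗ p2 = 0 := by
          apply LinearMap.pi_ext'
          intro j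
          apply LinearMap.ext_ring
          have h8 := congrFun (congrArg Prod.snd hη) j
          rw [hδ3b] at h8
          exact h8
        exact LinearMap.congr_fun h7 x
      obtain ⟨ξ, hξ⟩ := de2 η h5
      obtain ⟨s, hs⟩ := extend_k2 a ha1 (ξ ∘ₗ p1) (fun x => by
        rw [LinearMap.comp_apply, ← hp2, ← hξ, h6])
      let c : R := s (fun _ => 1)
      have hc : ∀ x, ξ (p1 x) = c * e1 (p1 x) := by
        intro x
        rw [hp1]
        have h7 : k1 a x = (k1 a x 0) • (fun _ => (1 : R)) := by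
          ext i
          fin_cases i
          simp
        have h8 := hs x
        rw [h7, map_smul, LinearMap.comp_apply, smul_eq_mul] at h8
        rw [← h8, mul_comm]
      refine ⟨(ξ - c • e1) (E (0, 1)), ?_⟩
      have h9 : ξ - c • e1 = ((ξ - c • e1) (E (0, 1))) • ε := by
        apply hF1
        · intro x
          rw [LinearMap.sub_apply, LinearMap.smul_apply, hc, LinearMap.smul_apply, hεp]
          simp
        · rw [LinearMap.smul_apply, hεE]
          simp
      ext z
      rw [hδ4, ← smul_eq_mul, ← LinearMap.smul_apply, ← h9, LinearMap.sub_apply,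
        LinearMap.smul_apply, h1.apply_apply_eq_zero, smul_zero, sub_zero, ← hξ]
    · rintro ⟨r, rfl⟩
      exact c43 r
  -- (iii)
  have i2 : Function.Exact δ3 δ2 := by
    rintro ⟨η, z⟩
    constructor
    · intro hη
      have h5 : ∀ y, η (e4 y) = 0 := fun y => by
        have := LinearMap.congr_fun (congrArg Prod.fst hη) y
        rw [hδ2a] at this
        exact this
      have h6 : (fun j => η (p3 (Pi.single j 1))) - t3 a z = 0 := by
        have := congrArg Prod.snd hη
        rw [hδ2b] at this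
        exact this
      obtain ⟨η', hη'⟩ := de3 η h5
      have h7 := t3_of a (η' ∘ₗ p2)
      simp only [LinearMap.comp_apply] at h7
      have h8 : t3 a (z - fun j => η' (p2 (Pi.single j 1))) = 0 := by
        rw [map_sub, h7, ← sub_eq_zero.1 h6, sub_eq_zero]
        ext j
        rw [hη', hp3]
      obtain ⟨y, hy⟩ := (tex2 _).1 h8
      let ξ : F1 →ₗ[R] R :=
        (Fintype.linearCombination R y ∘ₗ LinearMap.fst R _ R) ∘ₗ E.symm.toLinearMap
      have hξ : ∀ x, ξ (p1 x) = Fintype.linearCombination R y x := by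
        intro x
        rw [← hE]
        simp [ξ]
      refine ⟨η' + ξ ∘ₗ e2, ?_⟩
      apply Prod.ext
      · ext x
        rw [hδ3a, LinearMap.add_apply, LinearMap.comp_apply, h2.apply_apply_eq_zero, map_zero,
          add_zero, ← hη']
      · rw [hδ3b]
        have h9 := t2_of a (ξ ∘ₗ p1)
        simp only [LinearMap.comp_apply, hξ] at h9
        have h10 : (fun j => Fintype.linearCombination R y (Pi.single j 1 : Fin 4 → R)) = y := by
          ext j
          simp
        rw [h10, hy] at h9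
        ext j
        have h11 := congrFun h9 j
        simp only [Pi.sub_apply] at h11
        rw [LinearMap.add_apply, LinearMap.comp_apply, hp2, hξ, ← h11]
        abel
    · rintro ⟨r, hr⟩
      rw [← hr]
      exact c32 r
  -- (iv)
  have key := acyclic5 δ4 δ3 δ2 δ1 c43 c32 c21 (list4 a) rfl ha
    (isWeaklyRegular_of_flat ha _) (isWeaklyRegular_of_flat ha _) (isWeaklyRegular_of_flat ha _)
    ha
    (fun r _ z hz => ⟨0, by rw [i4 (hz.trans (map_zero δ4).symm), smul_zero]⟩)
    (fun r _ z hz => by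
      obtain ⟨y, hy⟩ := (i3 z).1 hz
      exact ⟨0, y, by rw [hy, pow_zero, one_smul]⟩)
    (fun r _ z hz => by
      obtain ⟨y, hy⟩ := (i2 z).1 hz
      exact ⟨0, y, by rw [hy, pow_zero, one_smul]⟩)
    (fun r hr y hy => by
      obtain ⟨u, rfl⟩ := hmem r hr
      obtain ⟨g1, g2, g3, hg1, hg2, hg3, hg4⟩ := null_homotopy e1 e2 e3 e4 h1 h2 h3 h4 u
      rw [hδ1] at hy
      have h5 := t4_of a (y.1 ∘ₗ g3 ∘ₗ p3)
      simp only [LinearMap.comp_apply] at h5
      have h6 : t4 a (e1 u • y.2 - fun j => y.1 (g3 (p3 (Pi.single j 1)))) = 0 := by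
        rw [map_sub, map_smul, h5, ← hp4, hg4]
        ext i
        fin_cases i
        simp only [map_smul, Pi.sub_apply, Pi.smul_apply, smul_eq_mul, Pi.zero_apply]
        show e1 u * t4 a y.2 0 - e1 u * y.1 (p4 (fun _ => 1)) = 0
        linear_combination (-(e1 u)) * hy
      obtain ⟨z, hz⟩ := (tex3 _).1 h6
      refine ⟨1, (y.1 ∘ₗ g3, -z), ?_⟩
      rw [pow_one]
      apply Prod.ext
      · ext x
        rw [hδ2a]
        simp only [LinearMap.comp_apply, hg4, map_smul]
        rfl
      · rw [hδ2b]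
        simp only [map_neg, hz, LinearMap.comp_apply]
        show _ = e1 u • y.2
        abel)
  exact ⟨δ4, δ3, δ2, δ1, i4, i3, i2, key.2.2.2, hδ1⟩

/-- Elements of `(a) : I` come from functionals on `F4` and the Koszul complex. -/
theorem exists_coker_lift {F1 F2 F3 F4 : Type*} [AddCommGroup F1] [Module R F1] [AddCommGroup F2]
    [Module R F2] [AddCommGroup F3] [Module R F3] [AddCommGroup F4] [Module R F4]
    [Module.Free R F1] [Module.Projective R F2] [Module.Projective R F3]
    [Module.Projective R F4]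
    (e1 : F1 →ₗ[R] R) (e2 : F2 →ₗ[R] F1) (e3 : F3 →ₗ[R] F2) (e4 : F4 →ₗ[R] F3)
    (h1 : Function.Exact e2 e1) (h2 : Function.Exact e3 e2) (h3 : Function.Exact e4 e3)
    (a : Fin 4 → R) (ha : IsWeaklyRegular R (list4 a))
    (p1 : (Fin 4 → R) →ₗ[R] F1) (p2 : (Fin 6 → R) →ₗ[R] F2) (p3 : (Fin 4 → R) →ₗ[R] F3)
    (p4 : (Fin 1 → R) →ₗ[R] F4) (hp1 : ∀ x, e1 (p1 x) = k1 a x 0)
    (hp2 : ∀ x, e2 (p2 x) = p1 (k2 a x)) (hp3 : ∀ x, e3 (p3 x) = p2 (k3 a x))
    (hp4 : ∀ x, e4 (p4 x) = p3 (k4 a x)) (r : R) (hr : ∀ y, r * e1 y ∈ al a) :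
    ∃ (s : Module.Dual R F4) (z : Fin 4 → R), s (p4 (fun _ => 1)) - t4 a z 0 = r := by
  obtain ⟨kinj, kex3, kex2, kex1⟩ := koszul_exact a ha
  obtain ⟨q1, hq1⟩ : ∃ q1 : F1 →ₗ[R] (Fin 4 → R), ∀ y, k1 a (q1 y) = fun _ => r * e1 y := by
    let b := Module.Free.chooseBasis R F1
    choose x hx using fun j => (mem_al_iff a (r * e1 (b j))).1 (hr (b j))
    refine ⟨b.constr R x, ?_⟩
    have h5 : k1 a ∘ₗ b.constr R x = LinearMap.pi fun _ => r • e1 := by
      apply b.ext
      intro j
      rw [LinearMap.comp_apply, Module.Basis.constr_basis, hx]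
      rfl
    intro y
    exact LinearMap.congr_fun h5 y
  obtain ⟨q2, hq2⟩ := exists_lift kex1 (q1 ∘ₗ e2) (fun y => by
    rw [LinearMap.comp_apply, hq1, h1.apply_apply_eq_zero, mul_zero]; rfl)
  obtain ⟨q3, hq3⟩ := exists_lift kex2 (q2 ∘ₗ e3) (fun y => by
    rw [LinearMap.comp_apply, hq2, LinearMap.comp_apply, h2.apply_apply_eq_zero, map_zero])
  obtain ⟨q4, hq4⟩ := exists_lift kex3 (q3 ∘ₗ e4) (fun y => by
    rw [LinearMap.comp_apply, hq3, LinearMap.comp_apply, h3.apply_apply_eq_zero, map_zero])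
  simp only [LinearMap.comp_apply] at hq2 hq3 hq4
  obtain ⟨s1, hs1⟩ := exists_lift kex1 (r • LinearMap.id - q1 ∘ₗ p1) (fun x => by
    simp only [LinearMap.sub_apply, LinearMap.smul_apply, LinearMap.id_apply,
      LinearMap.comp_apply, map_sub, map_smul, hq1, hp1]
    ext i
    fin_cases i
    simp)
  obtain ⟨s2, hs2⟩ := exists_lift kex2 (r • LinearMap.id - q2 ∘ₗ p2 - s1 ∘ₗ k2 a) (fun x => by
    simp only [LinearMap.sub_apply, LinearMap.smul_apply, LinearMap.id_apply,
      LinearMap.comp_apply, map_sub, map_smul, hq2, hp2, hs1]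
    abel)
  obtain ⟨s3, hs3⟩ := exists_lift kex3 (r • LinearMap.id - q3 ∘ₗ p3 - s2 ∘ₗ k3 a) (fun x => by
    simp only [LinearMap.sub_apply, LinearMap.smul_apply, LinearMap.id_apply,
      LinearMap.comp_apply, map_sub, map_smul, hq3, hp3, hs2, k2_k3, map_zero]
    abel)
  have key : ∀ z, r • z = q4 (p4 z) + s3 (k4 a z) := by
    intro z
    apply kinj
    rw [map_add, hq4, hp4, hs3]
    simp only [LinearMap.sub_apply, LinearMap.smul_apply, LinearMap.id_apply,
      LinearMap.comp_apply, k3_k4, map_zero, map_smul]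
    abel
  have h5 := congrFun (key (fun _ => 1)) 0
  have h6 := congrFun (t4_of a (LinearMap.proj 0 ∘ₗ s3)) 0
  simp only [LinearMap.comp_apply, LinearMap.proj_apply] at h6
  refine ⟨LinearMap.proj 0 ∘ₗ q4, -fun j => s3 (Pi.single j 1) 0, ?_⟩
  rw [map_neg]
  simp only [LinearMap.comp_apply, LinearMap.proj_apply, Pi.neg_apply, sub_neg_eq_add]
  rw [h6]
  simp only [Pi.smul_apply, smul_eq_mul, mul_one, Pi.add_apply] at h5
  exact h5.symm

end LicciCodimFour

end

section

/-!
# Reduction of the codimension four Dynkin cases to self-dual-format complexes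

`MainStatement2 R n`: every exact complex `0 → R → F3 → G → R ^ n → R` of finite free modules whose
image ideal lies in the maximal ideal and has grade at least four has a licci image ideal.
No minimality is required.
-/

namespace LicciCodimFour

open IsLocalRing RingTheory.Sequence

universe u

variable {R : Type u} [CommRing R]

/-- The main statement: Gorenstein ideals of grade four with at most `n` generators, given by an
exact (not necessarily minimal) complex `0 → R → F3 → G → R ^ n → R`, are licci. -/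
def MainStatement2 (R : Type u) [CommRing R] [IsLocalRing R] (n : ℕ) : Prop :=
  ∀ (F3 G : Type u) [AddCommGroup F3] [Module R F3] [AddCommGroup G] [Module R G]
    [Module.Free R F3] [Module.Finite R F3] [Module.Free R G] [Module.Finite R G]
    (d4 : R →ₗ[R] F3) (d3 : F3 →ₗ[R] G) (d2 : G →ₗ[R] (Fin n → R)) (f : (Fin n → R) →ₗ[R] R),
    Function.Injective d4 → Function.Exact d4 d3 → Function.Exact d3 d2 → Function.Exact d2 f →
    (∀ x, f x ∈ maximalIdeal R) →
    (∃ rs : List R, rs.length = 4 ∧ IsRegular R rs ∧ ∀ r ∈ rs, r ∈ LinearMap.range f) →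
    IsLicci (LinearMap.range f)

/-- The padded version, with an arbitrary free module of rank at most `n` in the first spot. -/
theorem MainStatement2.padded [IsLocalRing R] {n : ℕ} (main : MainStatement2 R n)
    {F3 G M : Type u} [AddCommGroup F3] [Module R F3] [AddCommGroup G] [Module R G]
    [AddCommGroup M] [Module R M] [Module.Free R F3] [Module.Finite R F3] [Module.Free R G]
    [Module.Finite R G] [Module.Free R M] [Module.Finite R M]
    (d4 : R →ₗ[R] F3) (d3 : F3 →ₗ[R] G) (d2 : G →ₗ[R] M) (f : M →ₗ[R] R)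
    (hn : Module.finrank R M ≤ n) (h4 : Function.Injective d4) (h3 : Function.Exact d4 d3)
    (h2 : Function.Exact d3 d2) (h1 : Function.Exact d2 f) (hf : ∀ x, f x ∈ maximalIdeal R)
    (hgr : ∃ rs : List R, rs.length = 4 ∧ IsRegular R rs ∧ ∀ r ∈ rs, r ∈ LinearMap.range f) :
    IsLicci (LinearMap.range f) := by
  obtain ⟨m, hm⟩ := Nat.exists_eq_add_of_le hn
  have hrank : Module.finrank R (M × (Fin m → R)) = Module.finrank R (Fin n → R) := by
    rw [Module.finrank_prod, Module.finrank_fin_fun, Module.finrank_fin_fun, hm]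
  let E : (M × (Fin m → R)) ≃ₗ[R] (Fin n → R) := LinearEquiv.ofFinrankEq _ _ hrank
  let D3 : F3 →ₗ[R] (G × (Fin m → R)) := LinearMap.inl R G (Fin m → R) ∘ₗ d3
  let D2 : (G × (Fin m → R)) →ₗ[R] (Fin n → R) := E.toLinearMap ∘ₗ LinearMap.prodMap d2 LinearMap.id
  let F : (Fin n → R) →ₗ[R] R := f ∘ₗ LinearMap.fst R M (Fin m → R) ∘ₗ E.symm.toLinearMap
  have hD3 : ∀ x, D3 x = (d3 x, 0) := fun x => rfl
  have hD2 : ∀ y, D2 y = E (d2 y.1, y.2) := fun y => rfl
  have hF : ∀ z, F (E z) = f z.1 := by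
    intro z
    simp [F]
  have hrange : LinearMap.range F = LinearMap.range f := by
    apply le_antisymm
    · rintro _ ⟨z, rfl⟩
      obtain ⟨z, rfl⟩ := E.surjective z
      rw [hF]
      exact ⟨_, rfl⟩
    · rintro _ ⟨z, rfl⟩
      exact ⟨E (z, 0), hF _⟩
  rw [← hrange] at hgr ⊢
  refine main F3 (G × (Fin m → R)) d4 D3 D2 F h4 ?_ ?_ ?_ ?_ hgr
  · intro x
    rw [hD3, Prod.mk_eq_zero]
    constructor
    · rintro ⟨hx, _⟩
      exact (h3 x).1 hx
    · intro hx
      exact ⟨(h3 x).2 hx, rfl⟩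
  · rintro ⟨y, s⟩
    constructor
    · intro hy
      rw [hD2] at hy
      have hy' := E.map_eq_zero_iff.1 hy
      rw [Prod.mk_eq_zero] at hy'
      obtain ⟨z, hz⟩ := (h2 y).1 hy'.1
      refine ⟨z, ?_⟩
      rw [hD3, hz]
      exact Prod.ext rfl hy'.2.symm
    · rintro ⟨z, hz⟩
      rw [hD3] at hz
      rw [← hz, hD2]
      simp only [h2.apply_apply_eq_zero]
      exact E.map_zero
  · intro z
    obtain ⟨⟨z, s⟩, rfl⟩ := E.surjective z
    rw [hF]
    constructor
    · intro hz
      obtain ⟨y, hy⟩ := (h1 z).1 hz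
      exact ⟨(y, s), by rw [hD2, hy]⟩
    · rintro ⟨⟨y, t⟩, hy⟩
      rw [hD2] at hy
      have hy' := E.injective hy
      have h5 := congrArg Prod.fst hy'
      simp only at h5
      rw [← h5]
      exact h1.apply_apply_eq_zero y
  · intro z
    obtain ⟨z, rfl⟩ := E.surjective z
    rw [hF]
    exact hf _

/-- Nakayama: lifts of generators of a minimal resolution are a basis. -/
theorem exists_equiv_of_minimal [IsLocalRing R] [IsNoetherianRing R] {n : ℕ} (hn : n = 5)
    {F2 : Type*} [AddCommGroup F2] [Module R F2] (e1 : (Fin n → R) →ₗ[R] R)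
    (e2 : F2 →ₗ[R] (Fin n → R)) (h1 : Function.Exact e2 e1)
    (hmin : ∀ x j, e2 x j ∈ maximalIdeal R) (a : Fin 4 → R) (w : R)
    (hI : LinearMap.range e1 = al a ⊔ Ideal.span {w}) (p1 : (Fin 4 → R) →ₗ[R] (Fin n → R))
    (hp1 : ∀ x, e1 (p1 x) = k1 a x 0) :
    ∃ E : ((Fin 4 → R) × R) ≃ₗ[R] (Fin n → R), ∀ x, E (x, 0) = p1 x := by
  subst hn
  obtain ⟨u, hu⟩ : ∃ u, e1 u = w := by
    have : w ∈ LinearMap.range e1 := by
      rw [hI]
      exact Ideal.mem_sup_right (Ideal.mem_span_singleton_self w)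
    exact this
  let Ψ : ((Fin 4 → R) × R) →ₗ[R] (Fin 5 → R) :=
    p1.coprod (LinearMap.toSpanSingleton R (Fin 5 → R) u)
  have hΨ : ∀ y, Ψ y = p1 y.1 + y.2 • u := fun y => rfl
  have hsurj : Function.Surjective Ψ := by
    rw [← LinearMap.range_eq_top, ← top_le_iff]
    refine Submodule.le_of_le_smul_of_le_jacobson_bot (I := maximalIdeal R)
      Module.Finite.fg_top (IsLocalRing.maximalIdeal_le_jacobson ⊥) ?_
    intro y _
    have h5 : e1 y ∈ al a ⊔ Ideal.span {w} := by
      rw [← hI]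
      exact ⟨y, rfl⟩
    obtain ⟨s, hs, t, ht, hst⟩ := Submodule.mem_sup.1 h5
    obtain ⟨x, hx⟩ := (mem_al_iff a s).1 hs
    obtain ⟨c, hc⟩ := Ideal.mem_span_singleton'.1 ht
    have h6 : e1 (y - Ψ (x, c)) = 0 := by
      rw [map_sub, hΨ, map_add, map_smul, hp1, hx, hu, smul_eq_mul, hc, hst, sub_self]
    obtain ⟨z, hz⟩ := (h1 _).1 h6
    have h7 : y = Ψ (x, c) + e2 z := by rw [hz]; abel
    rw [h7]
    refine Submodule.add_mem_sup ⟨_, rfl⟩ ?_
    have h8 : e2 z = ∑ j, e2 z j • (Pi.single j 1 : Fin 5 → R) := by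
      funext l
      simp [Finset.sum_apply, Pi.single_apply]
    rw [h8]
    exact Submodule.sum_mem _ fun j _ => Submodule.smul_mem_smul (hmin z j) trivial
  have hrank : Module.finrank R (Fin 5 → R) = Module.finrank R ((Fin 4 → R) × R) := by
    rw [Module.finrank_prod, Module.finrank_fin_fun, Module.finrank_fin_fun,
      Module.finrank_self]
  let e0 : (Fin 5 → R) ≃ₗ[R] ((Fin 4 → R) × R) := LinearEquiv.ofFinrankEq _ _ hrank
  have hinj : Function.Injective Ψ := by
    have h5 : Function.Injective (e0.toLinearMap ∘ₗ Ψ) :=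
      OrzechProperty.injective_of_surjective_endomorphism _ (by
        rw [LinearMap.coe_comp]
        exact e0.surjective.comp hsurj)
    intro x y hxy
    apply h5
    simp only [LinearMap.comp_apply, hxy]
  refine ⟨LinearEquiv.ofBijective Ψ ⟨hinj, hsurj⟩, fun x => ?_⟩
  have h5 : Ψ (x, 0) = p1 x := by
    rw [hΨ]
    simp
  exact h5

/-- The complex reduced to explicit modules. -/
theorem reduce2 [IsLocalRing R] [IsNoetherianRing R] [Infinite (ResidueField R)] {n : ℕ}
    (main : MainStatement2 R n) (I : Ideal R) (e t : ℕ) (h : IsPerfectWith I 4 e t)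
    (hc : (t = 1 ∧ 4 + e ≤ n) ∨ (e = 1 ∧ 4 + t ≤ n)) : IsLicci I := by
  obtain ⟨hreg, b, hb1, hb4, hb, ⟨F⟩⟩ := h
  -- the resolution
  have hinj : Function.Injective (F.d 2) := by
    rw [injective_iff_map_eq_zero]
    intro x hx
    obtain ⟨y, hy⟩ := (F.exact_d 2 x).1 hx
    have : b (3 + 2) = 0 := hb 5 (by norm_num)
    have hs : Subsingleton (Fin (b (3 + 2)) → R) := by
      rw [this]
      infer_instance
    rw [← hy, Subsingleton.elim y 0, map_zero]
  rcases hc with ⟨rfl, he⟩ | ⟨rfl, ht⟩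
  · -- Gorenstein case: pad
    have hb4' : b (2 + 2) = 1 := hb4
    let E : R ≃ₗ[R] (Fin (b (2 + 2)) → R) :=
      (LinearEquiv.funUnique (Fin 1) R R).symm.trans
        (LinearEquiv.funCongrLeft R R (finCongr hb4'))
    have := main.padded (F.d 2 ∘ₗ E.toLinearMap) (F.d 1) (F.d 0) F.aug (by
        rw [Module.finrank_fin_fun, hb1]
        exact he) (by
        rw [LinearMap.coe_comp]
        exact hinj.comp E.injective) (by
        intro x
        constructor
        · intro hx
          obtain ⟨y, hy⟩ := (F.exact_d 1 x).1 hx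
          obtain ⟨z, rfl⟩ := E.surjective y
          exact ⟨z, hy⟩
        · rintro ⟨z, hz⟩
          rw [← hz]
          exact (F.exact_d 1).apply_apply_eq_zero _) (F.exact_d 0) F.exact_aug F.minimal_aug (by
        rw [F.range_aug]
        exact hreg)
    rw [F.range_aug] at this
    exact this
  · -- almost complete intersection
    obtain ⟨f, hf, hfI⟩ : ∃ f : Fin (4 + 1) → R, (∀ i, f i ∈ maximalIdeal R) ∧
        Ideal.span (Set.range f) = I := by
      refine ⟨fun i => F.aug (Pi.single (Fin.cast hb1.symm i) 1), fun i => F.minimal_aug _, ?_⟩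
      refine Eq.trans ?_ F.range_aug
      rw [range_pi]
      congr 1
      ext x
      constructor
      · rintro ⟨i, rfl⟩
        exact ⟨Fin.cast hb1.symm i, rfl⟩
      · rintro ⟨i, rfl⟩
        exact ⟨Fin.cast hb1 i, rfl⟩
    obtain ⟨a, v, ha, hav⟩ := splitStatement 1 f hf (by rwa [hfI])
    have hv0 : Ideal.span (Set.range v) = Ideal.span {v 0} := by
      congr 1
      ext x
      constructor
      · rintro ⟨i, rfl⟩
        rw [Subsingleton.elim i 0]
        rfl
      · rintro rfl
        exact ⟨0, rfl⟩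
    have hI : I = al a ⊔ Ideal.span {v 0} := by rw [← hfI, hav, hv0]
    have haI : ∀ i, a i ∈ I := by
      intro i
      rw [hI]
      exact Ideal.mem_sup_left (Ideal.subset_span ⟨i, rfl⟩)
    have hIm : I ≤ maximalIdeal R := by
      rw [← hfI, Ideal.span_le]
      rintro _ ⟨i, rfl⟩
      exact hf i
    have ham : ∀ i, a i ∈ maximalIdeal R := fun i => hIm (haI i)
    have hreg4 : IsRegular R (list4 a) := by
      refine (IsLocalRing.isRegular_iff_isWeaklyRegular_of_subset_maximalIdeal ?_).2 ha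
      intro r hr
      simp only [list4, List.mem_cons, List.not_mem_nil, or_false] at hr
      rcases hr with rfl | rfl | rfl | rfl <;> exact ham _
    have hne : al a ≤ I := by
      rw [al, Ideal.span_le]
      rintro _ ⟨i, rfl⟩
      exact haI i
    have haI' : ∀ i, a i ∈ LinearMap.range F.aug := by
      rw [F.range_aug]
      exact haI
    obtain ⟨w', hw1', hw2⟩ := bridge F.aug (F.d 0) (F.d 1) (F.d 2) F.exact_aug (F.exact_d 0)
      (F.exact_d 1) hinj I F.range_aug a ha haI
    -- the link is licci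
    have hlic : IsLicci ((al a).colon (I : Set R)) := by
      by_cases htop : (al a).colon (I : Set R) = ⊤
      · -- then `I` is a complete intersection and so is ... the link of the link
        rw [htop]
        rw [htop] at hw2
        have hIa : I = al a := by
          apply le_antisymm _ hne
          intro x hx
          have h5 : (1 : R) ∈ (al a).colon (I : Set R) := by rw [htop]; trivial
          rw [mem_colon_iff] at h5
          simpa using h5 x hx
        refine IsLicci.of_link (J := I) ?_ ⟨I, Relation.ReflTransGen.refl, list4 a, hreg4, ?_⟩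
        · refine ⟨list4 a, hreg4, ?_, ?_, ?_⟩
          · rw [ofList_list4]
            exact le_inf le_top hne
          · rw [ofList_list4, htop]
          · rw [ofList_list4, hw2]
        · rw [ofList_list4]
          exact hIa
      · obtain ⟨p1, p2, p3, p4, hp1, hp2, hp3, hp4⟩ := exists_comparison F.aug (F.d 0) (F.d 1)
          (F.d 2) F.exact_aug (F.exact_d 0) (F.exact_d 1) a haI'
        obtain ⟨E, hE⟩ := exists_equiv_of_minimal hb1 F.aug (F.d 0) F.exact_aug (F.minimal_d 0)
          a (v 0) (by rw [F.range_aug, hI]) p1 hp1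
        obtain ⟨δ4, δ3, δ2, δ1, i4, i3, i2, i1, hδ1⟩ := map_cone F.aug (F.d 0) (F.d 1) (F.d 2)
          F.exact_aug (F.exact_d 0) (F.exact_d 1) hinj a ha haI' p1 p2 p3 p4 hp1 hp2 hp3 hp4 E hE
        -- the image of `δ1` is the link
        have hrange : LinearMap.range δ1 = (al a).colon (I : Set R) := by
          apply le_antisymm
          · rintro _ ⟨y, rfl⟩
            rw [mem_colon_iff]
            intro x hx
            rw [hδ1, sub_mul]
            apply Ideal.sub_mem
            · rw [← F.range_aug] at hx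
              obtain ⟨u, rfl⟩ := hx
              obtain ⟨g1, g2, g3, hg1, hg2, hg3, hg4⟩ := null_homotopy F.aug (F.d 0) (F.d 1)
                (F.d 2) F.exact_aug (F.exact_d 0) (F.exact_d 1) hinj u
              have h5 : F.aug u • p4 (fun _ => 1) = g3 (p3 (k4 a (fun _ => 1))) := by
                rw [← hp4, hg4]
              have h6 : y.1 (p4 (fun _ => 1)) * F.aug u =
                  y.1 (g3 (p3 (k4 a (fun _ => 1)))) := by
                rw [← h5, map_smul, smul_eq_mul, mul_comm]
              rw [h6]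
              have h7 := map_k4_mem (b := 1) a
                (LinearMap.pi fun _ => y.1 ∘ₗ g3 ∘ₗ p3) (fun _ => 1) 0
              exact h7
            · apply Ideal.mul_mem_right
              have h7 := mem_al_iff a (t4 a y.2 0)
              rw [h7]
              refine ⟨![y.2 3, -y.2 2, y.2 1, -y.2 0], ?_⟩
              rw [k1_apply, t4_apply]
              ext i
              fin_cases i
              simp
              ring
          · intro r hr
            rw [mem_colon_iff] at hr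
            -- use the lift `F → K`
            obtain ⟨s, hs⟩ := exists_coker_lift F.aug (F.d 0) (F.d 1) (F.d 2) F.exact_aug
              (F.exact_d 0) (F.exact_d 1) a ha p1 p2 p3 p4 hp1 hp2 hp3 hp4 r (fun y => by
                apply hr
                exact F.range_aug.le ⟨y, rfl⟩)
            obtain ⟨z, hz⟩ := hs
            exact ⟨(s, z), by rw [hδ1, hz]⟩
        rw [← hrange]
        have hJm : (al a).colon (I : Set R) ≤ maximalIdeal R := le_maximalIdeal htop
        refine main.padded δ4 δ3 δ2 δ1 ?_ i4 i3 i2 i1 ?_ ⟨list4 a, rfl, hreg4, ?_⟩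
        · have h5 : Module.finrank R (Module.Dual R (Fin (b (2 + 2)) → R)) = b 4 := by
            rw [Module.finrank_linearMap_self, Module.finrank_fin_fun]
          rw [Module.finrank_prod, h5, Module.finrank_fin_fun, hb4]
          omega
        · intro x
          apply hJm
          rw [← hrange]
          exact ⟨x, rfl⟩
        · intro r hr
          rw [hrange]
          apply Ideal.le_colon
          rw [← ofList_list4]
          exact Ideal.subset_span hr
    apply IsLicci.of_link _ hlic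
    refine ⟨list4 a, hreg4, ?_, ?_, ?_⟩
    · rw [ofList_list4]
      exact le_inf hne Ideal.le_colon
    · rw [ofList_list4, hw2]
    · rw [ofList_list4]

end LicciCodimFour

end

section

/-!
# LICCI, codimension 6 (XE): the part of degree `≤ 0` of `Φ` (helper88)
-/

set_option autoImplicit false
set_option linter.unusedSectionVars false

namespace Pool.Agent.Licci.XE

open scoped BigOperators

universe u

variable {R : Type u} [CommRing R]

/-- inclusion of `F^*` in degree `-3`, `u = ∑ u_i e^i`, with `[p, M3 u]` for `f (u) = 0` in Φ0 -/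
def M3 (u : Vec R) : E8 R := ∑ i, u i • wq i

/-! ### tables -/

theorem kc_wqZ : ∀ (q : Fin 8) (a : Fin 248), kc a (ix (232 + q)) = if a = ix q then -1 else 0 := by
  decide +kernel

theorem zdg_wqZ : ∀ q : Fin 8, zdg (ix (232 + q)) = -3 := by decide +kernel

theorem zdg_ix : ∀ q : Fin 8, zdg (ix q) = 3 := by decide +kernel

theorem zdg_neg3 : ∀ m : Fin 248, zdg m = -3 → ∃ q : Fin 8, m = ix (232 + q) := by decide +kernel

theorem wtg_wq : ∀ a b : Fin 8, a ≠ b → wtg b (ix (232 + a)) = -1 := by decide +kernel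

theorem ix_wq_inj : ∀ a b : Fin 8, ix (232 + a) = ix (232 + b) → a = b := by decide +kernel

/-! ### the vectors of degree `-3` -/

theorem kf_wq (p : E8 R) (q : Fin 8) : kf p (wq q) = p3 p q := by
  unfold kf wq p3
  rw [Finset.sum_eq_single (ix q)]
  · rw [Finset.sum_eq_single (ix (232 + q))]
    · rw [kc_wqZ, if_pos rfl, Pi.neg_apply, eb_apply, if_pos rfl]
      push_cast
      ring
    · intro b _ hb
      rw [Pi.neg_apply, eb_apply, if_neg hb]
      ring
    · intro h
      exact absurd (Finset.mem_univ _) h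
  · intro a _ ha
    refine Finset.sum_eq_zero fun b _ => ?_
    by_cases hb : b = ix (232 + q)
    · rw [hb, kc_wqZ, if_neg ha]
      push_cast
      ring
    · rw [Pi.neg_apply, eb_apply, if_neg hb]
      ring
  · intro h
    exact absurd (Finset.mem_univ _) h

theorem kf_M3 (p : E8 R) (u : Vec R) : kf p (M3 u) = ∑ i, p3 p i * u i := by
  unfold M3
  rw [kf_sum_right]
  refine Finset.sum_congr rfl fun i _ => ?_
  rw [kf_smul_right, kf_wq, mul_comm]

theorem M3_apply (u : Vec R) (m : Fin 248) :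
    M3 u m = -∑ q : Fin 8, if m = ix (232 + q) then u q else 0 := by
  unfold M3
  rw [Finset.sum_apply, ← Finset.sum_neg_distrib]
  refine Finset.sum_congr rfl fun q _ => ?_
  rw [Pi.smul_apply, wq, Pi.neg_apply, eb_apply, smul_eq_mul]
  split_ifs <;> ring

theorem M3_wq (u : Vec R) (q : Fin 8) : M3 u (ix (232 + q)) = -u q := by
  rw [M3_apply, Finset.sum_eq_single q]
  · rw [if_pos rfl]
  · intro b _ hb
    rw [if_neg fun h => hb (ix_wq_inj q b h).symm]
  · intro h
    exact absurd (Finset.mem_univ _) h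

theorem Le_M3 (u : Vec R) : Le zdg (-3) (M3 u) := by
  intro m hm
  rw [M3_apply, neg_eq_zero]
  refine Finset.sum_eq_zero fun q _ => ?_
  rw [if_neg]
  rintro rfl
  rw [zdg_wqZ] at hm
  exact lt_irrefl _ hm

theorem M3_add (u v : Vec R) : M3 (u + v) = M3 u + M3 v := by
  unfold M3
  rw [← Finset.sum_add_distrib]
  refine Finset.sum_congr rfl fun i _ => ?_
  rw [Pi.add_apply, add_smul]

theorem M3_smul (c : R) (u : Vec R) : M3 (c • u) = c • M3 u := by
  unfold M3
  rw [Finset.smul_sum]
  refine Finset.sum_congr rfl fun i _ => ?_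
  rw [Pi.smul_apply, smul_eq_mul, mul_smul]

theorem M3_neg (u : Vec R) : M3 (-u) = -M3 u := by
  have h := M3_smul (-1 : R) u
  simpa using h

/-- a vector supported in degrees `≤ -3` is in degree `-3` -/
theorem eq_M3 {y : E8 R} (hy : Le zdg (-3) y) : y = M3 fun q => -y (ix (232 + q)) := by
  funext m
  by_cases hm : zdg m = -3
  · obtain ⟨q, rfl⟩ := zdg_neg3 m hm
    rw [M3_wq, neg_neg]
  · have h1 := zdg_ge m
    rw [hy m (by omega), Le_M3 _ m (by omega)]

theorem M3_injective {u v : Vec R} (h : M3 u = M3 v) : u = v := by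
  funext q
  have h1 := congrFun h (ix (232 + q))
  rw [M3_wq, M3_wq] at h1
  exact neg_injective h1

theorem wq_eq_M3 (q : Fin 8) : (wq q : E8 R) = M3 (Pi.single q 1) := by
  unfold M3
  rw [Finset.sum_eq_single q]
  · rw [Pi.single_eq_same, one_smul]
  · intro b _ hb
    rw [Pi.single_eq_of_ne hb, zero_smul]
  · intro h
    exact absurd (Finset.mem_univ _) h

theorem Le_top (p : E8 R) : Le zdg 3 p := fun m hm => absurd (zdg_le m) (not_le.2 hm)

theorem Le_wq (q : Fin 8) : Le zdg (-3) (wq q : E8 R) := by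
  rw [wq_eq_M3]
  exact Le_M3 _

/-- two vectors of degree `-3` commute -/
theorem br_low {x y : E8 R} (hx : Le zdg (-3) x) (hy : Le zdg (-3) y) : br x y = 0 := by
  have h := Le.br (fun _ _ _ => sc_zdg) hx hy
  funext m
  exact h m (by have := zdg_ge m; omega)

/-- the polarized cone identity for two of the vectors `wq` -/
theorem wq_wq [Algebra ℚ R] (a b : Fin 8) (z : E8 R) :
    br (wq a) (br (wq b) z) = -(kf (wq b) z • wq a) - kf (wq a) z • wq b := by
  by_cases hab : a = b
  · subst hab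
    rw [cone_wq a z]
    module
  · have hcomm : br (wq a : E8 R) (wq b) = 0 := br_low (Le_wq a) (Le_wq b)
    set E : E8 R := br (wq a) (eb (ix b)) with hE
    have hEb : br E (wq b) = wq a := by
      rw [hE, br_br_skew, hcomm, br_zero_right, sub_zero]
      have h1 : br (eb (ix b)) (wq b) = (hq b : E8 R) := rfl
      rw [h1, br_skew]
      funext m
      rw [Pi.neg_apply, br_hq]
      by_cases hm : m = ix (232 + a)
      · rw [hm, wtg_wq a b hab]
        push_cast
        ring
      · rw [wq, Pi.neg_apply, eb_apply, if_neg hm]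
        ring
    -- derivative of the cone identity
    have h1 : br E (br (wq b) (br (wq b) z)) = (-(2 * kf (wq b) z)) • wq a := by
      rw [cone_wq b z, br_smul_right, hEb]
    rw [jacobi E (wq b) (br (wq b) z), hEb, jacobi E (wq b) z, hEb, br_add_right,
      cone_wq b (br E z)] at h1
    have h2 : kf (wq b) (br E z) = -kf (wq a) z := by
      rw [← hEb, ← kf_inv, br_skew (wq b) E, kf_neg_left]
    have h3 : br (wq b) (br (wq a) z) = br (wq a) (br (wq b) z) := by
      have := jacobi (wq a) (wq b) z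
      rw [hcomm, br_zero_left, zero_add] at this
      exact this.symm
    rw [h2, h3] at h1
    apply smul_two_cancel
    have h4 : (2 : R) • br (wq a) (br (wq b) z) = (-(2 * kf (wq b) z)) • wq a -
        (-(2 * -kf (wq a) z)) • wq b := by
      rw [← h1]
      module
    rw [h4]
    module

theorem M3_M3 [Algebra ℚ R] (u v : Vec R) (z : E8 R) :
    br (M3 u) (br (M3 v) z) = -(kf (M3 v) z • M3 u) - kf (M3 u) z • M3 v := by
  have h1 : ∀ (a : Fin 8) (v : Vec R), br (wq a) (br (M3 v) z) =
      -(kf (M3 v) z • wq a) - kf (wq a) z • M3 v := by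
    intro a v
    have e1 : br (M3 v) z = ∑ b, v b • br (wq b) z := by
      unfold M3
      rw [br_sum_left]
      exact Finset.sum_congr rfl fun b _ => br_smul_left _ _ _
    have e2 : kf (M3 v) z = ∑ b, v b * kf (wq b) z := by
      unfold M3
      rw [kf_sum_left]
      exact Finset.sum_congr rfl fun b _ => kf_smul_left _ _ _
    rw [e1, br_sum_right, e2, Finset.sum_smul, ← Finset.sum_neg_distrib]
    conv_rhs => rw [M3, Finset.smul_sum]
    rw [← Finset.sum_sub_distrib]
    refine Finset.sum_congr rfl fun b _ => ?_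
    rw [br_smul_right, wq_wq]
    module
  have e1 : br (M3 u) (br (M3 v) z) = ∑ a, u a • br (wq a) (br (M3 v) z) := by
    conv_lhs => rw [M3]
    rw [br_sum_left]
    exact Finset.sum_congr rfl fun b _ => br_smul_left _ _ _
  have e2 : kf (M3 u) z = ∑ a, u a * kf (wq a) z := by
    conv_lhs => rw [M3]
    rw [kf_sum_left]
    exact Finset.sum_congr rfl fun b _ => kf_smul_left _ _ _
  have e3 : kf (M3 v) z • M3 u = ∑ a, kf (M3 v) z • u a • wq a := by
    change kf (M3 v) z • (∑ a, u a • wq a) = _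
    rw [Finset.smul_sum]
  rw [e1, e2, e3, Finset.sum_smul, ← Finset.sum_neg_distrib, ← Finset.sum_sub_distrib]
  refine Finset.sum_congr rfl fun a _ => ?_
  rw [h1]
  module

/-- `[[p, u], v] = - f (v) u - f (u) v` -/
theorem br_br_M3 [Algebra ℚ R] (p : E8 R) (u v : Vec R) :
    br (br p (M3 u)) (M3 v) = -(kf p (M3 v) • M3 u) - kf p (M3 u) • M3 v := by
  rw [br_br_skew, br_low (Le_M3 u) (Le_M3 v), br_zero_right, zero_sub, br_skew p (M3 v),
    br_neg_right, neg_neg, M3_M3, kf_symm, kf_symm (M3 u) p]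

/-! ### brackets with `p` -/

theorem br_M3_mem_Phi [Algebra ℚ R] {p : E8 R} (hc : Cone p) {w : E8 R} (hw : kf p w = 0) :
    br p w ∈ Phi p := by
  refine ⟨?_, fun w' => ?_⟩
  · rw [hc w, hw]
    simp
  · rw [br_br_skew, br_sub_right, hc, hc.PEP, hw, ← kf_inv, br_skew w p]
    module

theorem Le_br_M3 (p : E8 R) (u : Vec R) : Le zdg 0 (br p (M3 u)) := by
  have h := Le.br (fun _ _ _ => sc_zdg) (Le_top p) (Le_M3 u)
  intro m hm
  exact h m (by omega)

/-- the linear form of `p` on `R^8` -/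
noncomputable abbrev fF (p : E8 R) : (Fin 8 → R) →ₗ[R] R := (Pi.basisFun R (Fin 8)).constr ℕ (p3 p)

theorem fF_apply (p : E8 R) (u : Vec R) : fF p u = kf p (M3 u) := by
  rw [kf_M3, Module.Basis.constr_apply_fintype]
  refine Finset.sum_congr rfl fun i _ => ?_
  rw [smul_eq_mul, mul_comm]
  rfl

/-- `u ↦ [p, u]` -/
noncomputable def zMap [Algebra ℚ R] {p : E8 R} (hc : Cone p) : LinearMap.ker (fF p) →ₗ[R] Phi0 p where
  toFun u := ⟨⟨⟨br p (M3 u.1), br_M3_mem_Phi hc (by rw [← fF_apply]; exact u.2)⟩,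
    fun i => Le_br_M3 p u.1 _ (by rw [zdg_ix]; norm_num)⟩, fun m hm => Le_br_M3 p u.1 m hm⟩
  map_add' u v := by
    apply Subtype.ext
    apply Subtype.ext
    apply Subtype.ext
    change br p (M3 (u.1 + v.1)) = br p (M3 u.1) + br p (M3 v.1)
    rw [M3_add, br_add_right]
  map_smul' c u := by
    apply Subtype.ext
    apply Subtype.ext
    apply Subtype.ext
    change br p (M3 (c • u.1)) = c • br p (M3 u.1)
    rw [M3_smul, br_smul_right]

theorem zMap_coe [Algebra ℚ R] {p : E8 R} (hc : Cone p) (u : LinearMap.ker (fF p)) :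
    (((zMap hc u : Phi2 p) : Phi p) : E8 R) = br p (M3 u.1) := rfl

/-- the component of degree `-3` of `[y, wq i]` -/
def low (i : Fin 8) (y : E8 R) : Vec R := fun q => -br y (wq i) (ix (232 + q))

theorem low_spec {y : E8 R} (hy : ∀ m : Fin 248, 0 < zdg m → y m = 0) (i : Fin 8) :
    br y (wq i) = M3 (low i y) := by
  have h := Le.br (fun _ _ _ => sc_zdg) (a := 0) (b := -3) (x := y) (y := wq i) (fun m hm => hy m hm)
    (Le_wq i)
  exact eq_M3 fun m hm => h m (by omega)

theorem smul_eq_of_mem {p y : E8 R} (hy : y ∈ Phi p) (h3 : ∀ i, p3 y i = 0)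
    (h0 : ∀ m : Fin 248, 0 < zdg m → y m = 0) (i : Fin 8) :
    p3 p i • y = -br p (M3 (low i y)) := by
  have h := hy.2 (wq i)
  rw [kf_wq, kf_wq, h3 i, zero_smul, sub_zero, low_spec h0] at h
  rw [h, neg_neg]

theorem fF_low {p y : E8 R} (hy : y ∈ Phi p) (h0 : ∀ m : Fin 248, 0 < zdg m → y m = 0)
    (i : Fin 8) : kf p (M3 (low i y)) = 0 := by
  rw [← low_spec h0, ← kf_inv, hy.1, kf_zero_left]

/-- `f` has grade at least `2` -/
def Gr2 (f : Vec R) : Prop := ∀ a b : R, b ≠ 0 → (∀ i, b ∣ f i * a) → b ∣ a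

/-- `u ↦ [p, u]`, onto because `(p, w) y = - [p, [y, w]]` for `w` of degree `-3` (`[y, w]` is then of
degree `-3` too) and `f` has grade `2` -/
theorem exists_phi0Equiv [IsDomain R] [Algebra ℚ R] {p : E8 R} (hc : Cone p) (h0 : ∃ i, p3 p i ≠ 0)
    (hg : Gr2 (p3 p)) :
    ∃ e : LinearMap.ker ((Pi.basisFun R (Fin 8)).constr ℕ (p3 p) : (Fin 8 → R) →ₗ[R] R) ≃ₗ[R]
      Phi0 p, ∀ u, (((e u : Phi2 p) : Phi p) : E8 R) = br p (M3 u.1) := by
  obtain ⟨i₀, hi₀⟩ := h0
  have hbij : Function.Bijective (zMap hc) := by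
    constructor
    · rw [injective_iff_map_eq_zero]
      intro u hu
      have h1 : br p (M3 u.1) = 0 := by
        rw [← zMap_coe hc u, hu]
        rfl
      have h2 : kf p (M3 u.1) = 0 := by
        rw [← fF_apply]
        exact u.2
      have h3 := br_br_M3 p u.1 (Pi.single i₀ 1)
      rw [h1, br_zero_left, h2, zero_smul, sub_zero, ← wq_eq_M3, kf_wq, ← M3_smul, ← M3_neg] at h3
      have h4 : (0 : E8 R) = M3 0 := by
        have := M3_smul (0 : R) (0 : Vec R)
        simpa using this.symm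
      have h5 := M3_injective (h4.symm.trans h3)
      apply Subtype.ext
      funext q
      have h6 := congrFun h5 q
      rw [Pi.neg_apply, Pi.smul_apply, smul_eq_mul, Pi.zero_apply] at h6
      have h7 : p3 p i₀ * u.1 q = 0 := neg_eq_zero.1 h6.symm
      exact (mul_eq_zero.1 h7).resolve_left hi₀
    · intro y
      have hyP : (((y : Phi2 p) : Phi p) : E8 R) ∈ Phi p := ((y : Phi2 p) : Phi p).2
      have hy3 : ∀ i, p3 (((y : Phi2 p) : Phi p) : E8 R) i = 0 := (y : Phi2 p).2
      have hy0 : ∀ m : Fin 248, 0 < zdg m → (((y : Phi2 p) : Phi p) : E8 R) m = 0 := y.2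
      set Y : E8 R := (((y : Phi2 p) : Phi p) : E8 R) with hY
      have hs := smul_eq_of_mem hyP hy3 hy0
      have hf := fF_low hyP hy0
      -- proportionality
      have hprop : ∀ i j, p3 p i • low j Y = p3 p j • low i Y := by
        intro i j
        apply M3_injective
        rw [M3_smul, M3_smul, ← low_spec hy0 j, ← br_smul_left, hs i, br_neg_left]
        have h1 := br_br_M3 p (low i Y) (Pi.single j 1)
        rw [← wq_eq_M3, kf_wq, hf i, zero_smul, sub_zero] at h1
        rw [h1, neg_neg]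
      have hdvd : ∀ k, p3 p i₀ ∣ low i₀ Y k := by
        intro k
        refine hg _ _ hi₀ fun i => ?_
        have := congrFun (hprop i i₀) k
        rw [Pi.smul_apply, Pi.smul_apply, smul_eq_mul, smul_eq_mul] at this
        exact ⟨low i Y k, this⟩
      choose c hc' using hdvd
      have hlow : low i₀ Y = p3 p i₀ • c := by
        funext k
        rw [hc' k, Pi.smul_apply, smul_eq_mul]
      have hcf : kf p (M3 c) = 0 := by
        have := hf i₀
        rw [hlow, M3_smul, kf_smul_right] at this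
        exact (mul_eq_zero.1 this).resolve_left hi₀
      refine ⟨⟨-c, ?_⟩, ?_⟩
      · rw [LinearMap.mem_ker, fF_apply, M3_neg, kf_neg_right, hcf, neg_zero]
      · apply Subtype.ext
        apply Subtype.ext
        apply Subtype.ext
        change br p (M3 (-c)) = Y
        have h1 := hs i₀
        rw [hlow, M3_smul, br_smul_right, ← smul_neg] at h1
        rw [M3_neg, br_neg_right]
        funext m
        have h2 := congrFun h1 m
        rw [Pi.smul_apply, Pi.smul_apply, smul_eq_mul, smul_eq_mul] at h2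
        exact (mul_left_cancel₀ hi₀ h2).symm
  exact ⟨LinearEquiv.ofBijective (zMap hc) hbij, fun u => rfl⟩

/-- extension of linear forms from `Φ0` to `Φ2`, up to `f_i ^ 2`:
`T y = ∓ [p, f_i u - f (u) e^i]`, `u` = component of degree `-3` of `[y, wq i]` -/
theorem exists_ext0 [IsDomain R] [Algebra ℚ R] {p : E8 R} (hc : Cone p) (i : Fin 8) :
    ∃ T : Phi2 p →ₗ[R] Phi0 p, ∀ y : Phi0 p, T (y : Phi2 p) = p3 p i ^ 2 • y := by
  let L : Phi2 p →ₗ[R] LinearMap.ker (fF p) :=
    { toFun := fun y => ⟨kf p (M3 (low i (y : E8 R))) • Pi.single i 1 - p3 p i • low i (y : E8 R), by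
        rw [LinearMap.mem_ker, map_sub, map_smul, map_smul, fF_apply, fF_apply, ← wq_eq_M3, kf_wq,
          smul_eq_mul, smul_eq_mul]
        ring⟩
      map_add' := fun y z => by
        apply Subtype.ext
        have h1 : low i (((y + z : Phi2 p) : Phi p) : E8 R) = low i ((y : Phi p) : E8 R) +
            low i ((z : Phi p) : E8 R) := by
          funext q
          change -br (((y : Phi p) : E8 R) + ((z : Phi p) : E8 R)) (wq i) _ = _
          rw [br_add_left, Pi.add_apply, neg_add]
          rfl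
        change kf p (M3 (low i (((y + z : Phi2 p) : Phi p) : E8 R))) • Pi.single i 1 -
          p3 p i • low i (((y + z : Phi2 p) : Phi p) : E8 R) =
          (kf p (M3 (low i ((y : Phi p) : E8 R))) • Pi.single i 1 -
            p3 p i • low i ((y : Phi p) : E8 R)) +
          (kf p (M3 (low i ((z : Phi p) : E8 R))) • Pi.single i 1 -
            p3 p i • low i ((z : Phi p) : E8 R))
        rw [h1, M3_add, kf_add_right]
        module
      map_smul' := fun c y => by
        apply Subtype.ext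
        have h1 : low i (((c • y : Phi2 p) : Phi p) : E8 R) = c • low i ((y : Phi p) : E8 R) := by
          funext q
          change -br (c • ((y : Phi p) : E8 R)) (wq i) _ = _
          rw [br_smul_left, Pi.smul_apply, ← smul_neg]
          rfl
        change kf p (M3 (low i (((c • y : Phi2 p) : Phi p) : E8 R))) • Pi.single i 1 -
          p3 p i • low i (((c • y : Phi2 p) : Phi p) : E8 R) =
          c • (kf p (M3 (low i ((y : Phi p) : E8 R))) • Pi.single i 1 -
            p3 p i • low i ((y : Phi p) : E8 R))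
        rw [h1, M3_smul, kf_smul_right]
        module }
  refine ⟨zMap hc ∘ₗ L, fun y => ?_⟩
  have hyP : (((y : Phi2 p) : Phi p) : E8 R) ∈ Phi p := ((y : Phi2 p) : Phi p).2
  have hy3 : ∀ i, p3 (((y : Phi2 p) : Phi p) : E8 R) i = 0 := (y : Phi2 p).2
  have hy0 : ∀ m : Fin 248, 0 < zdg m → (((y : Phi2 p) : Phi p) : E8 R) m = 0 := y.2
  apply Subtype.ext
  apply Subtype.ext
  apply Subtype.ext
  change br p (M3 (kf p (M3 (low i (((y : Phi2 p) : Phi p) : E8 R))) • Pi.single i 1 -
    p3 p i • low i (((y : Phi2 p) : Phi p) : E8 R))) =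
    p3 p i ^ 2 • (((y : Phi2 p) : Phi p) : E8 R)
  rw [fF_low hyP hy0, zero_smul, zero_sub, M3_neg, br_neg_right, M3_smul, br_smul_right,
    ← smul_neg, ← smul_eq_of_mem hyP hy3 hy0, smul_smul, sq]

end Pool.Agent.Licci.XE

end
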